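import Mathlib

set_option autoImplicit false

namespace Pool.Agent.Helper111.CT

open Equiv

/-- class transposition of the integers whose two moduli satisfy `Mo` -/
def IsCT (Mo : ℤ → Prop) (σ : Perm ℤ) : Prop :=
  ∃ r₁ m₁ r₂ m₂ : ℤ, 0 ≤ r₁ ∧ r₁ < m₁ ∧ 0 ≤ r₂ ∧ r₂ < m₂ ∧ Mo m₁ ∧ Mo m₂ ∧
    (∀ n : ℤ, ¬ (m₁ ∣ n - r₁ ∧ m₂ ∣ n - r₂)) ∧
    (∀ k : ℤ, σ (r₁ + m₁ * k) = r₂ + m₂ * k ∧ σ (r₂ + m₂ * k) = r₁ + m₁ * k) ∧
    ∀ n : ℤ, ¬ m₁ ∣ n - r₁ → ¬ m₂ ∣ n - r₂ → σ n = n

/-- the group generated by the class transpositions with moduli in `Mo` -/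
def CTg (Mo : ℤ → Prop) : Subgroup (Perm ℤ) := Subgroup.closure {σ | IsCT Mo σ}

/-- `g` is piecewise canonical -/
def Full (Mo : ℤ → Prop) (g : Perm ℤ) : Prop :=
  ∃ M : ℤ, 0 < M ∧ Mo M ∧ ∀ i : ℤ, 0 ≤ i → i < M →
    ∃ c m : ℤ, 0 ≤ c ∧ c < m ∧ Mo m ∧ ∀ k : ℤ, g (i + M * k) = c + m * k

/-- admissible sets of moduli -/
structure Adm (Mo : ℤ → Prop) : Prop where
  one : Mo 1
  two : Mo 2
  mul : ∀ a b : ℤ, Mo a → Mo b → Mo (a * b)

theorem exists_ct (r₁ m₁ r₂ m₂ : ℤ) (h1 : 0 < m₁) (h2 : 0 < m₂)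
    (hd : ∀ n : ℤ, ¬ (m₁ ∣ n - r₁ ∧ m₂ ∣ n - r₂)) :
    ∃ σ : Perm ℤ, (∀ k : ℤ, σ (r₁ + m₁ * k) = r₂ + m₂ * k ∧ σ (r₂ + m₂ * k) = r₁ + m₁ * k) ∧
    ∀ n : ℤ, ¬ m₁ ∣ n - r₁ → ¬ m₂ ∣ n - r₂ → σ n = n := by
  classical
  let f : ℤ → ℤ := fun n => if m₁ ∣ n - r₁ then r₂ + m₂ * ((n - r₁) / m₁)
    else if m₂ ∣ n - r₂ then r₁ + m₁ * ((n - r₂) / m₂) else n
  have f1 : ∀ k, f (r₁ + m₁ * k) = r₂ + m₂ * k := by
    intro k
    have : m₁ ∣ (r₁ + m₁ * k) - r₁ := ⟨k, by ring⟩
    simp only [f, if_pos this]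
    have e : (r₁ + m₁ * k - r₁) / m₁ = k := by
      rw [show r₁ + m₁ * k - r₁ = m₁ * k by ring]
      exact Int.mul_ediv_cancel_left k h1.ne'
    rw [e]
  have f2 : ∀ k, f (r₂ + m₂ * k) = r₁ + m₁ * k := by
    intro k
    have h : m₂ ∣ (r₂ + m₂ * k) - r₂ := ⟨k, by ring⟩
    have h' : ¬ m₁ ∣ (r₂ + m₂ * k) - r₁ := fun h' => hd _ ⟨h', h⟩
    simp only [f, if_pos h, if_neg h']
    have e : (r₂ + m₂ * k - r₂) / m₂ = k := by
      rw [show r₂ + m₂ * k - r₂ = m₂ * k by ring]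
      exact Int.mul_ediv_cancel_left k h2.ne'
    rw [e]
  have f3 : ∀ n, ¬ m₁ ∣ n - r₁ → ¬ m₂ ∣ n - r₂ → f n = n := by
    intro n a b
    simp only [f, if_neg a, if_neg b]
  have hf : Function.Involutive f := by
    intro n
    by_cases a : m₁ ∣ n - r₁
    · obtain ⟨k, hk⟩ := a
      have : n = r₁ + m₁ * k := by linarith
      rw [this, f1, f2]
    · by_cases b : m₂ ∣ n - r₂
      · obtain ⟨k, hk⟩ := b
        have : n = r₂ + m₂ * k := by linarith
        rw [this, f2, f1]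
      · rw [f3 n a b, f3 n a b]
  exact ⟨hf.toPerm, fun k => ⟨f1 k, f2 k⟩, f3⟩

theorem mem_of_isCT {Mo : ℤ → Prop} {σ : Perm ℤ} (h : IsCT Mo σ) : σ ∈ CTg Mo :=
  Subgroup.subset_closure h

/-- a class transposition is an involution -/
theorem ct_invol {σ : Perm ℤ} {r₁ m₁ r₂ m₂ : ℤ}
    (hs : ∀ k : ℤ, σ (r₁ + m₁ * k) = r₂ + m₂ * k ∧ σ (r₂ + m₂ * k) = r₁ + m₁ * k)
    (hf : ∀ n : ℤ, ¬ m₁ ∣ n - r₁ → ¬ m₂ ∣ n - r₂ → σ n = n) (x : ℤ) : σ (σ x) = x := by
  by_cases a : m₁ ∣ x - r₁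
  · obtain ⟨k, hk⟩ := a
    have : x = r₁ + m₁ * k := by linarith
    rw [this, (hs k).1, (hs k).2]
  · by_cases b : m₂ ∣ x - r₂
    · obtain ⟨k, hk⟩ := b
      have : x = r₂ + m₂ * k := by linarith
      rw [this, (hs k).2, (hs k).1]
    · rw [hf x a b, hf x a b]

/-- conjugating a generator by a full element stays in the group -/
theorem conj_gen {Mo : ℤ → Prop} (hMo : Adm Mo) {g τ : Perm ℤ} (hg : Full Mo g) (hτ : IsCT Mo τ) :
    g * τ * g⁻¹ ∈ CTg Mo := by
  obtain ⟨M, hM, hMM, hg⟩ := hg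
  obtain ⟨r₁, m₁, r₂, m₂, h1, h2, h3, h4, hm1, hm2, hd, hs, hf⟩ := hτ
  have hm1p : 0 < m₁ := by linarith
  have hm2p : 0 < m₂ := by linarith
  -- canonical on pieces
  have piece : ∀ r m : ℤ, 0 ≤ r → r < m → Mo m → ∀ n : ℤ, 0 ≤ n → n < M →
      ∃ c m' : ℤ, 0 ≤ c ∧ c < m' ∧ Mo m' ∧ ∀ k : ℤ, g (r + m * (n + M * k)) = c + m' * k := by
    intro r m hr hrm hm n hn hnM
    have hmpos : 0 < m := by linarith
    obtain ⟨c, m', hc0, hc1, hm', hk⟩ := hg ((r + m * n) % M) (Int.emod_nonneg _ hM.ne')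
      (Int.emod_lt_of_pos _ hM)
    set s := (r + m * n) / M with hs'
    have hdiv : (r + m * n) % M + M * s = r + m * n := Int.emod_add_mul_ediv _ _
    have hs0 : 0 ≤ s := Int.ediv_nonneg (by positivity) hM.le
    have hs1 : s < m := by
      have : r + m * n < m * M := by nlinarith
      rw [hs']
      exact Int.ediv_lt_of_lt_mul hM this
    refine ⟨c + m' * s, m' * m, by nlinarith, by nlinarith, hMo.mul _ _ hm' hm, ?_⟩
    intro k
    have : r + m * (n + M * k) = (r + m * n) % M + M * (s + m * k) := by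
      linear_combination -hdiv
    rw [this, hk]; ring
  have key : ∀ n : ℕ, (n : ℤ) ≤ M → ∃ h ∈ CTg Mo, ∀ x : ℤ,
      ((∃ l k : ℤ, 0 ≤ l ∧ l < n ∧ (x = r₁ + m₁ * (l + M * k) ∨ x = r₂ + m₂ * (l + M * k))) →
        h (g x) = g (τ x)) ∧
      ((¬ ∃ l k : ℤ, 0 ≤ l ∧ l < n ∧ (x = r₁ + m₁ * (l + M * k) ∨ x = r₂ + m₂ * (l + M * k))) →
        h (g x) = g x) := by
    intro n
    induction n with
    | zero =>
      intro _
      refine ⟨1, Subgroup.one_mem _, fun x => ⟨?_, fun _ => rfl⟩⟩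
      rintro ⟨l, k, hl0, hl1, _⟩
      exfalso; push_cast at hl1; linarith
    | succ n ih =>
      intro hn
      obtain ⟨h, hh, hx⟩ := ih (by push_cast at hn; linarith)
      have hnM : (n : ℤ) < M := by push_cast at hn; linarith
      obtain ⟨c₁, k₁, a1, a2, a3, a4⟩ := piece r₁ m₁ h1 h2 hm1 n (by positivity) hnM
      obtain ⟨c₂, k₂, b1, b2, b3, b4⟩ := piece r₂ m₂ h3 h4 hm2 n (by positivity) hnM
      have hk1 : 0 < k₁ := by linarith
      have hk2 : 0 < k₂ := by linarith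
      have hdis : ∀ y : ℤ, ¬ (k₁ ∣ y - c₁ ∧ k₂ ∣ y - c₂) := by
        rintro y ⟨⟨u, hu⟩, ⟨v, hv⟩⟩
        have e1 : y = g (r₁ + m₁ * (n + M * u)) := by rw [a4]; linarith
        have e2 : y = g (r₂ + m₂ * (n + M * v)) := by rw [b4]; linarith
        have e3 := g.injective (e1.symm.trans e2)
        exact hd (r₁ + m₁ * (n + M * u)) ⟨⟨n + M * u, by ring⟩, ⟨n + M * v, by rw [e3]; ring⟩⟩
      obtain ⟨ρ, hρ, hρf⟩ := exists_ct c₁ k₁ c₂ k₂ hk1 hk2 hdis
      have hρm : ρ ∈ CTg Mo := mem_of_isCT ⟨c₁, k₁, c₂, k₂, a1, a2, b1, b2, a3, b3, hdis, hρ, hρf⟩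
      refine ⟨ρ * h, Subgroup.mul_mem _ hρm hh, ?_⟩
      -- membership in the n-th piece
      have uniq : ∀ x l k l' k' : ℤ, 0 ≤ l → l < M → 0 ≤ l' → l' < M →
          (x = r₁ + m₁ * (l + M * k) ∨ x = r₂ + m₂ * (l + M * k)) →
          (x = r₁ + m₁ * (l' + M * k') ∨ x = r₂ + m₂ * (l' + M * k')) → l = l' := by
        intro x l k l' k' hl0 hl1 hl0' hl1' hx1 hx2
        have aux : l + M * k = l' + M * k' → l = l' := by
          intro e
          have : (l + M * k) % M = (l' + M * k') % M := by rw [e]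
          rw [Int.add_mul_emod_self_left, Int.add_mul_emod_self_left,
            Int.emod_eq_of_lt hl0 hl1, Int.emod_eq_of_lt hl0' hl1'] at this
          exact this
        rcases hx1 with hx1 | hx1 <;> rcases hx2 with hx2 | hx2
        · apply aux
          have : m₁ * (l + M * k) = m₁ * (l' + M * k') := by linarith
          exact mul_left_cancel₀ hm1p.ne' this
        · exfalso
          exact hd x ⟨⟨l + M * k, by rw [hx1]; ring⟩, ⟨l' + M * k', by rw [hx2]; ring⟩⟩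
        · exfalso
          exact hd x ⟨⟨l' + M * k', by rw [hx2]; ring⟩, ⟨l + M * k, by rw [hx1]; ring⟩⟩
        · apply aux
          have : m₂ * (l + M * k) = m₂ * (l' + M * k') := by linarith
          exact mul_left_cancel₀ hm2p.ne' this
      -- points outside the n-th piece are fixed by ρ after g
      have out : ∀ x : ℤ, (¬ ∃ k : ℤ, (x = r₁ + m₁ * (n + M * k) ∨ x = r₂ + m₂ * (n + M * k))) →
          ρ (g x) = g x := by
        intro x hxn
        apply hρf
        · rintro ⟨u, hu⟩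
          apply hxn
          refine ⟨u, Or.inl ?_⟩
          apply g.injective
          rw [a4]; linarith
        · rintro ⟨u, hu⟩
          apply hxn
          refine ⟨u, Or.inr ?_⟩
          apply g.injective
          rw [b4]; linarith
      intro x
      constructor
      · rintro ⟨l, k, hl0, hl1, hxl⟩
        by_cases hln : l = n
        · subst hln
          have hnot : ¬ ∃ l' k' : ℤ, 0 ≤ l' ∧ l' < n ∧
              (x = r₁ + m₁ * (l' + M * k') ∨ x = r₂ + m₂ * (l' + M * k')) := by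
            rintro ⟨l', k', hl0', hl1', hx'⟩
            have := uniq x n k l' k' (by positivity) hnM hl0' (by linarith) hxl hx'
            linarith
          rw [Perm.mul_apply, (hx x).2 hnot]
          rcases hxl with hxl | hxl
          · rw [hxl, a4, (hρ k).1, (hs _).1, b4]
          · rw [hxl, b4, (hρ k).2, (hs _).2, a4]
        · have hl1' : l < n := by push_cast at hl1; omega
          rw [Perm.mul_apply, (hx x).1 ⟨l, k, hl0, hl1', hxl⟩]
          apply out
          rintro ⟨k', hk'⟩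
          have hτx : τ x = r₁ + m₁ * (l + M * k) ∨ τ x = r₂ + m₂ * (l + M * k) := by
            rcases hxl with hxl | hxl
            · right; rw [hxl, (hs _).1]
            · left; rw [hxl, (hs _).2]
          have := uniq (τ x) l k n k' hl0 (by linarith) (by positivity) hnM hτx hk'
          exact hln this
      · intro hno
        have hno' : ¬ ∃ l k : ℤ, 0 ≤ l ∧ l < n ∧
            (x = r₁ + m₁ * (l + M * k) ∨ x = r₂ + m₂ * (l + M * k)) := by
          rintro ⟨l, k, hl0, hl1, hxl⟩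
          exact hno ⟨l, k, hl0, by push_cast; linarith, hxl⟩
        rw [Perm.mul_apply, (hx x).2 hno']
        apply out
        rintro ⟨k, hk⟩
        exact hno ⟨n, k, by positivity, by push_cast; linarith, hk⟩
  obtain ⟨h, hh, hx⟩ := key M.toNat (by rw [Int.toNat_of_nonneg hM.le])
  have hfin : h = g * τ * g⁻¹ := by
    ext y
    rw [Perm.mul_apply, Perm.mul_apply]
    set x := g⁻¹ y with hxd
    have hy : y = g x := by simp [hxd]
    rw [hy]
    by_cases hc : ∃ l k : ℤ, 0 ≤ l ∧ l < (M.toNat : ℤ) ∧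
        (x = r₁ + m₁ * (l + M * k) ∨ x = r₂ + m₂ * (l + M * k))
    · rw [(hx x).1 hc]
    · rw [(hx x).2 hc]
      congr 1
      symm
      apply hf
      · rintro ⟨t, ht⟩
        apply hc
        refine ⟨t % M, t / M, Int.emod_nonneg _ hM.ne', ?_, Or.inl ?_⟩
        · rw [Int.toNat_of_nonneg hM.le]; exact Int.emod_lt_of_pos _ hM
        · rw [Int.emod_add_mul_ediv]; linarith
      · rintro ⟨t, ht⟩
        apply hc
        refine ⟨t % M, t / M, Int.emod_nonneg _ hM.ne', ?_, Or.inr ?_⟩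
        · rw [Int.toNat_of_nonneg hM.le]; exact Int.emod_lt_of_pos _ hM
        · rw [Int.emod_add_mul_ediv]; linarith
  rw [← hfin]; exact hh

theorem conj_mem {Mo : ℤ → Prop} (hMo : Adm Mo) {g w : Perm ℤ} (hg : Full Mo g) (hw : w ∈ CTg Mo) :
    g * w * g⁻¹ ∈ CTg Mo := by
  have : CTg Mo ≤ (CTg Mo).comap (MulAut.conj g).toMonoidHom := by
    unfold CTg
    rw [Subgroup.closure_le]
    intro τ hτ
    exact conj_gen hMo hg hτ
  exact this hw

theorem perm_mem {Mo : ℤ → Prop} (n : ℕ) (hn0 : 0 < n) (hn : Mo (n : ℤ)) (π : Perm (Fin n)) :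
    ∀ l : Perm ℤ, (∀ i : Fin n, ∀ k : ℤ, l ((i : ℤ) + n * k) = ((π i : Fin n) : ℤ) + n * k) →
      l ∈ CTg Mo := by
  have hnz : (0 : ℤ) < n := by exact_mod_cast hn0
  induction π using Perm.swap_induction_on with
  | one =>
    intro l hl
    have : l = 1 := by
      ext y
      have h1 := Int.emod_nonneg y hnz.ne'
      have h2 := Int.emod_lt_of_pos y hnz
      have := hl ⟨(y % n).toNat, by omega⟩ (y / n)
      simp only [Perm.coe_one, id_eq] at this ⊢
      rw [Int.toNat_of_nonneg h1, Int.emod_add_mul_ediv] at this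
      exact this
    rw [this]; exact Subgroup.one_mem _
  | swap_mul f x y hxy ih =>
    intro l hl
    have hdis : ∀ z : ℤ, ¬ ((n : ℤ) ∣ z - (x : ℤ) ∧ (n : ℤ) ∣ z - (y : ℤ)) := by
      rintro z ⟨⟨u, hu⟩, ⟨v, hv⟩⟩
      apply hxy
      have hx := x.isLt
      have hy := y.isLt
      have e : ((x : ℕ) : ℤ) - (y : ℕ) = n * (v - u) := by linear_combination hv - hu
      have : v - u = 0 := by
        by_contra hne
        rcases lt_or_gt_of_ne hne with h | h
        · have : (n : ℤ) * (v - u) ≤ - n := by nlinarith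
          omega
        · have : (n : ℤ) * (v - u) ≥ n := by nlinarith
          omega
      rw [this] at e
      ext; omega
    obtain ⟨ρ, hρ, hρf⟩ := exists_ct (x : ℤ) n (y : ℤ) n hnz hnz hdis
    have hρm : ρ ∈ CTg Mo := mem_of_isCT ⟨x, n, y, n, by positivity, by exact_mod_cast x.isLt,
      by positivity, by exact_mod_cast y.isLt, hn, hn, hdis, hρ, hρf⟩
    have hρl : ρ * l ∈ CTg Mo := by
      apply ih
      intro i k
      rw [Perm.mul_apply, hl, Perm.mul_apply]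
      by_cases h1 : f i = x
      · rw [h1, swap_apply_left, (hρ k).2]
      · by_cases h2 : f i = y
        · rw [h2, swap_apply_right, (hρ k).1]
        · rw [swap_apply_of_ne_of_ne h1 h2]
          have aux : ∀ w : Fin n, f i ≠ w → ¬ (n : ℤ) ∣ ((f i : Fin n) : ℤ) + n * k - (w : ℤ) := by
            rintro w hw ⟨u, hu⟩
            apply hw
            have hx := (f i).isLt
            have hy := w.isLt
            have e : (((f i : Fin n) : ℕ) : ℤ) - (w : ℕ) = n * (u - k) := by linear_combination hu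
            have : u - k = 0 := by
              by_contra hne
              rcases lt_or_gt_of_ne hne with h | h
              · have : (n : ℤ) * (u - k) ≤ - n := by nlinarith
                omega
              · have : (n : ℤ) * (u - k) ≥ n := by nlinarith
                omega
            rw [this] at e
            ext; omega
          exact hρf _ (aux x h1) (aux y h2)
    have := Subgroup.mul_mem _ (Subgroup.inv_mem _ hρm) hρl
    rwa [inv_mul_cancel_left] at this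

theorem periodic_mul {l : Perm ℤ} {N : ℤ} (hper : ∀ y, l (y + N) = l y + N) (y k : ℤ) :
    l (y + N * k) = l y + N * k := by
  induction k using Int.induction_on with
  | zero => simp
  | succ k ih => rw [show y + N * ((k : ℤ) + 1) = (y + N * k) + N by ring, hper, ih]; ring
  | pred k ih =>
    have := hper (y + N * (-(k : ℤ) - 1))
    rw [show y + N * (-(k : ℤ) - 1) + N = y + N * (-k) by ring, ih] at this
    linarith

/-- slope one permutations preserving the sign belong to the group -/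
theorem slope_one_mem {Mo : ℤ → Prop} {l : Perm ℤ} {N : ℤ} (hN : 0 < N) (hMN : Mo N)
    (hper : ∀ y, l (y + N) = l y + N) (hpos : ∀ y, 0 ≤ l y ↔ 0 ≤ y) : l ∈ CTg Mo := by
  obtain ⟨n, rfl⟩ := Int.eq_ofNat_of_zero_le hN.le
  have hn0 : 0 < n := by exact_mod_cast hN
  have hb : ∀ i : Fin n, 0 ≤ l (i : ℤ) ∧ l (i : ℤ) < n := by
    intro i
    refine ⟨(hpos _).2 (by positivity), ?_⟩
    have h1 := hper ((i : ℤ) - n)
    rw [sub_add_cancel] at h1
    have h2 : ¬ 0 ≤ l ((i : ℤ) - n) := by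
      rw [hpos]; have := i.isLt; omega
    omega
  let f : Fin n → Fin n := fun i => ⟨(l (i : ℤ)).toNat, by have := hb i; omega⟩
  have hf : Function.Injective f := by
    intro i j hij
    have h1 : (l (i : ℤ)).toNat = (l (j : ℤ)).toNat := by
      have := congrArg Fin.val hij
      simpa [f] using this
    have h2 : l (i : ℤ) = l (j : ℤ) := by
      have := hb i; have := hb j; omega
    have h3 := l.injective h2
    ext; exact_mod_cast h3
  let π : Perm (Fin n) := Equiv.ofBijective f (Finite.injective_iff_bijective.1 hf)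
  apply perm_mem n hn0 hMN π
  intro i k
  rw [periodic_mul hper]
  congr 1
  have : (π i : Fin n) = f i := rfl
  rw [this]
  simp only [f]
  rw [Int.toNat_of_nonneg (hb i).1]

/-- doubling: `2x+j ↦ 2σ(x)+j` -/
def dbl (σ : Perm ℤ) : Perm ℤ where
  toFun y := 2 * σ (y / 2) + y % 2
  invFun y := 2 * σ.symm (y / 2) + y % 2
  left_inv y := by
    have h1 : (2 * σ (y / 2) + y % 2) / 2 = σ (y / 2) := by omega
    have h2 : (2 * σ (y / 2) + y % 2) % 2 = y % 2 := by omega
    simp only [h1, h2, Equiv.symm_apply_apply]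
    omega
  right_inv y := by
    have h1 : (2 * σ.symm (y / 2) + y % 2) / 2 = σ.symm (y / 2) := by omega
    have h2 : (2 * σ.symm (y / 2) + y % 2) % 2 = y % 2 := by omega
    simp only [h1, h2, Equiv.apply_symm_apply]
    omega

theorem dbl_apply (σ : Perm ℤ) (x j : ℤ) (h0 : 0 ≤ j) (h1 : j < 2) :
    dbl σ (2 * x + j) = 2 * σ x + j := by
  change 2 * σ ((2 * x + j) / 2) + (2 * x + j) % 2 = _
  have e1 : (2 * x + j) / 2 = x := by omega
  have e2 : (2 * x + j) % 2 = j := by omega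
  rw [e1, e2]

/-- `ρ` acting on the class `r(m)` through the canonical map -/
def emb (r m : ℤ) (hm : 0 < m) (ρ : Perm ℤ) : Perm ℤ where
  toFun y := if m ∣ y - r then r + m * ρ ((y - r) / m) else y
  invFun y := if m ∣ y - r then r + m * ρ.symm ((y - r) / m) else y
  left_inv y := by
    by_cases h : m ∣ y - r
    · simp only [if_pos h]
      have h' : m ∣ r + m * ρ ((y - r) / m) - r := ⟨ρ ((y - r) / m), by ring⟩
      rw [if_pos h', show r + m * ρ ((y - r) / m) - r = m * ρ ((y - r) / m) by ring,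
        Int.mul_ediv_cancel_left _ hm.ne', Equiv.symm_apply_apply, Int.mul_ediv_cancel' h]
      ring
    · simp only [if_neg h]
  right_inv y := by
    by_cases h : m ∣ y - r
    · simp only [if_pos h]
      have h' : m ∣ r + m * ρ.symm ((y - r) / m) - r := ⟨ρ.symm ((y - r) / m), by ring⟩
      rw [if_pos h', show r + m * ρ.symm ((y - r) / m) - r = m * ρ.symm ((y - r) / m) by ring,
        Int.mul_ediv_cancel_left _ hm.ne', Equiv.apply_symm_apply, Int.mul_ediv_cancel' h]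
      ring
    · simp only [if_neg h]

theorem emb_apply_in (r m : ℤ) (hm : 0 < m) (ρ : Perm ℤ) (k : ℤ) :
    emb r m hm ρ (r + m * k) = r + m * ρ k := by
  have h' : m ∣ r + m * k - r := ⟨k, by ring⟩
  change (if m ∣ r + m * k - r then _ else _) = _
  rw [if_pos h', show r + m * k - r = m * k by ring, Int.mul_ediv_cancel_left _ hm.ne']

theorem emb_apply_out (r m : ℤ) (hm : 0 < m) (ρ : Perm ℤ) (y : ℤ) (h : ¬ m ∣ y - r) :
    emb r m hm ρ y = y := by
  change (if m ∣ y - r then _ else _) = _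
  rw [if_neg h]

theorem emb_conj {r₁ m₁ r₂ m₂ : ℤ} (h1 : 0 < m₁) (h2 : 0 < m₂) {τ : Perm ℤ}
    (hs : ∀ k : ℤ, τ (r₁ + m₁ * k) = r₂ + m₂ * k ∧ τ (r₂ + m₂ * k) = r₁ + m₁ * k)
    (hd : ∀ n : ℤ, ¬ (m₁ ∣ n - r₁ ∧ m₂ ∣ n - r₂))
    (hf : ∀ n : ℤ, ¬ m₁ ∣ n - r₁ → ¬ m₂ ∣ n - r₂ → τ n = n) (ρ : Perm ℤ) :
    emb r₂ m₂ h2 ρ = τ * emb r₁ m₁ h1 ρ * τ⁻¹ := by
  have hinv : τ⁻¹ = τ := by
    rw [inv_eq_iff_mul_eq_one]
    ext x
    exact ct_invol hs hf x
  rw [hinv]
  ext y
  rw [Perm.mul_apply, Perm.mul_apply]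
  by_cases a : m₂ ∣ y - r₂
  · obtain ⟨k, hk⟩ := a
    have : y = r₂ + m₂ * k := by linarith
    rw [this, emb_apply_in, (hs k).2, emb_apply_in, (hs _).1]
  · rw [emb_apply_out _ _ _ _ _ a]
    by_cases b : m₁ ∣ y - r₁
    · obtain ⟨k, hk⟩ := b
      have hy : y = r₁ + m₁ * k := by linarith
      rw [hy, (hs k).1, emb_apply_out, (hs k).2]
      intro h
      exact hd _ ⟨h, ⟨k, by ring⟩⟩
    · rw [hf y b a, emb_apply_out _ _ _ _ _ b, hf y b a]

theorem dbl_eq (σ : Perm ℤ) :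
    dbl σ = emb 0 2 (by norm_num) σ * emb 1 2 (by norm_num) σ := by
  ext y
  rw [Perm.mul_apply]
  rcases Int.emod_two_eq_zero_or_one y with h | h
  · obtain ⟨k, hk⟩ : ∃ k, y = 2 * k + 0 := ⟨y / 2, by omega⟩
    rw [hk, dbl_apply _ _ _ (by norm_num) (by norm_num), emb_apply_out 1 2 _ _ _ (by omega)]
    have := emb_apply_in 0 2 (by norm_num) σ k
    rw [show 2 * k + 0 = 0 + 2 * k by ring, this]; ring
  · obtain ⟨k, hk⟩ : ∃ k, y = 2 * k + 1 := ⟨y / 2, by omega⟩
    rw [hk, dbl_apply _ _ _ (by norm_num) (by norm_num)]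
    have := emb_apply_in 1 2 (by norm_num) σ k
    rw [show 2 * k + 1 = 1 + 2 * k by ring, this, emb_apply_out 0 2 _ _ _ (by omega)]; ring

theorem emb_emb (ρ : Perm ℤ) :
    emb 0 2 (by norm_num) (emb 0 2 (by norm_num) ρ) = emb 0 4 (by norm_num) ρ := by
  ext y
  by_cases h4 : (4 : ℤ) ∣ y - 0
  · obtain ⟨k, hk⟩ := h4
    have h1 : y = 0 + 4 * k := by linarith
    have h2 : y = 0 + 2 * (0 + 2 * k) := by linarith
    rw [h1, emb_apply_in, ← h1, h2, emb_apply_in, emb_apply_in]; ring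
  · rw [emb_apply_out _ _ _ _ _ h4]
    by_cases h2 : (2 : ℤ) ∣ y - 0
    · obtain ⟨k, hk⟩ := h2
      have h1 : y = 0 + 2 * k := by linarith
      rw [h1, emb_apply_in, emb_apply_out _ _ _ _ _ (by omega)]
    · rw [emb_apply_out _ _ _ _ _ h2]

/-- reordering of the classes modulo `2M` -/
def reord (M : ℤ) (hM : 0 < M) : Perm ℤ where
  toFun x := 2 * (x % M + M * (x / M / 2)) + (x / M) % 2
  invFun y := (y / 2) % M + M * (y % 2 + 2 * (y / 2 / M))
  left_inv x := by
    have a1 := Int.emod_nonneg x hM.ne'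
    have a2 := Int.emod_lt_of_pos x hM
    have e1 : (2 * (x % M + M * (x / M / 2)) + (x / M) % 2) / 2 = x % M + M * (x / M / 2) := by
      omega
    have e2 : (2 * (x % M + M * (x / M / 2)) + (x / M) % 2) % 2 = (x / M) % 2 := by
      omega
    have e3 : (x % M + M * (x / M / 2)) % M = x % M := by
      rw [Int.add_mul_emod_self_left, Int.emod_emod]
    have e4 : (x % M + M * (x / M / 2)) / M = x / M / 2 := by
      rw [Int.add_mul_ediv_left _ _ hM.ne', Int.ediv_eq_zero_of_lt a1 a2, zero_add]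
    simp only [e1, e2, e3, e4]
    have e5 : x / M % 2 + 2 * (x / M / 2) = x / M := Int.emod_add_mul_ediv _ _
    rw [e5, Int.emod_add_mul_ediv]
  right_inv y := by
    have a1 := Int.emod_nonneg (y / 2) hM.ne'
    have a2 := Int.emod_lt_of_pos (y / 2) hM
    have e1 : ((y / 2) % M + M * (y % 2 + 2 * (y / 2 / M))) % M = (y / 2) % M := by
      rw [Int.add_mul_emod_self_left, Int.emod_emod]
    have e2 : ((y / 2) % M + M * (y % 2 + 2 * (y / 2 / M))) / M = y % 2 + 2 * (y / 2 / M) := by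
      rw [Int.add_mul_ediv_left _ _ hM.ne', Int.ediv_eq_zero_of_lt a1 a2, zero_add]
    simp only [e1, e2]
    have e3 : (y % 2 + 2 * (y / 2 / M)) / 2 = y / 2 / M := by omega
    have e4 : (y % 2 + 2 * (y / 2 / M)) % 2 = y % 2 := by omega
    rw [e3, e4, Int.emod_add_mul_ediv]
    omega

theorem reord_apply (M : ℤ) (hM : 0 < M) (i j k : ℤ) (hi0 : 0 ≤ i) (hi1 : i < M)
    (hj0 : 0 ≤ j) (hj1 : j < 2) :
    reord M hM (i + M * (j + 2 * k)) = 2 * (i + M * k) + j := by
  change 2 * ((i + M * (j + 2 * k)) % M + M * ((i + M * (j + 2 * k)) / M / 2)) +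
    ((i + M * (j + 2 * k)) / M) % 2 = _
  have e1 : (i + M * (j + 2 * k)) % M = i := by
    rw [Int.add_mul_emod_self_left, Int.emod_eq_of_lt hi0 hi1]
  have e2 : (i + M * (j + 2 * k)) / M = j + 2 * k := by
    rw [Int.add_mul_ediv_left _ _ hM.ne', Int.ediv_eq_zero_of_lt hi0 hi1, zero_add]
  rw [e1, e2]
  have e3 : (j + 2 * k) / 2 = k := by omega
  have e4 : (j + 2 * k) % 2 = j := by omega
  rw [e3, e4]

theorem decomp (M : ℤ) (hM : 0 < M) (x : ℤ) : ∃ i j k : ℤ, 0 ≤ i ∧ i < M ∧ 0 ≤ j ∧ j < 2 ∧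
    x = i + M * (j + 2 * k) := by
  refine ⟨x % M, (x / M) % 2, x / M / 2, Int.emod_nonneg _ hM.ne', Int.emod_lt_of_pos _ hM,
    Int.emod_nonneg _ (by norm_num), Int.emod_lt_of_pos _ (by norm_num), ?_⟩
  rw [Int.emod_add_mul_ediv, Int.emod_add_mul_ediv]

theorem reord_mem {Mo : ℤ → Prop} (hMo : Adm Mo) (M : ℤ) (hM : 0 < M) (hMM : Mo M) :
    reord M hM ∈ CTg Mo := by
  apply slope_one_mem (N := 2 * M) (by positivity) (hMo.mul _ _ hMo.two hMM)
  · intro y
    obtain ⟨i, j, k, h1, h2, h3, h4, rfl⟩ := decomp M hM y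
    rw [show i + M * (j + 2 * k) + 2 * M = i + M * (j + 2 * (k + 1)) by ring,
      reord_apply M hM i j _ h1 h2 h3 h4, reord_apply M hM i j _ h1 h2 h3 h4]
    ring
  · intro y
    obtain ⟨i, j, k, h1, h2, h3, h4, rfl⟩ := decomp M hM y
    rw [reord_apply M hM i j _ h1 h2 h3 h4]
    constructor
    · intro h
      have : 0 ≤ k := by
        by_contra hk
        have : M * k ≤ M * (-1) := by
          apply mul_le_mul_of_nonneg_left _ hM.le; omega
        nlinarith
      positivity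
    · intro h
      have : 0 ≤ k := by
        by_contra hk
        have : j + 2 * k ≤ -1 := by omega
        have : M * (j + 2 * k) ≤ M * (-1) := by
          apply mul_le_mul_of_nonneg_left _ hM.le; omega
        nlinarith
      positivity

theorem full_pos {Mo : ℤ → Prop} {g : Perm ℤ} (hg : Full Mo g) (y : ℤ) : 0 ≤ g y ↔ 0 ≤ y := by
  obtain ⟨M, hM, _, h⟩ := hg
  obtain ⟨c, m, h0, h1, _, h2⟩ := h (y % M) (Int.emod_nonneg _ hM.ne') (Int.emod_lt_of_pos _ hM)
  have hy := Int.emod_add_mul_ediv y M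
  rw [← hy, h2]
  have a1 := Int.emod_nonneg y hM.ne'
  have a2 := Int.emod_lt_of_pos y hM
  set k := y / M
  set i := y % M
  constructor
  · intro h
    have : 0 ≤ k := by
      by_contra hk
      have : m * k ≤ m * (-1) := by
        apply mul_le_mul_of_nonneg_left _ (by linarith); omega
      nlinarith
    positivity
  · intro h
    have : 0 ≤ k := by
      by_contra hk
      have : M * k ≤ M * (-1) := by
        apply mul_le_mul_of_nonneg_left _ (by linarith); omega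
      nlinarith
    have : 0 ≤ m * k := mul_nonneg (by linarith) this
    linarith

/-- doubling a full element changes it only by elements of the group -/
theorem dbl_decomp {Mo : ℤ → Prop} (hMo : Adm Mo) {σ : Perm ℤ} (hσ : Full Mo σ) :
    ∃ l ∈ CTg Mo, ∃ u ∈ CTg Mo, dbl σ = l * σ * u := by
  have hpos := full_pos hσ
  obtain ⟨M, hM, hMM, h⟩ := hσ
  have h' : ∀ i : ℕ, ∃ c m : ℤ, (i : ℤ) < M → (0 ≤ c ∧ c < m ∧ Mo m ∧
      ∀ k : ℤ, σ (i + M * k) = c + m * k) := by
    intro i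
    by_cases hi : (i : ℤ) < M
    · obtain ⟨c, m, h⟩ := h i (by positivity) hi
      exact ⟨c, m, fun _ => h⟩
    · exact ⟨0, 0, fun h => absurd h hi⟩
  choose c m hcm using h'
  set N : ℤ := ∏ i ∈ Finset.range M.toNat, m i with hN
  have hlt : ∀ i ∈ Finset.range M.toNat, (i : ℤ) < M := by
    intro i hi
    rw [Finset.mem_range] at hi
    omega
  have hNpos : 0 < N := Finset.prod_pos (fun i hi => by
    have := hcm i (hlt i hi); linarith [this.1, this.2.1])
  have hNMo : Mo N := by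
    apply Finset.prod_induction _ Mo (fun a b => hMo.mul a b) hMo.one
    intro i hi
    exact (hcm i (hlt i hi)).2.2.1
  refine ⟨dbl σ * reord M hM * σ⁻¹, ?_, (reord M hM)⁻¹, Subgroup.inv_mem _ (reord_mem hMo M hM hMM),
    by group⟩
  -- key formula
  have hform : ∀ y : ℤ, ∃ i : ℕ, ∃ j k : ℤ, (i : ℤ) < M ∧ 0 ≤ j ∧ j < 2 ∧
      y = c i + m i * (j + 2 * k) := by
    intro y
    obtain ⟨i, j, k, h1, h2, h3, h4, h5⟩ := decomp M hM (σ⁻¹ y)
    have e : y = σ (i + M * (j + 2 * k)) := by rw [← h5]; simp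
    obtain ⟨i, rfl⟩ := Int.eq_ofNat_of_zero_le h1
    refine ⟨i, j, k, h2, h3, h4, ?_⟩
    rw [e]; exact (hcm i h2).2.2.2 _
  have hval : ∀ (i : ℕ) (j k : ℤ), (i : ℤ) < M → 0 ≤ j → j < 2 →
      (dbl σ * reord M hM * σ⁻¹) (c i + m i * (j + 2 * k)) = 2 * (c i + m i * k) + j := by
    intro i j k hi hj0 hj1
    have e : σ⁻¹ (σ (i + M * (j + 2 * k))) = i + M * (j + 2 * k) := by simp
    rw [← (hcm i hi).2.2.2, Perm.mul_apply, Perm.mul_apply, e,
      reord_apply M hM i j k (by positivity) hi hj0 hj1, dbl_apply _ _ _ hj0 hj1,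
      (hcm i hi).2.2.2]
  apply slope_one_mem (N := 2 * N) (by positivity) (hMo.mul _ _ hMo.two hNMo)
  · intro y
    obtain ⟨i, j, k, hi, hj0, hj1, rfl⟩ := hform y
    obtain ⟨t, ht⟩ : m i ∣ N := Finset.dvd_prod_of_mem _ (by
      rw [Finset.mem_range]; omega)
    rw [show c i + m i * (j + 2 * k) + 2 * N = c i + m i * (j + 2 * (k + t)) by rw [ht]; ring,
      hval i j _ hi hj0 hj1, hval i j _ hi hj0 hj1, ht]
    ring
  · intro y
    obtain ⟨i, j, k, hi, hj0, hj1, rfl⟩ := hform y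
    rw [hval i j _ hi hj0 hj1, ← (hcm i hi).2.2.2, ← (hcm i hi).2.2.2, hpos]
    constructor
    · intro h
      have h1 : 0 ≤ σ (i + M * k) := by omega
      rw [hpos] at h1
      have : 0 ≤ k := by
        by_contra hk
        have : M * k ≤ M * (-1) := by
          apply mul_le_mul_of_nonneg_left _ (by linarith); omega
        nlinarith
      positivity
    · intro h
      have : 0 ≤ k := by
        by_contra hk
        have h6 : j + 2 * k ≤ -1 := by omega
        have : M * (j + 2 * k) ≤ M * (-1) := by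
          apply mul_le_mul_of_nonneg_left _ (by linarith); omega
        nlinarith
      have h1 : 0 ≤ σ (i + M * k) := by rw [hpos]; positivity
      positivity

/-- a class transposition inside the group exchanging two given disjoint classes -/
theorem exists_ct_mem {Mo : ℤ → Prop} {r₁ m₁ r₂ m₂ : ℤ} (h1 : 0 ≤ r₁) (h2 : r₁ < m₁)
    (h3 : 0 ≤ r₂) (h4 : r₂ < m₂) (hm1 : Mo m₁) (hm2 : Mo m₂)
    (hd : ∀ n : ℤ, ¬ (m₁ ∣ n - r₁ ∧ m₂ ∣ n - r₂)) :
    ∃ τ ∈ CTg Mo, ∀ ρ : Perm ℤ, emb r₂ m₂ (lt_of_le_of_lt h3 h4) ρ =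
      τ * emb r₁ m₁ (lt_of_le_of_lt h1 h2) ρ * τ⁻¹ := by
  obtain ⟨τ, hs, hf⟩ := exists_ct r₁ m₁ r₂ m₂ (by linarith) (by linarith) hd
  exact ⟨τ, mem_of_isCT ⟨r₁, m₁, r₂, m₂, h1, h2, h3, h4, hm1, hm2, hd, hs, hf⟩,
    fun ρ => emb_conj _ _ hs hd hf ρ⟩

theorem full_emb {Mo : ℤ → Prop} (hMo : Adm Mo) {ρ : Perm ℤ} (hρ : Full Mo ρ) :
    Full Mo (emb 0 2 (by norm_num) ρ) := by
  obtain ⟨M, hM, hMM, h⟩ := hρ
  refine ⟨2 * M, by positivity, hMo.mul _ _ hMo.two hMM, ?_⟩
  intro i hi0 hi1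
  by_cases hev : (2 : ℤ) ∣ i - 0
  · obtain ⟨t, ht⟩ := hev
    obtain ⟨c, m, h1, h2, h3, h4⟩ := h t (by omega) (by omega)
    refine ⟨2 * c, 2 * m, by positivity, by linarith, hMo.mul _ _ hMo.two h3, ?_⟩
    intro k
    rw [show i + 2 * M * k = 0 + 2 * (t + M * k) by linarith, emb_apply_in, h4]; ring
  · refine ⟨i, 2 * M, hi0, hi1, hMo.mul _ _ hMo.two hMM, ?_⟩
    intro k
    apply emb_apply_out
    intro h
    apply hev
    have : (2 : ℤ) ∣ 2 * M * k := ⟨M * k, by ring⟩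
    have := dvd_sub h this
    rwa [show i + 2 * M * k - 0 - 2 * M * k = i - 0 by ring] at this

/-- if a full element satisfies the squaring relation it lies in the group -/
theorem mem_of_square {Mo : ℤ → Prop} (hMo : Adm Mo) {σ l u c t : Perm ℤ} (hσ : Full Mo σ)
    (hl : l ∈ CTg Mo) (hu : u ∈ CTg Mo) (hc : c ∈ CTg Mo) (ht : t ∈ CTg Mo)
    (h : l * σ * u = (c * σ * c⁻¹) * (t * (c * σ * c⁻¹) * t⁻¹)) : σ ∈ CTg Mo := by
  have h1 : σ * (u * t * c) * σ⁻¹ = l⁻¹ * c * σ * (c⁻¹ * t * c) := by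
    have h2 : σ * u = l⁻¹ * ((c * σ * c⁻¹) * (t * (c * σ * c⁻¹) * t⁻¹)) := by
      rw [← h]; group
    calc σ * (u * t * c) * σ⁻¹ = (σ * u) * t * c * σ⁻¹ := by group
      _ = l⁻¹ * c * σ * (c⁻¹ * t * c) := by rw [h2]; group
  have h3 : σ * (u * t * c) * σ⁻¹ ∈ CTg Mo :=
    conj_mem hMo hσ (Subgroup.mul_mem _ (Subgroup.mul_mem _ hu ht) hc)
  have h4 : σ = (l⁻¹ * c)⁻¹ * (σ * (u * t * c) * σ⁻¹) * (c⁻¹ * t * c)⁻¹ := by
    rw [h1]; group
  rw [h4]
  have hcc := Subgroup.inv_mem _ hc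
  exact Subgroup.mul_mem _ (Subgroup.mul_mem _ (Subgroup.inv_mem _
    (Subgroup.mul_mem _ (Subgroup.inv_mem _ hl) hc)) h3) (Subgroup.inv_mem _
    (Subgroup.mul_mem _ (Subgroup.mul_mem _ hcc ht) hc))

/-- every full element is a product of class transpositions -/
theorem full_mem {Mo : ℤ → Prop} (hMo : Adm Mo) {ρ : Perm ℤ} (hρ : Full Mo ρ) : ρ ∈ CTg Mo := by
  have m4 : Mo 4 := by
    have := hMo.mul 2 2 hMo.two hMo.two
    norm_num at this; exact this
  obtain ⟨t, ht, htc⟩ := exists_ct_mem (Mo := Mo) (r₁ := 0) (m₁ := 2) (r₂ := 1) (m₂ := 2)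
    (by norm_num) (by norm_num) (by norm_num) (by norm_num) hMo.two hMo.two (by intro n; omega)
  obtain ⟨s, hs, hsc⟩ := exists_ct_mem (Mo := Mo) (r₁ := 1) (m₁ := 2) (r₂ := 0) (m₂ := 4)
    (by norm_num) (by norm_num) (by norm_num) (by norm_num) hMo.two m4 (by intro n; omega)
  -- the element acting on the even integers
  set σ : Perm ℤ := emb 0 2 (by norm_num) ρ with hσd
  have hσ : Full Mo σ := full_emb hMo hρ
  have hσm : σ ∈ CTg Mo := by
    obtain ⟨l, hl, u, hu, hlu⟩ := dbl_decomp hMo hσ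
    have e1 : emb 0 2 (by norm_num) σ = (s * t) * σ * (s * t)⁻¹ := by
      rw [hσd, emb_emb, hsc, htc]; group
    apply mem_of_square hMo hσ hl hu (c := s * t) (t := t) (Subgroup.mul_mem _ hs ht) ht
    rw [← hlu, dbl_eq, htc, e1]
  obtain ⟨l, hl, u, hu, hlu⟩ := dbl_decomp hMo hρ
  have e2 : ρ = l⁻¹ * (σ * (t * σ * t⁻¹)) * u⁻¹ := by
    have : dbl ρ = σ * (t * σ * t⁻¹) := by rw [dbl_eq, htc]
    rw [← this, hlu]; group
  rw [e2]
  exact Subgroup.mul_mem _ (Subgroup.mul_mem _ (Subgroup.inv_mem _ hl)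
    (Subgroup.mul_mem _ hσm (Subgroup.mul_mem _ (Subgroup.mul_mem _ ht hσm)
      (Subgroup.inv_mem _ ht)))) (Subgroup.inv_mem _ hu)

theorem full_one {Mo : ℤ → Prop} (hMo : Adm Mo) : Full Mo 1 := by
  refine ⟨1, one_pos, hMo.one, ?_⟩
  intro i h0 h1
  exact ⟨i, 1, h0, h1, hMo.one, fun k => rfl⟩

theorem full_mul {Mo : ℤ → Prop} (hMo : Adm Mo) {g h : Perm ℤ} (hg : Full Mo g) (hh : Full Mo h) :
    Full Mo (g * h) := by
  obtain ⟨M₂, hM₂, hMM₂, hg⟩ := hg
  obtain ⟨M, hM, hMM, hh⟩ := hh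
  refine ⟨M * M₂, by positivity, hMo.mul _ _ hMM hMM₂, ?_⟩
  intro i hi0 hi1
  obtain ⟨c, m, h1, h2, h3, h4⟩ := hh (i % M) (Int.emod_nonneg _ hM.ne') (Int.emod_lt_of_pos _ hM)
  have e1 := Int.emod_add_mul_ediv i M
  have s0 : 0 ≤ i / M := Int.ediv_nonneg hi0 hM.le
  have s1 : i / M < M₂ := Int.ediv_lt_of_lt_mul hM (by linarith)
  have hm : 0 < m := by linarith
  obtain ⟨c₂, m₂, k1, k2, k3, k4⟩ := hg ((c + m * (i / M)) % M₂) (Int.emod_nonneg _ hM₂.ne')
    (Int.emod_lt_of_pos _ hM₂)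
  have e2 := Int.emod_add_mul_ediv (c + m * (i / M)) M₂
  have q0 : 0 ≤ (c + m * (i / M)) / M₂ := Int.ediv_nonneg (by positivity) hM₂.le
  have q1 : (c + m * (i / M)) / M₂ < m := by
    apply Int.ediv_lt_of_lt_mul hM₂
    nlinarith
  refine ⟨c₂ + m₂ * ((c + m * (i / M)) / M₂), m₂ * m, by
    have : 0 < m₂ := by linarith
    positivity, by nlinarith, hMo.mul _ _ k3 h3, ?_⟩
  intro k
  rw [Perm.mul_apply]
  have e3 : h (i + M * M₂ * k) = (c + m * (i / M)) % M₂ +
      M₂ * ((c + m * (i / M)) / M₂ + m * k) := by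
    rw [show i + M * M₂ * k = i % M + M * (i / M + M₂ * k) by linear_combination -e1, h4]
    linear_combination -e2
  rw [e3, k4]; ring

theorem full_inv {Mo : ℤ → Prop} (hMo : Adm Mo) {g : Perm ℤ} (hg : Full Mo g) :
    Full Mo g⁻¹ := by
  obtain ⟨M, hM, hMM, h⟩ := hg
  have h' : ∀ i : ℕ, ∃ c m : ℤ, (i : ℤ) < M → (0 ≤ c ∧ c < m ∧ Mo m ∧
      ∀ k : ℤ, g (i + M * k) = c + m * k) := by
    intro i
    by_cases hi : (i : ℤ) < M
    · obtain ⟨c, m, h⟩ := h i (by positivity) hi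
      exact ⟨c, m, fun _ => h⟩
    · exact ⟨0, 0, fun h => absurd h hi⟩
  choose c m hcm using h'
  have hlt : ∀ i ∈ Finset.range M.toNat, (i : ℤ) < M := by
    intro i hi
    rw [Finset.mem_range] at hi
    omega
  refine ⟨∏ i ∈ Finset.range M.toNat, m i, ?_, ?_, ?_⟩
  · exact Finset.prod_pos (fun i hi => by
      have := hcm i (hlt i hi); linarith [this.1, this.2.1])
  · apply Finset.prod_induction _ Mo (fun a b => hMo.mul a b) hMo.one
    intro i hi
    exact (hcm i (hlt i hi)).2.2.1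
  · intro j hj0 hj1
    have hx0 := Int.emod_nonneg (g⁻¹ j) hM.ne'
    have hx1 := Int.emod_lt_of_pos (g⁻¹ j) hM
    have hx2 := Int.emod_add_mul_ediv (g⁻¹ j) M
    set s := (g⁻¹ j) / M
    obtain ⟨i, hi⟩ := Int.eq_ofNat_of_zero_le hx0
    rw [hi] at hx1 hx2
    have himem : i ∈ Finset.range M.toNat := by
      rw [Finset.mem_range]; omega
    obtain ⟨a1, a2, a3, a4⟩ := hcm i hx1
    have hj : j = c i + m i * s := by
      rw [← a4, hx2]; simp
    set N' := ∏ i ∈ (Finset.range M.toNat).erase i, m i with hN'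
    have hNN : m i * N' = ∏ i ∈ Finset.range M.toNat, m i := Finset.mul_prod_erase _ _ himem
    have hN'Mo : Mo N' := by
      apply Finset.prod_induction _ Mo (fun a b => hMo.mul a b) hMo.one
      intro i' hi'
      exact (hcm i' (hlt i' (Finset.mem_of_mem_erase hi'))).2.2.1
    have s0 : 0 ≤ s := by
      by_contra hs
      have : m i * s ≤ m i * (-1) := by
        apply mul_le_mul_of_nonneg_left _ (by linarith); omega
      linarith
    have s1 : s < N' := by
      rw [← hNN, hj] at hj1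
      by_contra hs
      have : m i * N' ≤ m i * s := by
        apply mul_le_mul_of_nonneg_left _ (by linarith); omega
      linarith
    refine ⟨i + M * s, M * N', by positivity, by nlinarith, hMo.mul _ _ hMM hN'Mo, ?_⟩
    intro k
    rw [Perm.inv_eq_iff_eq]
    rw [show (i : ℤ) + M * s + M * N' * k = i + M * (s + N' * k) by ring, a4, hj, ← hNN]
    ring

theorem full_of_isCT {Mo : ℤ → Prop} (hMo : Adm Mo) {σ : Perm ℤ} (hσ : IsCT Mo σ) : Full Mo σ := by
  obtain ⟨r₁, m₁, r₂, m₂, h1, h2, h3, h4, hm1, hm2, hd, hs, hf⟩ := hσ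
  have p1 : 0 < m₁ := by linarith
  have p2 : 0 < m₂ := by linarith
  refine ⟨m₁ * m₂, by positivity, hMo.mul _ _ hm1 hm2, ?_⟩
  intro i hi0 hi1
  by_cases a : m₁ ∣ i - r₁
  · obtain ⟨t, ht⟩ := a
    have e : i = r₁ + m₁ * t := by linarith
    have t0 : 0 ≤ t := by
      by_contra hs
      have : m₁ * t ≤ m₁ * (-1) := by
        apply mul_le_mul_of_nonneg_left _ (by linarith); omega
      linarith
    have t1 : t < m₂ := by
      by_contra hs
      have : m₁ * m₂ ≤ m₁ * t := by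
        apply mul_le_mul_of_nonneg_left _ (by linarith); omega
      linarith
    refine ⟨r₂ + m₂ * t, m₂ * m₂, by positivity, by nlinarith, hMo.mul _ _ hm2 hm2, ?_⟩
    intro k
    rw [e, show r₁ + m₁ * t + m₁ * m₂ * k = r₁ + m₁ * (t + m₂ * k) by ring, (hs _).1]; ring
  · by_cases b : m₂ ∣ i - r₂
    · obtain ⟨t, ht⟩ := b
      have e : i = r₂ + m₂ * t := by linarith
      have t0 : 0 ≤ t := by
        by_contra hs
        have : m₂ * t ≤ m₂ * (-1) := by
          apply mul_le_mul_of_nonneg_left _ (by linarith); omega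
        linarith
      have t1 : t < m₁ := by
        by_contra hs
        have : m₂ * m₁ ≤ m₂ * t := by
          apply mul_le_mul_of_nonneg_left _ (by linarith); omega
        linarith
      refine ⟨r₁ + m₁ * t, m₁ * m₁, by positivity, by nlinarith, hMo.mul _ _ hm1 hm1, ?_⟩
      intro k
      rw [e, show r₂ + m₂ * t + m₁ * m₂ * k = r₂ + m₂ * (t + m₁ * k) by ring, (hs _).2]; ring
    · refine ⟨i, m₁ * m₂, hi0, hi1, hMo.mul _ _ hm1 hm2, ?_⟩
      intro k
      apply hf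
      · intro h
        apply a
        have : m₁ ∣ m₁ * m₂ * k := ⟨m₂ * k, by ring⟩
        have := dvd_sub h this
        rwa [show i + m₁ * m₂ * k - r₁ - m₁ * m₂ * k = i - r₁ by ring] at this
      · intro h
        apply b
        have : m₂ ∣ m₁ * m₂ * k := ⟨m₁ * k, by ring⟩
        have := dvd_sub h this
        rwa [show i + m₁ * m₂ * k - r₂ - m₁ * m₂ * k = i - r₂ by ring] at this

/-- the full group -/
def fullGroup (Mo : ℤ → Prop) (hMo : Adm Mo) : Subgroup (Perm ℤ) where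
  carrier := {g | Full Mo g}
  one_mem' := full_one hMo
  mul_mem' := fun a b => full_mul hMo a b
  inv_mem' := fun a => full_inv hMo a

/-- the group generated by class transpositions is the full group -/
theorem mem_CTg_iff {Mo : ℤ → Prop} (hMo : Adm Mo) (g : Perm ℤ) : g ∈ CTg Mo ↔ Full Mo g := by
  constructor
  · intro h
    have : CTg Mo ≤ fullGroup Mo hMo := by
      unfold CTg
      rw [Subgroup.closure_le]
      intro τ hτ
      exact full_of_isCT hMo hτ
    exact this h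
  · exact full_mem hMo

end Pool.Agent.Helper111.CT
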