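import Mathlib

set_option autoImplicit false

namespace Pool.Agent.Helper111.Recon

open Equiv

section Alg

variable {Γ Δ : Type} [Group Γ] [Group Δ]

/-- involutions in the centralizer commuting with their conjugates there -/
def UU (π : Γ) : Set Γ :=
  {φ | φ * π = π * φ ∧ φ * φ = 1 ∧ ∀ ψ, ψ * π = π * ψ → φ * (ψ * φ * ψ⁻¹) = (ψ * φ * ψ⁻¹) * φ}

def VV (π : Γ) : Set Γ := {g | ∀ φ ∈ UU π, g * φ = φ * g}

def WW (π : Γ) : Set Γ := {w | ∀ g ∈ VV π, w * (g * g) = (g * g) * w}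

theorem UU_map (Θ : Γ ≃* Δ) (π φ : Γ) (h : φ ∈ UU π) : Θ φ ∈ UU (Θ π) := by
  obtain ⟨h1, h2, h3⟩ := h
  refine ⟨?_, ?_, ?_⟩
  · rw [← map_mul, h1, map_mul]
  · rw [← map_mul, h2, map_one]
  · intro ψ hψ
    obtain ⟨ψ, rfl⟩ := Θ.surjective ψ
    have : ψ * π = π * ψ := by
      apply Θ.injective; rw [map_mul, map_mul, hψ]
    have := congrArg Θ (h3 ψ this)
    simpa using this

theorem UU_iff (Θ : Γ ≃* Δ) (π φ : Γ) : Θ φ ∈ UU (Θ π) ↔ φ ∈ UU π := by
  constructor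
  · intro h
    have := UU_map Θ.symm _ _ h
    simpa using this
  · exact UU_map Θ π φ

theorem VV_map (Θ : Γ ≃* Δ) (π φ : Γ) (h : φ ∈ VV π) : Θ φ ∈ VV (Θ π) := by
  intro ψ hψ
  obtain ⟨ψ, rfl⟩ := Θ.surjective ψ
  rw [UU_iff] at hψ
  rw [← map_mul, h ψ hψ, map_mul]

theorem VV_iff (Θ : Γ ≃* Δ) (π φ : Γ) : Θ φ ∈ VV (Θ π) ↔ φ ∈ VV π := by
  constructor
  · intro h
    have := VV_map Θ.symm _ _ h
    simpa using this
  · exact VV_map Θ π φ

theorem WW_map (Θ : Γ ≃* Δ) (π φ : Γ) (h : φ ∈ WW π) : Θ φ ∈ WW (Θ π) := by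
  intro ψ hψ
  obtain ⟨ψ, rfl⟩ := Θ.surjective ψ
  rw [VV_iff] at hψ
  rw [← map_mul, ← map_mul, h ψ hψ, map_mul, map_mul]

theorem WW_iff (Θ : Γ ≃* Δ) (π φ : Γ) : Θ φ ∈ WW (Θ π) ↔ φ ∈ WW π := by
  constructor
  · intro h
    have := WW_map Θ.symm _ _ h
    simpa using this
  · exact WW_map Θ π φ

end Alg

/-- a permutation group with a rich invariant algebra of sets -/
structure Sys {X : Type} (G : Subgroup (Perm X)) (B : Set (Set X)) : Prop where
  compl : ∀ a ∈ B, aᶜ ∈ B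
  inter : ∀ a ∈ B, ∀ b ∈ B, a ∩ b ∈ B
  img : ∀ g ∈ G, ∀ a ∈ B, g '' a ∈ B
  sep : ∀ x y : X, x ≠ y → ∃ u ∈ B, x ∈ u ∧ y ∉ u
  patch : ∀ π ∈ G, ∀ a ∈ B, (∀ x, x ∈ a ↔ π x ∈ a) →
    ∃ f ∈ G, (∀ x ∈ a, f x = π x) ∧ ∀ x ∉ a, f x = x
  rich : ∀ d ∈ B, d.Nonempty → ∃ ψ ∈ G, (∀ x ∉ d, ψ x = x) ∧ ψ * ψ ≠ 1
  supp : ∀ f ∈ G, ∃ a ∈ B, (∀ x ∉ a, f x = x) ∧
    ∀ d ∈ B, d ⊆ a → d.Nonempty → ∃ x ∈ d, f x ≠ x
  invol : ∀ a ∈ B, ∃ π ∈ G, π * π = 1 ∧ (∀ x ∉ a, π x = x) ∧ ∀ x ∈ a, π x ≠ x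

section

variable {X : Type} {G : Subgroup (Perm X)} {B : Set (Set X)}

theorem Sys.union (S : Sys G B) {a b : Set X} (ha : a ∈ B) (hb : b ∈ B) : a ∪ b ∈ B := by
  have := S.compl _ (S.inter _ (S.compl _ ha) _ (S.compl _ hb))
  rwa [Set.compl_inter, compl_compl, compl_compl] at this

theorem Sys.diff (S : Sys G B) {a b : Set X} (ha : a ∈ B) (hb : b ∈ B) : a \ b ∈ B :=
  S.inter _ ha _ (S.compl _ hb)

/-- the elements supported in `a` -/
def LL (G : Subgroup (Perm X)) (a : Set X) : Set G := {g | ∀ x ∉ a, (g : Perm X) x = x}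

theorem mem_preimg (S : Sys G B) {g : Perm X} (hg : g ∈ G) {a : Set X} (ha : a ∈ B) :
    {x | g x ∈ a} ∈ B := by
  have := S.img g⁻¹ (G.inv_mem hg) a ha
  convert this using 1
  ext x
  simp only [Set.mem_ofPred_eq, Set.mem_image]
  constructor
  · intro h; exact ⟨g x, h, by simp⟩
  · rintro ⟨y, hy, rfl⟩; simpa using hy

/-- the algebraic description of local subgroups -/
theorem WW_eq (S : Sys G B) (π : G) (hπ : π * π = 1) (a : Set X) (ha : a ∈ B)
    (hoff : ∀ x ∉ a, (π : Perm X) x = x)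
    (hon : ∀ d ∈ B, d ⊆ a → d.Nonempty → ∃ x ∈ d, (π : Perm X) x ≠ x) :
    WW π = LL G a := by
  classical
  have hππ : ∀ x, (π : Perm X) ((π : Perm X) x) = x := by
    intro x
    have : ((π * π : G) : Perm X) x = x := by rw [hπ]; rfl
    simpa using this
  have hcomm : ∀ f g : G, f * g = g * f → ∀ x, (f : Perm X) ((g : Perm X) x) =
      (g : Perm X) ((f : Perm X) x) := by
    intro f g h x
    have : ((f * g : G) : Perm X) x = ((g * f : G) : Perm X) x := by rw [h]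
    simpa using this
  have hpa : ∀ x, x ∈ a ↔ (π : Perm X) x ∈ a := by
    intro x
    constructor
    · intro hx
      by_contra hc
      have h1 := hoff _ hc
      rw [hππ] at h1
      rw [← h1] at hc; exact hc hx
    · intro hx
      by_contra hc
      rw [hoff x hc] at hx; exact hc hx
  -- restrictions of π belong to UU
  have hres : ∀ b ∈ B, (∀ x, x ∈ b ↔ (π : Perm X) x ∈ b) →
      ∃ f ∈ UU π, (∀ x ∈ b, (f : Perm X) x = (π : Perm X) x) ∧ ∀ x ∉ b, (f : Perm X) x = x := by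
    intro b hb hbi
    obtain ⟨f, hf, hf1, hf2⟩ := S.patch π π.2 b hb hbi
    refine ⟨⟨f, hf⟩, ⟨?_, ?_, ?_⟩, hf1, hf2⟩
    · ext x
      change f ((π : Perm X) x) = (π : Perm X) (f x)
      by_cases hx : x ∈ b
      · rw [hf1 _ ((hbi x).1 hx), hf1 _ hx]
      · rw [hf2 _ (fun h => hx ((hbi x).2 h)), hf2 _ hx]
    · ext x
      change f (f x) = x
      by_cases hx : x ∈ b
      · rw [hf1 _ hx, hf1 _ ((hbi x).1 hx), hππ]
      · rw [hf2 _ hx, hf2 _ hx]
    · intro ψ hψ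
      have hc := hcomm ψ π hψ
      have hc' : ∀ x, (ψ : Perm X)⁻¹ ((π : Perm X) x) = (π : Perm X) ((ψ : Perm X)⁻¹ x) := by
        intro x
        apply (ψ : Perm X).injective
        rw [hc]; simp
      -- the conjugate is again a restriction
      have hconj : ∀ x, ((ψ : Perm X) * f * (ψ : Perm X)⁻¹) x =
          if (ψ : Perm X)⁻¹ x ∈ b then (π : Perm X) x else x := by
        intro x
        rw [Perm.mul_apply, Perm.mul_apply]
        split_ifs with h
        · rw [hf1 _ h, hc]; simp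
        · rw [hf2 _ h]; simp
      ext x
      change f (((ψ : Perm X) * f * (ψ : Perm X)⁻¹) x) = ((ψ : Perm X) * f * (ψ : Perm X)⁻¹) (f x)
      rw [hconj, hconj]
      by_cases hx : x ∈ b
      · rw [hf1 x hx, hc']
        by_cases hy : (ψ : Perm X)⁻¹ x ∈ b
        · rw [if_pos hy, if_pos ((hbi _).1 hy), hf1 _ ((hbi x).1 hx)]
        · rw [if_neg hy, if_neg (fun h => hy ((hbi _).2 h)), hf1 x hx]
      · rw [hf2 x hx]
        by_cases hy : (ψ : Perm X)⁻¹ x ∈ b
        · rw [if_pos hy, hf2 _ (fun h => hx ((hbi x).2 h))]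
        · rw [if_neg hy, hf2 x hx]
  -- elements of UU are supported in a
  have hU : ∀ φ ∈ UU π, ∀ x ∉ a, (φ : Perm X) x = x := by
    rintro φ ⟨h1, h2, h3⟩ x hx
    by_contra hne
    have hφφ : ∀ x, (φ : Perm X) ((φ : Perm X) x) = x := by
      intro x
      have : ((φ * φ : G) : Perm X) x = x := by rw [h2]; rfl
      simpa using this
    obtain ⟨u, hu, hxu, hxu'⟩ := S.sep _ _ hne
    -- u contains φ x, not x
    set d : Set X := aᶜ ∩ (uᶜ ∩ {y | (φ : Perm X) y ∈ u}) with hd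
    have hdB : d ∈ B := S.inter _ (S.compl _ ha) _ (S.inter _ (S.compl _ hu) _
      (mem_preimg S φ.2 hu))
    have hdx : x ∈ d := ⟨hx, hxu', hxu⟩
    obtain ⟨ψ, hψG, hψ1, hψ2⟩ := S.rich d hdB ⟨x, hdx⟩
    have hcψ : (⟨ψ, hψG⟩ : G) * π = π * ⟨ψ, hψG⟩ := by
      ext y
      change ψ ((π : Perm X) y) = (π : Perm X) (ψ y)
      by_cases hy : y ∈ a
      · rw [hψ1 y (fun h => h.1 hy), hψ1 _ (fun h => h.1 ((hpa y).1 hy))]
      · rw [hoff y hy]
        by_cases hy2 : y ∈ d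
        · have : ψ y ∈ d := by
            by_contra hc
            have := hψ1 _ hc
            have := ψ.injective this
            rw [this] at hc; exact hc hy2
          rw [hoff _ this.1]
        · rw [hψ1 y hy2, hoff y hy]
    have h4 := h3 _ hcψ
    apply hψ2
    ext y
    change ψ (ψ y) = y
    by_cases hy : y ∈ d
    · have hψy : ψ⁻¹ y ∈ d := by
        by_contra hc
        have h5 := hψ1 _ hc
        have h6 : y = ψ⁻¹ y := by
          rw [← h5]; simp
        rw [← h6] at hc; exact hc hy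
      have e1 : φ.1 (ψ (φ.1 (ψ⁻¹ y))) = ψ (φ.1 (ψ⁻¹ (φ.1 y))) := by
        have := congrArg (fun f : G => (f : Perm X) y) h4
        simpa using this
      have hnot : ∀ z ∈ d, φ.1 z ∉ d := fun z hz h => h.2.1 hz.2.2
      have e2 : ψ (φ.1 (ψ⁻¹ y)) = φ.1 (ψ⁻¹ y) := hψ1 _ (hnot _ hψy)
      have e3 : ψ⁻¹ (φ.1 y) = φ.1 y := by
        have := hψ1 _ (hnot _ hy)
        rw [Perm.inv_eq_iff_eq]; exact this.symm
      rw [e2, hφφ, e3, hφφ] at e1
      -- ψ⁻¹ y = ψ y
      rw [← e1]; simp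
    · rw [hψ1 y hy, hψ1 y hy]
  -- squares of elements of VV are trivial on a
  have hV : ∀ g ∈ VV π, ∀ x ∈ a, (g : Perm X) ((g : Perm X) x) = x := by
    intro g hg
    obtain ⟨f0, hf0, hf01, hf02⟩ := hres a ha hpa
    have hf0π : ∀ x, (f0 : Perm X) x = (π : Perm X) x := by
      intro x
      by_cases hx : x ∈ a
      · exact hf01 x hx
      · rw [hf02 x hx, hoff x hx]
    have hgπ : ∀ x, (g : Perm X) ((π : Perm X) x) = (π : Perm X) ((g : Perm X) x) := by
      intro x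
      rw [← hf0π, ← hf0π]
      exact hcomm _ _ (hg f0 hf0) x
    have step : ∀ x ∈ a, (π : Perm X) x ≠ x → (g : Perm X) ((g : Perm X) x) = x := by
      intro x hx hπx
      by_cases h1 : (g : Perm X) x = x
      · rw [h1, h1]
      by_cases h2 : (g : Perm X) x = (π : Perm X) x
      · rw [h2, hgπ, h2, hππ]
      exfalso
      obtain ⟨u, hu, hxu, hxu'⟩ := S.sep _ _ h1
      obtain ⟨v, hv, hxv, hxv'⟩ := S.sep _ _ h2
      have huv : u ∩ v ∈ B := S.inter _ hu _ hv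
      -- d = points with g y ∈ u ∩ v, y ∉ u∩v, π y ∉ u ∩ v
      set d : Set X := {y | (g : Perm X) y ∈ u ∩ v} ∩ ((u ∩ v)ᶜ ∩ {y | (π : Perm X) y ∈ (u ∩ v)ᶜ})
        with hd
      have hdB : d ∈ B := S.inter _ (mem_preimg S g.2 huv) _ (S.inter _ (S.compl _ huv) _
        (mem_preimg S π.2 (S.compl _ huv)))
      have hdx : x ∈ d := ⟨⟨hxu, hxv⟩, fun h => hxu' h.1, fun h => hxv' h.2⟩
      have hbB : d ∪ {y | (π : Perm X) y ∈ d} ∈ B := S.union hdB (mem_preimg S π.2 hdB)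
      obtain ⟨f, hf, hf1, hf2⟩ := hres _ hbB (by
        intro y
        constructor
        · rintro (h | h)
          · right
            change (π : Perm X) ((π : Perm X) y) ∈ d
            rw [hππ]; exact h
          · left; exact h
        · rintro (h | h)
          · right; exact h
          · left
            change (π : Perm X) ((π : Perm X) y) ∈ d at h
            rwa [hππ] at h)
      have e := hcomm _ _ (hg f hf) x
      rw [hf1 x (Or.inl hdx), hgπ] at e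
      have hgx : (g : Perm X) x ∉ d ∪ {y | (π : Perm X) y ∈ d} := by
        rintro (h | h)
        · exact h.2.1 hdx.1
        · have := h.2.2
          change (π : Perm X) ((π : Perm X) ((g : Perm X) x)) ∈ (u ∩ v)ᶜ at this
          rw [hππ] at this
          exact this hdx.1
      rw [hf2 _ hgx] at e
      -- π (g x) = g x, so g (π x) = g x
      rw [← hgπ] at e
      exact hπx ((g : Perm X).injective e)
    intro x hx
    by_contra hne
    obtain ⟨u, hu, hxu, hxu'⟩ := S.sep _ _ hne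
    set d : Set X := a ∩ (uᶜ ∩ {y | ((g * g : G) : Perm X) y ∈ u}) with hd
    have hdB : d ∈ B := S.inter _ ha _ (S.inter _ (S.compl _ hu) _
      (mem_preimg S (g * g).2 hu))
    have hdx : x ∈ d := ⟨hx, hxu', by simpa using hxu⟩
    obtain ⟨y, hyd, hyπ⟩ := hon d hdB (fun z hz => hz.1) ⟨x, hdx⟩
    have h1 := step y hyd.1 hyπ
    have h2 : ((g * g : G) : Perm X) y ∈ u := hyd.2.2
    have h3 : ((g * g : G) : Perm X) y = y := by simpa using h1
    rw [h3] at h2
    exact hyd.2.1 h2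
  ext w
  constructor
  · intro hw x hx
    by_contra hne
    obtain ⟨u, hu, hxu, hxu'⟩ := S.sep _ _ hne
    set d : Set X := aᶜ ∩ (uᶜ ∩ {y | (w : Perm X) y ∈ u}) with hd
    have hdB : d ∈ B := S.inter _ (S.compl _ ha) _ (S.inter _ (S.compl _ hu) _
      (mem_preimg S w.2 hu))
    have hdx : x ∈ d := ⟨hx, hxu', hxu⟩
    obtain ⟨ψ, hψG, hψ1, hψ2⟩ := S.rich d hdB ⟨x, hdx⟩
    have hψV : (⟨ψ, hψG⟩ : G) ∈ VV π := by
      intro φ hφ
      have hφ1 := hU φ hφ
      ext y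
      change ψ ((φ : Perm X) y) = (φ : Perm X) (ψ y)
      by_cases hy : y ∈ a
      · have hφy : (φ : Perm X) y ∈ a := by
          by_contra hc
          have := hφ1 _ hc
          have := (φ : Perm X).injective this
          rw [this] at hc; exact hc hy
        rw [hψ1 _ (fun h => h.1 hφy), hψ1 _ (fun h => h.1 hy)]
      · rw [hφ1 y hy]
        by_cases hy2 : y ∈ d
        · have : ψ y ∈ d := by
            by_contra hc
            have := hψ1 _ hc
            have := ψ.injective this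
            rw [this] at hc; exact hc hy2
          rw [hφ1 _ this.1]
        · rw [hψ1 y hy2, hφ1 y hy]
    have h5 := hcomm _ _ (hw _ hψV)
    apply hψ2
    ext y
    change ψ (ψ y) = y
    by_cases hy : y ∈ d
    · have h6 : (w : Perm X) (ψ (ψ y)) = ψ (ψ ((w : Perm X) y)) := h5 y
      have hnot : (w : Perm X) y ∉ d := fun h => h.2.1 hy.2.2
      rw [hψ1 _ hnot, hψ1 _ hnot] at h6
      exact (w : Perm X).injective h6
    · rw [hψ1 y hy, hψ1 y hy]
  · intro hw g hg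
    have hg2 := hV g hg
    ext x
    change (w : Perm X) ((g : Perm X) ((g : Perm X) x)) = (g : Perm X) ((g : Perm X) ((w : Perm X) x))
    by_cases hx : x ∈ a
    · have hwx : (w : Perm X) x ∈ a := by
        by_contra hc
        have := hw _ hc
        have := (w : Perm X).injective this
        rw [this] at hc; exact hc hx
      rw [hg2 x hx, hg2 _ hwx]
    · rw [hw x hx]
      have : (g : Perm X) ((g : Perm X) x) ∉ a := by
        intro hc
        have h7 := hg2 _ hc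
        have h8 := (g : Perm X).injective h7
        have h9 := (g : Perm X).injective h8
        rw [h9] at hc
        exact hx hc
      rw [hw _ this]

end


section Rel

variable {X : Type} {G : Subgroup (Perm X)} {B : Set (Set X)}

theorem maps_in {ψ : Perm X} {d : Set X} (h : ∀ x ∉ d, ψ x = x) {y : X} (hy : y ∈ d) : ψ y ∈ d := by
  by_contra hc
  have h1 := h _ hc
  have h2 := ψ.injective h1
  rw [h2] at hc; exact hc hy

theorem LL_subset_iff (S : Sys G B) {a a' : Set X} (ha : a ∈ B) (ha' : a' ∈ B) :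
    a ⊆ a' ↔ ∀ g : G, g ∈ LL G a → g ∈ LL G a' := by
  constructor
  · intro h g hg x hx
    exact hg x (fun hh => hx (h hh))
  · intro h x hx
    by_contra hc
    obtain ⟨ψ, hψG, hψ1, hψ2⟩ := S.rich (a \ a') (S.diff ha ha') ⟨x, hx, hc⟩
    have h1 : (⟨ψ, hψG⟩ : G) ∈ LL G a := fun y hy => hψ1 y (fun hh => hy hh.1)
    have h2 := h _ h1
    apply hψ2
    have : ψ = 1 := by
      ext y
      by_cases hy : y ∈ a \ a'
      · exact h2 y hy.2
      · exact hψ1 y hy
    rw [this]; rfl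

theorem LL_disj_iff (S : Sys G B) {a a' : Set X} (ha : a ∈ B) (ha' : a' ∈ B) :
    a ∩ a' = ∅ ↔ ∀ g : G, g ∈ LL G a → g ∈ LL G a' → g = 1 := by
  constructor
  · intro h g hg hg'
    ext x
    by_cases hx : x ∈ a
    · have : x ∉ a' := fun hh => by
        have : x ∈ a ∩ a' := ⟨hx, hh⟩
        rw [h] at this; exact this
      exact hg' x this
    · exact hg x hx
  · intro h
    by_contra hne
    obtain ⟨ψ, hψG, hψ1, hψ2⟩ := S.rich (a ∩ a') (S.inter _ ha _ ha')
      (Set.nonempty_iff_ne_empty.2 hne)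
    have h1 := h ⟨ψ, hψG⟩ (fun y hy => hψ1 y (fun hh => hy hh.1))
      (fun y hy => hψ1 y (fun hh => hy hh.2))
    apply hψ2
    have : ψ = 1 := congrArg Subtype.val h1
    rw [this]; rfl

theorem LL_compl_iff (S : Sys G B) {a : Set X} (ha : a ∈ B) (g : G) :
    g ∈ LL G aᶜ ↔ ∀ h : G, h ∈ LL G a → g * h = h * g := by
  constructor
  · intro hg h hh
    ext x
    change (g : Perm X) ((h : Perm X) x) = (h : Perm X) ((g : Perm X) x)
    by_cases hx : x ∈ a
    · rw [hg x (fun hc => hc hx), hg _ (fun hc => hc (maps_in hh hx))]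
    · rw [hh x hx]
      have : (g : Perm X) x ∉ a := maps_in (d := aᶜ) hg hx
      rw [hh _ this]
  · intro hcom x hx
    have hxa : x ∈ a := by
      by_contra hc; exact hx hc
    by_contra hne
    obtain ⟨u, hu, hxu, hxu'⟩ := S.sep _ _ hne
    set d : Set X := a ∩ (uᶜ ∩ {y | (g : Perm X) y ∈ u}) with hd
    have hdB : d ∈ B := S.inter _ ha _ (S.inter _ (S.compl _ hu) _ (mem_preimg S g.2 hu))
    have hdx : x ∈ d := ⟨hxa, hxu', hxu⟩
    obtain ⟨ψ, hψG, hψ1, hψ2⟩ := S.rich d hdB ⟨x, hdx⟩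
    have hc := hcom ⟨ψ, hψG⟩ (fun y hy => hψ1 y (fun hh => hy hh.1))
    apply hψ2
    have : ψ = 1 := by
      ext y
      by_cases hy : y ∈ d
      · have e : (g : Perm X) (ψ y) = ψ ((g : Perm X) y) :=
          congrArg (fun f : G => (f : Perm X) y) hc
        have hnot : (g : Perm X) y ∉ d := fun h => h.2.1 hy.2.2
        rw [hψ1 _ hnot] at e
        exact (g : Perm X).injective e
      · exact hψ1 y hy
    rw [this]; rfl

theorem LL_img_iff {a : Set X} (g h : G) :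
    h ∈ LL G ((g : Perm X) '' a) ↔ g⁻¹ * h * g ∈ LL G a := by
  constructor
  · intro hh x hx
    have : (g : Perm X) x ∉ (g : Perm X) '' a := by
      rintro ⟨y, hy, hxy⟩
      exact hx ((g : Perm X).injective hxy ▸ hy)
    have e := hh _ this
    change (g : Perm X)⁻¹ ((h : Perm X) ((g : Perm X) x)) = x
    rw [e]; simp
  · intro hh x hx
    have : (g : Perm X)⁻¹ x ∉ a := by
      intro hc
      exact hx ⟨_, hc, by simp⟩
    have e := hh _ this
    change (g : Perm X)⁻¹ ((h : Perm X) ((g : Perm X) ((g : Perm X)⁻¹ x))) = (g : Perm X)⁻¹ x at e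
    have e2 := (g : Perm X)⁻¹.injective e
    simpa using e2

variable {Y : Type} {H : Subgroup (Perm Y)} {C : Set (Set Y)}

/-- the correspondence of sets induced by an isomorphism -/
def Rel (B : Set (Set X)) (C : Set (Set Y)) (Θ : G ≃* H) (a : Set X) (b : Set Y) : Prop :=
  a ∈ B ∧ b ∈ C ∧ ∀ g : G, g ∈ LL G a ↔ Θ g ∈ LL H b

theorem Rel.symm {Θ : G ≃* H} {a : Set X} {b : Set Y} (h : Rel B C Θ a b) :
    Rel C B Θ.symm b a := by
  refine ⟨h.2.1, h.1, fun g => ?_⟩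
  rw [h.2.2 (Θ.symm g)]; simp

theorem rel_exists (S : Sys G B) (T : Sys H C) (Θ : G ≃* H) (a : Set X) (ha : a ∈ B) :
    ∃ b, Rel B C Θ a b := by
  obtain ⟨π, hπG, hπ1, hπ2, hπ3⟩ := S.invol a ha
  set π' : G := ⟨π, hπG⟩
  have hππ : π' * π' = 1 := Subtype.ext hπ1
  have hW := WW_eq S π' hππ a ha hπ2 (fun d _ hda ⟨x, hx⟩ => ⟨x, hx, hπ3 x (hda hx)⟩)
  obtain ⟨b, hb, hb1, hb2⟩ := T.supp (Θ π') (Θ π').2
  have hW' := WW_eq T (Θ π') (by rw [← map_mul, hππ, map_one]) b hb hb1 hb2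
  refine ⟨b, ha, hb, fun g => ?_⟩
  rw [← hW, ← hW', WW_iff]

theorem rel_exists' (S : Sys G B) (T : Sys H C) (Θ : G ≃* H) (b : Set Y) (hb : b ∈ C) :
    ∃ a, Rel B C Θ a b := by
  obtain ⟨a, ha⟩ := rel_exists T S Θ.symm b hb
  exact ⟨a, by have := ha.symm; simpa using this⟩

theorem Rel.subset_imp (_S : Sys G B) (T : Sys H C) {Θ : G ≃* H} {a a' : Set X} {b b' : Set Y}
    (h : Rel B C Θ a b) (h' : Rel B C Θ a' b') (hs : a ⊆ a') : b ⊆ b' := by
  rw [LL_subset_iff T h.2.1 h'.2.1]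
  intro g hg
  obtain ⟨g, rfl⟩ := Θ.surjective g
  rw [← h.2.2] at hg
  rw [← h'.2.2]
  exact fun x hx => hg x (fun hh => hx (hs hh))

theorem Rel.disj_iff (S : Sys G B) (T : Sys H C) {Θ : G ≃* H} {a a' : Set X} {b b' : Set Y}
    (h : Rel B C Θ a b) (h' : Rel B C Θ a' b') : a ∩ a' = ∅ ↔ b ∩ b' = ∅ := by
  rw [LL_disj_iff S h.1 h'.1, LL_disj_iff T h.2.1 h'.2.1]
  constructor
  · intro hh g hg hg'
    obtain ⟨g, rfl⟩ := Θ.surjective g
    rw [← h.2.2] at hg
    rw [← h'.2.2] at hg'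
    rw [hh g hg hg', map_one]
  · intro hh g hg hg'
    rw [h.2.2] at hg
    rw [h'.2.2] at hg'
    have := hh _ hg hg'
    exact Θ.injective (this.trans (map_one Θ).symm)

theorem Rel.inter (S : Sys G B) (T : Sys H C) {Θ : G ≃* H} {a a' : Set X} {b b' : Set Y}
    (h : Rel B C Θ a b) (h' : Rel B C Θ a' b') : Rel B C Θ (a ∩ a') (b ∩ b') := by
  refine ⟨S.inter _ h.1 _ h'.1, T.inter _ h.2.1 _ h'.2.1, fun g => ?_⟩
  have k1 : g ∈ LL G (a ∩ a') ↔ g ∈ LL G a ∧ g ∈ LL G a' := by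
    constructor
    · intro hg
      exact ⟨fun x hx => hg x (fun hh => hx hh.1), fun x hx => hg x (fun hh => hx hh.2)⟩
    · rintro ⟨h1, h2⟩ x hx
      by_cases hxa : x ∈ a
      · exact h2 x (fun hh => hx ⟨hxa, hh⟩)
      · exact h1 x hxa
  have k2 : Θ g ∈ LL H (b ∩ b') ↔ Θ g ∈ LL H b ∧ Θ g ∈ LL H b' := by
    constructor
    · intro hg
      exact ⟨fun x hx => hg x (fun hh => hx hh.1), fun x hx => hg x (fun hh => hx hh.2)⟩
    · rintro ⟨h1, h2⟩ x hx
      by_cases hxa : x ∈ b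
      · exact h2 x (fun hh => hx ⟨hxa, hh⟩)
      · exact h1 x hxa
  rw [k1, k2, h.2.2, h'.2.2]

theorem Rel.compl (S : Sys G B) (T : Sys H C) {Θ : G ≃* H} {a : Set X} {b : Set Y}
    (h : Rel B C Θ a b) : Rel B C Θ aᶜ bᶜ := by
  refine ⟨S.compl _ h.1, T.compl _ h.2.1, fun g => ?_⟩
  rw [LL_compl_iff S h.1, LL_compl_iff T h.2.1]
  constructor
  · intro hh k hk
    obtain ⟨k, rfl⟩ := Θ.surjective k
    rw [← h.2.2] at hk
    rw [← map_mul, hh k hk, map_mul]
  · intro hh k hk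
    rw [h.2.2] at hk
    have := hh _ hk
    rw [← map_mul, ← map_mul] at this
    exact Θ.injective this

theorem Rel.img (S : Sys G B) (T : Sys H C) {Θ : G ≃* H} {a : Set X} {b : Set Y}
    (h : Rel B C Θ a b) (g : G) :
    Rel B C Θ ((g : Perm X) '' a) ((Θ g : Perm Y) '' b) := by
  refine ⟨S.img _ g.2 _ h.1, T.img _ (Θ g).2 _ h.2.1, fun k => ?_⟩
  rw [LL_img_iff, LL_img_iff, h.2.2]
  simp

end Rel

end Pool.Agent.Helper111.Recon
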