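import Pool.Agent.Helper111.CT
import Pool.Agent.Helper111.Recon

set_option autoImplicit false

namespace Pool.Agent.Helper111.CT

open Equiv Pool.Agent.Helper111.Recon

/-- periodic sets with period in `Mo` -/
def PB (Mo : ℤ → Prop) : Set (Set ℤ) := {a | ∃ M : ℤ, 0 < M ∧ Mo M ∧ ∀ x : ℤ, x ∈ a ↔ x + M ∈ a}

theorem per_mul {a : Set ℤ} {M : ℤ} (h : ∀ x : ℤ, x ∈ a ↔ x + M ∈ a) (x k : ℤ) :
    x ∈ a ↔ x + M * k ∈ a := by
  induction k using Int.induction_on with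
  | zero => simp
  | succ k ih => rw [show x + M * ((k : ℤ) + 1) = (x + M * k) + M by ring, ← h, ih]
  | pred k ih => rw [h (x + M * (-(k : ℤ) - 1)), show x + M * (-(k : ℤ) - 1) + M = x + M * (-k) by ring, ih]

theorem two_pow_mem {Mo : ℤ → Prop} (hMo : Adm Mo) (t : ℕ) : Mo (2 ^ t) := by
  induction t with
  | zero => simpa using hMo.one
  | succ t ih => rw [pow_succ]; exact hMo.mul _ _ ih hMo.two

theorem full_refine {Mo : ℤ → Prop} (hMo : Adm Mo) {g : Perm ℤ} {M : ℤ} (hM : 0 < M)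
    (h : ∀ i : ℤ, 0 ≤ i → i < M →
      ∃ c m : ℤ, 0 ≤ c ∧ c < m ∧ Mo m ∧ ∀ k : ℤ, g (i + M * k) = c + m * k)
    (t : ℤ) (hMt : Mo t) : ∀ i : ℤ, 0 ≤ i → i < M * t →
      ∃ c m : ℤ, 0 ≤ c ∧ c < m ∧ Mo m ∧ ∀ k : ℤ, g (i + M * t * k) = c + m * k := by
  intro i hi0 hi1
  obtain ⟨c, m, h1, h2, h3, h4⟩ := h (i % M) (Int.emod_nonneg _ hM.ne') (Int.emod_lt_of_pos _ hM)
  have e1 := Int.emod_add_mul_ediv i M
  have s0 : 0 ≤ i / M := Int.ediv_nonneg hi0 hM.le
  have s1 : i / M < t := Int.ediv_lt_of_lt_mul hM (by linarith)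
  have hm : 0 < m := by linarith
  refine ⟨c + m * (i / M), m * t, by positivity, by nlinarith, hMo.mul _ _ h3 hMt, ?_⟩
  intro k
  rw [show i + M * t * k = i % M + M * (i / M + t * k) by linear_combination -e1, h4]; ring

theorem class_sub {a : Set ℤ} {M : ℤ} (h : ∀ x : ℤ, x ∈ a ↔ x + M ∈ a) (x : ℤ) :
    x ∈ a ↔ x % M ∈ a := by
  rw [per_mul h (x % M) (x / M), Int.emod_add_mul_ediv]

theorem img_mem {Mo : ℤ → Prop} (hMo : Adm Mo) {g : Perm ℤ} (hg : Full Mo g) {a : Set ℤ}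
    (ha : a ∈ PB Mo) : g '' a ∈ PB Mo := by
  obtain ⟨M₁, hM₁, hMM₁, hp⟩ := ha
  obtain ⟨M, hM, hMM, h⟩ := full_inv hMo hg
  refine ⟨M * M₁, by positivity, hMo.mul _ _ hMM hMM₁, ?_⟩
  intro x
  obtain ⟨c, m, h1, h2, h3, h4⟩ := h (x % M) (Int.emod_nonneg _ hM.ne') (Int.emod_lt_of_pos _ hM)
  have e1 := Int.emod_add_mul_ediv x M
  have k1 : ∀ y, y ∈ g '' a ↔ g⁻¹ y ∈ a := by
    intro y
    constructor
    · rintro ⟨z, hz, rfl⟩; simpa using hz
    · intro hy; exact ⟨_, hy, by simp⟩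
  rw [k1, k1]
  have e2 : g⁻¹ x = c + m * (x / M) := by rw [← h4, e1]
  have e3 : g⁻¹ (x + M * M₁) = c + m * (x / M) + M₁ * m := by
    rw [show x + M * M₁ = x % M + M * (x / M + M₁) by linear_combination -e1, h4]; ring
  rw [e2, e3, per_mul hp _ m]

theorem sep_mem {Mo : ℤ → Prop} (hMo : Adm Mo) (x y : ℤ) (hxy : x ≠ y) :
    ∃ u ∈ PB Mo, x ∈ u ∧ y ∉ u := by
  refine ⟨{z | (2 : ℤ) ^ (y - x).natAbs ∣ z - x}, ⟨2 ^ (y - x).natAbs, by positivity,
    two_pow_mem hMo _, ?_⟩, ?_, ?_⟩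
  · intro z
    simp only [Set.mem_ofPred_eq]
    rw [show z + 2 ^ (y - x).natAbs - x = z - x + 2 ^ (y - x).natAbs by ring]
    simp
  · simp
  · simp only [Set.mem_ofPred_eq]
    intro h
    have h1 := Int.le_of_dvd (b := |y - x|) (by
      rw [abs_pos]; intro h; apply hxy; linarith) ((dvd_abs _ _).2 h)
    have h2 : |y - x| = ((y - x).natAbs : ℤ) := Int.abs_eq_natAbs _
    rw [h2] at h1
    have h3 : (y - x).natAbs < 2 ^ (y - x).natAbs := Nat.lt_two_pow_self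
    have h4 : (((y - x).natAbs : ℕ) : ℤ) < 2 ^ (y - x).natAbs := by exact_mod_cast h3
    linarith

theorem patch_mem {Mo : ℤ → Prop} (hMo : Adm Mo) {g : Perm ℤ} (hg : Full Mo g) {a : Set ℤ}
    (ha : a ∈ PB Mo) (hga : ∀ x, x ∈ a ↔ g x ∈ a) :
    ∃ f : Perm ℤ, Full Mo f ∧ (∀ x ∈ a, f x = g x) ∧ ∀ x ∉ a, f x = x := by
  classical
  have hga' : ∀ x, x ∈ a ↔ g⁻¹ x ∈ a := by
    intro x; rw [hga (g⁻¹ x)]; simp
  let f : Perm ℤ :=
    { toFun := fun x => if x ∈ a then g x else x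
      invFun := fun x => if x ∈ a then g⁻¹ x else x
      left_inv := by
        intro x
        by_cases hx : x ∈ a
        · simp [hx, (hga x).1 hx]
        · simp [hx]
      right_inv := by
        intro x
        by_cases hx : x ∈ a
        · have := (hga' x).1 hx
          simp only [hx, if_true, this]
          simp
        · simp [hx] }
  have f1 : ∀ x ∈ a, f x = g x := fun x hx => if_pos hx
  have f2 : ∀ x ∉ a, f x = x := fun x hx => if_neg hx
  refine ⟨f, ?_, f1, f2⟩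
  obtain ⟨M₁, hM₁, hMM₁, hp⟩ := ha
  obtain ⟨M, hM, hMM, h⟩ := hg
  refine ⟨M * M₁, by positivity, hMo.mul _ _ hMM hMM₁, ?_⟩
  intro i hi0 hi1
  by_cases hi : i ∈ a
  · obtain ⟨c, m, h1, h2, h3, h4⟩ := full_refine hMo hM h M₁ hMM₁ i hi0 hi1
    refine ⟨c, m, h1, h2, h3, fun k => ?_⟩
    rw [← h4]
    apply f1
    rw [show i + M * M₁ * k = i + M₁ * (M * k) by ring, ← per_mul hp]; exact hi
  · refine ⟨i, M * M₁, hi0, hi1, hMo.mul _ _ hMM hMM₁, fun k => ?_⟩
    apply f2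
    rw [show i + M * M₁ * k = i + M₁ * (M * k) by ring, ← per_mul hp]; exact hi

theorem rich_mem {Mo : ℤ → Prop} (hMo : Adm Mo) {d : Set ℤ} (hd : d ∈ PB Mo) (hne : d.Nonempty) :
    ∃ ψ ∈ CTg Mo, (∀ x ∉ d, ψ x = x) ∧ ψ * ψ ≠ 1 := by
  obtain ⟨m, hm, hmm, hp⟩ := hd
  obtain ⟨x0, hx0⟩ := hne
  rw [class_sub hp] at hx0
  have hr0 := Int.emod_nonneg x0 hm.ne'
  have hr1 := Int.emod_lt_of_pos x0 hm
  set r := x0 % m
  have h4 : Mo (4 * m) := by
    have := hMo.mul _ _ (two_pow_mem hMo 2) hmm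
    norm_num at this; exact this
  have h4p : 0 < 4 * m := by positivity
  have key : ∀ s t : ℤ, 0 ≤ s → s < t → t < 4 → ∀ n : ℤ,
      ¬ (4 * m ∣ n - (r + m * s) ∧ 4 * m ∣ n - (r + m * t)) := by
    rintro s t hs hst ht n ⟨h1, h2⟩
    have h3 := dvd_sub h1 h2
    rw [show n - (r + m * s) - (n - (r + m * t)) = m * (t - s) by ring, mul_comm 4 m] at h3
    have h4 := (mul_dvd_mul_iff_left hm.ne').1 h3
    have := Int.le_of_dvd (by linarith) h4
    linarith
  obtain ⟨τ, t1, t2⟩ := exists_ct (r + m * 0) (4 * m) (r + m * 1) (4 * m) h4p h4p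
    (key 0 1 (by norm_num) (by norm_num) (by norm_num))
  obtain ⟨ρ, s1, s2⟩ := exists_ct (r + m * 1) (4 * m) (r + m * 2) (4 * m) h4p h4p
    (key 1 2 (by norm_num) (by norm_num) (by norm_num))
  have hτ : τ ∈ CTg Mo := mem_of_isCT ⟨r + m * 0, 4 * m, r + m * 1, 4 * m, by linarith,
    by linarith, by linarith, by linarith, h4, h4, key 0 1 (by norm_num) (by norm_num) (by norm_num),
    t1, t2⟩
  have hρ : ρ ∈ CTg Mo := mem_of_isCT ⟨r + m * 1, 4 * m, r + m * 2, 4 * m, by linarith,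
    by linarith, by linarith, by linarith, h4, h4, key 1 2 (by norm_num) (by norm_num) (by norm_num),
    s1, s2⟩
  have out : ∀ s : ℤ, ∀ x ∉ d, ¬ 4 * m ∣ x - (r + m * s) := by
    rintro s x hx ⟨k, hk⟩
    apply hx
    have : x = r + m * (s + 4 * k) := by linarith
    rw [this, ← per_mul hp]; exact hx0
  refine ⟨τ * ρ, Subgroup.mul_mem _ hτ hρ, ?_, ?_⟩
  · intro x hx
    rw [Perm.mul_apply, s2 x (out 1 x hx) (out 2 x hx), t2 x (out 0 x hx) (out 1 x hx)]
  · intro h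
    have h1 : (τ * ρ * (τ * ρ)) (r + m * 0 + 4 * m * 0) = r + m * 0 + 4 * m * 0 := by
      rw [h]; rfl
    rw [Perm.mul_apply, Perm.mul_apply, Perm.mul_apply] at h1
    have e1 : ρ (r + m * 0 + 4 * m * 0) = r + m * 0 + 4 * m * 0 := by
      apply s2
      · intro hc
        exact key 0 1 (by norm_num) (by norm_num) (by norm_num) _ ⟨⟨0, by ring⟩, hc⟩
      · intro hc
        exact key 0 2 (by norm_num) (by norm_num) (by norm_num) _ ⟨⟨0, by ring⟩, hc⟩
    rw [e1, (t1 0).1, (s1 0).1] at h1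
    have e2 : τ (r + m * 2 + 4 * m * 0) = r + m * 2 + 4 * m * 0 := by
      apply t2
      · intro hc
        exact key 0 2 (by norm_num) (by norm_num) (by norm_num) _ ⟨hc, ⟨0, by ring⟩⟩
      · intro hc
        exact key 1 2 (by norm_num) (by norm_num) (by norm_num) _ ⟨hc, ⟨0, by ring⟩⟩
    rw [e2] at h1
    linarith

theorem supp_mem {Mo : ℤ → Prop} {f : Perm ℤ} (hf : Full Mo f) :
    ∃ a ∈ PB Mo, (∀ x ∉ a, f x = x) ∧
    ∀ d ∈ PB Mo, d ⊆ a → d.Nonempty → ∃ x ∈ d, f x ≠ x := by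
  obtain ⟨M, hM, hMM, h⟩ := hf
  refine ⟨{x | ∃ k : ℤ, f (x + M * k) ≠ x + M * k}, ⟨M, hM, hMM, ?_⟩, ?_, ?_⟩
  · intro x
    constructor
    · rintro ⟨k, hk⟩
      refine ⟨k - 1, ?_⟩
      rw [show x + M + M * (k - 1) = x + M * k by ring]; exact hk
    · rintro ⟨k, hk⟩
      refine ⟨k + 1, ?_⟩
      rw [show x + M * (k + 1) = x + M + M * k by ring]; exact hk
  · intro x hx
    by_contra hc
    apply hx
    exact ⟨0, by simpa using hc⟩
  · rintro d ⟨m', hm', _, hp⟩ hda ⟨x, hx⟩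
    obtain ⟨k, hk⟩ := hda hx
    obtain ⟨c, m, h1, h2, h3, h4⟩ := h (x % M) (Int.emod_nonneg _ hM.ne')
      (Int.emod_lt_of_pos _ hM)
    have e1 := Int.emod_add_mul_ediv x M
    have hval : ∀ t : ℤ, f (x + M * t) = c + m * (x / M + t) := by
      intro t
      rw [show x + M * t = x % M + M * (x / M + t) by linear_combination -e1, h4]
    by_contra hcon
    push Not at hcon
    have a0 := hcon x hx
    have a1 := hcon (x + m' * M) (by rw [← per_mul hp]; exact hx)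
    have b0 := hval 0
    have b1 := hval m'
    rw [mul_zero, add_zero, add_zero, a0] at b0
    rw [mul_comm M m', a1] at b1
    have hmM : m = M := by
      have : m' * (m - M) = 0 := by linear_combination b0 - b1
      rcases mul_eq_zero.1 this with h | h
      · linarith
      · linarith
    apply hk
    rw [hval k, hmM]
    rw [hmM] at b0
    linear_combination -b0

theorem invol_mem {Mo : ℤ → Prop} (hMo : Adm Mo) {a : Set ℤ} (ha : a ∈ PB Mo) :
    ∃ π : Perm ℤ, Full Mo π ∧ π * π = 1 ∧ (∀ x ∉ a, π x = x) ∧ ∀ x ∈ a, π x ≠ x := by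
  classical
  obtain ⟨M, hM, hMM, hp⟩ := ha
  let f : ℤ → ℤ := fun x => if x ∈ a then (if (x / M) % 2 = 0 then x + M else x - M) else x
  have hp' : ∀ x, x ∈ a ↔ x - M ∈ a := by
    intro x; rw [hp (x - M)]; simp
  have f0 : ∀ x ∉ a, f x = x := fun x hx => if_neg hx
  have d1 : ∀ x : ℤ, (x + M) / M = x / M + 1 := fun x => by
    rw [Int.add_ediv_of_dvd_right (dvd_refl M), Int.ediv_self hM.ne']
  have d2 : ∀ x : ℤ, (x - M) / M = x / M - 1 := fun x => by
    have := d1 (x - M)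
    rw [sub_add_cancel] at this; linarith
  have f1 : ∀ x ∈ a, (x / M) % 2 = 0 → f x = x + M := fun x hx h => by
    simp only [f, if_pos hx, if_pos h]
  have f2 : ∀ x ∈ a, ¬ (x / M) % 2 = 0 → f x = x - M := fun x hx h => by
    simp only [f, if_pos hx, if_neg h]
  have hf : Function.Involutive f := by
    intro x
    by_cases hx : x ∈ a
    · by_cases h : (x / M) % 2 = 0
      · rw [f1 x hx h, f2 _ ((hp x).1 hx) (by rw [d1]; omega)]; ring
      · rw [f2 x hx h, f1 _ ((hp' x).1 hx) (by rw [d2]; omega)]; ring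
    · rw [f0 x hx, f0 x hx]
  refine ⟨hf.toPerm, ?_, ?_, f0, ?_⟩
  · refine ⟨M * 2, by positivity, hMo.mul _ _ hMM hMo.two, ?_⟩
    intro i hi0 hi1
    have hmem : ∀ k : ℤ, i ∈ a ↔ i + M * 2 * k ∈ a := by
      intro k
      rw [show i + M * 2 * k = i + M * (2 * k) by ring]; exact per_mul hp i _
    have hdiv : ∀ k : ℤ, (i + M * 2 * k) / M = i / M + 2 * k := by
      intro k
      rw [show i + M * 2 * k = i + M * (2 * k) by ring, Int.add_mul_ediv_left _ _ hM.ne']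
    have q0 : 0 ≤ i / M := Int.ediv_nonneg hi0 hM.le
    have q1 : i / M < 2 := Int.ediv_lt_of_lt_mul hM (by linarith)
    have e1 := Int.emod_add_mul_ediv i M
    have r0 := Int.emod_nonneg i hM.ne'
    have r1 := Int.emod_lt_of_pos i hM
    by_cases hi : i ∈ a
    · by_cases h : (i / M) % 2 = 0
      · have hz : i / M = 0 := by omega
        rw [hz] at e1
        refine ⟨i + M, M * 2, by positivity, by linarith, hMo.mul _ _ hMM hMo.two, fun k => ?_⟩
        change f _ = _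
        rw [f1 _ ((hmem k).1 hi) (by rw [hdiv]; omega)]; ring
      · have hz : i / M = 1 := by omega
        rw [hz] at e1
        refine ⟨i - M, M * 2, by linarith, by linarith, hMo.mul _ _ hMM hMo.two, fun k => ?_⟩
        change f _ = _
        rw [f2 _ ((hmem k).1 hi) (by rw [hdiv]; omega)]; ring
    · refine ⟨i, M * 2, hi0, hi1, hMo.mul _ _ hMM hMo.two, fun k => ?_⟩
      exact f0 _ (fun hc => hi ((hmem k).2 hc))
  · ext x
    exact hf x
  · intro x hx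
    change f x ≠ x
    by_cases h : (x / M) % 2 = 0
    · rw [f1 x hx h]; linarith
    · rw [f2 x hx h]; linarith

theorem sysCT {Mo : ℤ → Prop} (hMo : Adm Mo) : Sys (CTg Mo) (PB Mo) where
  compl := by
    rintro a ⟨M, hM, hMM, hp⟩
    refine ⟨M, hM, hMM, fun x => ?_⟩
    rw [Set.mem_compl_iff, Set.mem_compl_iff, hp]
  inter := by
    rintro a ⟨M, hM, hMM, hp⟩ b ⟨N, hN, hNN, hq⟩
    refine ⟨M * N, by positivity, hMo.mul _ _ hMM hNN, fun x => ?_⟩
    constructor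
    · rintro ⟨h1, h2⟩
      refine ⟨(per_mul hp _ _).1 h1, ?_⟩
      rw [mul_comm]; exact (per_mul hq _ _).1 h2
    · rintro ⟨h1, h2⟩
      refine ⟨(per_mul hp _ _).2 h1, ?_⟩
      rw [mul_comm] at h2; exact (per_mul hq _ _).2 h2
  img := by
    intro g hg a ha
    exact img_mem hMo ((mem_CTg_iff hMo g).1 hg) ha
  sep := sep_mem hMo
  patch := by
    intro g hg a ha h
    obtain ⟨f, h1, h2, h3⟩ := patch_mem hMo ((mem_CTg_iff hMo g).1 hg) ha h
    exact ⟨f, (mem_CTg_iff hMo f).2 h1, h2, h3⟩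
  rich := fun d hd hne => rich_mem hMo hd hne
  supp := by
    intro f hf
    exact supp_mem ((mem_CTg_iff hMo f).1 hf)
  invol := by
    intro a ha
    obtain ⟨f, h1, h2, h3, h4⟩ := invol_mem hMo ha
    exact ⟨f, (mem_CTg_iff hMo f).2 h1, h2, h3, h4⟩

end Pool.Agent.Helper111.CT
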