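import Mathlib

set_option autoImplicit false

open Polynomial

namespace Pool.Agent.Helper111.EP

/-! ### truncated polynomial ring and its 1-units -/

abbrev RR (K : Type) [Field K] (n : ℕ) : Type := K[X] ⧸ Ideal.span {(X : K[X]) ^ (n + 1)}

noncomputable abbrev mkR (K : Type) [Field K] (n : ℕ) : K[X] →+* RR K n :=
  Ideal.Quotient.mk (Ideal.span {(X : K[X]) ^ (n + 1)})

noncomputable def ev0 (K : Type) [Field K] (n : ℕ) : RR K n →+* K :=
  Ideal.Quotient.lift _ (Polynomial.evalRingHom (0 : K)) (by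
    intro a ha
    rw [Ideal.mem_span_singleton] at ha
    obtain ⟨b, rfl⟩ := ha
    simp)

theorem ev0_mk (K : Type) [Field K] (n : ℕ) (p : K[X]) : ev0 K n (mkR K n p) = p.eval 0 := by
  simp [ev0, mkR]

/-- the group of 1-units -/
noncomputable def U (K : Type) [Field K] (n : ℕ) : Subgroup (RR K n)ˣ :=
  (Units.map (ev0 K n : RR K n →* K)).ker

theorem isUnit_mk (K : Type) [Field K] (n : ℕ) (p : K[X]) (hp : p.eval 0 = 1) :
    IsUnit (mkR K n p) := by
  have h1 : IsCoprime (X : K[X]) p := by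
    obtain ⟨q, hq⟩ : (X : K[X]) ∣ p - 1 := by
      rw [Polynomial.X_dvd_iff, Polynomial.coeff_zero_eq_eval_zero]
      simp [hp]
    refine ⟨-q, 1, ?_⟩
    linear_combination hq
  have h2 : IsCoprime ((X : K[X]) ^ (n + 1)) p := h1.pow_left
  obtain ⟨a, b, hab⟩ := h2
  refine IsUnit.of_mul_eq_one (mkR K n b) ?_
  rw [← map_mul, ← map_one (mkR K n)]
  rw [Ideal.Quotient.eq, Ideal.mem_span_singleton]
  exact ⟨-a, by linear_combination hab⟩

noncomputable def mkU (K : Type) [Field K] (n : ℕ) (p : K[X]) (hp : p.eval 0 = 1) : U K n :=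
  ⟨(isUnit_mk K n p hp).unit, by
    show _ ∈ (Units.map (ev0 K n : RR K n →* K)).ker
    rw [MonoidHom.mem_ker]
    ext
    simp only [Units.coe_map, IsUnit.unit_spec, MonoidHom.coe_coe, Units.val_one]
    rw [ev0_mk, hp]⟩

theorem mkU_coe (K : Type) [Field K] (n : ℕ) (p : K[X]) (hp : p.eval 0 = 1) :
    (((mkU K n p hp : U K n) : (RR K n)ˣ) : RR K n) = mkR K n p := rfl

theorem U_ext (K : Type) [Field K] (n : ℕ) (u v : U K n)
    (h : ((u : (RR K n)ˣ) : RR K n) = ((v : (RR K n)ˣ) : RR K n)) : u = v :=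
  Subtype.ext (Units.ext h)

theorem mkU_surj (K : Type) [Field K] (n : ℕ) (u : U K n) :
    ∃ (p : K[X]) (hp : p.eval 0 = 1), u = mkU K n p hp := by
  obtain ⟨p, hp⟩ := Ideal.Quotient.mk_surjective ((u : (RR K n)ˣ) : RR K n)
  have h1 : p.eval 0 = 1 := by
    have h2 : (u : (RR K n)ˣ) ∈ (Units.map (ev0 K n : RR K n →* K)).ker := u.2
    rw [MonoidHom.mem_ker] at h2
    have h3 := congrArg Units.val h2
    simp only [Units.coe_map, MonoidHom.coe_coe, Units.val_one] at h3
    rw [← hp] at h3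
    rw [← h3]
    exact (ev0_mk K n p).symm
  exact ⟨p, h1, U_ext K n _ _ (by rw [mkU_coe]; exact hp.symm)⟩

theorem mkU_eq_iff (K : Type) [Field K] (n : ℕ) (p q : K[X]) (hp : p.eval 0 = 1) (hq : q.eval 0 = 1) :
    mkU K n p hp = mkU K n q hq ↔ (X : K[X]) ^ (n + 1) ∣ p - q := by
  constructor
  · intro h
    have h2 := congrArg (fun u : U K n => ((u : (RR K n)ˣ) : RR K n)) h
    simp only [mkU_coe] at h2
    rwa [Ideal.Quotient.eq, Ideal.mem_span_singleton] at h2
  · intro h
    apply U_ext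
    rw [mkU_coe, mkU_coe, Ideal.Quotient.eq, Ideal.mem_span_singleton]
    exact h

theorem mkU_mul (K : Type) [Field K] (n : ℕ) (p q : K[X]) (hp : p.eval 0 = 1) (hq : q.eval 0 = 1) :
    mkU K n p hp * mkU K n q hq = mkU K n (p * q) (by simp [hp, hq]) := by
  apply U_ext
  simp [mkU_coe]

theorem mkU_one (K : Type) [Field K] (n : ℕ) : mkU K n 1 (by simp) = 1 := by
  apply U_ext
  simp [mkU_coe]

theorem mkU_prod (K : Type) [Field K] (n : ℕ) {ι : Type} (s : Finset ι) (p : ι → K[X])
    (hp : ∀ i, (p i).eval 0 = 1) :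
    ∏ i ∈ s, mkU K n (p i) (hp i) = mkU K n (∏ i ∈ s, p i) (by
      rw [Polynomial.eval_prod]; exact Finset.prod_eq_one (fun i _ => hp i)) := by
  classical
  induction s using Finset.induction_on with
  | empty => simpa using (mkU_one K n).symm
  | insert a s ha ih =>
    rw [Finset.prod_insert ha, ih, mkU_mul]
    congr 1
    rw [Finset.prod_insert ha]

/-- the endomorphism of the group of 1-units induced by a ring endomorphism of `K[X]` -/
structure Good (K : Type) [Field K] (θ : K[X] →+* K[X]) : Prop where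
  hX : (X : K[X]) ∣ θ X
  h0 : ∀ p : K[X], p.eval 0 = 1 → (θ p).eval 0 = 1

noncomputable def liftU (K : Type) [Field K] (n : ℕ) (θ : K[X] →+* K[X]) (h : Good K θ) :
    U K n →* U K n where
  toFun u := mkU K n (θ (mkU_surj K n u).choose) (h.h0 _ (mkU_surj K n u).choose_spec.choose)
  map_one' := by
    generalize_proofs h1 h2
    refine Eq.trans ?_ (mkU_one K n)
    rw [mkU_eq_iff]
    have h3 : mkU K n h1.choose h1.choose_spec.choose = mkU K n 1 (by simp) := by
      rw [← h1.choose_spec.choose_spec, mkU_one]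
    rw [mkU_eq_iff] at h3
    obtain ⟨c, hc⟩ := h3
    have h4 : θ h1.choose - 1 = θ X ^ (n + 1) * θ c := by
      rw [← map_pow, ← map_mul, ← hc]; simp
    rw [h4]
    exact Dvd.dvd.mul_right (pow_dvd_pow_of_dvd h.hX _) _
  map_mul' := by
    intro u v
    rw [mkU_mul, mkU_eq_iff]
    have h3 : mkU K n (mkU_surj K n (u * v)).choose (mkU_surj K n (u * v)).choose_spec.choose
        = mkU K n ((mkU_surj K n u).choose * (mkU_surj K n v).choose) (by
          rw [Polynomial.eval_mul, (mkU_surj K n u).choose_spec.choose,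
            (mkU_surj K n v).choose_spec.choose, one_mul]) := by
      rw [← (mkU_surj K n (u * v)).choose_spec.choose_spec, ← mkU_mul K n _ _
        (mkU_surj K n u).choose_spec.choose (mkU_surj K n v).choose_spec.choose,
        ← (mkU_surj K n u).choose_spec.choose_spec, ← (mkU_surj K n v).choose_spec.choose_spec]
    rw [mkU_eq_iff] at h3
    obtain ⟨c, hc⟩ := h3
    rw [← map_mul, ← map_sub, hc, map_mul, map_pow]
    exact Dvd.dvd.mul_right (pow_dvd_pow_of_dvd h.hX _) _

theorem liftU_mk (K : Type) [Field K] (n : ℕ) (θ : K[X] →+* K[X]) (h : Good K θ)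
    (p : K[X]) (hp : p.eval 0 = 1) :
    liftU K n θ h (mkU K n p hp) = mkU K n (θ p) (h.h0 p hp) := by
  show mkU K n (θ (mkU_surj K n (mkU K n p hp)).choose)
    (h.h0 _ (mkU_surj K n (mkU K n p hp)).choose_spec.choose) = _
  rw [mkU_eq_iff]
  have h3 : mkU K n (mkU_surj K n (mkU K n p hp)).choose
      (mkU_surj K n (mkU K n p hp)).choose_spec.choose = mkU K n p hp := by
    rw [← (mkU_surj K n (mkU K n p hp)).choose_spec.choose_spec]
  rw [mkU_eq_iff] at h3
  obtain ⟨c, hc⟩ := h3
  rw [← map_sub, hc, map_mul, map_pow]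
  exact Dvd.dvd.mul_right (pow_dvd_pow_of_dvd h.hX _) _

end Pool.Agent.Helper111.EP
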