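import Mathlib
import Pool.Agent.Helper111.EPBase

set_option autoImplicit false

open Polynomial

namespace Pool.Agent.Helper111.EP

theorem good_frob (K : Type) [Field K] [CharP K 2] (i : ℕ) :
    Good K (Polynomial.mapRingHom (iterateFrobenius K 2 i)) where
  hX := by simp
  h0 := by
    intro p hp
    rw [Polynomial.coe_mapRingHom, Polynomial.eval_zero_map, hp, map_one]

theorem good_sc (K : Type) [Field K] (a : K) :
    Good K (Polynomial.compRingHom (C a * X)) where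
  hX := by simp
  h0 := by
    intro p hp
    simp [Polynomial.eval_comp, hp]

noncomputable def frU (K : Type) [Field K] [CharP K 2] (n i : ℕ) : U K n →* U K n :=
  liftU K n _ (good_frob K i)

noncomputable def scU (K : Type) [Field K] (n : ℕ) (a : K) : U K n →* U K n :=
  liftU K n _ (good_sc K a)

noncomputable def NU (K : Type) [Field K] [CharP K 2] (n f : ℕ) : U K n →* U K n where
  toFun u := ∏ i ∈ Finset.range f, frU K n i u
  map_one' := by simp
  map_mul' := by intro a b; simp [Finset.prod_mul_distrib]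

noncomputable def HU (K : Type) [Field K] [CharP K 2] (n : ℕ) : Subgroup (U K n) where
  carrier := {u | frU K n 1 u = u}
  mul_mem' := by
    intro a b ha hb
    simp only [Set.mem_ofPred_eq] at ha hb ⊢
    rw [map_mul, ha, hb]
  one_mem' := by simp
  inv_mem' := by
    intro a ha
    simp only [Set.mem_ofPred_eq] at ha ⊢
    rw [map_inv, ha]

noncomputable def ell (K : Type) [Field K] (n : ℕ) (μ : K) : U K n :=
  mkU K n (1 + C μ * X) (by simp)

theorem w_frU_succ (K : Type) [Field K] [CharP K 2] (n i : ℕ) (u : U K n) :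
    frU K n 1 (frU K n i u) = frU K n (i + 1) u := by
  obtain ⟨p, hp, rfl⟩ := mkU_surj K n u
  unfold frU
  rw [liftU_mk, liftU_mk, liftU_mk, mkU_eq_iff]
  have h : (Polynomial.mapRingHom (iterateFrobenius K 2 1))
      ((Polynomial.mapRingHom (iterateFrobenius K 2 i)) p) =
      (Polynomial.mapRingHom (iterateFrobenius K 2 (i + 1))) p := by
    ext k
    simp only [Polynomial.coe_mapRingHom, Polynomial.coeff_map, iterateFrobenius_def]
    rw [← pow_mul, ← pow_add]
  rw [h, sub_self]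
  exact dvd_zero _

theorem w_frU_of (K : Type) [Field K] [CharP K 2] (n f : ℕ) (hf : ∀ a : K, a ^ 2 ^ f = a)
    (u : U K n) : frU K n f u = u := by
  obtain ⟨p, hp, rfl⟩ := mkU_surj K n u
  unfold frU
  rw [liftU_mk, mkU_eq_iff]
  have h : (Polynomial.mapRingHom (iterateFrobenius K 2 f)) p = p := by
    ext k
    simp only [Polynomial.coe_mapRingHom, Polynomial.coeff_map, iterateFrobenius_def]
    exact hf _
  rw [h, sub_self]
  exact dvd_zero _

theorem NU_mem (K : Type) [Field K] [CharP K 2] (n f : ℕ) (hK : Nat.card K = 2 ^ f) (u : U K n) :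
    NU K n f u ∈ HU K n := by
  show frU K n 1 (∏ i ∈ Finset.range f, frU K n i u) = ∏ i ∈ Finset.range f, frU K n i u
  rw [map_prod]
  simp only [w_frU_succ]
  have hfin : Finite K := Nat.finite_of_card_ne_zero (by rw [hK]; positivity)
  have hpow : ∀ a : K, a ^ 2 ^ f = a := by
    intro a
    haveI := Fintype.ofFinite K
    rw [← hK, Nat.card_eq_fintype_card]
    exact FiniteField.pow_card a
  have h0 : frU K n 0 u = u := w_frU_of K n 0 (by intro a; simp) u
  have hf : frU K n f u = u := w_frU_of K n f hpow u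
  have h1 := Finset.prod_range_succ (fun i => frU K n i u) f
  have h2 := Finset.prod_range_succ' (fun i => frU K n i u) f
  rw [h1, hf, h0] at h2
  exact (mul_right_cancel h2).symm

noncomputable def NH (K : Type) [Field K] [CharP K 2] (n f : ℕ) (hK : Nat.card K = 2 ^ f) :
    U K n →* HU K n :=
  (NU K n f).codRestrict (HU K n) (NU_mem K n f hK)

theorem NU_mk (K : Type) [Field K] [CharP K 2] (n f : ℕ) (p : K[X]) (hp : p.eval 0 = 1) :
    NU K n f (mkU K n p hp) =
      mkU K n (∏ i ∈ Finset.range f, p.map (iterateFrobenius K 2 i)) (by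
        rw [Polynomial.eval_prod]
        exact Finset.prod_eq_one (fun i _ => by rw [Polynomial.eval_zero_map, hp, map_one])) := by
  show ∏ i ∈ Finset.range f, frU K n i (mkU K n p hp) = _
  rw [← mkU_prod K n (Finset.range f) (fun i => p.map (iterateFrobenius K 2 i))
    (fun i => by rw [Polynomial.eval_zero_map, hp, map_one])]
  refine Finset.prod_congr rfl (fun i _ => ?_)
  rw [frU, liftU_mk]
  rfl

theorem mem_HU_mk (K : Type) [Field K] [CharP K 2] (n : ℕ) (p : K[X]) (hp : p.eval 0 = 1) :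
    mkU K n p hp ∈ HU K n ↔ (X : K[X]) ^ (n + 1) ∣ p.map (frobenius K 2) - p := by
  show frU K n 1 (mkU K n p hp) = mkU K n p hp ↔ _
  rw [frU, liftU_mk, mkU_eq_iff, Polynomial.coe_mapRingHom, iterateFrobenius_one]

theorem scU_mk (K : Type) [Field K] (n : ℕ) (a : K) (p : K[X]) (hp : p.eval 0 = 1) :
    scU K n a (mkU K n p hp) = mkU K n (p.comp (C a * X)) (by simp [Polynomial.eval_comp, hp]) := by
  rw [scU, liftU_mk]
  rfl

theorem poly_of_vec_eval (K : Type) [Field K] (n : ℕ) (v : Fin n → K) :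
    (1 + ∑ i : Fin n, C (v i) * (X : K[X]) ^ ((i : ℕ) + 1)).eval 0 = 1 := by
  rw [Polynomial.eval_add, Polynomial.eval_one, Polynomial.eval_finsetSum]
  simp

theorem vec_surj (K : Type) [Field K] (n : ℕ) :
    Function.Surjective (fun v : Fin n → K => mkU K n _ (poly_of_vec_eval K n v)) := by
  intro u
  obtain ⟨p, hp, hu⟩ := mkU_surj K n u
  refine ⟨fun i => p.coeff ((i : ℕ) + 1), ?_⟩
  rw [hu]
  show mkU K n _ _ = mkU K n p hp
  rw [mkU_eq_iff, Polynomial.X_pow_dvd_iff]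
  intro d hd
  rw [Polynomial.coeff_sub, Polynomial.coeff_add, Polynomial.finsetSum_coeff]
  simp only [Polynomial.coeff_C_mul_X_pow]
  rcases d with _ | e
  · rw [Polynomial.coeff_one_zero, Polynomial.coeff_zero_eq_eval_zero p, hp]
    simp
  · have he : e < n := by omega
    rw [Finset.sum_eq_single (⟨e, he⟩ : Fin n)]
    · rw [if_pos rfl, Polynomial.coeff_one]
      simp
    · intro b _ hb
      rw [if_neg]
      intro h
      apply hb
      ext
      show (b : ℕ) = e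
      omega
    · intro h; exact absurd (Finset.mem_univ _) h

theorem finite_U (K : Type) [Field K] [Finite K] (n : ℕ) : Finite (U K n) :=
  Finite.of_surjective _ (vec_surj K n)

theorem card_U (K : Type) [Field K] [Finite K] (n : ℕ) : Nat.card (U K n) ≤ Nat.card K ^ n := by
  have h := Nat.card_le_card_of_surjective _ (vec_surj K n)
  rwa [Nat.card_fun, Nat.card_eq_fintype_card (α := Fin n), Fintype.card_fin] at h

theorem card_HU_coeff (K : Type) [Field K] [CharP K 2] (n : ℕ) (p : K[X]) (hp : p.eval 0 = 1)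
    (h : mkU K n p hp ∈ HU K n) (m : ℕ) (hm : m < n + 1) : p.coeff m = 0 ∨ p.coeff m = 1 := by
  rw [mem_HU_mk, Polynomial.X_pow_dvd_iff] at h
  have h1 := h m hm
  rw [Polynomial.coeff_sub, Polynomial.coeff_map, frobenius_def] at h1
  have h2 : p.coeff m * (p.coeff m - 1) = 0 := by linear_combination h1
  rcases mul_eq_zero.1 h2 with h3 | h3
  · exact Or.inl h3
  · exact Or.inr (sub_eq_zero.1 h3)

theorem card_HU (K : Type) [Field K] [CharP K 2] [Finite K] (n : ℕ) :
    Nat.card (HU K n) ≤ 2 ^ n := by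
  classical
  let rep : HU K n → K[X] := fun u => (mkU_surj K n u.1).choose
  have hrep0 : ∀ u, (rep u).eval 0 = 1 := fun u => (mkU_surj K n u.1).choose_spec.choose
  have hrep : ∀ u : HU K n, (u : U K n) = mkU K n (rep u) (hrep0 u) :=
    fun u => (mkU_surj K n u.1).choose_spec.choose_spec
  have hc : ∀ (u : HU K n) (m : ℕ), m < n + 1 → (rep u).coeff m = 0 ∨ (rep u).coeff m = 1 := by
    intro u m hm
    refine card_HU_coeff K n (rep u) (hrep0 u) ?_ m hm
    rw [← hrep u]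
    exact u.2
  let φ : HU K n → (Fin n → Bool) := fun u i => decide ((rep u).coeff ((i : ℕ) + 1) = 1)
  have hφ : Function.Injective φ := by
    intro u v huv
    apply Subtype.ext
    rw [hrep u, hrep v, mkU_eq_iff, Polynomial.X_pow_dvd_iff]
    intro m hm
    rw [Polynomial.coeff_sub, sub_eq_zero]
    rcases Nat.eq_zero_or_pos m with h0 | h0
    · rw [h0, Polynomial.coeff_zero_eq_eval_zero, Polynomial.coeff_zero_eq_eval_zero, hrep0 u,
        hrep0 v]
    · have h1 := congrFun huv ⟨m - 1, by omega⟩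
      have h2 : decide ((rep u).coeff (m - 1 + 1) = 1) = decide ((rep v).coeff (m - 1 + 1) = 1) := h1
      rw [show m - 1 + 1 = m by omega, decide_eq_decide] at h2
      rcases hc u m hm with h3 | h3
      · rcases hc v m hm with h4 | h4
        · rw [h3, h4]
        · rw [h4, h2.2 h4]
      · rw [h3, h2.1 h3]
  have h1 := Nat.card_le_card_of_injective φ hφ
  rwa [Nat.card_eq_fintype_card (α := Fin n → Bool), Fintype.card_fun, Fintype.card_bool,
    Fintype.card_fin] at h1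

theorem pairs_reflect {K : Type} [Field K] {ι : Type} (s : Finset ι) (μ : ι → K) :
    (∏ i ∈ s, ((1 : K[X]) + C (μ i) * X)).natDegree ≤ s.card ∧
    reflect s.card (∏ i ∈ s, ((1 : K[X]) + C (μ i) * X)) = ∏ i ∈ s, (X + C (μ i)) := by
  classical
  have hd1 : ∀ a : K, ((1 : K[X]) + C a * X).natDegree ≤ 1 := by
    intro a
    compute_degree
  have hr1 : ∀ a : K, reflect 1 ((1 : K[X]) + C a * X) = X + C a := by
    intro a
    have h1 : reflect 1 (1 : K[X]) = X := by
      have h2 := reflect_C (1 : K) 1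
      simpa using h2
    rw [reflect_add, reflect_C_mul, reflect_one_X, h1, mul_one]
  induction s using Finset.induction_on with
  | empty =>
    refine ⟨by simp, ?_⟩
    have h2 := reflect_C (1 : K) 0
    simpa using h2
  | insert a s ha ih =>
    have hd : (∏ i ∈ s, ((1 : K[X]) + C (μ i) * X)).natDegree ≤ s.card := ih.1
    rw [Finset.prod_insert ha, Finset.prod_insert ha, Finset.card_insert_of_notMem ha]
    constructor
    · have h1 := Polynomial.natDegree_mul_le (p := (1 : K[X]) + C (μ a) * X)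
        (q := ∏ i ∈ s, ((1 : K[X]) + C (μ i) * X))
      have h2 := hd1 (μ a)
      omega
    · rw [add_comm s.card 1, reflect_mul _ _ (hd1 (μ a)) hd, hr1, ih.2]

theorem pairs_perm {K : Type} {n : ℕ} (μ ν : Fin n → K)
    (h : (Finset.univ : Finset (Fin n)).val.map μ = (Finset.univ : Finset (Fin n)).val.map ν) :
    ∃ σ : Equiv.Perm (Fin n), μ = ν ∘ σ := by
  classical
  have hc : ∀ a : K, Nonempty ({i // μ i = a} ≃ {i // ν i = a}) := by
    intro a
    apply Fintype.card_eq.mp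
    rw [Fintype.card_subtype, Fintype.card_subtype]
    have h1 := congrArg (Multiset.count a) h
    rw [Multiset.count_map, Multiset.count_map] at h1
    have h2 : ∀ f : Fin n → K, (Finset.univ.filter (fun i => f i = a)).card =
        Multiset.card (Multiset.filter (fun i => a = f i) (Finset.univ : Finset (Fin n)).val) := by
      intro f
      rw [Finset.card_def, Finset.filter_val]
      congr 1
      exact Multiset.filter_congr (fun x _ => eq_comm)
    rw [h2, h2]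
    exact h1
  have g : ∀ a : K, ({i // μ i = a} ≃ {i // ν i = a}) := fun a => (hc a).some
  refine ⟨(Equiv.sigmaFiberEquiv μ).symm.trans ((Equiv.sigmaCongrRight g).trans
    (Equiv.sigmaFiberEquiv ν)), ?_⟩
  funext i
  show μ i = ν (g (μ i) ⟨i, rfl⟩).1
  exact (g (μ i) ⟨i, rfl⟩).2.symm

theorem pairs_key (K : Type) [Field K] (n : ℕ) (μ ν : Fin n → K)
    (h : ∏ i, ell K n (μ i) = ∏ i, ell K n (ν i)) :
    ∃ σ : Equiv.Perm (Fin n), μ = ν ∘ σ := by
  unfold ell at h
  rw [mkU_prod K n Finset.univ (fun i => 1 + C (μ i) * X) (fun i => by simp),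
    mkU_prod K n Finset.univ (fun i => 1 + C (ν i) * X) (fun i => by simp), mkU_eq_iff] at h
  have h1 := pairs_reflect Finset.univ μ
  have h2 := pairs_reflect Finset.univ ν
  rw [Finset.card_univ, Fintype.card_fin] at h1 h2
  have h3 : ∏ i, ((1 : K[X]) + C (μ i) * X) - ∏ i, ((1 : K[X]) + C (ν i) * X) = 0 := by
    by_contra hne
    have h4 := Polynomial.natDegree_le_of_dvd h hne
    have h5 := Polynomial.natDegree_sub_le_of_le h1.1 h2.1
    rw [Polynomial.natDegree_X_pow] at h4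
    have h6 : max n n = n := max_self n
    omega
  have h4 : ∏ i, ((X : K[X]) + C (μ i)) = ∏ i, ((X : K[X]) + C (ν i)) := by
    rw [← h1.2, ← h2.2, sub_eq_zero.mp h3]
  have h5 : ∀ f : Fin n → K, (∏ i, ((X : K[X]) + C (f i))).roots =
      (Finset.univ : Finset (Fin n)).val.map (fun i => - f i) := by
    intro f
    have h6 := Polynomial.roots_multiset_prod_X_sub_C
      ((Finset.univ : Finset (Fin n)).val.map (fun i => - f i))
    rw [Multiset.map_map] at h6
    rw [← h6]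
    congr 1
    show _ = Finset.prod Finset.univ _
    refine Finset.prod_congr rfl fun i _ => ?_
    simp
  have h6 : (Finset.univ : Finset (Fin n)).val.map (fun i => - μ i) =
      (Finset.univ : Finset (Fin n)).val.map (fun i => - ν i) := by
    rw [← h5, ← h5, h4]
  have h7 := congrArg (Multiset.map (fun x : K => -x)) h6
  rw [Multiset.map_map, Multiset.map_map] at h7
  apply pairs_perm
  have h8 : ∀ f : Fin n → K, ((fun x : K => -x) ∘ fun i => - f i) = f := by
    intro f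
    funext i
    simp
  rw [h8, h8] at h7
  exact h7

theorem pairs (K : Type) [Field K] [Finite K] (n : ℕ) :
    Nat.card {p : (Fin n → K) × (Fin n → K) // ∏ i, ell K n (p.1 i) = ∏ i, ell K n (p.2 i)}
      ≤ n.factorial * Nat.card K ^ n := by
  classical
  let F : Equiv.Perm (Fin n) × (Fin n → K) →
      {p : (Fin n → K) × (Fin n → K) // ∏ i, ell K n (p.1 i) = ∏ i, ell K n (p.2 i)} :=
    fun x => ⟨(x.2 ∘ x.1, x.2), by
      show ∏ i, ell K n (x.2 (x.1 i)) = ∏ i, ell K n (x.2 i)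
      exact Equiv.prod_comp x.1 (fun i => ell K n (x.2 i))⟩
  have hF : Function.Surjective F := by
    rintro ⟨⟨μ, ν⟩, h⟩
    obtain ⟨σ, hσ⟩ := pairs_key K n μ ν h
    refine ⟨(σ, ν), ?_⟩
    apply Subtype.ext
    show (ν ∘ σ, ν) = (μ, ν)
    rw [hσ]
  have h1 := Nat.card_le_card_of_surjective F hF
  have h2 : Nat.card (Equiv.Perm (Fin n) × (Fin n → K)) = n.factorial * Nat.card K ^ n := by
    rw [Nat.card_prod, Nat.card_perm, Nat.card_fun, Nat.card_fin]
  rw [h2] at h1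
  exact h1

theorem moment (V : Type) [CommGroup V] [Finite V] (K : Type) [Fintype K] (l : K → V) (n : ℕ)
    (F : Finset (AddChar (Additive V) ℂ)) (s : ℝ)
    (hF : ∀ ψ ∈ F, ‖∑ μ : K, ψ (Additive.ofMul (l μ))‖ = s) :
    (F.card : ℝ) * s ^ (2 * n) ≤ (Nat.card V : ℝ) *
      (Nat.card {p : (Fin n → K) × (Fin n → K) // ∏ i, l (p.1 i) = ∏ i, l (p.2 i)} : ℝ) := by
  classical
  have : Fintype V := Fintype.ofFinite V
  have hprod : ∀ (ψ : AddChar (Additive V) ℂ) (f : Fin n → Additive V),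
      ∏ i, ψ (f i) = ψ (∑ i, f i) := by
    intro ψ f
    have h0 : ∀ t : Finset (Fin n), ∏ i ∈ t, ψ (f i) = ψ (∑ i ∈ t, f i) := by
      intro t
      induction t using Finset.induction_on with
      | empty => simp
      | insert a t ha ih =>
        rw [Finset.prod_insert ha, Finset.sum_insert ha, AddChar.map_add_eq_mul, ih]
    exact h0 Finset.univ
  set S : AddChar (Additive V) ℂ → ℂ := fun ψ => ∑ μ : K, ψ (Additive.ofMul (l μ)) with hS
  have hT : ∀ ψ : AddChar (Additive V) ℂ, ((‖S ψ‖ ^ (2 * n) : ℝ) : ℂ) =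
      ∑ m : Fin n → K, ∑ m' : Fin n → K,
        ψ (Additive.ofMul ((∏ i, l (m i)) / (∏ i, l (m' i)))) := by
    intro ψ
    have h1 : ((‖S ψ‖ ^ (2 * n) : ℝ) : ℂ) = (S ψ) ^ n * (starRingEnd ℂ (S ψ)) ^ n := by
      rw [← mul_pow, Complex.mul_conj, Complex.normSq_eq_norm_sq, pow_mul]
      push_cast
      ring
    have h2 : starRingEnd ℂ (S ψ) = ∑ μ : K, ψ (-(Additive.ofMul (l μ))) := by
      simp only [hS, map_sum]
      exact Finset.sum_congr rfl fun μ _ => (AddChar.map_neg_eq_conj ψ _).symm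
    rw [h1, h2]
    simp only [hS]
    rw [Fintype.sum_pow, Fintype.sum_pow, Finset.sum_mul_sum]
    refine Finset.sum_congr rfl fun m _ => Finset.sum_congr rfl fun m' _ => ?_
    rw [hprod, hprod, ← AddChar.map_add_eq_mul]
    congr 1
    rw [ofMul_div, ofMul_prod, ofMul_prod, Finset.sum_neg_distrib, sub_eq_add_neg]
  have hsum : ∑ ψ : AddChar (Additive V) ℂ, ((‖S ψ‖ ^ (2 * n) : ℝ) : ℂ) =
      (Nat.card V : ℂ) * (Nat.card {p : (Fin n → K) × (Fin n → K) //
        ∏ i, l (p.1 i) = ∏ i, l (p.2 i)} : ℂ) := by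
    simp_rw [hT]
    rw [Finset.sum_comm]
    have h3 : ∀ m : Fin n → K, ∑ ψ : AddChar (Additive V) ℂ, ∑ m' : Fin n → K,
        ψ (Additive.ofMul ((∏ i, l (m i)) / (∏ i, l (m' i)))) =
        ∑ m' : Fin n → K, if ∏ i, l (m i) = ∏ i, l (m' i) then (Nat.card V : ℂ) else 0 := by
      intro m
      rw [Finset.sum_comm]
      refine Finset.sum_congr rfl fun m' _ => ?_
      rw [AddChar.sum_apply_eq_ite]
      have h4 : (Additive.ofMul ((∏ i, l (m i)) / (∏ i, l (m' i))) = 0) ↔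
          (∏ i, l (m i) = ∏ i, l (m' i)) := by
        rw [ofMul_eq_zero, div_eq_one]
      simp only [h4]
      have h6 : Fintype.card (Additive V) = Nat.card V := by
        rw [Nat.card_eq_fintype_card]
        exact Fintype.card_congr Additive.toMul
      rw [h6]
    rw [Finset.sum_congr rfl fun m _ => h3 m]
    rw [← Fintype.sum_prod_type (f := fun p : (Fin n → K) × (Fin n → K) =>
      if ∏ i, l (p.1 i) = ∏ i, l (p.2 i) then (Nat.card V : ℂ) else 0)]
    rw [← Finset.sum_filter, Finset.sum_const, nsmul_eq_mul, mul_comm]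
    congr 2
    rw [Nat.card_eq_fintype_card, Fintype.card_subtype]
  have hsumR : ∑ ψ : AddChar (Additive V) ℂ, ‖S ψ‖ ^ (2 * n) =
      (Nat.card V : ℝ) * (Nat.card {p : (Fin n → K) × (Fin n → K) //
        ∏ i, l (p.1 i) = ∏ i, l (p.2 i)} : ℝ) := by
    have h5 : ((∑ ψ : AddChar (Additive V) ℂ, ‖S ψ‖ ^ (2 * n) : ℝ) : ℂ) =
      (((Nat.card V : ℝ) * (Nat.card {p : (Fin n → K) × (Fin n → K) //
        ∏ i, l (p.1 i) = ∏ i, l (p.2 i)} : ℝ) : ℝ) : ℂ) := by
      rw [Complex.ofReal_sum, hsum]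
      push_cast
      ring
    exact_mod_cast h5
  rw [← hsumR]
  calc (F.card : ℝ) * s ^ (2 * n) = ∑ ψ ∈ F, ‖S ψ‖ ^ (2 * n) := by
        rw [Finset.sum_congr rfl (fun ψ hψ => by rw [show ‖S ψ‖ = s from hF ψ hψ])]
        rw [Finset.sum_const, nsmul_eq_mul]
    _ ≤ ∑ ψ : AddChar (Additive V) ℂ, ‖S ψ‖ ^ (2 * n) :=
        Finset.sum_le_sum_of_subset_of_nonneg (Finset.subset_univ F)
          (fun ψ _ _ => by positivity)

theorem hj_mem (K : Type) [Field K] [CharP K 2] (n j : ℕ) (hj : 1 ≤ j) :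
    mkU K n (1 + X ^ j) (by simp; omega) ∈ HU K n := by
  rw [mem_HU_mk]
  have h : (1 + X ^ j : K[X]).map (frobenius K 2) - (1 + X ^ j) = 0 := by
    rw [Polynomial.map_add, Polynomial.map_pow, Polynomial.map_one, Polynomial.map_X, sub_self]
  rw [h]
  exact dvd_zero _

theorem conductor (K : Type) [Field K] [CharP K 2] [Finite K] (n : ℕ)
    (χ : AddChar (Additive (HU K n)) ℂ) (hχ : ∃ h, χ h ≠ 1) :
    ∃ (j : ℕ) (hj : 1 ≤ j), j ≤ n ∧
      χ (Additive.ofMul (⟨_, hj_mem K n j hj⟩ : HU K n)) ≠ 1 ∧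
      ∀ (p : K[X]) (hp : p.eval 0 = 1) (hm : mkU K n p hp ∈ HU K n), X ^ (j + 1) ∣ p - 1 →
        χ (Additive.ofMul (⟨_, hm⟩ : HU K n)) = 1 := by
  classical
  let P : ℕ → Prop := fun j => ∀ (p : K[X]) (hp : p.eval 0 = 1) (hm : mkU K n p hp ∈ HU K n),
    X ^ j ∣ p - 1 → χ (Additive.ofMul (⟨_, hm⟩ : HU K n)) = 1
  have hPn : P (n + 1) := by
    intro p hp hm hd
    have h1 : mkU K n p hp = mkU K n 1 (by simp) := (mkU_eq_iff K n _ _ _ _).mpr hd
    have h2 : (⟨_, hm⟩ : HU K n) = 1 := by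
      apply Subtype.ext
      show mkU K n p hp = 1
      rw [h1, mkU_one]
    rw [h2, ofMul_one, AddChar.map_zero_eq_one]
  have hP1 : ¬ P 1 := by
    intro hP
    obtain ⟨h, hh⟩ := hχ
    apply hh
    obtain ⟨p, hp, hpu⟩ := mkU_surj K n ((Additive.toMul h : HU K n) : U K n)
    have hm : mkU K n p hp ∈ HU K n := by rw [← hpu]; exact (Additive.toMul h : HU K n).2
    have h2 : h = Additive.ofMul (⟨_, hm⟩ : HU K n) := by
      have : (Additive.toMul h : HU K n) = ⟨_, hm⟩ := Subtype.ext hpu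
      rw [← this]; rfl
    rw [h2]
    apply hP p hp hm
    rw [pow_one, Polynomial.X_dvd_iff, Polynomial.coeff_zero_eq_eval_zero]
    simp [hp]
  have hex : ∃ k, P k := ⟨_, hPn⟩
  obtain ⟨k, hk, hkmin⟩ : ∃ k, P k ∧ ∀ m < k, ¬ P m := ⟨Nat.find hex, Nat.find_spec hex, fun m hm => Nat.find_min hex hm⟩
  have hkn : k ≤ n + 1 := by
    by_contra hcon
    exact hkmin (n + 1) (by omega) hPn
  have hk2 : 2 ≤ k := by
    by_contra hcon
    apply hP1
    intro p hp hm hd
    exact hk p hp hm ((pow_dvd_pow X (by omega)).trans hd)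
  obtain ⟨j, rfl⟩ : ∃ j, k = j + 1 := ⟨k - 1, by omega⟩
  have hj1 : 1 ≤ j := by omega
  have hjn : j ≤ n := by omega
  have hnP : ¬ P j := hkmin j (by omega)
  refine ⟨j, hj1, hjn, ?_, hk⟩
  simp only [P, not_forall] at hnP
  obtain ⟨p, hp, hm, hd, hne⟩ := hnP
  intro hcon
  apply hne
  obtain ⟨q, hq⟩ := hd
  have hpq : p = 1 + X ^ j * q := by linear_combination hq
  have hcj : p.coeff j = q.coeff 0 := by
    rw [hpq, Polynomial.coeff_add, Polynomial.coeff_X_pow_mul', if_pos le_rfl, Nat.sub_self,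
      Polynomial.coeff_one, if_neg (by omega), zero_add]
  have hsq : (q.coeff 0) ^ 2 = q.coeff 0 := by
    have h1 := (mem_HU_mk K n p hp).mp hm
    rw [Polynomial.X_pow_dvd_iff] at h1
    have h2 := h1 j (by omega)
    rw [Polynomial.coeff_sub, Polynomial.coeff_map, hcj, frobenius_def] at h2
    exact sub_eq_zero.mp h2
  have h01 : q.coeff 0 = 0 ∨ q.coeff 0 = 1 := by
    have : q.coeff 0 * (q.coeff 0 - 1) = 0 := by linear_combination hsq
    rcases mul_eq_zero.mp this with h | h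
    · exact Or.inl h
    · exact Or.inr (sub_eq_zero.mp h)
  rcases h01 with h0 | h1
  · obtain ⟨r, hr⟩ := Polynomial.X_dvd_iff.mpr h0
    apply hk p hp hm
    exact ⟨r, by rw [hq, hr]; ring⟩
  · obtain ⟨r, hr⟩ : X ∣ q - 1 := by
      rw [Polynomial.X_dvd_iff]; simp [h1]
    have hgj := hj_mem K n j hj1
    obtain ⟨p', hp', hpu⟩ := mkU_surj K n ((mkU K n (1 + X ^ j) (by simp; omega))⁻¹ * mkU K n p hp)
    have hm' : mkU K n p' hp' ∈ HU K n := by
      rw [← hpu]; exact Subgroup.mul_mem _ (Subgroup.inv_mem _ hgj) hm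
    have hprod : mkU K n p hp = mkU K n (1 + X ^ j) (by simp; omega) * mkU K n p' hp' := by
      rw [← hpu]; group
    have hdv : (X : K[X]) ^ (j + 1) ∣ p' - 1 := by
      have h3 := hprod
      rw [mkU_mul, mkU_eq_iff] at h3
      obtain ⟨c, hc⟩ := h3
      have h4 : (X : K[X]) ^ (j + 1) ∣ (1 + X ^ j) * (p' - 1) := by
        obtain ⟨d, hd⟩ := pow_dvd_pow (X : K[X]) (show j + 1 ≤ n + 1 by omega)
        refine ⟨r - d * c, ?_⟩
        have h5 : q = 1 + X * r := by linear_combination hr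
        rw [h5] at hpq
        rw [hd] at hc
        linear_combination -hc + hpq
      have h6 : IsCoprime ((X : K[X]) ^ (j + 1)) (1 + X ^ j) := by
        apply IsCoprime.pow_left
        obtain ⟨i, rfl⟩ : ∃ i, j = i + 1 := ⟨j - 1, by omega⟩
        exact ⟨- X ^ i, 1, by ring⟩
      exact h6.dvd_of_dvd_mul_left h4
    have h7 := hk p' hp' hm' hdv
    have h8 : (⟨_, hm⟩ : HU K n) = (⟨_, hgj⟩ : HU K n) * ⟨_, hm'⟩ := Subtype.ext hprod
    rw [h8, ofMul_mul, AddChar.map_add_eq_mul, h7, mul_one]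
    exact hcon

theorem trace_nondeg (K : Type) [Field K] [CharP K 2] [Finite K] (f : ℕ) (hK : Nat.card K = 2 ^ f)
    (δ : K) (h : ∀ β : K, ∑ i ∈ Finset.range f, (β * δ) ^ (2 ^ i) = 0) : δ = 0 := by
  by_contra hδ
  haveI : Fintype K := Fintype.ofFinite K
  have hf : f ≠ 0 := by
    rintro rfl
    have h1 : 1 < Nat.card K := Finite.one_lt_card
    rw [hK] at h1
    norm_num at h1
  set P : K[X] := ∑ i ∈ Finset.range f, X ^ (2 ^ i) with hP
  have hdeg : P.natDegree ≤ 2 ^ (f - 1) := by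
    apply natDegree_sum_le_of_forall_le
    intro i hi
    rw [Finset.mem_range] at hi
    rw [natDegree_X_pow]
    exact Nat.pow_le_pow_right (by norm_num) (by omega)
  have hcard : P.natDegree < Fintype.card K := by
    rw [← Nat.card_eq_fintype_card, hK]
    refine lt_of_le_of_lt hdeg ?_
    exact Nat.pow_lt_pow_right (by norm_num) (by omega)
  have hz : P = 0 := by
    apply eq_zero_of_natDegree_lt_card_of_eval_eq_zero P Function.injective_id _ hcard
    intro γ
    have h1 := h (γ * δ⁻¹)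
    rw [inv_mul_cancel_right₀ hδ] at h1
    rw [hP, eval_finset_sum]
    simpa using h1
  have hc : P.coeff 1 = 1 := by
    rw [hP, finset_sum_coeff, Finset.sum_eq_single 0]
    · simp
    · intro i _ hi
      rw [coeff_X_pow, if_neg]
      intro h1
      have : 1 < 2 ^ i := Nat.one_lt_two_pow hi
      omega
    · intro h0
      exact absurd (Finset.mem_range.2 (Nat.pos_of_ne_zero hf)) h0
  rw [hz, coeff_zero] at hc
  exact zero_ne_one hc

theorem trace_01 (K : Type) [Field K] [CharP K 2] [Finite K] (f : ℕ) (hK : Nat.card K = 2 ^ f)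
    (γ : K) : ∑ i ∈ Finset.range f, γ ^ (2 ^ i) = 0 ∨ ∑ i ∈ Finset.range f, γ ^ (2 ^ i) = 1 := by
  classical
  have hcard : γ ^ (2 ^ f) = γ := by
    haveI := Fintype.ofFinite K
    have h := FiniteField.pow_card γ
    rw [← Nat.card_eq_fintype_card, hK] at h
    exact h
  set t := ∑ i ∈ Finset.range f, γ ^ (2 ^ i) with ht
  have hsq : t ^ 2 = t := by
    rw [ht, sum_pow_char 2]
    have h1 : ∀ i ∈ Finset.range f, (γ ^ (2 ^ i)) ^ 2 = γ ^ (2 ^ (i + 1)) := by
      intro i _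
      rw [← pow_mul, pow_succ]
    rw [Finset.sum_congr rfl h1]
    have h2 := Finset.sum_range_succ' (fun i => γ ^ (2 ^ i)) f
    have h3 := Finset.sum_range_succ (fun i => γ ^ (2 ^ i)) f
    rw [h2] at h3
    simp only [pow_zero, pow_one] at h3
    rw [hcard] at h3
    exact add_right_cancel h3
  have h4 : t * (t - 1) = 0 := by
    rw [mul_sub, mul_one, ← sq, hsq, sub_self]
  rcases mul_eq_zero.mp h4 with h | h
  · exact Or.inl h
  · exact Or.inr (sub_eq_zero.mp h)

theorem prod_dvd (K : Type) [Field K] (j f : ℕ) (hj : 1 ≤ j) (c : ℕ → K) :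
    (X : K[X]) ^ (j + 1) ∣ (∏ i ∈ Finset.range f, (1 + C (c i) * X ^ j)) -
      (1 + C (∑ i ∈ Finset.range f, c i) * X ^ j) := by
  induction f with
  | zero => simp
  | succ f ih =>
    obtain ⟨q, hq⟩ := ih
    obtain ⟨m, rfl⟩ : ∃ m, j = m + 1 := ⟨j - 1, by omega⟩
    rw [Finset.prod_range_succ, Finset.sum_range_succ, C_add]
    have hP : (∏ i ∈ Finset.range f, (1 + C (c i) * X ^ (m + 1))) =
        1 + C (∑ i ∈ Finset.range f, c i) * X ^ (m + 1) + X ^ (m + 1 + 1) * q := by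
      rw [← hq]; ring
    rw [hP]
    refine ⟨q * (1 + C (c f) * X ^ (m + 1)) +
      C (∑ i ∈ Finset.range f, c i) * C (c f) * X ^ m, ?_⟩
    ring

theorem distinct_val (K : Type) [Field K] [CharP K 2] [Finite K] (n f : ℕ)
    (hK : Nat.card K = 2 ^ f)
    (χ : AddChar (Additive (HU K n)) ℂ) (j : ℕ) (hj : 1 ≤ j) (hjn : j ≤ n)
    (h2 : ∀ (p : K[X]) (hp : p.eval 0 = 1) (hm : mkU K n p hp ∈ HU K n), X ^ (j + 1) ∣ p - 1 →
        χ (Additive.ofMul (⟨_, hm⟩ : HU K n)) = 1)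
    (γ : K) (hγ : (1 + C γ * X ^ j : K[X]).eval 0 = 1) :
    (∑ i ∈ Finset.range f, γ ^ (2 ^ i) = 0 →
      χ (Additive.ofMul (NH K n f hK (mkU K n (1 + C γ * X ^ j) hγ))) = 1) ∧
    (∑ i ∈ Finset.range f, γ ^ (2 ^ i) = 1 →
      χ (Additive.ofMul (NH K n f hK (mkU K n (1 + C γ * X ^ j) hγ))) =
        χ (Additive.ofMul (⟨_, hj_mem K n j hj⟩ : HU K n))) := by
  have hj0 : j ≠ 0 := by omega
  -- the polynomial
  have hPe : (∏ i ∈ Finset.range f, (1 + C (γ ^ (2 ^ i)) * X ^ j) : K[X]).eval 0 = 1 := by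
    rw [Polynomial.eval_prod]
    exact Finset.prod_eq_one (fun i _ => by simp [hj0])
  have hmap : ∀ i, (1 + C γ * X ^ j : K[X]).map (iterateFrobenius K 2 i)
      = 1 + C (γ ^ (2 ^ i)) * X ^ j := by
    intro i
    simp [iterateFrobenius_def]
  have hNU : NU K n f (mkU K n (1 + C γ * X ^ j) hγ) =
      mkU K n (∏ i ∈ Finset.range f, (1 + C (γ ^ (2 ^ i)) * X ^ j)) hPe := by
    rw [NU_mk, mkU_eq_iff]
    have : (∏ i ∈ Finset.range f, (1 + C γ * X ^ j : K[X]).map (iterateFrobenius K 2 i))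
        = ∏ i ∈ Finset.range f, (1 + C (γ ^ (2 ^ i)) * X ^ j) :=
      Finset.prod_congr rfl (fun i _ => hmap i)
    rw [this, sub_self]
    exact dvd_zero _
  have hmem : mkU K n (∏ i ∈ Finset.range f, (1 + C (γ ^ (2 ^ i)) * X ^ j)) hPe ∈ HU K n := by
    rw [← hNU]; exact NU_mem K n f hK _
  have hNH : NH K n f hK (mkU K n (1 + C γ * X ^ j) hγ) = ⟨_, hmem⟩ := by
    apply Subtype.ext
    exact hNU
  have hdvd := prod_dvd K j f hj (fun i => γ ^ (2 ^ i))
  rw [hNH]
  generalize (∏ i ∈ Finset.range f, (1 + C (γ ^ (2 ^ i)) * X ^ j) : K[X]) = P at *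
  constructor
  · intro htr
    refine h2 P hPe hmem ?_
    simpa [htr] using hdvd
  · intro htr
    rw [htr, map_one, one_mul] at hdvd
    obtain ⟨p', hp', hpe⟩ := mkU_surj K n ((mkU K n (1 + X ^ j) (by simp; omega))⁻¹ * mkU K n P hPe)
    have hm' : mkU K n p' hp' ∈ HU K n := by
      rw [← hpe]
      exact (HU K n).mul_mem ((HU K n).inv_mem (hj_mem K n j hj)) hmem
    have hmul : mkU K n (1 + X ^ j) (by simp; omega) * mkU K n p' hp' = mkU K n P hPe := by
      rw [← hpe, mul_inv_cancel_left]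
    have hmul2 := hmul
    rw [mkU_mul, mkU_eq_iff] at hmul2
    have h3 : (X : K[X]) ^ (j + 1) ∣ (1 + X ^ j) * p' - P :=
      (pow_dvd_pow _ (by omega)).trans hmul2
    have h4 : (X : K[X]) ^ (j + 1) ∣ (1 + X ^ j) * (p' - 1) := by
      have := dvd_add h3 hdvd
      have e : (1 + X ^ j) * p' - P + (P - (1 + X ^ j)) = (1 + X ^ j) * (p' - 1) := by ring
      rwa [e] at this
    have hcop : IsCoprime ((X : K[X]) ^ (j + 1)) (1 + X ^ j) := by
      refine IsCoprime.pow_left ?_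
      refine ⟨-X ^ (j - 1), 1, ?_⟩
      have e : (X : K[X]) ^ j = X ^ (j - 1) * X := by
        rw [← pow_succ]; congr 1; omega
      rw [e]; ring
    have h5 : (X : K[X]) ^ (j + 1) ∣ p' - 1 := hcop.dvd_of_dvd_mul_left h4
    have h6 := h2 p' hp' hm' h5
    have h7 : (⟨_, hmem⟩ : HU K n) = (⟨_, hj_mem K n j hj⟩ : HU K n) * ⟨_, hm'⟩ :=
      Subtype.ext hmul.symm
    rw [h7, ofMul_mul, AddChar.map_add_eq_mul, h6, mul_one]

theorem distinct (K : Type) [Field K] [CharP K 2] [Finite K] (n f : ℕ) (hK : Nat.card K = 2 ^ f)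
    (χ : AddChar (Additive (HU K n)) ℂ) (j : ℕ) (hj : 1 ≤ j) (hjn : j ≤ n)
    (h1 : χ (Additive.ofMul (⟨_, hj_mem K n j hj⟩ : HU K n)) ≠ 1)
    (h2 : ∀ (p : K[X]) (hp : p.eval 0 = 1) (hm : mkU K n p hp ∈ HU K n), X ^ (j + 1) ∣ p - 1 →
        χ (Additive.ofMul (⟨_, hm⟩ : HU K n)) = 1)
    (a b : K)
    (hab : ∀ u : U K n, χ (Additive.ofMul (NH K n f hK (scU K n a u))) =
      χ (Additive.ofMul (NH K n f hK (scU K n b u)))) : a ^ j = b ^ j := by
  haveI : Fact (Nat.Prime 2) := ⟨Nat.prime_two⟩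
  have hj0 : j ≠ 0 := by omega
  have he : ∀ γ : K, (1 + C γ * X ^ j : K[X]).eval 0 = 1 := by
    intro γ; simp [hj0]
  have hsc : ∀ (c β : K), scU K n c (mkU K n (1 + C β * X ^ j) (he β))
      = mkU K n (1 + C (β * c ^ j) * X ^ j) (he _) := by
    intro c β
    rw [scU_mk, mkU_eq_iff]
    have : (1 + C β * X ^ j : K[X]).comp (C c * X) = 1 + C (β * c ^ j) * X ^ j := by
      simp only [Polynomial.add_comp, Polynomial.one_comp, Polynomial.mul_comp, Polynomial.C_comp,
        Polynomial.pow_comp, Polynomial.X_comp, mul_pow, map_mul, map_pow]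
      ring
    rw [this, sub_self]
    exact dvd_zero _
  have key : ∀ β : K, ∑ i ∈ Finset.range f, (β * a ^ j) ^ (2 ^ i)
      = ∑ i ∈ Finset.range f, (β * b ^ j) ^ (2 ^ i) := by
    intro β
    have h3 := hab (mkU K n (1 + C β * X ^ j) (he β))
    rw [hsc, hsc] at h3
    have va := distinct_val K n f hK χ j hj hjn h2 (β * a ^ j) (he _)
    have vb := distinct_val K n f hK χ j hj hjn h2 (β * b ^ j) (he _)
    rcases trace_01 K f hK (β * a ^ j) with ha | ha <;>
      rcases trace_01 K f hK (β * b ^ j) with hb | hb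
    · rw [ha, hb]
    · exfalso
      rw [va.1 ha, vb.2 hb] at h3
      exact h1 h3.symm
    · exfalso
      rw [va.2 ha, vb.1 hb] at h3
      exact h1 h3
    · rw [ha, hb]
  have h0 : a ^ j - b ^ j = 0 := by
    refine trace_nondeg K f hK (a ^ j - b ^ j) (fun β => ?_)
    have : ∀ i ∈ Finset.range f, (β * (a ^ j - b ^ j)) ^ (2 ^ i)
        = (β * a ^ j) ^ (2 ^ i) - (β * b ^ j) ^ (2 ^ i) := by
      intro i _
      rw [mul_sub, sub_pow_char_pow]
    rw [Finset.sum_congr rfl this, Finset.sum_sub_distrib, key β, sub_self]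
  exact sub_eq_zero.1 h0

theorem charsum_bound (K : Type) [Field K] [CharP K 2] [Fintype K] (n f : ℕ) (hn : 1 ≤ n)
    (hK : Nat.card K = 2 ^ f)
    (χ : AddChar (Additive (HU K n)) ℂ) (hχ : ∃ h, χ h ≠ 1) :
    ((2:ℝ) ^ f - 1) * ‖∑ μ : K, χ (Additive.ofMul (NH K n f hK (ell K n μ)))‖ ^ (2 * n) ≤
      n * n.factorial * ((2:ℝ) ^ f) ^ (2 * n) := by
  classical
  have hfin : Finite (U K n) := finite_U K n
  obtain ⟨j, hj, hjn, hc1, hc2⟩ := conductor K n χ hχ
  let psi : K → AddChar (Additive (U K n)) ℂ := fun a =>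
    χ.compAddMonoidHom (MonoidHom.toAdditive ((NH K n f hK).comp (scU K n a)))
  have hpsi : ∀ (a : K) (u : U K n), psi a (Additive.ofMul u) =
      χ (Additive.ofMul (NH K n f hK (scU K n a u))) := fun a u => rfl
  have hell : ∀ a μ : K, scU K n a (ell K n μ) = ell K n (a * μ) := by
    intro a μ
    unfold ell
    rw [scU_mk, mkU_eq_iff]
    have h1 : (1 + C μ * X : K[X]).comp (C a * X) = 1 + C (a * μ) * X := by
      simp only [add_comp, one_comp, mul_comp, C_comp, X_comp, C_mul]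
      ring
    rw [h1, sub_self]
    exact dvd_zero _
  have hsum : ∀ a : K, a ≠ 0 → ∑ μ : K, psi a (Additive.ofMul (ell K n μ)) =
      ∑ μ : K, χ (Additive.ofMul (NH K n f hK (ell K n μ))) := by
    intro a ha
    simp only [hpsi, hell]
    exact Equiv.sum_comp (Equiv.mulLeft₀ a ha)
      (fun μ => χ (Additive.ofMul (NH K n f hK (ell K n μ))))
  set s : ℝ := ‖∑ μ : K, χ (Additive.ofMul (NH K n f hK (ell K n μ)))‖ with hs
  set A : Finset K := Finset.univ.filter (fun a => a ≠ 0) with hA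
  set F := A.image psi with hF
  have hAcard : A.card = 2 ^ f - 1 := by
    have h1 : A = Finset.univ.erase (0:K) := by
      ext a
      simp [hA]
    rw [h1, Finset.card_erase_of_mem (Finset.mem_univ _), Finset.card_univ, ← Nat.card_eq_fintype_card, hK]
  have hcount : A.card ≤ n * F.card := by
    refine Finset.card_le_mul_card_image A n ?_
    intro ψ hψ
    rw [Finset.mem_image] at hψ
    obtain ⟨b, hb, rfl⟩ := hψ
    have hsub : (A.filter fun x => psi x = psi b) ⊆ (nthRoots j (b ^ j)).toFinset := by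
      intro x hx
      rw [Finset.mem_filter] at hx
      rw [Multiset.mem_toFinset, mem_nthRoots (by omega)]
      refine distinct K n f hK χ j hj hjn hc1 hc2 x b fun u => ?_
      rw [← hpsi, ← hpsi, hx.2]
    calc _ ≤ ((nthRoots j (b ^ j)).toFinset).card := Finset.card_le_card hsub
      _ ≤ Multiset.card (nthRoots j (b ^ j)) := Multiset.toFinset_card_le _
      _ ≤ j := card_nthRoots _ _
      _ ≤ n := hjn
  have hm := moment (U K n) K (ell K n) n F s (by
    intro ψ hψ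
    rw [hF, Finset.mem_image] at hψ
    obtain ⟨b, hb, rfl⟩ := hψ
    rw [hA, Finset.mem_filter] at hb
    rw [hsum b hb.2])
  have hcU := card_U K n
  have hpr := pairs K n
  rw [hK] at hcU hpr
  have hs0 : 0 ≤ s ^ (2 * n) := by positivity
  have h1 : (2:ℝ) ^ f - 1 ≤ n * F.card := by
    have h2 : ((2 ^ f - 1 : ℕ) : ℝ) ≤ ((n * F.card : ℕ) : ℝ) := by
      rw [← hAcard]
      exact_mod_cast hcount
    have h3 : ((2 ^ f - 1 : ℕ) : ℝ) = (2:ℝ) ^ f - 1 := by
      rw [Nat.cast_sub Nat.one_le_two_pow]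
      push_cast
      ring
    rw [h3] at h2
    push_cast at h2
    exact h2
  have h4 : (Nat.card (U K n) : ℝ) ≤ ((2:ℝ) ^ f) ^ n := by exact_mod_cast hcU
  have h5 : (Nat.card {p : (Fin n → K) × (Fin n → K) //
      ∏ i, ell K n (p.1 i) = ∏ i, ell K n (p.2 i)} : ℝ) ≤ n.factorial * ((2:ℝ) ^ f) ^ n := by
    exact_mod_cast hpr
  calc ((2:ℝ) ^ f - 1) * s ^ (2 * n) ≤ (n * F.card) * s ^ (2 * n) :=
        mul_le_mul_of_nonneg_right h1 hs0
    _ = n * (F.card * s ^ (2 * n)) := by ring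
    _ ≤ n * ((Nat.card (U K n) : ℝ) * (Nat.card {p : (Fin n → K) × (Fin n → K) //
      ∏ i, ell K n (p.1 i) = ∏ i, ell K n (p.2 i)} : ℝ)) :=
        mul_le_mul_of_nonneg_left hm (Nat.cast_nonneg _)
    _ ≤ n * (((2:ℝ) ^ f) ^ n * (n.factorial * ((2:ℝ) ^ f) ^ n)) := by
        refine mul_le_mul_of_nonneg_left ?_ (Nat.cast_nonneg _)
        exact mul_le_mul h4 h5 (Nat.cast_nonneg _) (by positivity)
    _ = n * n.factorial * ((2:ℝ) ^ f) ^ (2 * n) := by
        rw [two_mul, pow_add]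
        ring

theorem h338_abs {G : Type} [AddCommGroup G] [Finite G] {K : Type} [Fintype K] (N : K → G) (n f M : ℕ)
    (hn : 1 ≤ n) (hcard : Nat.card G ≤ 2 ^ n) (hq : Nat.card K = 2 ^ f)
    (hM : (M : ℝ) * ((2:ℝ) ^ (n + 1)) ^ (2 * n) + 1 < (2:ℝ) ^ f) (h2 : (2:ℝ) ^ (n + 1) < (2:ℝ) ^ f)
    (hb : ∀ χ : AddChar G ℂ, (∃ h, χ h ≠ 1) →
      ((2:ℝ) ^ f - 1) * ‖∑ μ, χ (N μ)‖ ^ (2 * n) ≤ (M : ℝ) * ((2:ℝ) ^ f) ^ (2 * n)) :
    ∃ s : Finset K, (∀ μ ∈ s, N μ = 0) ∧ 1 < s.card := by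
  classical
  haveI : Fintype G := Fintype.ofFinite G
  refine ⟨Finset.univ.filter (fun μ => N μ = 0), fun μ hμ => (Finset.mem_filter.mp hμ).2, ?_⟩
  obtain ⟨q, hqd⟩ : ∃ q : ℝ, q = (2:ℝ) ^ f := ⟨_, rfl⟩
  obtain ⟨B, hB⟩ : ∃ B : ℝ, B = (2:ℝ) ^ (n + 1) := ⟨_, rfl⟩
  rw [← hqd, ← hB] at hM h2
  rw [← hqd] at hb
  have hB0 : 0 < B := by rw [hB]; positivity
  have hq0 : 0 < q := by rw [hqd]; positivity
  have hM0 : (0:ℝ) ≤ M * B ^ (2 * n) := by positivity
  have step1 : ∀ χ : AddChar G ℂ, χ ≠ 1 → ‖∑ μ, χ (N μ)‖ ≤ q / B := by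
    intro χ hχ
    by_contra hcon
    rw [not_le] at hcon
    have h1 := hb χ (AddChar.ne_one_iff.mp hχ)
    have h3 : (q / B) ^ (2 * n) ≤ ‖∑ μ, χ (N μ)‖ ^ (2 * n) :=
      pow_le_pow_left₀ (by positivity) hcon.le _
    have h4 : (q - 1) * (q / B) ^ (2 * n) ≤ (M : ℝ) * q ^ (2 * n) :=
      (mul_le_mul_of_nonneg_left h3 (by linarith)).trans h1
    rw [div_pow, mul_div_assoc', div_le_iff₀ (by positivity)] at h4
    have h5 : (q - 1) ≤ M * B ^ (2 * n) := by
      have h6 : (q - 1) * q ^ (2 * n) ≤ (M * B ^ (2 * n)) * q ^ (2 * n) := by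
        calc _ ≤ _ := h4
          _ = _ := by ring
      exact le_of_mul_le_mul_right h6 (by positivity)
    linarith
  obtain ⟨a, ha⟩ : ∃ a : ℕ, a = (Finset.univ.filter (fun μ => N μ = 0)).card := ⟨_, rfl⟩
  rw [← ha]
  have hKc : (Fintype.card K : ℝ) = q := by
    rw [hqd, ← Nat.card_eq_fintype_card, hq]; push_cast; rfl
  have hGc : (Fintype.card G : ℝ) ≤ 2 ^ n := by
    have := hcard
    rw [Nat.card_eq_fintype_card] at this
    exact_mod_cast this
  have hG0 : (0:ℝ) < Fintype.card G := by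
    exact_mod_cast Fintype.card_pos
  have hXc : Fintype.card (AddChar G ℂ) = Fintype.card G := AddChar.card_eq
  have step2 : (a : ℂ) * (Fintype.card G : ℂ) = ∑ χ : AddChar G ℂ, ∑ μ, χ (N μ) := by
    rw [Finset.sum_comm]
    have : ∀ μ : K, ∑ χ : AddChar G ℂ, χ (N μ) = if N μ = 0 then (Fintype.card G : ℂ) else 0 :=
      fun μ => AddChar.sum_apply_eq_ite (N μ)
    rw [Finset.sum_congr rfl fun μ _ => this μ, ← Finset.sum_filter, Finset.sum_const, ← ha, nsmul_eq_mul]
  rw [← Finset.add_sum_erase Finset.univ _ (Finset.mem_univ (1 : AddChar G ℂ))] at step2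
  have h1 : ∑ μ, (1 : AddChar G ℂ) (N μ) = (q : ℂ) := by
    rw [← hKc]
    simp
  rw [h1] at step2
  have h3 : ‖∑ χ ∈ Finset.univ.erase (1 : AddChar G ℂ), ∑ μ, χ (N μ)‖ ≤ q / 2 := by
    calc _ ≤ ∑ χ ∈ Finset.univ.erase (1 : AddChar G ℂ), ‖∑ μ, χ (N μ)‖ := norm_sum_le _ _
      _ ≤ ∑ χ ∈ Finset.univ.erase (1 : AddChar G ℂ), q / B :=
        Finset.sum_le_sum fun χ hχ => step1 χ (Finset.ne_of_mem_erase hχ)
      _ = ((Finset.univ.erase (1 : AddChar G ℂ)).card : ℝ) * (q / B) := by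
        rw [Finset.sum_const, nsmul_eq_mul]
      _ ≤ 2 ^ n * (q / B) := by
        refine mul_le_mul_of_nonneg_right ?_ (by positivity)
        refine le_trans ?_ hGc
        rw [← hXc]
        exact_mod_cast Finset.card_le_univ _
      _ = q / 2 := by
        rw [hB, pow_succ]
        field_simp
  have h4 : q / 2 ≤ (a : ℝ) * Fintype.card G := by
    have h5 : ((a : ℂ) * (Fintype.card G : ℂ) - q) = ∑ χ ∈ Finset.univ.erase (1 : AddChar G ℂ), ∑ μ, χ (N μ) := by
      rw [step2]; ring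
    rw [← h5] at h3
    have h6 : ‖((a : ℂ) * (Fintype.card G : ℂ) - q)‖ = |(a : ℝ) * Fintype.card G - q| := by
      rw [← Real.norm_eq_abs, ← Complex.norm_real]
      push_cast
      rfl
    rw [h6, abs_le] at h3
    linarith [h3.1]
  have h7 : q / 2 ≤ (a : ℝ) * 2 ^ n :=
    h4.trans (mul_le_mul_of_nonneg_left hGc (Nat.cast_nonneg a))
  have h8 : (1 : ℝ) < a := by
    by_contra hcon
    rw [not_lt] at hcon
    have h9 : (a : ℝ) * 2 ^ n ≤ 1 * 2 ^ n := mul_le_mul_of_nonneg_right hcon (by positivity)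
    rw [hB, pow_succ] at h2
    linarith
  exact_mod_cast h8

theorem exists_mu (n : ℕ) (hn : 1 ≤ n) : ∃ f₀ : ℕ, ∀ f, f₀ ≤ f → ∀ (K : Type) [Field K] [CharP K 2] [Fintype K],
    Nat.card K = 2 ^ f → ∃ μ : K, μ ≠ 0 ∧ NU K n f (ell K n μ) = 1 := by
  refine ⟨n * n.factorial * (2 ^ (n + 1)) ^ (2 * n) + n + 2, ?_⟩
  intro f hf K _ _ _ hK
  have hlt : f < 2 ^ f := Nat.lt_two_pow_self
  haveI := finite_U K n
  have hb : ∀ χ : AddChar (Additive (HU K n)) ℂ, (∃ h, χ h ≠ 1) →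
      ((2:ℝ) ^ f - 1) * ‖∑ μ : K, χ (Additive.ofMul (NH K n f hK (ell K n μ)))‖ ^ (2 * n) ≤
        ((n * n.factorial : ℕ) : ℝ) * ((2:ℝ) ^ f) ^ (2 * n) := by
    intro χ hχ
    have := charsum_bound K n f hn hK χ hχ
    push_cast
    exact this
  obtain ⟨s, hs1, hs2⟩ := h338_abs (fun μ : K => Additive.ofMul (NH K n f hK (ell K n μ))) n f
    (n * n.factorial) hn (card_HU K n) hK
    (by
      have h1 : n * n.factorial * (2 ^ (n + 1)) ^ (2 * n) + 1 < 2 ^ f := by omega
      exact_mod_cast h1)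
    (by
      have h1 : n + 1 < f := by omega
      exact pow_lt_pow_right₀ (by norm_num) h1)
    hb
  obtain ⟨μ, hμs, hμ0⟩ := Finset.exists_mem_ne hs2 (0 : K)
  refine ⟨μ, hμ0, ?_⟩
  have h1 := hs1 μ hμs
  have h2 : NH K n f hK (ell K n μ) = 1 := ofMul_eq_zero.mp h1
  exact congrArg Subtype.val h2

theorem exists_lambda_prod {K : Type} [Field K] (l : K) (f : ℕ) :
    l * ∏ i ∈ Finset.range f, l ^ (2 ^ i) = l ^ (2 ^ f) := by
  induction f with
  | zero => simp
  | succ k ih =>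
    rw [Finset.prod_range_succ, ← mul_assoc, ih, ← pow_add]
    congr 1
    ring

theorem exists_lambda (n : ℕ) (hn : 1 ≤ n) : ∃ f₀ : ℕ, ∀ f, f₀ ≤ f → ∀ (K : Type) [Field K] [CharP K 2] [Fintype K],
    Nat.card K = 2 ^ f → ∃ lam : K, (X : K[X]) ^ (n + 1) ∣
      (∏ i ∈ Finset.range f, (X - C (lam ^ (2 ^ i)))) - 1 := by
  obtain ⟨f₀, h⟩ := exists_mu n hn
  refine ⟨f₀, ?_⟩
  intro f hf K _ _ _ hK
  obtain ⟨μ, hμ, hNU⟩ := h f hf K hK
  refine ⟨μ⁻¹, ?_⟩
  have h1 : (X : K[X])^(n+1) ∣ (∏ i ∈ Finset.range f, (1 + C (μ^(2^i)) * X)) - 1 := by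
    rw [ell, NU_mk, ← mkU_one K n, mkU_eq_iff] at hNU
    have h2 : ∀ i, (1 + C μ * X : K[X]).map (iterateFrobenius K 2 i) = 1 + C (μ^(2^i)) * X := by
      intro i
      simp [iterateFrobenius_def]
    simpa only [h2] using hNU
  have h3 : ∏ i ∈ Finset.range f, (X - C ((μ⁻¹) ^ (2 ^ i))) =
      ∏ i ∈ Finset.range f, (1 + C (μ^(2^i)) * X) := by
    have h4 : ∀ i ∈ Finset.range f, (X - C ((μ⁻¹) ^ (2 ^ i)) : K[X]) =
        C ((μ⁻¹)^(2^i)) * (1 + C (μ^(2^i)) * X) := by
      intro i _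
      rw [CharTwo.sub_eq_add, mul_add, mul_one, ← mul_assoc, ← C_mul, ← mul_pow,
        inv_mul_cancel₀ hμ, one_pow, C_1, one_mul, add_comm]
    rw [Finset.prod_congr rfl h4, Finset.prod_mul_distrib]
    have h5 : ∏ i ∈ Finset.range f, C ((μ⁻¹)^(2^i)) = (1 : K[X]) := by
      rw [← map_prod (C : K →+* K[X])]
      have h6 : ∏ i ∈ Finset.range f, (μ⁻¹)^(2^i) = 1 := by
        have h7 := exists_lambda_prod (μ⁻¹) f
        rw [← hK, Nat.card_eq_fintype_card, FiniteField.pow_card] at h7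
        have h8 : μ⁻¹ ≠ 0 := inv_ne_zero hμ
        exact mul_left_cancel₀ h8 (by rw [h7, mul_one])
      rw [h6, map_one]
    rw [h5, one_mul]
  rw [h3]
  exact h1

theorem sl2_step (K : Type) [Field K] [CharP K 2] (T : K)
    (y : Matrix.SpecialLinearGroup (Fin 2) K) (hy : y.1 = !![0, 1; 1, T])
    (g : Matrix.SpecialLinearGroup (Fin 2) K) (hg : Matrix.trace (g * y⁻¹).1 = T) :
    Matrix.trace (g⁻¹ * y⁻¹ * g * y).1 = (Matrix.trace g.1) ^ 2 + T ^ 2 * Matrix.trace g.1 := by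
  have h2 : (2 : K) = 0 := CharTwo.two_eq_zero
  have hd := g.2
  obtain ⟨p, hp⟩ : ∃ p, p = g.1 0 0 := ⟨_, rfl⟩
  obtain ⟨q, hq⟩ : ∃ q, q = g.1 0 1 := ⟨_, rfl⟩
  obtain ⟨r, hr⟩ : ∃ r, r = g.1 1 0 := ⟨_, rfl⟩
  obtain ⟨s, hs⟩ : ∃ s, s = g.1 1 1 := ⟨_, rfl⟩
  have hG : g.1 = !![p, q; r, s] := by
    rw [hp, hq, hr, hs]
    exact Matrix.eta_fin_two _
  have hGi : (g⁻¹).1 = !![s, -q; -r, p] := by
    have : (g⁻¹).1 = g.1.adjugate := rfl
    rw [this, hG, Matrix.adjugate_fin_two]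
    simp
  have hyi : (y⁻¹).1 = !![T, -1; -1, 0] := by
    have : (y⁻¹).1 = y.1.adjugate := rfl
    rw [this, hy, Matrix.adjugate_fin_two]
    simp
  have e1 : (g * y⁻¹).1 = !![p, q; r, s] * !![T, -1; -1, 0] := by
    have : (g * y⁻¹).1 = g.1 * (y⁻¹).1 := rfl
    rw [this, hG, hyi]
  have e2 : (g⁻¹ * y⁻¹ * g * y).1 = !![s, -q; -r, p] * !![T, -1; -1, 0] * !![p, q; r, s] *
      !![0, 1; 1, T] := by
    have : (g⁻¹ * y⁻¹ * g * y).1 = (g⁻¹).1 * (y⁻¹).1 * g.1 * y.1 := rfl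
    rw [this, hG, hyi, hGi, hy]
  rw [e1] at hg
  rw [e2, hG]
  rw [hG] at hd
  simp only [Matrix.det_fin_two_of, Matrix.mul_fin_two,
    Matrix.trace_fin_two_of] at hd hg ⊢
  linear_combination T ^ 2 * hd + (-1 : K) * (q + r + p * T + T + T * (p + s)) * hg +
    (-q * r + p * s - T * (r * p + p * q) + T ^ 2 * (p ^ 2 + p + 1) - (p + s) ^ 2
      - T * (q + r + p * T + T + T * (p + s))) * h2

theorem sl2_part (K : Type) [Field K] [CharP K 2] [Fintype K] (lam v : K) :
    ∃ x y : Matrix.SpecialLinearGroup (Fin 2) K, ∀ i : ℕ,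
      Matrix.trace (((fun z => z⁻¹ * y⁻¹ * z * y)^[i + 1] x).1) =
        (fun v : K => v ^ 2 + lam * v)^[i] v := by
  have h2 : (2 : K) = 0 := CharTwo.two_eq_zero
  obtain ⟨T, hT⟩ : ∃ T : K, T ^ 2 = lam := by
    obtain ⟨T, hT⟩ := FiniteField.isSquare_of_char_two (F := K) (ringChar.eq_iff.2 inferInstance) lam
    exact ⟨T, by rw [hT]; ring⟩
  obtain ⟨X, hX⟩ : ∃ X : K, X ^ 2 = v + lam := by
    obtain ⟨T, hT⟩ := FiniteField.isSquare_of_char_two (F := K) (ringChar.eq_iff.2 inferInstance)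
      (v + lam)
    exact ⟨T, by rw [hT]; ring⟩
  have hyd : Matrix.det !![(0 : K), 1; 1, T] = 1 := by
    rw [Matrix.det_fin_two_of]
    linear_combination (-1 : K) * h2
  have hxd : Matrix.det !![X, (1 : K); 1, 0] = 1 := by
    rw [Matrix.det_fin_two_of]
    linear_combination (-1 : K) * h2
  obtain ⟨y, hy⟩ : ∃ y : Matrix.SpecialLinearGroup (Fin 2) K, y = ⟨!![(0 : K), 1; 1, T], hyd⟩ :=
    ⟨_, rfl⟩
  obtain ⟨x, hx⟩ : ∃ x : Matrix.SpecialLinearGroup (Fin 2) K, x = ⟨!![X, (1 : K); 1, 0], hxd⟩ :=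
    ⟨_, rfl⟩
  have hy1 : y.1 = !![0, 1; 1, T] := by rw [hy]
  have hx1 : x.1 = !![X, 1; 1, 0] := by rw [hx]
  have hyi : (y⁻¹).1 = !![T, -1; -1, 0] := by
    have : (y⁻¹).1 = y.1.adjugate := rfl
    rw [this, hy1, Matrix.adjugate_fin_two]
    simp
  have hxi : (x⁻¹).1 = !![0, -1; -1, X] := by
    have : (x⁻¹).1 = x.1.adjugate := rfl
    rw [this, hx1, Matrix.adjugate_fin_two]
    simp
  refine ⟨x, y, ?_⟩
  intro i
  induction i with
  | zero =>
    simp only [zero_add, Function.iterate_one, Function.iterate_zero, id_eq]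
    have : (x⁻¹ * y⁻¹ * x * y).1 = (x⁻¹).1 * (y⁻¹).1 * x.1 * y.1 := rfl
    rw [this, hyi, hxi, hx1, hy1]
    simp only [Matrix.trace_fin_two_of, Matrix.mul_fin_two]
    linear_combination (-1 : K) * hX - hT + (1 - T * X - v - lam) * h2
  | succ i ih =>
    rw [Function.iterate_succ_apply', Function.iterate_succ_apply' (f := fun v : K => v ^ 2 + lam * v)]
    rw [← ih]
    have hg : Matrix.trace (((fun z => z⁻¹ * y⁻¹ * z * y)^[i + 1] x) * y⁻¹).1 = T := by
      rw [Function.iterate_succ_apply']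
      obtain ⟨z, hz⟩ : ∃ z, z = (fun z => z⁻¹ * y⁻¹ * z * y)^[i] x := ⟨_, rfl⟩
      rw [← hz]
      have e : (z⁻¹ * y⁻¹ * z * y) * y⁻¹ = z⁻¹ * (y⁻¹ * z) := by group
      simp only [e]
      have e2 : (z⁻¹ * (y⁻¹ * z)).1 = (z⁻¹).1 * (y⁻¹ * z).1 := rfl
      rw [e2, Matrix.trace_mul_comm]
      have e3 : (y⁻¹ * z).1 * (z⁻¹).1 = (y⁻¹ * z * z⁻¹).1 := rfl
      rw [e3, mul_inv_cancel_right, hyi, Matrix.trace_fin_two_of]
      ring
    have h5 := sl2_step K T y hy1 _ hg
    rw [hT] at h5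
    exact h5

end Pool.Agent.Helper111.EP
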