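import Mathlib

set_option autoImplicit false

namespace Pool.Agent.Helper111.EPAlt

/-- difference operator -/
def Dc {N : ℕ} (c : ZMod N) (v : ZMod N → ZMod 3) : ZMod N → ZMod 3 := fun b => v (b + c) - v b

theorem Dc_three {N : ℕ} (c : ZMod N) : (Dc c)^[3] = Dc (3 * c) := by
  funext v b
  have h3 : (3 : ZMod 3) = 0 := rfl
  simp only [Function.iterate_succ, Function.iterate_zero, Function.comp, id, Dc]
  have e1 : b + c + c + c = b + 3 * c := by ring
  rw [e1]
  linear_combination (v (b + c) - v (b + c + c)) * h3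

theorem Dc_pow {N : ℕ} (k : ℕ) : (Dc (N := N) 1)^[3 ^ k] = Dc ((3 ^ k : ℕ) : ZMod N) := by
  induction k with
  | zero => simp
  | succ k ih =>
    rw [pow_succ, Function.iterate_mul, ih, Dc_three]
    congr 1
    push_cast
    ring

theorem Dc_ne {N : ℕ} (hN : 0 < N) (v : ZMod N → ZMod 3)
    (hv : v = fun b => if b = ((N - 1 : ℕ) : ZMod N) then 1 else 0) (i : ℕ) (hi : i < N) :
    (∀ b : ℕ, b + i < N - 1 → ((Dc 1)^[i] v) (b : ZMod N) = 0) ∧
      ((Dc 1)^[i] v) ((N - 1 - i : ℕ) : ZMod N) = 1 := by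
  induction i with
  | zero =>
    constructor
    · intro b hb
      rw [hv]
      simp only [Function.iterate_zero, id]
      rw [if_neg]
      intro h
      rw [ZMod.natCast_eq_natCast_iff'] at h
      rw [Nat.mod_eq_of_lt (by omega), Nat.mod_eq_of_lt (by omega)] at h
      omega
    · rw [hv]
      simp
  | succ i ih =>
    obtain ⟨h1, h2⟩ := ih (by omega)
    constructor
    · intro b hb
      rw [Function.iterate_succ_apply']
      unfold Dc
      have a1 := h1 (b + 1) (by omega)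
      have a2 := h1 b (by omega)
      push_cast at a1
      unfold Dc at a1 a2
      rw [a1, a2]
      simp
    · rw [Function.iterate_succ_apply']
      unfold Dc
      have a2 := h1 (N - 1 - (i + 1)) (by omega)
      have e : ((N - 1 - (i + 1) : ℕ) : ZMod N) + 1 = ((N - 1 - i : ℕ) : ZMod N) := by
        have : N - 1 - i = (N - 1 - (i + 1)) + 1 := by omega
        rw [this]
        push_cast
        rfl
      rw [e]
      unfold Dc at h2 a2
      rw [h2, a2]
      simp

def xx {N : ℕ} (v : ZMod N → ZMod 3) : Equiv.Perm (ZMod 3 × ZMod N) where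
  toFun p := (p.1 + v p.2, p.2)
  invFun p := (p.1 - v p.2, p.2)
  left_inv p := by simp
  right_inv p := by simp

def yy (N : ℕ) : Equiv.Perm (ZMod 3 × ZMod N) where
  toFun p := (p.1, p.2 + 1)
  invFun p := (p.1, p.2 - 1)
  left_inv p := by simp
  right_inv p := by simp

theorem xx_comm {N : ℕ} (v : ZMod N → ZMod 3) :
    (xx v)⁻¹ * (yy N)⁻¹ * xx v * yy N = xx (Dc 1 v) := by
  ext p : 1
  have h : (xx v)⁻¹ ((yy N)⁻¹ (xx v (yy N p))) = (p.1 + v (p.2 + 1) - v p.2, p.2) := by
    change (xx v).symm ((yy N).symm (xx v (yy N p))) = _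
    simp [xx, yy]
  change (xx v)⁻¹ ((yy N)⁻¹ (xx v (yy N p))) = _
  rw [h]
  simp only [xx, Dc, Equiv.coe_fn_mk, Prod.mk.injEq, and_true]
  ring

theorem xx_mul {N : ℕ} (v w : ZMod N → ZMod 3) : xx v * xx w = xx (v + w) := by
  ext p : 1
  simp only [xx, Equiv.Perm.coe_mul, Function.comp, Equiv.coe_fn_mk, Pi.add_apply, Prod.mk.injEq,
    and_true]
  ring

theorem xx_zero {N : ℕ} : xx (0 : ZMod N → ZMod 3) = 1 := by
  ext p : 1
  simp [xx]

theorem xx_cube {N : ℕ} (v : ZMod N → ZMod 3) : (xx v) ^ 3 = 1 := by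
  rw [pow_succ, pow_succ, pow_one, xx_mul, xx_mul]
  have : v + v + v = 0 := by
    funext b
    have h3 : (3 : ZMod 3) = 0 := rfl
    simp only [Pi.add_apply, Pi.zero_apply]
    linear_combination (v b) * h3
  rw [this, xx_zero]

theorem xx_inj {N : ℕ} (v : ZMod N → ZMod 3) (h : xx v = 1) : v = 0 := by
  funext b
  have := congrArg (fun g : Equiv.Perm (ZMod 3 × ZMod N) => (g (0, b)).1) h
  simpa [xx] using this

theorem yy_pow (N : ℕ) (m : ℕ) (p : ZMod 3 × ZMod N) : ((yy N) ^ m) p = (p.1, p.2 + m) := by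
  induction m generalizing p with
  | zero => simp
  | succ m ih =>
    rw [pow_succ, Equiv.Perm.mul_apply, ih]
    simp only [yy, Equiv.coe_fn_mk, Prod.mk.injEq, true_and]
    push_cast
    ring

theorem sign_one {n : ℕ} (g : Equiv.Perm (Fin n)) (m : ℕ) (hm : Odd m) (h : g ^ m = 1) :
    Equiv.Perm.sign g = 1 := by
  have h1 : (Equiv.Perm.sign g) ^ m = 1 := by rw [← map_pow, h, map_one]
  rcases Int.units_eq_one_or (Equiv.Perm.sign g) with h2 | h2
  · exact h2
  · rw [h2, hm.neg_one_pow] at h1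
    exact absurd h1 (by decide)

theorem alt_part (r : ℕ) : ∃ n₀ : ℕ, ∀ n, n₀ ≤ n → ∃ (x y : alternatingGroup (Fin n)) (k : ℕ),
    (fun z => z⁻¹ * y⁻¹ * z * y)^[r] x ≠ 1 ∧ (fun z => z⁻¹ * y⁻¹ * z * y)^[k] x = 1 := by
  have hr : r < 3 ^ r := Nat.lt_pow_self (by norm_num)
  set N : ℕ := 3 ^ r with hNdef
  have hN : 0 < N := by omega
  have : NeZero N := ⟨by omega⟩
  refine ⟨3 * N, fun n hn => ?_⟩
  have hcard : Fintype.card (ZMod 3 × ZMod N) ≤ Fintype.card (Fin n) := by
    rw [Fintype.card_prod, ZMod.card, ZMod.card, Fintype.card_fin]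
    exact hn
  obtain ⟨e⟩ := Function.Embedding.nonempty_of_card_le hcard
  let φ : Equiv.Perm (ZMod 3 × ZMod N) →* Equiv.Perm (Fin n) := Equiv.Perm.viaEmbeddingHom e
  have hφ : Function.Injective φ := Equiv.Perm.viaEmbeddingHom_injective e
  let v : ZMod N → ZMod 3 := fun b => if b = ((N - 1 : ℕ) : ZMod N) then 1 else 0
  have hx : Equiv.Perm.sign (φ (xx v)) = 1 := by
    apply sign_one _ 3 (by decide)
    rw [← map_pow, xx_cube, map_one]
  have hy : Equiv.Perm.sign (φ (yy N)) = 1 := by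
    apply sign_one _ N
    · rw [hNdef]
      exact Odd.pow (by decide)
    · rw [← map_pow]
      have : (yy N) ^ N = 1 := by
        ext p : 1
        rw [yy_pow]
        simp
      rw [this, map_one]
  let X : alternatingGroup (Fin n) := ⟨φ (xx v), by rw [Equiv.Perm.mem_alternatingGroup]; exact hx⟩
  let Y : alternatingGroup (Fin n) := ⟨φ (yy N), by rw [Equiv.Perm.mem_alternatingGroup]; exact hy⟩
  have key : ∀ i : ℕ, (((fun z => z⁻¹ * Y⁻¹ * z * Y)^[i] X : alternatingGroup (Fin n)) :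
      Equiv.Perm (Fin n)) = φ (xx ((Dc 1)^[i] v)) := by
    intro i
    induction i with
    | zero => rfl
    | succ i ih =>
      rw [Function.iterate_succ_apply', Function.iterate_succ_apply', ← xx_comm]
      simp only [map_mul, map_inv, Subgroup.coe_mul, Subgroup.coe_inv, ih]
      rfl
  refine ⟨X, Y, N, ?_, ?_⟩
  · intro h
    have h1 := key r
    rw [h] at h1
    have h2 : φ (xx ((Dc 1)^[r] v)) = φ 1 := by
      rw [← h1, map_one]
      rfl
    have h3 := xx_inj _ (hφ h2)
    have h4 := (Dc_ne hN v rfl r hr).2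
    rw [h3] at h4
    rw [Pi.zero_apply] at h4
    exact absurd h4 (by decide)
  · apply Subtype.ext
    rw [key N]
    have h1 : (Dc (N := N) 1)^[N] = Dc ((N : ℕ) : ZMod N) := by
      have := Dc_pow (N := N) r
      rw [← hNdef] at this
      exact this
    rw [h1]
    have h2 : Dc ((N : ℕ) : ZMod N) v = 0 := by
      funext b
      simp [Dc]
    rw [h2, xx_zero, map_one]
    rfl

end Pool.Agent.Helper111.EPAlt
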