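import Mathlib

set_option autoImplicit false

namespace Pool.Agent.Helper111.EPAltEmb

theorem alt_emb (n : ℕ) (K : Type) [Field K] :
    ∃ φ : alternatingGroup (Fin n) →* Matrix.ProjectiveSpecialLinearGroup (Fin n) K,
      Function.Injective φ := by
  let ψ : alternatingGroup (Fin n) →* Matrix.SpecialLinearGroup (Fin n) K :=
    { toFun := fun σ => ⟨Matrix.permMatrixHom (n := Fin n) (R := K) σ.1, by
        rw [Matrix.permMatrixHom_apply, Matrix.det_permutation]
        have h : Equiv.Perm.sign (σ.1) = 1 := Equiv.Perm.mem_alternatingGroup.mp σ.2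
        rw [Equiv.Perm.sign_inv, h]
        simp⟩
      map_one' := by
        apply Subtype.ext
        simp
      map_mul' := by
        intro a b
        apply Subtype.ext
        simp only [Subgroup.coe_mul, map_mul]
        rfl }
  refine ⟨(QuotientGroup.mk' (Subgroup.center (Matrix.SpecialLinearGroup (Fin n) K))).comp ψ, ?_⟩
  rw [injective_iff_map_eq_one]
  intro σ hσ
  have h1 : ψ σ ∈ Subgroup.center (Matrix.SpecialLinearGroup (Fin n) K) := by
    have h2 : (QuotientGroup.mk' (Subgroup.center (Matrix.SpecialLinearGroup (Fin n) K))) (ψ σ) = 1 := hσ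
    rw [← QuotientGroup.ker_mk' (Subgroup.center (Matrix.SpecialLinearGroup (Fin n) K))]
    exact h2
  rw [Matrix.SpecialLinearGroup.mem_center_iff] at h1
  obtain ⟨r, _, hr⟩ := h1
  have h3 : (Matrix.scalar (Fin n)) r = (σ.1)⁻¹.permMatrix K := hr
  apply Subtype.ext
  apply Equiv.ext
  intro j
  by_contra hne
  have hne' : σ.1 j ≠ j := hne
  have h4 := congrFun (congrFun h3 (σ.1 j)) j
  rw [Matrix.scalar_apply, Matrix.diagonal_apply_ne _ hne'] at h4
  rw [Equiv.Perm.permMatrix, PEquiv.toMatrix_apply] at h4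
  simp at h4

end Pool.Agent.Helper111.EPAltEmb
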