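import Mathlib

set_option autoImplicit false

open Polynomial

namespace Pool.Agent.Helper111.EPC

/-- the additive operator -/
def LA (K : Type) [Field K] [CharP K 2] (lam : K) : AddMonoid.End K where
  toFun v := v ^ 2 + lam * v
  map_zero' := by simp
  map_add' a b := by
    have h2 : (2 : K) = 0 := CharTwo.two_eq_zero
    linear_combination (a * b) * h2

noncomputable def ph (K : Type) [Field K] (L : K → K) (v : K) : K[X] →ₗ[K] K :=
  (Polynomial.basisMonomials K).constr K (fun m => L^[m] v)

theorem ph_mon (K : Type) [Field K] (L : K → K) (v : K) (m : ℕ) :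
    ph K L v (X ^ m) = L^[m] v := by
  have h := (Polynomial.basisMonomials K).constr_basis K (fun m => L^[m] v) m
  rw [Polynomial.coe_basisMonomials] at h
  simpa [ph, Polynomial.monomial_one_right_eq_X_pow] using h

theorem ph_X (K : Type) [Field K] (L : K → K) (v : K) (A : K[X]) :
    ph K L v (A * X) = ph K L (L v) A := by
  induction A using Polynomial.induction_on' with
  | add p q hp hq => rw [add_mul, map_add, map_add, hp, hq]
  | monomial m a =>
    have e1 : (monomial m a : K[X]) = a • X ^ m := by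
      rw [Polynomial.smul_X_eq_monomial]
    rw [e1, smul_mul_assoc, map_smul, map_smul, ← pow_succ, ph_mon, ph_mon,
      Function.iterate_succ_apply]

theorem ph_X_pow (K : Type) [Field K] (L : K → K) (v : K) (A : K[X]) (k : ℕ) :
    ph K L v (A * X ^ k) = ph K L (L^[k] v) A := by
  induction k generalizing v with
  | zero => simp
  | succ k ih => rw [pow_succ, ← mul_assoc, ph_X, ih, Function.iterate_succ_apply]

theorem ph_prod (K : Type) [Field K] [CharP K 2] (lam : K) (k : ℕ) (v : K) :
    ph K (fun v => v ^ 2 + lam * v) v (∏ i ∈ Finset.range k, (X - C (lam ^ (2 ^ i)))) =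
      v ^ (2 ^ k) := by
  induction k generalizing v with
  | zero =>
    have := ph_mon K (fun v => v ^ 2 + lam * v) v 0
    simpa using this
  | succ k ih =>
    rw [Finset.prod_range_succ, mul_sub, map_sub, ph_X, ih, mul_comm _ (C _),
      ← Polynomial.smul_eq_C_mul, map_smul, ih, add_pow_char_pow, mul_pow, smul_eq_mul]
    ring

noncomputable def PP (K : Type) [Field K] (lam : K) : ℕ → K[X]
  | 0 => X
  | m + 1 => PP K lam m ^ 2 + C lam * PP K lam m

theorem PP_eval (K : Type) [Field K] (lam : K) (m : ℕ) (v : K) :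
    (PP K lam m).eval v = (fun v : K => v ^ 2 + lam * v)^[m] v := by
  induction m with
  | zero => simp [PP]
  | succ m ih => rw [PP, Function.iterate_succ_apply']; simp [ih]

theorem PP_deg (K : Type) [Field K] (lam : K) (m : ℕ) :
    (PP K lam m).Monic ∧ (PP K lam m).natDegree = 2 ^ m := by
  induction m with
  | zero => exact ⟨monic_X, by simp [PP]⟩
  | succ m ih =>
    obtain ⟨h1, h2⟩ := ih
    have hm2 : (PP K lam m ^ 2).Monic := h1.pow 2
    have hd2 : (PP K lam m ^ 2).natDegree = 2 ^ (m + 1) := by
      rw [h1.natDegree_pow, h2]; ring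
    have hd3 : (C lam * PP K lam m).natDegree ≤ 2 ^ m := by
      refine (natDegree_C_mul_le _ _).trans h2.le
    have hlt : (C lam * PP K lam m).degree < (PP K lam m ^ 2).degree := by
      apply Polynomial.degree_lt_degree
      rw [hd2]
      refine lt_of_le_of_lt hd3 ?_
      rw [pow_succ]
      have : 0 < 2 ^ m := by positivity
      omega
    constructor
    · exact hm2.add_of_left hlt
    · rw [PP, natDegree_add_eq_left_of_degree_lt hlt, hd2]

noncomputable def RR (K : Type) [Field K] (lam : K) (Q : K[X]) : K[X] :=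
  ∑ m ∈ Finset.range (Q.natDegree + 1), C (Q.coeff m) * PP K lam m

theorem RR_eval (K : Type) [Field K] (lam : K) (Q : K[X]) (v : K) :
    (RR K lam Q).eval v = ph K (fun v => v ^ 2 + lam * v) v Q := by
  conv_rhs => rw [Q.as_sum_range]
  rw [RR, eval_finsetSum, map_sum]
  refine Finset.sum_congr rfl fun m _ => ?_
  have e1 : (monomial m (Q.coeff m) : K[X]) = Q.coeff m • X ^ m := by
    rw [Polynomial.smul_X_eq_monomial]
  rw [e1, map_smul, ph_mon, eval_mul, eval_C, PP_eval, smul_eq_mul]

theorem RR_deg (K : Type) [Field K] (lam : K) (Q : K[X]) (hQ : Q ≠ 0) :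
    RR K lam Q ≠ 0 ∧ (RR K lam Q).natDegree ≤ 2 ^ Q.natDegree := by
  have hlast : (C (Q.coeff Q.natDegree) * PP K lam Q.natDegree).natDegree = 2 ^ Q.natDegree := by
    rw [natDegree_C_mul (by rwa [coeff_natDegree, leadingCoeff_ne_zero]), (PP_deg K lam _).2]
  have hpos : 0 < 2 ^ Q.natDegree := by positivity
  have hlt : (∑ m ∈ Finset.range Q.natDegree, C (Q.coeff m) * PP K lam m).natDegree <
      2 ^ Q.natDegree := by
    refine lt_of_le_of_lt (natDegree_sum_le_of_forall_le (n := 2 ^ Q.natDegree - 1) _ _ ?_) (by omega)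
    intro m hm
    rw [Finset.mem_range] at hm
    refine (natDegree_C_mul_le _ _).trans ?_
    rw [(PP_deg K lam m).2]
    have : 2 ^ m < 2 ^ Q.natDegree := Nat.pow_lt_pow_right (by norm_num) hm
    omega
  have hdlt : (∑ m ∈ Finset.range Q.natDegree, C (Q.coeff m) * PP K lam m).degree <
      (C (Q.coeff Q.natDegree) * PP K lam Q.natDegree).degree := by
    apply Polynomial.degree_lt_degree
    rw [hlast]
    exact hlt
  have hnd : (RR K lam Q).natDegree = 2 ^ Q.natDegree := by
    rw [RR, Finset.sum_range_succ, natDegree_add_eq_right_of_degree_lt hdlt, hlast]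
  refine ⟨?_, hnd.le⟩
  intro h0
  rw [h0] at hnd
  simp at hnd
  omega

theorem carlitz (K : Type) [Field K] [CharP K 2] [Fintype K] (n f : ℕ) (hK : Nat.card K = 2 ^ f)
    (hf : n + 2 ≤ f)
    (lam : K) (h : (X : K[X]) ^ (n + 1) ∣ (∏ i ∈ Finset.range f, (X - C (lam ^ (2 ^ i)))) - 1) :
    ∃ v : K, (fun v : K => v ^ 2 + lam * v)^[n + 1] v = 0 ∧
      (fun v : K => v ^ 2 + lam * v)^[n] v ≠ 0 := by
  classical
  by_contra hcon
  push Not at hcon
  obtain ⟨Q, hQ⟩ := h
  set L : K → K := fun v : K => v ^ 2 + lam * v with hL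
  have hNm : (∏ i ∈ Finset.range f, (X - C (lam ^ (2 ^ i)) : K[X])).Monic :=
    monic_prod_of_monic _ _ fun i _ => monic_X_sub_C _
  have hNd : (∏ i ∈ Finset.range f, (X - C (lam ^ (2 ^ i)) : K[X])).natDegree = f := by
    rw [natDegree_prod_of_monic _ _ fun i _ => monic_X_sub_C _,
      Finset.sum_congr rfl (fun i _ => natDegree_X_sub_C _)]
    simp
  have hN1 : ((∏ i ∈ Finset.range f, (X - C (lam ^ (2 ^ i)) : K[X])) - 1).natDegree = f := by
    rw [natDegree_sub_eq_left_of_natDegree_lt, hNd]
    rw [natDegree_one, hNd]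
    omega
  have hQ0 : Q ≠ 0 := by
    rintro rfl
    rw [hQ, mul_zero, natDegree_zero] at hN1
    omega
  have hQd : Q.natDegree + (n + 1) = f := by
    rw [hQ, natDegree_mul (pow_ne_zero _ X_ne_zero) hQ0, natDegree_X_pow] at hN1
    omega
  -- every element of the image is a root of RR
  have hroot : ∀ v : K, (RR K lam Q).eval (L^[n + 1] v) = 0 := by
    intro v
    rw [RR_eval]
    have h1 := ph_X_pow K L v Q (n + 1)
    have h2 := ph_prod K lam f v
    have hv : v ^ 2 ^ f = v := by
      rw [← hK, Nat.card_eq_fintype_card, FiniteField.pow_card]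
    rw [hv] at h2
    have h3 : ph K L v ((∏ i ∈ Finset.range f, (X - C (lam ^ (2 ^ i)))) - 1) = 0 := by
      rw [map_sub]
      have h4 := ph_mon K L v 0
      rw [pow_zero] at h4
      rw [h4]
      have h5 : ph K L v (∏ i ∈ Finset.range f, (X - C (lam ^ (2 ^ i)))) = v := h2
      rw [h5]
      simp
    rw [hQ, mul_comm, h1] at h3
    exact h3
  obtain ⟨hR0, hRd⟩ := RR_deg K lam Q hQ0
  let T : K →+ K := (LA K lam ^ (n + 1) : AddMonoid.End K)
  have hT : ∀ v, T v = L^[n + 1] v := by
    intro v
    show ((LA K lam ^ (n + 1) : AddMonoid.End K) : K → K) v = _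
    rw [AddMonoid.End.coe_pow]
    rfl
  have hker : Nat.card T.ker ≤ 2 ^ n := by
    have h1 : (T.ker : Set K) ⊆ ((PP K lam n).roots.toFinset : Set K) := by
      intro v hv
      have h2 : T v = 0 := hv
      rw [hT] at h2
      have h3 := hcon v h2
      rw [Finset.mem_coe, Multiset.mem_toFinset, mem_roots (PP_deg K lam n).1.ne_zero, IsRoot.def,
        PP_eval]
      exact h3
    have h2 : Nat.card T.ker ≤ Nat.card ((PP K lam n).roots.toFinset : Set K) :=
      Nat.card_mono (Finset.finite_toSet _) h1
    refine h2.trans ?_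
    rw [Nat.card_eq_card_toFinset]
    simp only [Finset.toFinset_coe]
    refine (Multiset.toFinset_card_le _).trans ?_
    refine (card_roots' _).trans ?_
    rw [(PP_deg K lam n).2]
  have hran : Nat.card T.range ≤ 2 ^ Q.natDegree := by
    have h1 : (T.range : Set K) ⊆ ((RR K lam Q).roots.toFinset : Set K) := by
      rintro w ⟨v, rfl⟩
      rw [Finset.mem_coe, Multiset.mem_toFinset, mem_roots hR0, IsRoot.def, hT]
      exact hroot v
    have h2 : Nat.card T.range ≤ Nat.card ((RR K lam Q).roots.toFinset : Set K) :=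
      Nat.card_mono (Finset.finite_toSet _) h1
    refine h2.trans ?_
    rw [Nat.card_eq_card_toFinset]
    simp only [Finset.toFinset_coe]
    refine (Multiset.toFinset_card_le _).trans ?_
    exact (card_roots' _).trans hRd
  have hcard : Nat.card K = Nat.card T.ker * Nat.card T.range := by
    have h1 := T.ker.card_mul_index
    rw [AddSubgroup.index_ker] at h1
    exact h1.symm
  have : 2 ^ f ≤ 2 ^ n * 2 ^ Q.natDegree := by
    rw [← hK, hcard]
    exact Nat.mul_le_mul hker hran
  rw [← pow_add] at this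
  have h3 := (Nat.pow_le_pow_iff_right (by norm_num : 1 < 2)).1 this
  omega

end Pool.Agent.Helper111.EPC
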