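import Mathlib

set_option autoImplicit false

namespace Pool.Agent.Helper111.EPEmb

noncomputable def M0 (m : ℕ) (K : Type) [Field K] (A : Matrix (Fin 2) (Fin 2) K) :
    Matrix (Fin (2 + m)) (Fin (2 + m)) K :=
  (Matrix.fromBlocks A 0 0 (1 : Matrix (Fin m) (Fin m) K)).submatrix finSumFinEquiv.symm
    finSumFinEquiv.symm

theorem M0_det (m : ℕ) (K : Type) [Field K] (A : Matrix (Fin 2) (Fin 2) K) :
    (M0 m K A).det = A.det := by
  unfold M0
  rw [Matrix.det_submatrix_equiv_self, Matrix.det_fromBlocks_zero₂₁]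
  simp

theorem M0_mul (m : ℕ) (K : Type) [Field K] (A B : Matrix (Fin 2) (Fin 2) K) :
    M0 m K (A * B) = M0 m K A * M0 m K B := by
  unfold M0
  rw [Matrix.submatrix_mul_equiv, Matrix.fromBlocks_multiply]
  simp

theorem M0_one (m : ℕ) (K : Type) [Field K] :
    M0 m K 1 = 1 := by
  unfold M0
  rw [Matrix.fromBlocks_one, Matrix.submatrix_one_equiv]

noncomputable def phi0 (m : ℕ) (K : Type) [Field K] :
    Matrix.SpecialLinearGroup (Fin 2) K →* Matrix.SpecialLinearGroup (Fin (2 + m)) K where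
  toFun A := ⟨M0 m K A.1, by rw [M0_det]; exact A.2⟩
  map_one' := by
    apply Subtype.ext
    exact M0_one m K
  map_mul' A B := by
    apply Subtype.ext
    exact M0_mul m K A.1 B.1

theorem sl2_emb (n : ℕ) (hn : 3 ≤ n) (K : Type) [Field K] :
    ∃ φ : Matrix.SpecialLinearGroup (Fin 2) K →* Matrix.ProjectiveSpecialLinearGroup (Fin n) K,
      Function.Injective φ := by
  obtain ⟨m, rfl⟩ : ∃ m, n = 2 + m := ⟨n - 2, by omega⟩
  refine ⟨(QuotientGroup.mk' (Subgroup.center (Matrix.SpecialLinearGroup (Fin (2 + m)) K))).comp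
    (phi0 m K), ?_⟩
  rw [injective_iff_map_eq_one]
  intro A hA
  have h1 : phi0 m K A ∈ Subgroup.center (Matrix.SpecialLinearGroup (Fin (2 + m)) K) := by
    have : QuotientGroup.mk' (Subgroup.center (Matrix.SpecialLinearGroup (Fin (2 + m)) K))
      (phi0 m K A) = 1 := hA
    exact (QuotientGroup.eq_one_iff _).mp this
  rw [Matrix.SpecialLinearGroup.mem_center_iff] at h1
  obtain ⟨r, _, hr⟩ := h1
  have hent : ∀ i j, (Matrix.scalar (Fin (2 + m)) r) i j = M0 m K A.1 i j := by
    intro i j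
    rw [hr]
    rfl
  have hr1 : r = 1 := by
    have h2 := hent (finSumFinEquiv (Sum.inr ⟨0, by omega⟩)) (finSumFinEquiv (Sum.inr ⟨0, by omega⟩))
    unfold M0 at h2
    rw [Matrix.submatrix_apply] at h2
    simp only [Equiv.symm_apply_apply, Matrix.fromBlocks_apply₂₂, Matrix.one_apply_eq,
      Matrix.scalar_apply, Matrix.diagonal_apply_eq] at h2
    exact h2
  apply Matrix.SpecialLinearGroup.ext
  intro i j
  have h3 := hent (finSumFinEquiv (Sum.inl i)) (finSumFinEquiv (Sum.inl j))
  unfold M0 at h3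
  rw [Matrix.submatrix_apply] at h3
  simp only [Equiv.symm_apply_apply, Matrix.fromBlocks_apply₁₁, Matrix.scalar_apply] at h3
  have h4 : (A : Matrix (Fin 2) (Fin 2) K) i j = A.1 i j := rfl
  rw [h4, ← h3, hr1, Matrix.SpecialLinearGroup.coe_one]
  by_cases hij : i = j
  · subst hij; simp
  · rw [Matrix.one_apply_ne hij, Matrix.diagonal_apply_ne]
    intro h
    apply hij
    have := finSumFinEquiv.injective h
    exact Sum.inl_injective this

end Pool.Agent.Helper111.EPEmb
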