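import Mathlib

set_option autoImplicit false

namespace Pool.Agent.Helper111.EPLL

theorem fixed_mem (K : Type) [Field K] [Fintype K] (L : Type) [Field L] [Algebra K L] (s : L)
    (hs : s ^ Fintype.card K = s) : ∃ t : K, algebraMap K L t = s := by
  classical
  have hq : 1 < Fintype.card K := Fintype.one_lt_card
  have hne := FiniteField.X_pow_card_sub_X_ne_zero L hq
  have hdeg := FiniteField.X_pow_card_sub_X_natDegree_eq L hq
  set P : Polynomial L := Polynomial.X ^ Fintype.card K - Polynomial.X with hP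
  have hmem : ∀ x : L, x ^ Fintype.card K = x → x ∈ P.roots.toFinset := by
    intro x hx
    rw [Multiset.mem_toFinset, Polynomial.mem_roots hne, Polynomial.IsRoot.def, hP]
    simp [hx]
  have hsub : (Finset.univ.image (algebraMap K L)) ⊆ P.roots.toFinset := by
    intro x hx
    obtain ⟨t, _, rfl⟩ := Finset.mem_image.1 hx
    apply hmem
    rw [← map_pow, FiniteField.pow_card]
  have hcard : P.roots.toFinset.card ≤ (Finset.univ.image (algebraMap K L)).card := by
    rw [Finset.card_image_of_injective _ (algebraMap K L).injective, Finset.card_univ]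
    calc P.roots.toFinset.card ≤ P.roots.card := Multiset.toFinset_card_le _
      _ ≤ P.natDegree := P.card_roots'
      _ = Fintype.card K := hdeg
  have heq := Finset.eq_of_subset_of_card_le hsub hcard
  have h1 := hmem s hs
  rw [← heq] at h1
  obtain ⟨t, _, ht⟩ := Finset.mem_image.1 h1
  exact ⟨t, ht⟩

theorem two_adic (q r : ℕ) (hq : 2 ≤ q) (h : 2 ^ (r + 2) ∣ q ^ 2 - 1) :
    2 ^ (r + 1) ∣ q - 1 ∨ 2 ^ (r + 1) ∣ q + 1 := by
  have hodd : q % 2 = 1 := by
    by_contra hcon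
    obtain ⟨k, rfl⟩ : ∃ k, q = 2 * k := ⟨q / 2, by omega⟩
    have h2 : 2 ∣ (2 * k) ^ 2 - 1 := (dvd_pow_self 2 (by omega : r + 2 ≠ 0)).trans h
    have h3 : (2 * k) ^ 2 = 2 * (2 * k * k) := by ring
    have h4 : 0 < 2 * k * k := by
      have : 0 < k := by omega
      positivity
    rw [h3] at h2
    omega
  obtain ⟨k, rfl⟩ : ∃ k, q = 2 * k + 1 := ⟨q / 2, by omega⟩
  have e : (2 * k + 1) ^ 2 - 1 = 4 * (k * (k + 1)) := by
    have : (2 * k + 1) ^ 2 = 4 * (k * (k + 1)) + 1 := by ring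
    omega
  rw [e, show 2 ^ (r + 2) = 4 * 2 ^ r by rw [pow_add]; ring] at h
  have h1 : 2 ^ r ∣ k * (k + 1) := Nat.dvd_of_mul_dvd_mul_left (by norm_num) h
  rcases Nat.even_or_odd k with hk | hk
  · left
    have hc : Nat.Coprime (2 ^ r) (k + 1) :=
      Nat.Coprime.pow_left r ((Nat.coprime_two_left).2 hk.add_one)
    have h2 : 2 ^ r ∣ k := hc.dvd_of_dvd_mul_right h1
    rw [show 2 * k + 1 - 1 = 2 * k by omega, pow_succ']
    exact Nat.mul_dvd_mul_left 2 h2
  · right
    have hc : Nat.Coprime (2 ^ r) k := Nat.Coprime.pow_left r ((Nat.coprime_two_left).2 hk)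
    have h2 : 2 ^ r ∣ k + 1 := hc.dvd_of_dvd_mul_left h1
    rw [show 2 * k + 1 + 1 = 2 * (k + 1) by ring, pow_succ']
    exact Nat.mul_dvd_mul_left 2 h2

theorem ll_iter {L : Type} [Field L] (w w' : L) (hw : w * w' = 1) (i : ℕ) :
    (fun t : L => t ^ 2 - 2)^[i] (w + w') = w ^ (2 ^ i) + w' ^ (2 ^ i) := by
  induction i with
  | zero => simp
  | succ i ih =>
    rw [Function.iterate_succ_apply', ih]
    have h1 : w ^ (2 ^ i) * w' ^ (2 ^ i) = 1 := by rw [← mul_pow, hw, one_pow]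
    show (w ^ (2 ^ i) + w' ^ (2 ^ i)) ^ 2 - 2 = _
    rw [pow_succ 2 i, pow_mul, pow_mul]
    linear_combination 2 * h1

theorem ll_map {K L : Type} [Field K] [Field L] [Algebra K L] (t : K) (i : ℕ) :
    algebraMap K L ((fun t : K => t ^ 2 - 2)^[i] t) =
      (fun t : L => t ^ 2 - 2)^[i] (algebraMap K L t) := by
  induction i with
  | zero => rfl
  | succ i ih =>
    rw [Function.iterate_succ_apply', Function.iterate_succ_apply', ← ih]
    show algebraMap K L (_ ^ 2 - 2) = _
    rw [map_sub, map_pow]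
    congr 1
    exact map_ofNat _ 2

theorem ll_chain (K : Type) [Field K] [Fintype K] (h2 : (2 : K) ≠ 0) (r : ℕ)
    (h : 2 ^ (r + 2) ∣ (Nat.card K) ^ 2 - 1) :
    ∃ t : K, (fun t : K => t ^ 2 - 2)^[r] t = -2 := by
  rw [Nat.card_eq_fintype_card] at h
  have hq : 2 ≤ Fintype.card K := Fintype.one_lt_card
  obtain ⟨w, hw⟩ : ∃ w : AlgebraicClosure K, w ^ (2 ^ r) = -1 :=
    IsAlgClosed.exists_pow_nat_eq (-1) (by positivity)
  have hw0 : w ≠ 0 := by
    rintro rfl
    rw [zero_pow (by positivity)] at hw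
    exact one_ne_zero (neg_eq_zero.1 hw.symm)
  have hw2 : w ^ (2 ^ (r + 1)) = 1 := by
    rw [pow_succ, pow_mul, hw]
    norm_num
  have hww : w * w⁻¹ = 1 := mul_inv_cancel₀ hw0
  have hfrob : (w + w⁻¹) ^ Fintype.card K = w ^ Fintype.card K + w⁻¹ ^ Fintype.card K := by
    have := map_add (FiniteField.frobeniusAlgHom K (AlgebraicClosure K)) w w⁻¹
    rwa [FiniteField.coe_frobeniusAlgHom] at this
  have hs : (w + w⁻¹) ^ Fintype.card K = w + w⁻¹ := by
    rw [hfrob]
    rcases two_adic _ r hq h with ⟨m, hm⟩ | ⟨m, hm⟩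
    · have h3 : Fintype.card K = 2 ^ (r + 1) * m + 1 := by omega
      have h4 : w ^ Fintype.card K = w := by
        rw [h3, pow_succ, pow_mul, hw2, one_pow, one_mul]
      rw [inv_pow, h4]
    · have h4 : w ^ Fintype.card K * w = 1 := by
        rw [← pow_succ, hm, pow_mul, hw2, one_pow]
      have h5 : w ^ Fintype.card K = w⁻¹ := eq_inv_of_mul_eq_one_left h4
      rw [inv_pow, h5, inv_inv, add_comm]
  obtain ⟨t, ht⟩ := fixed_mem K (AlgebraicClosure K) _ hs
  refine ⟨t, (algebraMap K (AlgebraicClosure K)).injective ?_⟩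
  rw [ll_map, ht, ll_iter w w⁻¹ hww, hw, inv_pow, hw, map_neg, map_ofNat]
  norm_num

end Pool.Agent.Helper111.EPLL
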