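import Mathlib

set_option autoImplicit false

namespace Pool.Agent.Helper111.EPOdd

theorem two_sq_aux (K : Type) [Field K] [Fintype K] (h2 : (2 : K) ≠ 0) (x : K) : ∃ a b : K, a ^ 2 + b ^ 2 = x := by
  classical
  have hodd : Fintype.card K % 2 = 1 := by
    apply FiniteField.odd_card_of_char_ne_two
    intro h
    apply h2
    have := ringChar.Nat.cast_ringChar (R := K)
    rw [h] at this
    exact_mod_cast this
  have hX : (Polynomial.X ^ 2 : Polynomial K).degree = 2 := by simp
  obtain ⟨a, b, hab⟩ := FiniteField.exists_root_sum_quadratic (R := K) (f := Polynomial.X ^ 2) (g := Polynomial.X ^ 2 - Polynomial.C x)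
    hX (by rw [Polynomial.degree_sub_C (by rw [hX]; norm_num), hX]) hodd
  refine ⟨a, b, ?_⟩
  simp at hab
  linear_combination hab

theorem sl2_odd (K : Type) [Field K] [Fintype K] (h2 : (2 : K) ≠ 0) (t : K) :
    ∃ x y : Matrix.SpecialLinearGroup (Fin 2) K, ∀ i : ℕ,
      Matrix.trace (((fun z => z⁻¹ * y⁻¹ * z * y)^[i + 1] x).1) =
        (fun t : K => t ^ 2 - 2)^[i] t := by
  obtain ⟨m, n, hmn⟩ := two_sq_aux K h2 (t - 2)
  obtain ⟨P, Q, hPQ⟩ := two_sq_aux K h2 (t + 2)
  set a : K := (P + m) / 2 with ha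
  set d : K := (P - m) / 2 with hd
  set b : K := (Q + n) / 2 with hb
  set c : K := (n - Q) / 2 with hc
  have h4 : (4 : K) ≠ 0 := by
    have : (4 : K) = 2 * 2 := by norm_num
    rw [this]; exact mul_ne_zero h2 h2
  have hdet : a * d - b * c = 1 := by
    rw [ha, hb, hc, hd]
    field_simp
    linear_combination hPQ - hmn
  have htr : a ^ 2 + b ^ 2 + c ^ 2 + d ^ 2 = t := by
    rw [ha, hb, hc, hd]
    field_simp
    linear_combination 2 * hPQ + 2 * hmn
  let y : Matrix.SpecialLinearGroup (Fin 2) K := ⟨!![0, 1; -1, 0], by simp [Matrix.det_fin_two]⟩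
  let x : Matrix.SpecialLinearGroup (Fin 2) K := ⟨!![a, b; c, d], by simp [Matrix.det_fin_two, hdet]⟩
  let f : Matrix.SpecialLinearGroup (Fin 2) K → Matrix.SpecialLinearGroup (Fin 2) K := fun z => z⁻¹ * y⁻¹ * z * y
  have hf : ∀ z : Matrix.SpecialLinearGroup (Fin 2) K, (f z).1 = !![z.1 1 1 ^ 2 + z.1 0 1 ^ 2, -(z.1 1 0 * z.1 1 1 + z.1 0 0 * z.1 0 1); -(z.1 1 0 * z.1 1 1 + z.1 0 0 * z.1 0 1), z.1 1 0 ^ 2 + z.1 0 0 ^ 2] := by
    intro z
    have e1 : (f z).1 = z.1.adjugate * (y.1).adjugate * z.1 * y.1 := rfl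
    have e2 : z.1 = !![z.1 0 0, z.1 0 1; z.1 1 0, z.1 1 1] := Matrix.eta_fin_two z.1
    have e3 : y.1 = !![0, 1; -1, 0] := rfl
    rw [e1, e3]
    generalize z.1 0 0 = A at *
    generalize z.1 0 1 = B at *
    generalize z.1 1 0 = C at *
    generalize z.1 1 1 = D at *
    rw [e2, Matrix.adjugate_fin_two_of, Matrix.adjugate_fin_two_of, Matrix.mul_fin_two, Matrix.mul_fin_two, Matrix.mul_fin_two]
    ext i j
    fin_cases i <;> fin_cases j <;> simp <;> ring
  have hstep : ∀ z : Matrix.SpecialLinearGroup (Fin 2) K, Matrix.trace (f (f z)).1 = (Matrix.trace (f z).1) ^ 2 - 2 := by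
    intro z
    have hz : z.1 0 0 * z.1 1 1 - z.1 0 1 * z.1 1 0 = 1 := by
      have := z.2
      rwa [Matrix.det_fin_two] at this
    rw [hf (f z), hf z]
    simp [Matrix.trace_fin_two]
    generalize z.1 0 0 = A at *
    generalize z.1 0 1 = B at *
    generalize z.1 1 0 = C at *
    generalize z.1 1 1 = D at *
    linear_combination (-2 * (A * D - B * C) - 2) * hz
  refine ⟨x, y, ?_⟩
  intro i
  change Matrix.trace ((f^[i + 1] x).1) = _
  induction i with
  | zero =>
    simp only [zero_add, Function.iterate_one, Function.iterate_zero, id_eq]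
    rw [hf x]
    simp [x, Matrix.trace_fin_two]
    linear_combination htr
  | succ i ih =>
    rw [Function.iterate_succ_apply' f (i + 1) x, Function.iterate_succ_apply' f i x, hstep,
      ← Function.iterate_succ_apply' f i x, ih, Function.iterate_succ_apply']

end Pool.Agent.Helper111.EPOdd
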