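import Pool.Agent.Helper111.CT

set_option autoImplicit false

namespace Pool.Agent.Helper111.FP

open Equiv

theorem pinv (g : Perm ℤ) (x : ℤ) : g (g⁻¹ x) = x := by simp

theorem pinv' (g : Perm ℤ) (x : ℤ) : g⁻¹ (g x) = x := by simp

/-- labelled trees -/
inductive T : Type
  | leaf : ℕ → T
  | node : (p : ℕ) → (Fin p → T) → T

/-- residue of `x` as an index -/
def idx (p : ℕ) (hp : 0 < p) (x : ℤ) : Fin p :=
  ⟨(x % p).toNat, by
    have h1 := Int.emod_nonneg x (show (p : ℤ) ≠ 0 by omega)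
    have h2 := Int.emod_lt_of_pos x (show (0 : ℤ) < p by omega)
    omega⟩

theorem idx_val (p : ℕ) (hp : 0 < p) (x : ℤ) : ((idx p hp x : Fin p) : ℤ) = x % p := by
  have h1 := Int.emod_nonneg x (show (p : ℤ) ≠ 0 by omega)
  simp only [idx]
  rw [Int.toNat_of_nonneg h1]

theorem idx_eq (p : ℕ) (hp : 0 < p) (i : Fin p) (k : ℤ) : idx p hp ((i : ℤ) + p * k) = i := by
  ext
  have h := idx_val p hp ((i : ℤ) + p * k)
  rw [Int.add_mul_emod_self_left, Int.emod_eq_of_lt (by positivity) (by exact_mod_cast i.isLt)] at h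
  exact_mod_cast h

theorem div_eq (p : ℕ) (hp : 0 < p) (i : Fin p) (k : ℤ) : ((i : ℤ) + p * k) / p = k := by
  rw [Int.add_mul_ediv_left _ _ (by omega : (p : ℤ) ≠ 0),
    Int.ediv_eq_zero_of_lt (by positivity) (by exact_mod_cast i.isLt), zero_add]

theorem idx_div (p : ℕ) (hp : 0 < p) (x : ℤ) : ((idx p hp x : Fin p) : ℤ) + p * (x / p) = x := by
  rw [idx_val, Int.emod_add_mul_ediv]

/-- locating an integer in a tree -/
def loc : T → ℤ → ℕ × ℤ
  | T.leaf a, x => (a, x)
  | T.node p c, x => if hp : 0 < p then loc (c (idx p hp x)) (x / p) else (0, 0)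

/-- substitution -/
def bind : T → (ℕ → T) → T
  | T.leaf a, f => f a
  | T.node p c, f => T.node p (fun i => bind (c i) f)

/-- the set of labels -/
def lab : T → Finset ℕ
  | T.leaf a => {a}
  | T.node p c => Finset.univ.biUnion (fun i : Fin p => lab (c i))

/-- all branching numbers lie in `Ps` -/
def ok (Ps : Set ℕ) : T → Prop
  | T.leaf _ => True
  | T.node p c => p ∈ Ps ∧ ∀ i : Fin p, ok Ps (c i)

/-- labels distinct -/
def Good (Ps : Set ℕ) : T → Prop
  | T.leaf _ => True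
  | T.node p c => p ∈ Ps ∧ (∀ i : Fin p, Good Ps (c i)) ∧
      ∀ i j : Fin p, i ≠ j → Disjoint (lab (c i)) (lab (c j))

theorem loc_leaf (a : ℕ) (x : ℤ) : loc (T.leaf a) x = (a, x) := rfl

theorem loc_node (p : ℕ) (hp : 0 < p) (c : Fin p → T) (x : ℤ) :
    loc (T.node p c) x = loc (c (idx p hp x)) (x / p) := by
  rw [loc, dif_pos hp]

theorem loc_node_mk (p : ℕ) (hp : 0 < p) (c : Fin p → T) (i : Fin p) (k : ℤ) :
    loc (T.node p c) ((i : ℤ) + p * k) = loc (c i) k := by
  rw [loc_node p hp, idx_eq, div_eq p hp]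

theorem mem_lab_node {p : ℕ} {c : Fin p → T} {a : ℕ} :
    a ∈ lab (T.node p c) ↔ ∃ i, a ∈ lab (c i) := by
  simp [lab]

theorem mem_lab_leaf {a b : ℕ} : a ∈ lab (T.leaf b) ↔ a = b := by simp [lab]

/-- conditions on the set of branching numbers -/
structure PS (Ps : Set ℕ) : Prop where
  prime : ∀ p ∈ Ps, p.Prime
  two : 2 ∈ Ps

theorem PS.pos {Ps : Set ℕ} (h : PS Ps) {p : ℕ} (hp : p ∈ Ps) : 0 < p := (h.prime p hp).pos

theorem Good.ok {Ps : Set ℕ} : ∀ {t : T}, Good Ps t → ok Ps t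
  | T.leaf _, _ => trivial
  | T.node _ _, h => ⟨h.1, fun i => Good.ok (h.2.1 i)⟩

theorem loc_bind {Ps : Set ℕ} (hPs : PS Ps) (f : ℕ → T) : ∀ (t : T), ok Ps t → ∀ x : ℤ,
    loc (bind t f) x = loc (f (loc t x).1) (loc t x).2
  | T.leaf _, _, _ => rfl
  | T.node p c, h, x => by
    have hp := hPs.pos h.1
    rw [bind, loc_node p hp, loc_node p hp, loc_bind hPs f (c _) (h.2 _)]

theorem bind_leaf : ∀ (t : T), bind t T.leaf = t
  | T.leaf _ => rfl
  | T.node p c => by
    rw [bind]; congr 1; funext i; exact bind_leaf (c i)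

theorem bind_bind (f g : ℕ → T) : ∀ (t : T), bind (bind t f) g = bind t (fun a => bind (f a) g)
  | T.leaf _ => rfl
  | T.node p c => by
    rw [bind, bind, bind]; congr 1; funext i; exact bind_bind f g (c i)

theorem bind_congr {f g : ℕ → T} : ∀ (t : T), (∀ a ∈ lab t, f a = g a) → bind t f = bind t g
  | T.leaf a, h => h a (by simp [lab])
  | T.node p c, h => by
    rw [bind, bind]; congr 1; funext i
    exact bind_congr (c i) (fun a ha => h a (mem_lab_node.2 ⟨i, ha⟩))

theorem bind_id {f : ℕ → T} (t : T) (h : ∀ a ∈ lab t, f a = T.leaf a) : bind t f = t := by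
  rw [bind_congr t h, bind_leaf]

theorem mem_lab_bind {f : ℕ → T} : ∀ (t : T) {b : ℕ}, b ∈ lab (bind t f) ↔
    ∃ a ∈ lab t, b ∈ lab (f a)
  | T.leaf a, b => by simp [bind, lab]
  | T.node p c, b => by
    rw [bind, mem_lab_node]
    constructor
    · rintro ⟨i, hi⟩
      obtain ⟨a, ha, hb⟩ := (mem_lab_bind (c i)).1 hi
      exact ⟨a, mem_lab_node.2 ⟨i, ha⟩, hb⟩
    · rintro ⟨a, ha, hb⟩
      obtain ⟨i, hi⟩ := mem_lab_node.1 ha
      exact ⟨i, (mem_lab_bind (c i)).2 ⟨a, hi, hb⟩⟩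

theorem lab_nonempty {Ps : Set ℕ} (hPs : PS Ps) : ∀ (t : T), ok Ps t → (lab t).Nonempty
  | T.leaf a, _ => ⟨a, by simp [lab]⟩
  | T.node p c, h => by
    obtain ⟨a, ha⟩ := lab_nonempty hPs (c ⟨0, hPs.pos h.1⟩) (h.2 _)
    exact ⟨a, mem_lab_node.2 ⟨_, ha⟩⟩

theorem ok_bind {Ps : Set ℕ} {f : ℕ → T} : ∀ (t : T), ok Ps t → (∀ a ∈ lab t, ok Ps (f a)) →
    ok Ps (bind t f)
  | T.leaf a, _, h => h a (by simp [lab])
  | T.node p c, h, h' => ⟨h.1, fun i => ok_bind (c i) (h.2 i)
      (fun a ha => h' a (mem_lab_node.2 ⟨i, ha⟩))⟩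

theorem good_bind {Ps : Set ℕ} {f : ℕ → T} : ∀ (t : T), Good Ps t → (∀ a ∈ lab t, Good Ps (f a)) →
    (∀ a ∈ lab t, ∀ b ∈ lab t, a ≠ b → Disjoint (lab (f a)) (lab (f b))) → Good Ps (bind t f)
  | T.leaf a, _, h, _ => h a (by simp [lab])
  | T.node p c, h, h', h'' => by
    refine ⟨h.1, fun i => good_bind (c i) (h.2.1 i)
      (fun a ha => h' a (mem_lab_node.2 ⟨i, ha⟩))
      (fun a ha b hb hab => h'' a (mem_lab_node.2 ⟨i, ha⟩) b (mem_lab_node.2 ⟨i, hb⟩) hab), ?_⟩
    intro i j hij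
    rw [Finset.disjoint_left]
    intro x hx hx'
    obtain ⟨a, ha, hxa⟩ := (mem_lab_bind (c i)).1 hx
    obtain ⟨b, hb, hxb⟩ := (mem_lab_bind (c j)).1 hx'
    have hab : a ≠ b := by
      rintro rfl
      exact Finset.disjoint_left.1 (h.2.2 i j hij) ha hb
    exact Finset.disjoint_left.1 (h'' a (mem_lab_node.2 ⟨i, ha⟩) b (mem_lab_node.2 ⟨j, hb⟩) hab)
      hxa hxb

/-- a converse of `good_bind` -/
theorem good_of_bind {Ps : Set ℕ} (hPs : PS Ps) {f : ℕ → T} : ∀ (t : T), Good Ps (bind t f) →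
    (∀ a ∈ lab t, Good Ps (f a)) ∧
    (∀ a ∈ lab t, (lab (f a)).Nonempty) := by
  intro t
  induction t with
  | leaf a =>
    intro h
    refine ⟨?_, ?_⟩
    · intro b hb; rw [mem_lab_leaf] at hb; subst hb; exact h
    · intro b hb; rw [mem_lab_leaf] at hb; subst hb; exact lab_nonempty hPs _ (Good.ok h)
  | node p c ih =>
    intro h
    refine ⟨?_, ?_⟩
    · intro b hb
      obtain ⟨i, hi⟩ := mem_lab_node.1 hb
      exact (ih i (h.2.1 i)).1 b hi
    · intro b hb
      obtain ⟨i, hi⟩ := mem_lab_node.1 hb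
      exact (ih i (h.2.1 i)).2 b hi

/-- labels are exactly the first components of `loc` -/
theorem loc_fst_mem {Ps : Set ℕ} (hPs : PS Ps) : ∀ (t : T), ok Ps t → ∀ x : ℤ,
    (loc t x).1 ∈ lab t
  | T.leaf a, _, x => by simp [loc, lab]
  | T.node p c, h, x => by
    rw [loc_node p (hPs.pos h.1)]
    exact mem_lab_node.2 ⟨_, loc_fst_mem hPs (c _) (h.2 _) _⟩

/-- the position of a leaf -/
theorem exists_place {Ps : Set ℕ} (hPs : PS Ps) {Mo : ℤ → Prop} (hMo : CT.Adm Mo)
    (hPM : ∀ p ∈ Ps, Mo (p : ℤ)) : ∀ (t : T), ok Ps t → ∀ a ∈ lab t,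
    ∃ r m : ℤ, 0 ≤ r ∧ r < m ∧ Mo m ∧ ∀ k : ℤ, loc t (r + m * k) = (a, k) := by
  intro t
  induction t with
  | leaf b =>
    intro _ a ha
    rw [mem_lab_leaf] at ha; subst ha
    exact ⟨0, 1, le_refl _, one_pos, hMo.one, fun k => by rw [loc_leaf]; simp⟩
  | node p c ih =>
    intro h a ha
    obtain ⟨i, hi⟩ := mem_lab_node.1 ha
    obtain ⟨r, m, h1, h2, h3, h4⟩ := ih i (h.2 i) a hi
    have hp := hPs.pos h.1
    have hi' : ((i : ℕ) : ℤ) < p := by exact_mod_cast i.isLt
    refine ⟨i + p * r, p * m, by positivity, ?_, hMo.mul _ _ (hPM p h.1) h3, ?_⟩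
    · have : (p : ℤ) * (r + 1) ≤ p * m := by
        apply mul_le_mul_of_nonneg_left _ (by positivity); omega
      linarith
    · intro k
      rw [show ((i : ℕ) : ℤ) + p * r + p * m * k = (i : ℤ) + p * (r + m * k) by ring,
        loc_node_mk p hp, h4]

theorem loc_injective {Ps : Set ℕ} (hPs : PS Ps) : ∀ (t : T), Good Ps t →
    Function.Injective (loc t) := by
  intro t
  induction t with
  | leaf b =>
    intro _ x y hxy
    rw [loc_leaf, loc_leaf] at hxy
    exact congrArg Prod.snd hxy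
  | node p c ih =>
    intro h x y hxy
    have hp := hPs.pos h.1
    rw [loc_node p hp, loc_node p hp] at hxy
    have hij : idx p hp x = idx p hp y := by
      by_contra hne
      have h1 := loc_fst_mem hPs (c (idx p hp x)) (Good.ok (h.2.1 _)) (x / p)
      have h2 := loc_fst_mem hPs (c (idx p hp y)) (Good.ok (h.2.1 _)) (y / p)
      rw [hxy] at h1
      exact Finset.disjoint_left.1 (h.2.2 _ _ hne) h1 h2
    rw [hij] at hxy
    have hd := ih _ (h.2.1 _) hxy
    have e1 := idx_div p hp x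
    have e2 := idx_div p hp y
    rw [← e1, ← e2, hij, hd]

theorem good_of_injective {Ps : Set ℕ} (hPs : PS Ps) : ∀ (t : T), ok Ps t →
    Function.Injective (loc t) → Good Ps t := by
  intro t
  induction t with
  | leaf b => intro _ _; trivial
  | node p c ih =>
    intro h hinj
    have hp := hPs.pos h.1
    refine ⟨h.1, fun i => ih i (h.2 i) ?_, ?_⟩
    · intro x y hxy
      have := @hinj ((i : ℤ) + p * x) ((i : ℤ) + p * y) (by
        rw [loc_node_mk p hp, loc_node_mk p hp, hxy])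
      have h2 : (p : ℤ) * x = p * y := by linarith
      exact mul_left_cancel₀ (by omega : (p : ℤ) ≠ 0) h2
    · intro i j hij
      rw [Finset.disjoint_left]
      intro a ha hb
      obtain ⟨r, m, _, _, _, h1⟩ := exists_place hPs (Mo := fun _ => True)
        ⟨trivial, trivial, fun _ _ _ _ => trivial⟩ (fun _ _ => trivial) (c i) (h.2 i) a ha
      obtain ⟨r', m', _, _, _, h1'⟩ := exists_place hPs (Mo := fun _ => True)
        ⟨trivial, trivial, fun _ _ _ _ => trivial⟩ (fun _ _ => trivial) (c j) (h.2 j) a hb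
      have e := @hinj ((i : ℤ) + p * (r + m * 0)) ((j : ℤ) + p * (r' + m' * 0)) (by
        rw [loc_node_mk p hp, loc_node_mk p hp, h1, h1'])
      apply hij
      have := congrArg (idx p hp) e
      rwa [idx_eq, idx_eq] at this

/-- the element carrying `t` to `t'` -/
def Act (g : Perm ℤ) (t t' : T) : Prop := ∀ x, loc t' (g x) = loc t x

theorem loc_surj {Ps : Set ℕ} (hPs : PS Ps) (t : T) (ht : ok Ps t) (a : ℕ) (ha : a ∈ lab t)
    (k : ℤ) : ∃ x, loc t x = (a, k) := by
  obtain ⟨r, m, _, _, _, h1⟩ := exists_place hPs (Mo := fun _ => True)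
    ⟨trivial, trivial, fun _ _ _ _ => trivial⟩ (fun _ _ => trivial) t ht a ha
  exact ⟨_, h1 k⟩

theorem exists_act {Ps : Set ℕ} (hPs : PS Ps) {t t' : T} (ht : Good Ps t) (ht' : Good Ps t')
    (hl : lab t = lab t') : ∃ g : Perm ℤ, Act g t t' := by
  have h1 : ∀ x, ∃ y, loc t' y = loc t x := by
    intro x
    obtain ⟨y, hy⟩ := loc_surj hPs t' ht'.ok (loc t x).1 (by
      rw [← hl]; exact loc_fst_mem hPs t ht.ok x) (loc t x).2
    exact ⟨y, hy⟩
  choose g hg using h1
  have hb : Function.Bijective g := by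
    constructor
    · intro x y hxy
      apply loc_injective hPs t ht
      rw [← hg, ← hg, hxy]
    · intro y
      obtain ⟨x, hx⟩ := loc_surj hPs t ht.ok (loc t' y).1 (by
        rw [hl]; exact loc_fst_mem hPs t' ht'.ok y) (loc t' y).2
      refine ⟨x, loc_injective hPs t' ht' ?_⟩
      rw [hg, hx]
  exact ⟨Equiv.ofBijective g hb, hg⟩

theorem act_unique {Ps : Set ℕ} (hPs : PS Ps) {t t' : T} (ht' : Good Ps t') {g h : Perm ℤ}
    (hg : Act g t t') (hh : Act h t t') : g = h := by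
  ext x
  apply loc_injective hPs t' ht'
  rw [hg, hh]

theorem act_lab {Ps : Set ℕ} (hPs : PS Ps) {t t' : T} (ht : ok Ps t) (ht' : ok Ps t')
    {g : Perm ℤ} (hg : Act g t t') : lab t = lab t' := by
  ext a
  constructor
  · intro ha
    obtain ⟨x, hx⟩ := loc_surj hPs t ht a ha 0
    have := loc_fst_mem hPs t' ht' (g x)
    rw [hg, hx] at this; exact this
  · intro ha
    obtain ⟨x, hx⟩ := loc_surj hPs t' ht' a ha 0
    have := loc_fst_mem hPs t ht (g⁻¹ x)
    rw [← hg] at this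
    rw [pinv, hx] at this; exact this

theorem act_comp {t t' t'' : T} {g h : Perm ℤ} (hg : Act g t t') (hh : Act h t' t'') :
    Act (h * g) t t'' := by
  intro x
  rw [Perm.mul_apply, hh, hg]

theorem act_one {t t' : T} (h : loc t = loc t') : Act 1 t t' := by
  intro x; rw [h]; rfl

theorem act_inv {t t' : T} {g : Perm ℤ} (hg : Act g t t') : Act g⁻¹ t' t := by
  intro x
  have := hg (g⁻¹ x)
  rw [pinv] at this
  exact this.symm

theorem act_bind {Ps : Set ℕ} (hPs : PS Ps) {t t' : T} (ht : ok Ps t) (ht' : ok Ps t')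
    {g : Perm ℤ} (hg : Act g t t') (f : ℕ → T) : Act g (bind t f) (bind t' f) := by
  intro x
  rw [loc_bind hPs f t' ht', loc_bind hPs f t ht, hg]


/-- the canonical structure of `loc` -/
theorem loc_canon {Ps : Set ℕ} (hPs : PS Ps) {Mo : ℤ → Prop} (hMo : CT.Adm Mo)
    (hPM : ∀ p ∈ Ps, Mo (p : ℤ)) : ∀ (t : T), ok Ps t →
    ∃ M : ℤ, 0 < M ∧ Mo M ∧ ∀ i : ℤ, 0 ≤ i → i < M →
      ∃ (a : ℕ) (r m : ℤ), 0 ≤ r ∧ r < m ∧ Mo m ∧ ∀ k : ℤ, loc t (i + M * k) = (a, r + m * k) := by
  intro t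
  induction t with
  | leaf b =>
    intro _
    refine ⟨1, one_pos, hMo.one, fun i hi0 hi1 => ⟨b, i, 1, hi0, hi1, hMo.one, fun k => ?_⟩⟩
    rw [loc_leaf]
  | node p c ih =>
    intro h
    have hp := hPs.pos h.1
    have hp' : (0 : ℤ) < p := by exact_mod_cast hp
    have ih' := fun i => ih i (h.2 i)
    choose M hM0 hMM hM using ih'
    set N : ℤ := ∏ i, M i with hN
    have hN0 : 0 < N := Finset.prod_pos (fun i _ => hM0 i)
    have hNM : Mo N := by
      rw [hN]
      apply Finset.prod_induction _ Mo (fun a b => hMo.mul a b) hMo.one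
      intro i _; exact hMM i
    refine ⟨p * N, by positivity, hMo.mul _ _ (hPM p h.1) hNM, fun i hi0 hi1 => ?_⟩
    set j := idx p hp i with hj
    -- N = M j * N'
    set N' : ℤ := ∏ l ∈ Finset.univ.erase j, M l with hN'
    have hNN : M j * N' = N := Finset.mul_prod_erase _ _ (Finset.mem_univ j)
    have hN'M : Mo N' := by
      rw [hN']
      apply Finset.prod_induction _ Mo (fun a b => hMo.mul a b) hMo.one
      intro i _; exact hMM i
    have q0 : 0 ≤ i / p := Int.ediv_nonneg hi0 hp'.le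
    have q1 : i / p < N := Int.ediv_lt_of_lt_mul hp' (by linarith)
    obtain ⟨a, r, m, h1, h2, h3, h4⟩ := hM j ((i / p) % M j) (Int.emod_nonneg _ (hM0 j).ne')
      (Int.emod_lt_of_pos _ (hM0 j))
    have e1 := Int.emod_add_mul_ediv (i / p) (M j)
    have s0 : 0 ≤ i / p / M j := Int.ediv_nonneg q0 (hM0 j).le
    have s1 : i / p / M j < N' := Int.ediv_lt_of_lt_mul (hM0 j) (by rw [mul_comm, hNN]; exact q1)
    have hm : 0 < m := by linarith
    refine ⟨a, r + m * (i / p / M j), m * N', by positivity, by nlinarith,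
      hMo.mul _ _ h3 hN'M, fun k => ?_⟩
    have e2 : i + p * N * k = (j : ℤ) + p * (i / p + N * k) := by
      have := idx_div p hp i
      rw [← hj] at this
      linear_combination -this
    rw [e2, loc_node_mk p hp, show i / p + N * k = (i / p) % M j + M j * (i / p / M j + N' * k) by
      rw [← hNN]; linear_combination -e1, h4]
    congr 1; ring

theorem act_full {Ps : Set ℕ} (hPs : PS Ps) {Mo : ℤ → Prop} (hMo : CT.Adm Mo)
    (hPM : ∀ p ∈ Ps, Mo (p : ℤ)) {t t' : T} (ht : ok Ps t) (ht' : Good Ps t') {g : Perm ℤ}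
    (hg : Act g t t') : CT.Full Mo g := by
  have hl := act_lab hPs ht ht'.ok hg
  obtain ⟨M, hM0, hMM, hM⟩ := loc_canon hPs hMo hPM t ht
  refine ⟨M, hM0, hMM, fun i hi0 hi1 => ?_⟩
  obtain ⟨a, r, m, h1, h2, h3, h4⟩ := hM i hi0 hi1
  have ha : a ∈ lab t' := by
    rw [← hl]
    have := loc_fst_mem hPs t ht (i + M * 0)
    rwa [h4] at this
  obtain ⟨r', m', k1, k2, k3, k4⟩ := exists_place hPs hMo hPM t' ht'.ok a ha
  have hm' : 0 < m' := by linarith
  refine ⟨r' + m' * r, m' * m, by positivity, by nlinarith, hMo.mul _ _ k3 h3, fun k => ?_⟩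
  apply loc_injective hPs t' ht'
  rw [hg, h4, show r' + m' * r + m' * m * k = r' + m' * (r + m * k) by ring, k4]

/-- uniform trees with prescribed labels -/
theorem exists_unif {Ps : Set ℕ} : ∀ (n : ℕ), 0 < n →
    (∀ p : ℕ, p.Prime → p ∣ n → p ∈ Ps) → ∀ l : ℕ → ℕ,
    ∃ t : T, ok Ps t ∧ ∀ k : ℤ, loc t k = (l (k % n).toNat, k / n) := by
  intro n
  induction n using Nat.strong_induction_on with
  | _ n ih =>
    intro hn hP l
    by_cases h1 : n = 1
    · subst h1
      refine ⟨T.leaf (l 0), trivial, fun k => ?_⟩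
      rw [loc_leaf]; simp
    · obtain ⟨p, hp, m, hm⟩ := Nat.exists_prime_and_dvd h1
      have hp0 := hp.pos
      have hm0 : 0 < m := by
        rcases Nat.eq_zero_or_pos m with h | h
        · subst h; omega
        · exact h
      have hmn : m < n := by
        rw [hm]; nlinarith [hp.two_le]
      have ih' := fun i : Fin p => ih m hmn hm0 (fun q hq hqm => hP q hq (hm ▸ Dvd.dvd.mul_left hqm p))
        (fun j => l (i + p * j))
      choose c hc1 hc2 using ih'
      refine ⟨T.node p c, ⟨hP p hp ⟨m, hm⟩, hc1⟩, fun k => ?_⟩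
      rw [loc_node p hp0, hc2]
      have hp' : (0 : ℤ) < p := by exact_mod_cast hp0
      have hm' : (0 : ℤ) < m := by exact_mod_cast hm0
      have e1 := idx_val p hp0 k
      have e2 := Int.emod_nonneg (k / p) hm'.ne'
      congr 1
      · congr 1
        have e3 : k % n = k % p + p * ((k / p) % m) := by
          have a1 := Int.emod_add_mul_ediv k p
          have a2 := Int.emod_add_mul_ediv (k / p) m
          have a3 := Int.emod_lt_of_pos k hp'
          have a4 := Int.emod_nonneg k hp'.ne'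
          have a5 := Int.emod_lt_of_pos (k / p) hm'
          have a6 : k = (k % p + p * ((k / p) % m)) + (n : ℤ) * (k / p / m) := by
            rw [hm]; push_cast; linear_combination -a1 - p * a2
          have a7 : k % p + p * ((k / p) % m) < n := by
            rw [hm]; push_cast; nlinarith
          have a8 : 0 ≤ k % p + p * ((k / p) % m) := by positivity
          conv_lhs => rw [a6]
          rw [Int.add_mul_emod_self_left, Int.emod_eq_of_lt a8 a7]
        rw [e3]
        have a4 := Int.emod_nonneg k hp'.ne'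
        have : (k % p + p * ((k / p) % m)).toNat = (idx p hp0 k : ℕ) + p * ((k / p) % m).toNat := by
          zify
          rw [Int.toNat_of_nonneg (by positivity), Int.toNat_of_nonneg e2, e1]
        rw [this]
      · rw [hm]; push_cast
        rw [Int.ediv_ediv_of_nonneg hp'.le]


theorem toNat_split {p m : ℕ} (hp0 : 0 < p) (hm0 : 0 < m) (k : ℤ) :
    (k % ((p * m : ℕ) : ℤ)).toNat = (idx p hp0 k : ℕ) + p * ((k / p) % m).toNat := by
  have hp' : (0 : ℤ) < p := by exact_mod_cast hp0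
  have hm' : (0 : ℤ) < m := by exact_mod_cast hm0
  have e1 := idx_val p hp0 k
  have e2 := Int.emod_nonneg (k / p) hm'.ne'
  have e3 : k % ((p * m : ℕ) : ℤ) = k % p + p * ((k / p) % m) := by
    have a1 := Int.emod_add_mul_ediv k p
    have a2 := Int.emod_add_mul_ediv (k / p) m
    have a3 := Int.emod_lt_of_pos k hp'
    have a4 := Int.emod_nonneg k hp'.ne'
    have a5 := Int.emod_lt_of_pos (k / p) hm'
    have a6 : k = (k % p + p * ((k / p) % m)) + ((p * m : ℕ) : ℤ) * (k / p / m) := by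
      push_cast; linear_combination -a1 - p * a2
    have a7 : k % p + p * ((k / p) % m) < ((p * m : ℕ) : ℤ) := by
      push_cast; nlinarith
    have a8 : 0 ≤ k % p + p * ((k / p) % m) := by positivity
    conv_lhs => rw [a6]
    rw [Int.add_mul_emod_self_left, Int.emod_eq_of_lt a8 a7]
  rw [e3]
  have a4 := Int.emod_nonneg k hp'.ne'
  zify
  rw [Int.toNat_of_nonneg (by positivity), Int.toNat_of_nonneg e2, e1]

/-- refining a tree to a uniform one -/
theorem exists_refine {Ps : Set ℕ} (hPs : PS Ps) : ∀ (t : T), Good Ps t →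
    ∃ M : ℕ, 0 < M ∧ (∀ p : ℕ, p.Prime → p ∣ M → p ∈ Ps) ∧
      ∀ L : ℕ, 0 < L → M ∣ L → (∀ p : ℕ, p.Prime → p ∣ L → p ∈ Ps) → ∀ l : ℕ → ℕ,
        ∃ f : ℕ → T, (∀ a, ok Ps (f a)) ∧
          ∀ x : ℤ, loc (bind t f) x = (l (x % L).toNat, x / L) := by
  intro t
  induction t with
  | leaf a =>
    intro _
    refine ⟨1, one_pos, ?_, ?_⟩
    · intro p hp h
      exact absurd (Nat.dvd_one.1 h) hp.ne_one
    · intro L hL _ hP l
      obtain ⟨s, hs1, hs2⟩ := exists_unif L hL hP l
      exact ⟨fun _ => s, fun _ => hs1, hs2⟩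
  | node p c ih =>
    intro h
    classical
    have hp := hPs.pos h.1
    have hpr := hPs.prime p h.1
    have ih' := fun i => ih i (h.2.1 i)
    choose M hM0 hMP hM using ih'
    refine ⟨p * ∏ i, M i, Nat.mul_pos hp (Finset.prod_pos (fun i _ => hM0 i)), ?_, ?_⟩
    · intro q hq hqd
      rcases (Nat.Prime.dvd_mul hq).1 hqd with hd | hd
      · rw [(Nat.prime_dvd_prime_iff_eq hq hpr).1 hd]; exact h.1
      · obtain ⟨i, _, hi⟩ := (Prime.dvd_finset_prod_iff hq.prime _).1 hd
        exact hMP i q hq hi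
    · intro L hL hML hP l
      obtain ⟨L', rfl⟩ : p ∣ L := dvd_trans ⟨_, rfl⟩ hML
      have hL' : 0 < L' := Nat.pos_of_mul_pos_left hL
      have hdiv : ∀ i, M i ∣ L' := by
        intro i
        have h1 : ∏ i, M i ∣ L' := Nat.dvd_of_mul_dvd_mul_left hp hML
        exact dvd_trans (Finset.dvd_prod_of_mem _ (Finset.mem_univ i)) h1
      have hf := fun i : Fin p => hM i L' hL' (hdiv i)
        (fun q hq hqd => hP q hq (Dvd.dvd.mul_left hqd p)) (fun j => l (i + p * j))
      choose f hf1 hf2 using hf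
      refine ⟨fun a => if h : ∃ i, a ∈ lab (c i) then f h.choose a else T.leaf a, ?_, ?_⟩
      · intro a
        by_cases ha : ∃ i, a ∈ lab (c i)
        · simp only [dif_pos ha]; exact hf1 _ a
        · simp only [dif_neg ha]; trivial
      · intro x
        rw [bind, loc_node p hp]
        have e : bind (c (idx p hp x)) (fun a => if h : ∃ i, a ∈ lab (c i) then f h.choose a
            else T.leaf a) = bind (c (idx p hp x)) (f (idx p hp x)) := by
          apply bind_congr
          intro a ha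
          have hex : ∃ i, a ∈ lab (c i) := ⟨_, ha⟩
          simp only [dif_pos hex]
          have : hex.choose = idx p hp x := by
            by_contra hne
            exact Finset.disjoint_left.1 (h.2.2 _ _ hne) hex.choose_spec ha
          rw [this]
        rw [e, hf2]
        rw [toNat_split hp hL']
        congr 1
        push_cast
        rw [Int.ediv_ediv_of_nonneg (by positivity)]

theorem inj_unif {L : ℕ} (hL : 0 < L) : Function.Injective
    (fun x : ℤ => (((x % L).toNat, x / L) : ℕ × ℤ)) := by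
  intro x y hxy
  simp only [Prod.mk.injEq] at hxy
  have hL' : (0 : ℤ) < L := by exact_mod_cast hL
  have h1 := Int.emod_nonneg x hL'.ne'
  have h2 := Int.emod_nonneg y hL'.ne'
  have h3 : x % L = y % L := by omega
  rw [← Int.emod_add_mul_ediv x L, ← Int.emod_add_mul_ediv y L, h3, hxy.2]

/-- common refinement -/
theorem common_refine {Ps : Set ℕ} (hPs : PS Ps) {t s : T} (ht : Good Ps t) (hs : Good Ps s) :
    ∃ f g : ℕ → T, Good Ps (bind t f) ∧ Good Ps (bind s g) ∧ loc (bind t f) = loc (bind s g) := by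
  obtain ⟨M, hM0, hMP, hM⟩ := exists_refine hPs t ht
  obtain ⟨N, hN0, hNP, hN⟩ := exists_refine hPs s hs
  have hMN : 0 < M * N := Nat.mul_pos hM0 hN0
  have hP : ∀ p : ℕ, p.Prime → p ∣ M * N → p ∈ Ps := by
    intro p hp h
    rcases (Nat.Prime.dvd_mul hp).1 h with h | h
    · exact hMP p hp h
    · exact hNP p hp h
  obtain ⟨f, hf1, hf2⟩ := hM (M * N) hMN ⟨N, rfl⟩ hP id
  obtain ⟨g, hg1, hg2⟩ := hN (M * N) hMN ⟨M, mul_comm _ _⟩ hP id
  have e1 : loc (bind t f) = fun x : ℤ => (((x % ((M * N : ℕ) : ℤ)).toNat, x / ((M * N : ℕ) : ℤ)) : ℕ × ℤ) := by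
    funext x; exact hf2 x
  have e2 : loc (bind s g) = fun x : ℤ => (((x % ((M * N : ℕ) : ℤ)).toNat, x / ((M * N : ℕ) : ℤ)) : ℕ × ℤ) := by
    funext x; exact hg2 x
  refine ⟨f, g, ?_, ?_, by rw [e1, e2]⟩
  · apply good_of_injective hPs _ (ok_bind t ht.ok (fun a _ => hf1 a))
    rw [e1]; exact inj_unif hMN
  · apply good_of_injective hPs _ (ok_bind s hs.ok (fun a _ => hg1 a))
    rw [e2]; exact inj_unif hMN

/-- goodness transports along an action -/
theorem good_act {Ps : Set ℕ} (hPs : PS Ps) {t t' : T} (ht : Good Ps t) (ht' : Good Ps t')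
    {g : Perm ℤ} (hg : Act g t t') {f : ℕ → T} (hf : Good Ps (bind t f)) :
    Good Ps (bind t' f) := by
  have h1 := (good_of_bind hPs t hf).1
  have hl := act_lab hPs ht.ok ht'.ok hg
  apply good_of_injective hPs _ (ok_bind t' ht'.ok (fun a ha => (h1 a (hl ▸ ha)).ok))
  have h2 := act_bind hPs ht.ok ht'.ok hg f
  have h3 := loc_injective hPs _ hf
  intro x y hxy
  have h4 : loc (bind t f) (g⁻¹ x) = loc (bind t f) (g⁻¹ y) := by
    rw [← h2, ← h2, pinv, pinv, hxy]
  exact g⁻¹.injective (h3 h4)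

/-- every full element is given by a pair of trees -/
theorem exists_trees {Ps : Set ℕ} (hPs : PS Ps) {Mo : ℤ → Prop}
    (hMoP : ∀ m : ℤ, Mo m → ∀ p : ℕ, p.Prime → (p : ℤ) ∣ m → p ∈ Ps) {g : Perm ℤ}
    (hg : CT.Full Mo g) : ∃ t t' : T, Good Ps t ∧ Good Ps t' ∧ Act g t t' := by
  obtain ⟨M, hM, hMM, h⟩ := hg
  obtain ⟨Mn, rfl⟩ := Int.eq_ofNat_of_zero_le hM.le
  have hMn : 0 < Mn := by exact_mod_cast hM
  have h' : ∀ i : ℕ, ∃ c m : ℕ, 0 < m ∧ (i < Mn → (Mo m ∧ c < m ∧
      ∀ k : ℤ, g (i + Mn * k) = c + m * k)) := by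
    intro i
    by_cases hi : i < Mn
    · obtain ⟨c, m, h1, h2, h3, h4⟩ := h i (by positivity) (by exact_mod_cast hi)
      obtain ⟨c, rfl⟩ := Int.eq_ofNat_of_zero_le h1
      obtain ⟨m, rfl⟩ := Int.eq_ofNat_of_zero_le (by linarith : 0 ≤ m)
      exact ⟨c, m, by have : (c : ℤ) < m := h2; omega, fun _ => ⟨h3, by exact_mod_cast h2, h4⟩⟩
    · exact ⟨0, 1, one_pos, fun h => absurd h hi⟩
  choose c m hm0 hcm using h'
  set L : ℕ := ∏ i ∈ Finset.range Mn, m i with hL
  have hL0 : 0 < L := Finset.prod_pos (fun i _ => hm0 i)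
  have hmP : ∀ i, i < Mn → ∀ p : ℕ, p.Prime → p ∣ m i → p ∈ Ps := by
    intro i hi p hp hd
    exact hMoP (m i) (hcm i hi).1 p hp (by exact_mod_cast hd)
  have hLP : ∀ p : ℕ, p.Prime → p ∣ L → p ∈ Ps := by
    intro p hp hd
    obtain ⟨i, hi, hi'⟩ := (Prime.dvd_finset_prod_iff hp.prime _).1 hd
    exact hmP i (Finset.mem_range.1 hi) p hp hi'
  obtain ⟨t', ht1, ht2⟩ := exists_unif L hL0 hLP id
  obtain ⟨t0, ht01, ht02⟩ := exists_unif Mn hMn (fun p hp hd =>
    hMoP Mn hMM p hp (by exact_mod_cast hd)) id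
  have hli : ∀ i, i < Mn → m i ∣ L := fun i hi => Finset.dvd_prod_of_mem _ (Finset.mem_range.2 hi)
  have hf : ∀ i, ∃ s : T, ok Ps s ∧ (i < Mn → ∀ k : ℤ,
      loc s k = (c i + m i * (k % ((L / m i : ℕ) : ℤ)).toNat, k / ((L / m i : ℕ) : ℤ))) := by
    intro i
    by_cases hi : i < Mn
    · have hd := hli i hi
      obtain ⟨s, hs1, hs2⟩ := exists_unif (L / m i) (Nat.div_pos (Nat.le_of_dvd hL0 hd) (hm0 i))
        (fun p hp hpd => hLP p hp (dvd_trans hpd (Nat.div_dvd_of_dvd hd)))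
        (fun j => c i + m i * j)
      exact ⟨s, hs1, fun _ => hs2⟩
    · exact ⟨T.leaf 0, trivial, fun h => absurd h hi⟩
  choose f hf1 hf2 using hf
  have hg' : Act g (bind t0 f) t' := by
    intro x
    rw [ht2, loc_bind hPs f t0 ht01, ht02]
    have e1 := Int.emod_add_mul_ediv x Mn
    have e2 := Int.emod_nonneg x hM.ne'
    have e3 := Int.emod_lt_of_pos x hM
    set i := (x % Mn).toNat with hi
    have e4 : (i : ℤ) = x % Mn := by rw [hi, Int.toNat_of_nonneg e2]
    have hiM : i < Mn := by zify; rw [e4]; exact e3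
    have e5 : g x = c i + m i * (x / Mn) := by
      rw [← (hcm i hiM).2.2, e4, e1]
    simp only [id]
    rw [hf2 i hiM, e5]
    obtain ⟨l, hl⟩ := hli i hiM
    have hl0 : 0 < l := by
      rcases Nat.eq_zero_or_pos l with h | h
      · rw [h, mul_zero] at hl; omega
      · exact h
    have e6 : L / m i = l := by rw [hl]; exact Nat.mul_div_cancel_left l (hm0 i)
    rw [e6, hl]
    have hci := (hcm i hiM).2.1
    have t1 := toNat_split (hm0 i) hl0 ((c i : ℤ) + m i * (x / Mn))
    have t2 := idx_eq (m i) (hm0 i) ⟨c i, hci⟩ (x / Mn)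
    have t3 := div_eq (m i) (hm0 i) ⟨c i, hci⟩ (x / Mn)
    simp only at t2 t3
    rw [t1, t2, t3]
    congr 1
    push_cast
    rw [← Int.ediv_ediv_of_nonneg (by positivity), t3]
  have hok : ok Ps (bind t0 f) := ok_bind t0 ht01 (fun a _ => hf1 a)
  have hinj' : Function.Injective (loc t') := by
    have : loc t' = fun x : ℤ => (((x % L).toNat, x / L) : ℕ × ℤ) := by
      funext x; exact ht2 x
    rw [this]; exact inj_unif hL0
  refine ⟨bind t0 f, t', good_of_injective hPs _ hok ?_, good_of_injective hPs _ ht1 hinj', hg'⟩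
  intro x y hxy
  rw [← hg', ← hg'] at hxy
  exact g.injective (hinj' hxy)

end Pool.Agent.Helper111.FP
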