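import Pool.Agent.Helper111.FP1

set_option autoImplicit false

namespace Pool.Agent.Helper111.FP

open Equiv Relation

/-- a two-level block -/
def blk (p q : ℕ) (w : ℕ → T) : T := T.node p (fun i => T.node q (fun j => w ((i : ℕ) + p * j)))

/-- the block move and its contexts -/
inductive Step (Ps : Set ℕ) : T → T → Prop
  | blk (p q : ℕ) (w : ℕ → T) : p ∈ Ps → q ∈ Ps → Step Ps (blk p q w) (FP.blk q p w)
  | ctx (p : ℕ) (c : Fin p → T) (i : Fin p) (s : T) : Step Ps (c i) s →
      Step Ps (T.node p c) (T.node p (Function.update c i s))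

theorem loc_blk {p q : ℕ} (hp : 0 < p) (hq : 0 < q) (w : ℕ → T) (x : ℤ) :
    loc (blk p q w) x = loc (w (x % ((p * q : ℕ) : ℤ)).toNat) (x / ((p * q : ℕ) : ℤ)) := by
  rw [blk, loc_node p hp, loc_node q hq, toNat_split hp hq]
  push_cast
  rw [← Int.ediv_ediv_of_nonneg (by positivity)]
  rfl

theorem ok_blk {Ps : Set ℕ} {p q : ℕ} (hp0 : 0 < p) (hq0 : 0 < q) (hp : p ∈ Ps) (hq : q ∈ Ps) (w : ℕ → T) :
    ok Ps (blk p q w) ↔ ∀ k, k < p * q → ok Ps (w k) := by
  constructor
  · intro h k hk
    have h1 := (h.2 ⟨k % p, Nat.mod_lt _ hp0⟩).2 ⟨k / p, Nat.div_lt_of_lt_mul hk⟩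
    simp only at h1
    rwa [Nat.mod_add_div] at h1
  · intro h
    refine ⟨hp, fun i => ⟨hq, fun j => h _ ?_⟩⟩
    have h1 := i.isLt
    have h2 := j.isLt
    nlinarith

theorem step_loc {Ps : Set ℕ} (hPs : PS Ps) {t t' : T} (h : Step Ps t t') :
    loc t = loc t' ∧ (ok Ps t ↔ ok Ps t') := by
  induction h with
  | blk p q w hp hq =>
    constructor
    · funext x
      rw [loc_blk (hPs.pos hp) (hPs.pos hq), loc_blk (hPs.pos hq) (hPs.pos hp), mul_comm q p]
    · rw [ok_blk (hPs.pos hp) (hPs.pos hq) hp hq, ok_blk (hPs.pos hq) (hPs.pos hp) hq hp,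
        mul_comm q p]
  | ctx p c i s _ ih =>
    have hp : 0 < p := lt_of_le_of_lt (Nat.zero_le _) i.isLt
    constructor
    · funext x
      rw [loc_node p hp, loc_node p hp]
      by_cases hi : idx p hp x = i
      · rw [hi, Function.update_self, ih.1]
      · rw [Function.update_of_ne hi]
    · constructor
      · intro h
        refine ⟨h.1, fun j => ?_⟩
        by_cases hj : j = i
        · subst hj; rw [Function.update_self]; exact ih.2.1 (h.2 j)
        · rw [Function.update_of_ne hj]; exact h.2 j
      · intro h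
        refine ⟨h.1, fun j => ?_⟩
        have h2 := h.2 j
        by_cases hj : j = i
        · subst hj; rw [Function.update_self] at h2; exact ih.2.2 h2
        · rw [Function.update_of_ne hj] at h2; exact h2

theorem eqv_loc {Ps : Set ℕ} (hPs : PS Ps) {t t' : T} (h : EqvGen (Step Ps) t t') :
    loc t = loc t' ∧ (ok Ps t ↔ ok Ps t') := by
  induction h with
  | rel _ _ h => exact step_loc hPs h
  | refl _ => exact ⟨rfl, Iff.rfl⟩
  | symm _ _ _ ih => exact ⟨ih.1.symm, ih.2.symm⟩
  | trans _ _ _ _ _ ih1 ih2 => exact ⟨ih1.1.trans ih2.1, ih1.2.trans ih2.2⟩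

theorem eqv_good {Ps : Set ℕ} (hPs : PS Ps) {t t' : T} (h : EqvGen (Step Ps) t t') :
    Good Ps t ↔ Good Ps t' := by
  obtain ⟨h1, h2⟩ := eqv_loc hPs h
  constructor
  · intro h
    apply good_of_injective hPs _ (h2.1 h.ok)
    rw [← h1]; exact loc_injective hPs t h
  · intro h
    apply good_of_injective hPs _ (h2.2 h.ok)
    rw [h1]; exact loc_injective hPs t' h

theorem eqv_update {Ps : Set ℕ} {p : ℕ} (c : Fin p → T) (i : Fin p) {s s' : T}
    (h : EqvGen (Step Ps) s s') :
    EqvGen (Step Ps) (T.node p (Function.update c i s)) (T.node p (Function.update c i s')) := by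
  induction h with
  | rel s s' h =>
    apply EqvGen.rel
    have := Step.ctx (Ps := Ps) p (Function.update c i s) i s' (by rwa [Function.update_self])
    rwa [Function.update_idem] at this
  | refl _ => exact EqvGen.refl _
  | symm _ _ _ ih => exact ih.symm
  | trans _ _ _ _ _ ih1 ih2 => exact ih1.trans _ _ _ ih2

theorem eqv_node {Ps : Set ℕ} {p : ℕ} (c c' : Fin p → T)
    (h : ∀ i, EqvGen (Step Ps) (c i) (c' i)) :
    EqvGen (Step Ps) (T.node p c) (T.node p c') := by
  classical
  have key : ∀ s : Finset (Fin p), EqvGen (Step Ps) (T.node p c) (T.node p (s.piecewise c' c)) := by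
    intro s
    induction s using Finset.induction_on with
    | empty => rw [Finset.piecewise_empty]; exact EqvGen.refl _
    | insert i s hi ih =>
      apply ih.trans
      have e1 : s.piecewise c' c = Function.update (s.piecewise c' c) i (c i) := by
        rw [Function.update_eq_iff.2]
        refine ⟨?_, fun _ _ => rfl⟩
        rw [Finset.piecewise_eq_of_notMem _ _ _ hi]
      rw [Finset.piecewise_insert]
      conv => arg 2; rw [e1]
      exact eqv_update _ i (h i)
  have := key Finset.univ
  rwa [Finset.piecewise_univ] at this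

/-- `t` refines the partition mod `q` -/
def Ref (q : ℕ) (t : T) : Prop := ∀ x y : ℤ, (loc t x).1 = (loc t y).1 → (q : ℤ) ∣ x - y

theorem root_change {Ps : Set ℕ} (hPs : PS Ps) {q : ℕ} (hq : q ∈ Ps) : ∀ t : T, ok Ps t →
    Ref q t → ∃ c : Fin q → T, EqvGen (Step Ps) t (T.node q c) := by
  intro t
  have hqp := hPs.prime q hq
  induction t with
  | leaf a =>
    intro _ h
    have := h 1 0 rfl
    have h1 : (q : ℤ) ∣ 1 := by simpa using this
    have h2 : q ∣ 1 := by exact_mod_cast h1
    exact absurd (Nat.dvd_one.1 h2) hqp.ne_one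
  | node p c ih =>
    intro hok href
    by_cases hpq : p = q
    · subst hpq; exact ⟨c, EqvGen.refl _⟩
    · have hp := hPs.prime p hok.1
      have hp0 := hp.pos
      have h1 : ∀ i, ∃ d : Fin q → T, EqvGen (Step Ps) (c i) (T.node q d) := by
        intro i
        apply ih i (hok.2 i)
        intro x y hxy
        have h2 := href ((i : ℤ) + p * x) ((i : ℤ) + p * y) (by
          rw [loc_node_mk p hp0, loc_node_mk p hp0, hxy])
        have h3 : (q : ℤ) ∣ p * (x - y) := by
          have : (p : ℤ) * (x - y) = (i : ℤ) + p * x - ((i : ℤ) + p * y) := by ring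
          rw [this]; exact h2
        have hco : IsCoprime (q : ℤ) (p : ℤ) := by
          rw [Nat.isCoprime_iff_coprime]
          exact (Nat.coprime_primes hqp hp).2 (Ne.symm hpq)
        exact hco.dvd_of_dvd_mul_left h3
      choose d hd using h1
      set w : ℕ → T := fun k => if h : k % p < p ∧ k / p < q then d ⟨k % p, h.1⟩ ⟨k / p, h.2⟩
        else T.leaf 0 with hw
      have e : (T.node p (fun i => T.node q (d i))) = blk p q w := by
        rw [blk]
        congr 1; funext i; congr 1; funext j
        have a1 : ((i : ℕ) + p * j) % p = i := by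
          rw [Nat.add_mul_mod_self_left, Nat.mod_eq_of_lt i.isLt]
        have a2 : ((i : ℕ) + p * j) / p = j := by
          rw [Nat.add_mul_div_left _ _ hp0, Nat.div_eq_of_lt i.isLt, zero_add]
        have hc : ((i : ℕ) + p * j) % p < p ∧ ((i : ℕ) + p * j) / p < q := by
          rw [a1, a2]; exact ⟨i.isLt, j.isLt⟩
        rw [hw]; simp only [dif_pos hc]
        congr 1
        · congr 1; ext; exact a1.symm
        · ext; exact a2.symm
      have h2 : EqvGen (Step Ps) (T.node p c) (blk p q w) := by
        rw [← e]; exact eqv_node _ _ hd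
      exact ⟨_, h2.trans _ _ _ (EqvGen.rel _ _ (Step.blk p q w hok.1 hq))⟩

theorem good_ref {Ps : Set ℕ} (hPs : PS Ps) {q : ℕ} {c : Fin q → T} (h : Good Ps (T.node q c)) :
    Ref q (T.node q c) := by
  intro x y hxy
  have hq := hPs.pos h.1
  rw [loc_node q hq, loc_node q hq] at hxy
  have hij : idx q hq x = idx q hq y := by
    by_contra hne
    have h1 := loc_fst_mem hPs (c (idx q hq x)) (Good.ok (h.2.1 _)) (x / q)
    have h2 := loc_fst_mem hPs (c (idx q hq y)) (Good.ok (h.2.1 _)) (y / q)
    rw [hxy] at h1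
    exact Finset.disjoint_left.1 (h.2.2 _ _ hne) h1 h2
  have e1 := idx_div q hq x
  have e2 := idx_div q hq y
  rw [← e1, ← e2, hij]
  exact ⟨x / q - y / q, by ring⟩

/-- trees with the same `loc` are related by block moves -/
theorem loc_eqv {Ps : Set ℕ} (hPs : PS Ps) : ∀ t' t : T, Good Ps t' → Good Ps t →
    loc t = loc t' → EqvGen (Step Ps) t t' := by
  intro t'
  induction t' with
  | leaf a =>
    intro t _ ht hl
    cases t with
    | leaf b =>
      have := congrFun hl 0
      rw [loc_leaf, loc_leaf, Prod.mk.injEq] at this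
      rw [this.1]; exact EqvGen.refl _
    | node p c =>
      exfalso
      have h1 := good_ref hPs ht 1 0 (by rw [hl, loc_leaf, loc_leaf])
      have h2 : (p : ℤ) ∣ 1 := by simpa using h1
      have h3 : p ∣ 1 := by exact_mod_cast h2
      exact (hPs.prime p ht.1).ne_one (Nat.dvd_one.1 h3)
  | node q c ih =>
    intro t ht' ht hl
    have hq := hPs.pos ht'.1
    obtain ⟨d, hd⟩ := root_change hPs ht'.1 t ht.ok (by
      intro x y hxy
      rw [hl] at hxy
      exact good_ref hPs ht' x y hxy)
    have hgood := (eqv_good hPs hd).1 ht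
    apply hd.trans
    apply eqv_node
    intro i
    apply ih i _ (ht'.2.1 i) (hgood.2.1 i)
    funext x
    have h1 : loc (T.node q d) = loc (T.node q c) := by rw [← (eqv_loc hPs hd).1, hl]
    have h2 := congrFun h1 ((i : ℤ) + q * x)
    rwa [loc_node_mk q hq, loc_node_mk q hq] at h2

/-- single substitution -/
def sub (a : ℕ) (s : T) : ℕ → T := fun b => if b = a then s else T.leaf b

theorem sub_self (a : ℕ) (s : T) : sub a s a = s := if_pos rfl

theorem sub_ne {a b : ℕ} (s : T) (h : b ≠ a) : sub a s b = T.leaf b := if_neg h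

theorem bind_sub_not_mem {a : ℕ} {s : T} {t : T} (h : a ∉ lab t) : bind t (sub a s) = t :=
  bind_id t (fun b hb => sub_ne s (by rintro rfl; exact h hb))

/-- a step happens inside a context -/
theorem step_context {Ps : Set ℕ} (hPs : PS Ps) {t t' : T} (h : Step Ps t t') :
    Good Ps t → ∃ (E : T) (a p q : ℕ) (w : ℕ → T), Good Ps E ∧ a ∈ lab E ∧ p ∈ Ps ∧ q ∈ Ps ∧
      a ∈ lab (blk p q w) ∧ t = bind E (sub a (blk p q w)) ∧ t' = bind E (sub a (blk q p w)) := by
  induction h with
  | blk p q w hp hq =>
    intro hg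
    obtain ⟨a, ha⟩ := lab_nonempty hPs _ hg.ok
    exact ⟨T.leaf a, a, p, q, w, trivial, by rw [mem_lab_leaf], hp, hq, ha,
      (sub_self _ _).symm, (sub_self _ _).symm⟩
  | ctx p c i s _ ih =>
    intro hg
    obtain ⟨E, a, p', q, w, hE, haE, hp', hq, hab, e1, e2⟩ := ih (hg.2.1 i)
    have hac : a ∈ lab (c i) := by
      rw [e1]; exact (mem_lab_bind E).2 ⟨a, haE, by rw [sub_self]; exact hab⟩
    have haj : ∀ j, j ≠ i → a ∉ lab (c j) := by
      intro j hj h
      exact Finset.disjoint_left.1 (hg.2.2 j i hj) h hac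
    have hEc : lab E ⊆ lab (c i) := by
      intro b hb
      rw [e1, mem_lab_bind]
      by_cases hba : b = a
      · subst hba; exact ⟨b, hb, by rw [sub_self]; exact hab⟩
      · exact ⟨b, hb, by rw [sub_ne _ hba, mem_lab_leaf]⟩
    refine ⟨T.node p (Function.update c i E), a, p', q, w, ⟨hg.1, ?_, ?_⟩, ?_, hp', hq, hab, ?_, ?_⟩
    · intro j
      by_cases hj : j = i
      · subst hj; rw [Function.update_self]; exact hE
      · rw [Function.update_of_ne hj]; exact hg.2.1 j
    · intro j k hjk
      by_cases hj : j = i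
      · subst hj
        rw [Function.update_self, Function.update_of_ne (Ne.symm hjk)]
        exact Finset.disjoint_of_subset_left hEc (hg.2.2 _ _ hjk)
      · rw [Function.update_of_ne hj]
        by_cases hk : k = i
        · subst hk
          rw [Function.update_self]
          exact Finset.disjoint_of_subset_right hEc (hg.2.2 _ _ hjk)
        · rw [Function.update_of_ne hk]; exact hg.2.2 _ _ hjk
    · rw [mem_lab_node]; exact ⟨i, by rw [Function.update_self]; exact haE⟩
    · rw [bind]; congr 1; funext j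
      by_cases hj : j = i
      · subst hj; rw [Function.update_self]; exact e1
      · rw [Function.update_of_ne hj, bind_sub_not_mem (haj j hj)]
    · rw [bind]; congr 1; funext j
      by_cases hj : j = i
      · subst hj; rw [Function.update_self, Function.update_self]; exact e2
      · rw [Function.update_of_ne hj, Function.update_of_ne hj, bind_sub_not_mem (haj j hj)]

end Pool.Agent.Helper111.FP
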