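import Pool.Agent.Helper111.FP2

set_option autoImplicit false

namespace Pool.Agent.Helper111.FP

open Equiv Relation

/-! ### more facts on substitution -/

theorem lab_bind_sub {E : T} {f : ℕ → T} {a : ℕ} (ha : a ∈ lab E) : lab (f a) ⊆ lab (bind E f) :=
  fun _ hb => (mem_lab_bind E).2 ⟨a, ha, hb⟩

theorem good_bind_disj {Ps : Set ℕ} {f : ℕ → T} : ∀ (E : T), Good Ps (bind E f) →
    ∀ a ∈ lab E, ∀ b ∈ lab E, a ≠ b → Disjoint (lab (f a)) (lab (f b)) := by
  intro E
  induction E with
  | leaf c =>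
    intro _ a ha b hb hab
    rw [mem_lab_leaf] at ha hb
    exact absurd (ha.trans hb.symm) hab
  | node p c ih =>
    intro h a ha b hb hab
    obtain ⟨i, hi⟩ := mem_lab_node.1 ha
    obtain ⟨j, hj⟩ := mem_lab_node.1 hb
    by_cases hij : i = j
    · subst hij; exact ih i (h.2.1 i) a hi b hj hab
    · exact Finset.disjoint_of_subset_left (lab_bind_sub hi)
        (Finset.disjoint_of_subset_right (lab_bind_sub hj) (h.2.2 i j hij))

theorem good_ctx {Ps : Set ℕ} {f : ℕ → T} : ∀ (E : T), Good Ps (bind E f) →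
    (∀ a ∈ lab E, (lab (f a)).Nonempty) → Good Ps E := by
  intro E
  induction E with
  | leaf c => intro _ _; trivial
  | node p c ih =>
    intro h hne
    refine ⟨h.1, fun i => ih i (h.2.1 i) (fun a ha => hne a (mem_lab_node.2 ⟨i, ha⟩)), ?_⟩
    intro i j hij
    rw [Finset.disjoint_left]
    intro a ha hb
    obtain ⟨b, hb'⟩ := hne a (mem_lab_node.2 ⟨i, ha⟩)
    exact Finset.disjoint_left.1 (h.2.2 i j hij) (lab_bind_sub ha hb') (lab_bind_sub hb hb')

theorem good_swap {Ps : Set ℕ} (hPs : PS Ps) {f : ℕ → T} {E E' : T} (hE' : Good Ps E')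
    (hl : lab E = lab E') (h : Good Ps (bind E f)) : Good Ps (bind E' f) :=
  good_bind E' hE' (fun a ha => (good_of_bind hPs E h).1 a (hl ▸ ha))
    (fun a ha b hb hab => good_bind_disj E h a (hl ▸ ha) b (hl ▸ hb) hab)

theorem lab_swap {f : ℕ → T} {E E' : T} (hl : lab E = lab E') :
    lab (bind E f) = lab (bind E' f) := by
  ext a
  rw [mem_lab_bind, mem_lab_bind, hl]

theorem lab_bind_eq {f : ℕ → T} (E : T) : lab (bind E f) = (lab E).biUnion (fun a => lab (f a)) := by
  ext a
  rw [mem_lab_bind, Finset.mem_biUnion]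

theorem card_bind {Ps : Set ℕ} {f : ℕ → T} {E : T} (h : Good Ps (bind E f)) :
    (lab (bind E f)).card = ∑ a ∈ lab E, (lab (f a)).card := by
  rw [lab_bind_eq, Finset.card_biUnion]
  exact fun a ha b hb hab => good_bind_disj E h a ha b hb hab

theorem card_le_bind {Ps : Set ℕ} (hPs : PS Ps) {f : ℕ → T} {E : T} (h : Good Ps (bind E f)) :
    (lab E).card ≤ (lab (bind E f)).card := by
  rw [card_bind h, Finset.card_eq_sum_ones]
  exact Finset.sum_le_sum (fun a ha => Finset.card_pos.2 ((good_of_bind hPs E h).2 a ha))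

/-! ### carets -/

/-- a caret -/
structure Car where
  p : ℕ
  b : Fin p → ℕ
  pos : 0 < p

/-- its contracted label -/
def Car.z (I : Car) : ℕ := I.b ⟨0, I.pos⟩

/-- its tree -/
def Car.tree (I : Car) : T := T.node I.p (fun i => T.leaf (I.b i))

/-- splitting -/
def Car.sp (I : Car) : ℕ → T := sub I.z I.tree

/-- visible caret -/
def Vis (I : Car) (t : T) : Prop := ∃ E, I.z ∈ lab E ∧ bind E I.sp = t

open Classical in
/-- contraction of a visible caret -/
noncomputable def con (I : Car) (t : T) : T := if h : Vis I t then h.choose else t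

theorem Car.z_mem (I : Car) : I.z ∈ lab I.tree :=
  mem_lab_node.2 ⟨⟨0, I.pos⟩, by rw [mem_lab_leaf]; rfl⟩

theorem Car.sp_z (I : Car) : I.sp I.z = I.tree := sub_self _ _

theorem Car.sp_ne (I : Car) {a : ℕ} (h : a ≠ I.z) : I.sp a = T.leaf a := sub_ne _ h

theorem bind_sp_ne (I : Car) (t : T) : bind t I.sp ≠ T.leaf I.z := by
  cases t with
  | leaf a =>
    rw [bind]
    by_cases h : a = I.z
    · subst h; rw [I.sp_z]; intro h; exact T.noConfusion h
    · rw [I.sp_ne h]; intro h2; exact h (T.leaf.inj h2)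
  | node p c => intro h; exact T.noConfusion h

theorem bind_sp_inj (I : Car) : ∀ E E' : T, bind E I.sp = bind E' I.sp → E = E' := by
  intro E
  have key : ∀ (q : ℕ) (c : Fin q → T), I.tree ≠ T.node q (fun i => bind (c i) I.sp) := by
    intro q c h
    obtain ⟨p, b, pos⟩ := I
    rw [Car.tree, T.node.injEq] at h
    obtain ⟨h1, h2⟩ := h
    subst h1
    have h3 := congrFun (eq_of_heq h2) ⟨0, pos⟩
    exact bind_sp_ne _ _ h3.symm
  induction E with
  | leaf a =>
    intro E' h
    cases E' with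
    | leaf a' =>
      rw [bind, bind] at h
      by_cases h1 : a = I.z
      · by_cases h2 : a' = I.z
        · rw [h1, h2]
        · rw [h1, I.sp_z, I.sp_ne h2] at h; exact T.noConfusion h
      · by_cases h2 : a' = I.z
        · rw [h2, I.sp_z, I.sp_ne h1] at h; exact T.noConfusion h
        · rwa [I.sp_ne h1, I.sp_ne h2] at h
    | node q c =>
      rw [bind, bind] at h
      by_cases h1 : a = I.z
      · rw [h1, I.sp_z] at h; exact absurd h (key q c)
      · rw [I.sp_ne h1] at h; exact T.noConfusion h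
  | node p c ih =>
    intro E' h
    cases E' with
    | leaf a =>
      rw [bind, bind] at h
      by_cases h1 : a = I.z
      · rw [h1, I.sp_z] at h; exact absurd h.symm (key p c)
      · rw [I.sp_ne h1] at h; exact T.noConfusion h
    | node q c' =>
      rw [bind, bind, T.node.injEq] at h
      obtain ⟨h1, h2⟩ := h
      subst h1
      congr 1
      funext i
      exact ih i _ (congrFun (eq_of_heq h2) i)

theorem con_eq {I : Car} {E : T} (h : I.z ∈ lab E) : con I (bind E I.sp) = E := by
  have hv : Vis I (bind E I.sp) := ⟨E, h, rfl⟩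
  rw [con, dif_pos hv]
  exact bind_sp_inj I _ _ hv.choose_spec.2

theorem con_spec {I : Car} {t : T} (h : Vis I t) : I.z ∈ lab (con I t) ∧ bind (con I t) I.sp = t := by
  obtain ⟨E, h1, rfl⟩ := h
  rw [con_eq h1]; exact ⟨h1, rfl⟩

theorem vis_lab {I : Car} {t : T} (h : Vis I t) : lab I.tree ⊆ lab t := by
  obtain ⟨E, h1, rfl⟩ := h
  have := lab_bind_sub (f := I.sp) h1
  rwa [I.sp_z] at this

theorem vis_tree_good {Ps : Set ℕ} (hPs : PS Ps) {I : Car} {t : T} (h : Vis I t)
    (ht : Good Ps t) : Good Ps I.tree := by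
  obtain ⟨E, h1, rfl⟩ := h
  have := (good_of_bind hPs E ht).1 _ h1
  rwa [I.sp_z] at this

theorem tree_card {Ps : Set ℕ} {I : Car} (h : Good Ps I.tree) : (lab I.tree).card = I.p := by
  have h1 : lab I.tree = Finset.univ.image I.b := by
    ext a
    rw [Car.tree, mem_lab_node, Finset.mem_image]
    constructor
    · rintro ⟨i, hi⟩; exact ⟨i, Finset.mem_univ _, (mem_lab_leaf.1 hi).symm⟩
    · rintro ⟨i, _, hi⟩; exact ⟨i, mem_lab_leaf.2 hi.symm⟩
  rw [h1, Finset.card_image_of_injective, Finset.card_univ, Fintype.card_fin]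
  intro i j hij
  by_contra hne
  have := h.2.2 i j hne
  rw [Finset.disjoint_left] at this
  exact this (a := I.b i) (mem_lab_leaf.2 rfl) (mem_lab_leaf.2 hij)

theorem con_good {Ps : Set ℕ} (hPs : PS Ps) {I : Car} {t : T} (h : Vis I t) (ht : Good Ps t) :
    Good Ps (con I t) := by
  obtain ⟨h1, h2⟩ := con_spec h
  rw [← h2] at ht
  exact good_ctx _ ht (good_of_bind hPs _ ht).2

theorem con_card {Ps : Set ℕ} (hPs : PS Ps) {I : Car} {t : T} (h : Vis I t) (ht : Good Ps t) :
    (lab (con I t)).card < (lab t).card := by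
  have hg := vis_tree_good hPs h ht
  have hp : 2 ≤ I.p := (hPs.prime _ hg.1).two_le
  obtain ⟨h1, h2⟩ := con_spec h
  have ht' := ht
  rw [← h2] at ht'
  have e := card_bind ht'
  rw [h2] at e
  rw [e, Finset.card_eq_sum_ones]
  apply Finset.sum_lt_sum
  · exact fun a ha => Finset.card_pos.2 ((good_of_bind hPs _ ht').2 a ha)
  · exact ⟨I.z, h1, by rw [I.sp_z, tree_card hg]; omega⟩

theorem mem_lab_con {Ps : Set ℕ} {I : Car} {t : T} (h : Vis I t) (ht : Good Ps t) (a : ℕ) :
    a ∈ lab (con I t) ↔ a ∈ lab t ∧ (a = I.z ∨ a ∉ lab I.tree) := by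
  obtain ⟨h1, h2⟩ := con_spec h
  have ht' := ht
  rw [← h2] at ht'
  have hb : a ∈ lab t ↔ ∃ b ∈ lab (con I t), a ∈ lab (I.sp b) := by
    conv_lhs => rw [← h2]
    exact mem_lab_bind _
  rw [hb]
  constructor
  · intro ha
    by_cases haz : a = I.z
    · subst haz
      exact ⟨⟨I.z, h1, by rw [I.sp_z]; exact I.z_mem⟩, Or.inl rfl⟩
    · refine ⟨⟨a, ha, by rw [I.sp_ne haz, mem_lab_leaf]⟩, Or.inr ?_⟩
      intro hc
      have := good_bind_disj _ ht' a ha I.z h1 haz
      rw [I.sp_ne haz, I.sp_z, Finset.disjoint_left] at this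
      exact this (mem_lab_leaf.2 rfl) hc
  · rintro ⟨⟨b, hb1, hb2⟩, h3⟩
    by_cases hbz : b = I.z
    · subst hbz
      rw [I.sp_z] at hb2
      rcases h3 with h3 | h3
      · rw [h3]; exact h1
      · exact absurd hb2 h3
    · rw [I.sp_ne hbz, mem_lab_leaf] at hb2
      rw [hb2]; exact hb1

theorem lab_con_eq {Ps : Set ℕ} {I : Car} {t t' : T} (h : Vis I t) (h' : Vis I t')
    (ht : Good Ps t) (ht' : Good Ps t') (hl : lab t = lab t') : lab (con I t) = lab (con I t') := by
  ext a
  rw [mem_lab_con h ht, mem_lab_con h' ht', hl]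

theorem vis_leaf {I : Car} {a : ℕ} : ¬ Vis I (T.leaf a) := by
  rintro ⟨E, h1, h2⟩
  cases E with
  | leaf b =>
    rw [mem_lab_leaf] at h1
    rw [bind, ← h1, I.sp_z] at h2
    exact T.noConfusion h2
  | node p c => exact T.noConfusion h2

theorem vis_tree (I : Car) : Vis I I.tree :=
  ⟨T.leaf I.z, mem_lab_leaf.2 rfl, I.sp_z⟩

theorem vis_bind {Ps : Set ℕ} {E : T} {f : ℕ → T} {a : ℕ} {I : Car}
    (hg : Good Ps (bind E f)) (ha : a ∈ lab E) (hv : Vis I (f a)) :
    Vis I (bind E f) ∧ con I (bind E f) = bind E (Function.update f a (con I (f a))) := by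
  obtain ⟨h1, h2⟩ := con_spec hv
  have hz : I.z ∈ lab (bind E (Function.update f a (con I (f a)))) :=
    (mem_lab_bind E).2 ⟨a, ha, by rw [Function.update_self]; exact h1⟩
  have e : bind (bind E (Function.update f a (con I (f a)))) I.sp = bind E f := by
    rw [bind_bind]
    apply bind_congr
    intro b hb
    by_cases hba : b = a
    · subst hba; rw [Function.update_self, h2]
    · rw [Function.update_of_ne hba]
      apply bind_sub_not_mem
      intro hc
      have hd := good_bind_disj E hg b hb a ha hba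
      exact Finset.disjoint_left.1 hd hc (vis_lab hv I.z_mem)
  constructor
  · exact ⟨_, hz, e⟩
  · rw [← e, con_eq hz]

theorem vis_child {Ps : Set ℕ} {p : ℕ} {c : Fin p → T} {i : Fin p} {I : Car}
    (hg : Good Ps (T.node p c)) (hv : Vis I (c i)) : Vis I (T.node p c) := by
  obtain ⟨E, h1, h2⟩ := hv
  refine ⟨T.node p (Function.update c i E), mem_lab_node.2 ⟨i, by rwa [Function.update_self]⟩, ?_⟩
  rw [bind]; congr 1; funext j
  by_cases hj : j = i
  · subst hj; rw [Function.update_self, h2]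
  · rw [Function.update_of_ne hj]
    apply bind_sub_not_mem
    intro hc
    have hzi : I.z ∈ lab (c i) := vis_lab ⟨E, h1, h2⟩ I.z_mem
    exact Finset.disjoint_left.1 (hg.2.2 j i hj) hc hzi

theorem vis_node {p : ℕ} {c : Fin p → T} {I : Car} (h : Vis I (T.node p c)) :
    T.node p c = I.tree ∨ ∃ i, Vis I (c i) := by
  obtain ⟨E, h1, h2⟩ := h
  cases E with
  | leaf b =>
    rw [mem_lab_leaf] at h1
    rw [bind, ← h1, I.sp_z] at h2
    exact Or.inl h2.symm
  | node q d =>
    rw [bind, T.node.injEq] at h2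
    obtain ⟨h3, h4⟩ := h2
    subst h3
    obtain ⟨i, hi⟩ := mem_lab_node.1 h1
    exact Or.inr ⟨i, d i, hi, congrFun (eq_of_heq h4) i⟩

theorem exists_vis {Ps : Set ℕ} (hPs : PS Ps) : ∀ t : T, Good Ps t → (∀ a, t ≠ T.leaf a) →
    ∃ I, Vis I t := by
  intro t
  induction t with
  | leaf a => intro _ h; exact absurd rfl (h a)
  | node p c ih =>
    intro hg _
    by_cases hall : ∀ i, ∃ a, c i = T.leaf a
    · choose b hb using hall
      refine ⟨⟨p, b, hPs.pos hg.1⟩, ?_⟩
      have : T.node p c = Car.tree ⟨p, b, hPs.pos hg.1⟩ := by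
        rw [Car.tree]; congr 1; funext i; exact hb i
      rw [this]; exact vis_tree _
    · push Not at hall
      obtain ⟨i, hi⟩ := hall
      obtain ⟨I, hI⟩ := ih i (hg.2.1 i) hi
      exact ⟨I, vis_child hg hI⟩

theorem tree_inj {I J : Car} (h : I.tree = J.tree) : I = J := by
  obtain ⟨p, b, hp⟩ := I
  obtain ⟨q, d, hq⟩ := J
  rw [Car.tree, Car.tree, T.node.injEq] at h
  obtain ⟨h1, h2⟩ := h
  simp only at h1
  subst h1
  have h3 := eq_of_heq h2
  congr 1
  funext i
  exact T.leaf.inj (congrFun h3 i)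

theorem not_vis_child {I J : Car} {p : ℕ} {c : Fin p → T} (h : T.node p c = I.tree) {i : Fin p}
    (hv : Vis J (c i)) : False := by
  obtain ⟨q, b, hq⟩ := I
  rw [Car.tree, T.node.injEq] at h
  obtain ⟨h1, h2⟩ := h
  simp only at h1
  subst h1
  have h3 := congrFun (eq_of_heq h2) i
  rw [h3] at hv
  exact vis_leaf hv

/-- equal or disjoint -/
def DE (I J : Car) : Prop := I = J ∨ Disjoint (lab I.tree) (lab J.tree)

theorem vis_de {Ps : Set ℕ} : ∀ t : T, Good Ps t → ∀ I J : Car, Vis I t → Vis J t → DE I J := by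
  intro t
  induction t with
  | leaf a => intro _ I J h; exact absurd h vis_leaf
  | node p c ih =>
    intro hg I J hI hJ
    rcases vis_node hI with h1 | ⟨i, hi⟩
    · rcases vis_node hJ with h2 | ⟨j, hj⟩
      · exact Or.inl (tree_inj (h1.symm.trans h2))
      · exact absurd hj (fun h => not_vis_child h1 h)
    · rcases vis_node hJ with h2 | ⟨j, hj⟩
      · exact absurd hi (fun h => not_vis_child h2 h)
      · by_cases hij : i = j
        · subst hij; exact ih i (hg.2.1 i) I J hi hj
        · exact Or.inr (Finset.disjoint_of_subset_left (vis_lab hi)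
            (Finset.disjoint_of_subset_right (vis_lab hj) (hg.2.2 i j hij)))

theorem vis_of_bind {Ps : Set ℕ} (hPs : PS Ps) {I J : Car}
    (hd : Disjoint (lab I.tree) (lab J.tree)) : ∀ E : T, Good Ps (bind E I.sp) →
    Vis J (bind E I.sp) → Vis J E := by
  intro E
  induction E with
  | leaf a =>
    intro _ hv
    rw [bind] at hv
    by_cases h : a = I.z
    · subst h
      rw [I.sp_z] at hv
      exfalso
      exact Finset.disjoint_left.1 hd (vis_lab hv J.z_mem) J.z_mem
    · rw [I.sp_ne h] at hv; exact hv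
  | node p c ih =>
    intro hg hv
    have hg' := hg
    rw [bind] at hv hg'
    rcases vis_node hv with h1 | ⟨i, hi⟩
    · obtain ⟨q, b, hq⟩ := J
      rw [Car.tree, T.node.injEq] at h1
      obtain ⟨h2, h3⟩ := h1
      simp only at h2
      subst h2
      have h4 := eq_of_heq h3
      have h5 : c = fun i => T.leaf (b i) := by
        funext i
        have h6 := congrFun h4 i
        simp only at h6
        cases hc : c i with
        | leaf a =>
          rw [hc, bind] at h6
          by_cases h : a = I.z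
          · subst h; rw [I.sp_z] at h6; exact T.noConfusion h6
          · rwa [I.sp_ne h] at h6
        | node q d => rw [hc] at h6; exact T.noConfusion h6
      rw [h5]
      exact vis_tree ⟨p, b, hq⟩
    · exact vis_child (good_ctx _ hg (good_of_bind hPs _ hg).2) (ih i (hg'.2.1 i) hi)

theorem vis_con {Ps : Set ℕ} (hPs : PS Ps) {I J : Car} {t : T} (hg : Good Ps t)
    (hI : Vis I t) (hJ : Vis J t) (hd : Disjoint (lab I.tree) (lab J.tree)) :
    Vis J (con I t) ∧ con J (con I t) = con I (con J t) := by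
  obtain ⟨h1, h2⟩ := con_spec hI
  have hv : Vis J (con I t) := by
    apply vis_of_bind hPs hd
    · rw [h2]; exact hg
    · rw [h2]; exact hJ
  refine ⟨hv, ?_⟩
  obtain ⟨h3, h4⟩ := con_spec hv
  set F := con J (con I t) with hF
  have hzz : J.z ≠ I.z := by
    intro h
    exact Finset.disjoint_left.1 hd (h ▸ I.z_mem) J.z_mem
  have e1 : t = bind (bind F I.sp) J.sp := by
    rw [← h2, ← h4, bind_bind, bind_bind]
    apply bind_congr
    intro a _
    by_cases haJ : a = J.z
    · subst haJ
      rw [J.sp_z, I.sp_ne hzz, bind, J.sp_z]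
      apply bind_sub_not_mem
      intro hc; exact Finset.disjoint_left.1 hd I.z_mem hc
    · rw [J.sp_ne haJ, bind]
      by_cases haI : a = I.z
      · subst haI
        rw [I.sp_z]
        symm
        apply bind_sub_not_mem
        intro hc; exact Finset.disjoint_left.1 hd hc J.z_mem
      · rw [I.sp_ne haI, bind, J.sp_ne haJ]
  have h5 : J.z ∈ lab (bind F I.sp) :=
    (mem_lab_bind F).2 ⟨J.z, h3, by rw [I.sp_ne hzz, mem_lab_leaf]⟩
  have h6 : con J t = bind F I.sp := by
    conv_lhs => rw [e1]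
    exact con_eq h5
  have h7 : I.z ∈ lab F := by
    have h8 : I.z ∈ lab (bind F J.sp) := by rw [h4]; exact h1
    obtain ⟨a, ha, hb⟩ := (mem_lab_bind F).1 h8
    by_cases haJ : a = J.z
    · subst haJ
      rw [J.sp_z] at hb
      exact absurd hb (fun h => Finset.disjoint_left.1 hd I.z_mem h)
    · rw [J.sp_ne haJ, mem_lab_leaf] at hb
      rw [hb]; exact ha
  rw [h6, con_eq h7]

/-- contraction preserves having the same `loc` -/
theorem con_loc {Ps : Set ℕ} (hPs : PS Ps) {I : Car} {t t' : T} (hI : Vis I t) (hI' : Vis I t')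
    (hg : Good Ps t) (hg' : Good Ps t') (hl : loc t = loc t') : loc (con I t) = loc (con I t') := by
  obtain ⟨h1, h2⟩ := con_spec hI
  obtain ⟨h1', h2'⟩ := con_spec hI'
  have hc := con_good hPs hI hg
  have hc' := con_good hPs hI' hg'
  have hgI := vis_tree_good hPs hI hg
  funext x
  have h3 := congrFun hl x
  rw [← h2, ← h2', loc_bind hPs _ _ hc.ok, loc_bind hPs _ _ hc'.ok] at h3
  have ha := loc_fst_mem hPs _ hc.ok x
  have ha' := loc_fst_mem hPs _ hc'.ok x
  have hm := (mem_lab_con hI hg _).1 ha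
  have hm' := (mem_lab_con hI' hg' _).1 ha'
  obtain ⟨⟨a, k⟩, hp⟩ : ∃ u, loc (con I t) x = u := ⟨_, rfl⟩
  obtain ⟨⟨a', k'⟩, hp'⟩ : ∃ u, loc (con I t') x = u := ⟨_, rfl⟩
  rw [hp, hp'] at h3
  rw [hp] at hm
  rw [hp'] at hm'
  simp only at h3 hm hm'
  by_cases e1 : a = I.z
  · by_cases e2 : a' = I.z
    · subst e1
      rw [e2, I.sp_z] at h3
      rw [hp, hp', e2, loc_injective hPs _ hgI h3]
    · exfalso
      subst e1
      rw [I.sp_z, I.sp_ne e2, loc_leaf] at h3
      have h4 := loc_fst_mem hPs I.tree hgI.ok k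
      rw [h3] at h4
      rcases hm'.2 with h | h
      · exact e2 h
      · exact h h4
  · by_cases e2 : a' = I.z
    · exfalso
      subst e2
      rw [I.sp_z, I.sp_ne e1, loc_leaf] at h3
      have h4 := loc_fst_mem hPs I.tree hgI.ok k'
      rw [← h3] at h4
      rcases hm.2 with h | h
      · exact e1 h
      · exact h h4
    · rw [hp, hp']; rwa [I.sp_ne e1, I.sp_ne e2, loc_leaf, loc_leaf] at h3

/-! ### relabelling -/

/-- relabelled caret -/
def Car.map (I : Car) (ρ : ℕ → ℕ) : Car := ⟨I.p, fun i => ρ (I.b i), I.pos⟩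

theorem vis_map {I : Car} {t : T} (hI : Vis I t) {ρ : ℕ → ℕ}
    (hρ : Set.InjOn ρ (lab t : Set ℕ)) (hc : lab (con I t) ⊆ lab t) :
    Vis (I.map ρ) (bind t (fun a => T.leaf (ρ a))) ∧
    con (I.map ρ) (bind t (fun a => T.leaf (ρ a))) = bind (con I t) (fun a => T.leaf (ρ a)) := by
  obtain ⟨h1, h2⟩ := con_spec hI
  have hz : (I.map ρ).z ∈ lab (bind (con I t) (fun a => T.leaf (ρ a))) :=
    (mem_lab_bind _).2 ⟨I.z, h1, mem_lab_leaf.2 rfl⟩
  have e : bind (bind (con I t) (fun a => T.leaf (ρ a))) (I.map ρ).sp =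
      bind t (fun a => T.leaf (ρ a)) := by
    conv_rhs => rw [← h2]
    rw [bind_bind, bind_bind]
    apply bind_congr
    intro a ha
    by_cases haz : a = I.z
    · subst haz
      rw [I.sp_z, bind]
      exact (I.map ρ).sp_z
    · rw [I.sp_ne haz, bind, bind]
      apply (I.map ρ).sp_ne
      intro h
      exact haz (hρ (hc ha) (hc h1) h)
  exact ⟨⟨_, hz, e⟩, by rw [← e, con_eq hz]⟩

/-! ### combs -/

/-- binary node -/
def bin (s t : T) : T := T.node 2 ![s, t]

theorem lab_bin (s t : T) : lab (bin s t) = lab s ∪ lab t := by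
  ext a
  rw [bin, mem_lab_node, Fin.exists_fin_two, Finset.mem_union]
  rfl

theorem good_bin {Ps : Set ℕ} (hPs : PS Ps) {s t : T} (hs : Good Ps s) (ht : Good Ps t)
    (hd : Disjoint (lab s) (lab t)) : Good Ps (bin s t) := by
  refine ⟨hPs.two, ?_, ?_⟩
  · intro i
    fin_cases i
    · exact hs
    · exact ht
  · intro i j hij
    fin_cases i <;> fin_cases j
    · exact absurd rfl hij
    · exact hd
    · exact hd.symm
    · exact absurd rfl hij

theorem vis_bin_left {Ps : Set ℕ} {s t : T} {I : Car} (hg : Good Ps (bin s t)) (h : Vis I s) :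
    Vis I (bin s t) := vis_child (i := 0) hg h

theorem vis_bin_right {Ps : Set ℕ} {s t : T} {I : Car} (hg : Good Ps (bin s t)) (h : Vis I t) :
    Vis I (bin s t) := vis_child (i := 1) hg h

theorem exists_lab {Ps : Set ℕ} (hPs : PS Ps) (X : Finset ℕ) (hX : X.Nonempty) :
    ∃ t, Good Ps t ∧ lab t = X := by
  induction hX using Finset.Nonempty.cons_induction with
  | singleton a => exact ⟨T.leaf a, trivial, rfl⟩
  | cons a s h hs ih =>
    obtain ⟨t, ht, hl⟩ := ih
    refine ⟨bin (T.leaf a) t, good_bin hPs trivial ht ?_, ?_⟩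
    · rw [hl]; simpa [lab] using h
    · rw [lab_bin, hl, Finset.cons_eq_insert]; rfl

theorem exists_comb {Ps : Set ℕ} (hPs : PS Ps) : ∀ (L : List Car) (X : Finset ℕ), X.Nonempty →
    (∀ I ∈ L, Good Ps I.tree ∧ lab I.tree ⊆ X) → L.Pairwise DE →
    ∃ t, Good Ps t ∧ lab t = X ∧ ∀ I ∈ L, Vis I t := by
  intro L
  induction L with
  | nil =>
    intro X hX _ _
    obtain ⟨t, h1, h2⟩ := exists_lab hPs X hX
    exact ⟨t, h1, h2, fun I hI => by simp at hI⟩
  | cons I L ih =>
    intro X hX hL hpw
    rw [List.pairwise_cons] at hpw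
    by_cases hI : I ∈ L
    · obtain ⟨t, h1, h2, h3⟩ := ih X hX (fun J hJ => hL J (List.mem_cons_of_mem _ hJ)) hpw.2
      refine ⟨t, h1, h2, fun J hJ => ?_⟩
      rcases List.mem_cons.1 hJ with h | h
      · rw [h]; exact h3 I hI
      · exact h3 J h
    · have hdis : ∀ J ∈ L, Disjoint (lab I.tree) (lab J.tree) := by
        intro J hJ
        rcases hpw.1 J hJ with h | h
        · exact absurd (h ▸ hJ) hI
        · exact h
      obtain ⟨hgI, hIX⟩ := hL I List.mem_cons_self
      by_cases hne : (X \ lab I.tree).Nonempty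
      · obtain ⟨t, h1, h2, h3⟩ := ih (X \ lab I.tree) hne (fun J hJ => by
          refine ⟨(hL J (List.mem_cons_of_mem _ hJ)).1, ?_⟩
          intro a ha
          rw [Finset.mem_sdiff]
          exact ⟨(hL J (List.mem_cons_of_mem _ hJ)).2 ha,
            fun h => Finset.disjoint_left.1 (hdis J hJ) h ha⟩) hpw.2
        have hg : Good Ps (bin I.tree t) := good_bin hPs hgI h1 (by
          rw [h2]; exact Finset.disjoint_sdiff)
        refine ⟨bin I.tree t, hg, ?_, ?_⟩
        · rw [lab_bin, h2, Finset.union_sdiff_of_subset hIX]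
        · intro J hJ
          rcases List.mem_cons.1 hJ with h | h
          · rw [h]; exact vis_bin_left hg (vis_tree I)
          · exact vis_bin_right hg (h3 J h)
      · rw [Finset.not_nonempty_iff_eq_empty, Finset.sdiff_eq_empty_iff_subset] at hne
        have hXe : lab I.tree = X := Finset.Subset.antisymm hIX hne
        have hLn : ∀ J, J ∉ L := by
          intro J hJ
          have h1 := (hL J (List.mem_cons_of_mem _ hJ)).2 J.z_mem
          exact Finset.disjoint_left.1 (hdis J hJ) (hne h1) J.z_mem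
        refine ⟨I.tree, hgI, hXe, ?_⟩
        intro J hJ
        rcases List.mem_cons.1 hJ with h | h
        · rw [h]; exact vis_tree I
        · exact absurd h (hLn J)

/-- a tree with many visible carets -/
theorem exists_star {Ps : Set ℕ} (hPs : PS Ps) : ∀ (m : ℕ) (X : Finset ℕ), 2 * m + 2 ≤ X.card →
    ∃ t, Good Ps t ∧ lab t = X ∧ ∀ Y : Finset ℕ, Y.card ≤ m →
      ∃ K, Vis K t ∧ Disjoint (lab K.tree) Y := by
  intro m
  induction m with
  | zero =>
    intro X hX
    obtain ⟨t, h1, h2⟩ := exists_lab hPs X (Finset.card_pos.1 (by omega))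
    refine ⟨t, h1, h2, fun Y hY => ?_⟩
    obtain ⟨K, hK⟩ := exists_vis hPs t h1 (by
      rintro a rfl
      have : X.card = 1 := by rw [← h2]; rfl
      omega)
    have hY' : Y = ∅ := Finset.card_eq_zero.1 (by omega)
    exact ⟨K, hK, by rw [hY']; exact Finset.disjoint_empty_right _⟩
  | succ m ih =>
    intro X hX
    obtain ⟨x, hx, y, hy, hxy⟩ := Finset.one_lt_card.1 (show 1 < X.card by omega)
    have hcard : (X \ {x, y}).card = X.card - 2 := by
      rw [Finset.card_sdiff_of_subset, Finset.card_pair hxy]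
      intro a ha
      rw [Finset.mem_insert, Finset.mem_singleton] at ha
      rcases ha with h | h <;> rw [h] <;> assumption
    obtain ⟨t, h1, h2, h3⟩ := ih (X \ {x, y}) (by omega)
    have hgI : Good Ps (bin (T.leaf x) (T.leaf y)) := good_bin hPs trivial trivial (by
      simpa [lab] using hxy)
    have hlI : lab (bin (T.leaf x) (T.leaf y)) = {x, y} := by rw [lab_bin]; rfl
    have hg : Good Ps (bin (bin (T.leaf x) (T.leaf y)) t) := good_bin hPs hgI h1 (by
      rw [h2, hlI]; exact Finset.disjoint_sdiff)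
    set I : Car := ⟨2, ![x, y], two_pos⟩ with hI
    have hIt : I.tree = bin (T.leaf x) (T.leaf y) := by
      rw [Car.tree, bin]
      congr 1
      funext i
      fin_cases i <;> rfl
    refine ⟨bin (bin (T.leaf x) (T.leaf y)) t, hg, ?_, ?_⟩
    · rw [lab_bin, h2, hlI, Finset.union_sdiff_of_subset]
      intro a ha
      rw [Finset.mem_insert, Finset.mem_singleton] at ha
      rcases ha with h | h <;> rw [h] <;> assumption
    · intro Y hY
      by_cases hdis : Disjoint ({x, y} : Finset ℕ) Y
      · refine ⟨I, vis_bin_left hg ?_, ?_⟩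
        · rw [← hIt]; exact vis_tree I
        · rw [hIt, hlI]; exact hdis
      · obtain ⟨K, hK1, hK2⟩ := h3 (Y \ {x, y}) (by
          have : (Y \ {x, y}).card < Y.card := by
            apply Finset.card_lt_card
            rw [Finset.ssubset_iff_subset_ne]
            refine ⟨Finset.sdiff_subset, fun h => hdis ?_⟩
            rw [Finset.sdiff_eq_self_iff_disjoint] at h
            exact h.symm
          omega)
        refine ⟨K, vis_bin_right hg hK1, ?_⟩
        rw [Finset.disjoint_left]
        intro a ha hb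
        have h4 := vis_lab hK1 ha
        rw [h2, Finset.mem_sdiff] at h4
        exact Finset.disjoint_left.1 hK2 ha (Finset.mem_sdiff.2 ⟨hb, h4.2⟩)

end Pool.Agent.Helper111.FP
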