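import Pool.Agent.Helper111.FP3

set_option autoImplicit false

namespace Pool.Agent.Helper111.FP

open Equiv Relation

/-- good trees with a given set of labels -/
def Gd (Ps : Set ℕ) (X : Finset ℕ) (t : T) : Prop := Good Ps t ∧ lab t = X

/-- a coherent system of transition elements for trees with at most `n` labels -/
structure Sy (Ps : Set ℕ) {H : Type*} [Group H] (φ : T → T → H) (n : ℕ) : Prop where
  coc : ∀ X : Finset ℕ, X.card ≤ n → ∀ t t' t'', Gd Ps X t → Gd Ps X t' → Gd Ps X t'' →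
    φ t' t'' * φ t t' = φ t t''
  bnd : ∀ (E E' : T) (f : ℕ → T), Good Ps E → Good Ps E' → lab E = lab E' → Good Ps (bind E f) →
    (lab (bind E f)).card ≤ n → φ (bind E f) (bind E' f) = φ E E'
  loc : ∀ t t' : T, Good Ps t → Good Ps t' → loc t = loc t' → (lab t).card ≤ n → φ t t' = 1

/-- the transition through a contraction -/
noncomputable def pI {H : Type*} (φ : T → T → H) (I : Car) (t t' : T) : H := φ (con I t) (con I t')

theorem gl_con {Ps : Set ℕ} (hPs : PS Ps) {n : ℕ} {X : Finset ℕ} (hX : X.card ≤ n + 1) {I : Car}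
    {t : T} (ht : Gd Ps X t) (h : Vis I t) : Gd Ps (lab (con I t)) (con I t) ∧
    (lab (con I t)).card ≤ n := by
  refine ⟨⟨con_good hPs h ht.1, rfl⟩, ?_⟩
  have := con_card hPs h ht.1
  rw [ht.2] at this
  omega

theorem gl_con' {Ps : Set ℕ} (hPs : PS Ps) {X : Finset ℕ} {I : Car}
    {t t' : T} (ht : Gd Ps X t) (h : Vis I t) (ht' : Gd Ps X t') (h' : Vis I t') :
    Gd Ps (lab (con I t)) (con I t') :=
  ⟨con_good hPs h' ht'.1, lab_con_eq h' h ht'.1 ht.1 (by rw [ht.2, ht'.2])⟩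

section

variable {Ps : Set ℕ} {H : Type*} [Group H] {φ : T → T → H} {n : ℕ} {X : Finset ℕ}

theorem Sy.refl (S : Sy Ps φ n) (hX : X.card ≤ n) {t : T} (ht : Gd Ps X t) : φ t t = 1 := by
  have := S.coc X hX t t t ht ht ht
  simpa using this

theorem pI_coc (hPs : PS Ps) (S : Sy Ps φ n) (hX : X.card ≤ n + 1) {I : Car} {t t' t'' : T}
    (ht : Gd Ps X t) (ht' : Gd Ps X t') (ht'' : Gd Ps X t'') (h : Vis I t) (h' : Vis I t')
    (h'' : Vis I t'') : pI φ I t' t'' * pI φ I t t' = pI φ I t t'' := by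
  obtain ⟨h1, h2⟩ := gl_con hPs hX ht h
  exact S.coc _ h2 _ _ _ h1 (gl_con' hPs ht h ht' h') (gl_con' hPs ht h ht'' h'')

theorem pI_de (hPs : PS Ps) (S : Sy Ps φ n) (hX : X.card ≤ n + 1) {I J : Car} (hd : DE I J)
    {t t' : T} (ht : Gd Ps X t) (ht' : Gd Ps X t') (hI : Vis I t) (hI' : Vis I t')
    (hJ : Vis J t) (hJ' : Vis J t') : pI φ I t t' = pI φ J t t' := by
  rcases hd with rfl | hd
  · rfl
  · have key : ∀ I J : Car, Disjoint (lab I.tree) (lab J.tree) → Vis I t → Vis I t' → Vis J t →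
        Vis J t' → pI φ I t t' = φ (con J (con I t)) (con J (con I t')) := by
      intro I J hd hI hI' hJ hJ'
      obtain ⟨h1, h2⟩ := gl_con hPs hX ht hI
      have h1' := gl_con' hPs ht hI ht' hI'
      obtain ⟨v1, _⟩ := vis_con hPs ht.1 hI hJ hd
      obtain ⟨v2, _⟩ := vis_con hPs ht'.1 hI' hJ' hd
      obtain ⟨k1, k2⟩ := con_spec v1
      obtain ⟨k1', k2'⟩ := con_spec v2
      rw [pI]
      conv_lhs => rw [← k2, ← k2']
      apply S.bnd
      · exact con_good hPs v1 h1.1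
      · exact con_good hPs v2 h1'.1
      · exact lab_con_eq v1 v2 h1.1 h1'.1 h1'.2.symm
      · rw [k2]; exact h1.1
      · rw [k2]; exact h2
    rw [key I J hd hI hI' hJ hJ', key J I hd.symm hJ hJ' hI hI',
      (vis_con hPs ht.1 hI hJ hd).2, (vis_con hPs ht'.1 hI' hJ' hd).2]

theorem comb3 (hPs : PS Ps) {I J K : Car} (hI : ∃ t, Gd Ps X t ∧ Vis I t)
    (hJ : ∃ t, Gd Ps X t ∧ Vis J t) (hK : ∃ t, Gd Ps X t ∧ Vis K t) (h1 : DE I J) (h2 : DE I K)
    (h3 : DE J K) : ∃ t, Gd Ps X t ∧ Vis I t ∧ Vis J t ∧ Vis K t := by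
  have hg : ∀ I : Car, (∃ t, Gd Ps X t ∧ Vis I t) → Good Ps I.tree ∧ lab I.tree ⊆ X := by
    rintro I ⟨t, ht, hv⟩
    exact ⟨vis_tree_good hPs hv ht.1, by rw [← ht.2]; exact vis_lab hv⟩
  obtain ⟨t, ht1, ht2, ht3⟩ := exists_comb hPs [I, J, K] X ⟨I.z, (hg I hI).2 I.z_mem⟩ (by
    intro L hL
    simp only [List.mem_cons, List.not_mem_nil, or_false] at hL
    rcases hL with rfl | rfl | rfl
    · exact hg _ hI
    · exact hg _ hJ
    · exact hg _ hK) (by
    simp only [List.pairwise_cons, List.mem_cons, List.not_mem_nil, or_false,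
      forall_eq_or_imp, forall_eq, List.Pairwise.nil]
    simp [h1, h2, h3])
  exact ⟨t, ⟨ht1, ht2⟩, ht3 I (by simp), ht3 J (by simp), ht3 K (by simp)⟩

theorem DE.rfl' {I : Car} : DE I I := Or.inl rfl

theorem DE.symm' {I J : Car} (h : DE I J) : DE J I := by
  rcases h with h | h
  · exact Or.inl h.symm
  · exact Or.inr h.symm

theorem gl_vis (hPs : PS Ps) {t : T} (ht : Gd Ps X t) (hX : 2 ≤ X.card) : ∃ I, Vis I t := by
  apply exists_vis hPs t ht.1
  rintro a rfl
  have : X.card = 1 := by rw [← ht.2]; rfl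
  omega

theorem vis_card (hPs : PS Ps) {P : ℕ} (hP : ∀ p ∈ Ps, p ≤ P) {t : T} (ht : Gd Ps X t) {I : Car}
    (h : Vis I t) : (lab I.tree).card ≤ P := by
  have hg := vis_tree_good hPs h ht.1
  rw [tree_card hg]
  exact hP _ hg.1

/-- any two trees are connected by sharing visible carets -/
theorem chain (hPs : PS Ps) {P : ℕ} (hP : ∀ p ∈ Ps, p ≤ P) (hX : 4 * P + 2 ≤ X.card)
    (R : T → T → Prop)
    (htr : ∀ t t' t'', Gd Ps X t → Gd Ps X t' → Gd Ps X t'' → R t t' → R t' t'' → R t t'')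
    (hsh : ∀ I t t', Gd Ps X t → Gd Ps X t' → Vis I t → Vis I t' → R t t') :
    ∀ t t', Gd Ps X t → Gd Ps X t' → R t t' := by
  intro t t' ht ht'
  obtain ⟨ts, hs1, hs2, hs3⟩ := exists_star hPs (2 * P) X (by omega)
  have hP2 := hP 2 hPs.two
  obtain ⟨I, hI⟩ := gl_vis hPs ht (by omega)
  obtain ⟨I', hI'⟩ := gl_vis hPs ht' (by omega)
  obtain ⟨K, hK1, hK2⟩ := hs3 (lab I.tree ∪ lab I'.tree) (by
    have h1 := vis_card hPs hP ht hI
    have h2 := vis_card hPs hP ht' hI'
    have := Finset.card_union_le (lab I.tree) (lab I'.tree)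
    omega)
  rw [Finset.disjoint_union_right] at hK2
  obtain ⟨t₁, g1, a1, a2, _⟩ := comb3 (X := X) hPs ⟨t, ht, hI⟩ ⟨ts, ⟨hs1, hs2⟩, hK1⟩
    ⟨ts, ⟨hs1, hs2⟩, hK1⟩ (Or.inr hK2.1.symm) (Or.inr hK2.1.symm) DE.rfl'
  obtain ⟨t₂, g2, b1, b2, _⟩ := comb3 (X := X) hPs ⟨t', ht', hI'⟩ ⟨ts, ⟨hs1, hs2⟩, hK1⟩
    ⟨ts, ⟨hs1, hs2⟩, hK1⟩ (Or.inr hK2.2.symm) (Or.inr hK2.2.symm) DE.rfl'
  exact htr _ _ _ ht g1 ht' (hsh I _ _ ht g1 hI a1)
    (htr _ _ _ g1 g2 ht' (hsh K _ _ g1 g2 a2 b2) (hsh I' _ _ g2 ht' b1 hI'))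

theorem exists_u (hPs : PS Ps) {P : ℕ} (hP : ∀ p ∈ Ps, p ≤ P) (S : Sy Ps φ n)
    (hXn : X.card ≤ n + 1) (hX : 4 * P + 2 ≤ X.card) :
    ∃ u : T → H, ∀ t t', Gd Ps X t → Gd Ps X t' → ∀ I, Vis I t → Vis I t' →
      u t' * (u t)⁻¹ = pI φ I t t' := by
  classical
  obtain ⟨ts, hs1, hs2, hs3⟩ := exists_star hPs (2 * P) X (by omega)
  have hts : Gd Ps X ts := ⟨hs1, hs2⟩
  have hP2 := hP 2 hPs.two
  set U : T → H → Prop := fun t h => ∃ (I K : Car) (t₁ : T), Vis I t ∧ Gd Ps X t₁ ∧ Vis I t₁ ∧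
    Vis K t₁ ∧ Vis K ts ∧ h = pI φ I t₁ t * pI φ K ts t₁ with hU
  -- independence of `t₁`
  have stepA : ∀ t, Gd Ps X t → ∀ (I K : Car) (t₁ t₂ : T), Vis I t → Vis K ts → Gd Ps X t₁ →
      Gd Ps X t₂ → Vis I t₁ → Vis I t₂ → Vis K t₁ → Vis K t₂ →
      pI φ I t₁ t * pI φ K ts t₁ = pI φ I t₂ t * pI φ K ts t₂ := by
    intro t ht I K t₁ t₂ hI hK g1 g2 i1 i2 k1 k2
    rw [← pI_coc hPs S hXn g1 g2 ht i1 i2 hI,
      pI_de hPs S hXn (vis_de t₁ g1.1 I K i1 k1) g1 g2 i1 i2 k1 k2, mul_assoc,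
      pI_coc hPs S hXn hts g1 g2 hK k1 k2]
  have stepB : ∀ t, Gd Ps X t → ∀ (I K K' : Car) (t₁ t₂ : T), Vis I t → Vis K ts → Vis K' ts →
      Gd Ps X t₁ → Gd Ps X t₂ → Vis I t₁ → Vis I t₂ → Vis K t₁ → Vis K' t₂ →
      pI φ I t₁ t * pI φ K ts t₁ = pI φ I t₂ t * pI φ K' ts t₂ := by
    intro t ht I K K' t₁ t₂ hI hK hK' g1 g2 i1 i2 k1 k2
    have d1 := vis_de t₁ g1.1 I K i1 k1
    have d2 := vis_de t₂ g2.1 I K' i2 k2
    have d3 := vis_de ts hs1 K K' hK hK'
    obtain ⟨t₃, g3, j1, j2, j3⟩ := comb3 (X := X) hPs ⟨t, ht, hI⟩ ⟨ts, hts, hK⟩ ⟨ts, hts, hK'⟩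
      d1 d2 d3
    rw [stepA t ht I K t₁ t₃ hI hK g1 g3 i1 j1 k1 j2,
      pI_de hPs S hXn d3 hts g3 hK j2 hK' j3,
      stepA t ht I K' t₃ t₂ hI hK' g3 g2 j1 i2 j3 k2]
  have uniq : ∀ t, Gd Ps X t → ∀ h h', U t h → U t h' → h = h' := by
    rintro t ht h h' ⟨I, K, t₁, a1, a2, a3, a4, a5, rfl⟩ ⟨I', K', t₁', b1, b2, b3, b4, b5, rfl⟩
    obtain ⟨L, hL1, hL2⟩ := hs3 (lab I.tree ∪ lab I'.tree) (by
      have h1 := vis_card hPs hP ht a1
      have h2 := vis_card hPs hP ht b1
      have := Finset.card_union_le (lab I.tree) (lab I'.tree)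
      omega)
    rw [Finset.disjoint_union_right] at hL2
    have d := vis_de t ht.1 I I' a1 b1
    obtain ⟨t₃, g3, j1, j2, j3⟩ := comb3 (X := X) hPs ⟨t, ht, a1⟩ ⟨t, ht, b1⟩ ⟨ts, hts, hL1⟩
      d (Or.inr hL2.1.symm) (Or.inr hL2.2.symm)
    rw [stepB t ht I K L t₁ t₃ a1 a5 hL1 a2 g3 a3 j1 a4 j3,
      stepB t ht I' K' L t₁' t₃ b1 b5 hL1 b2 g3 b3 j2 b4 j3,
      pI_de hPs S hXn d g3 ht j1 a1 j2 b1]
  set u : T → H := fun t => if h : ∃ h, U t h then h.choose else 1 with hu
  have hu' : ∀ t h, Gd Ps X t → U t h → u t = h := by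
    intro t h ht hh
    have hex : ∃ h, U t h := ⟨h, hh⟩
    rw [hu]
    simp only [dif_pos hex]
    exact uniq t ht _ _ hex.choose_spec hh
  refine ⟨u, fun t t' ht ht' I hI hI' => ?_⟩
  obtain ⟨K, hK1, hK2⟩ := hs3 (lab I.tree) (by
    have h1 := vis_card hPs hP ht hI
    omega)
  obtain ⟨t₁, g1, j1, j2, _⟩ := comb3 (X := X) hPs ⟨t, ht, hI⟩ ⟨ts, hts, hK1⟩
    ⟨ts, hts, hK1⟩ (Or.inr hK2.symm) (Or.inr hK2.symm) DE.rfl'
  rw [hu' t _ ht ⟨I, K, t₁, hI, g1, j1, j2, hK1, rfl⟩,
    hu' t' _ ht' ⟨I, K, t₁, hI', g1, j1, j2, hK1, rfl⟩]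
  rw [← pI_coc hPs S hXn g1 ht ht' j1 hI hI']
  group

end

theorem loc_lab {Ps : Set ℕ} (hPs : PS Ps) {t t' : T} (ht : ok Ps t) (ht' : ok Ps t')
    (h : loc t = loc t') : lab t = lab t' := act_lab hPs ht ht' (act_one h)

theorem vis_sub {Ps : Set ℕ} {E s : T} {a : ℕ} {K : Car} (hg : Good Ps (bind E (sub a s)))
    (haE : a ∈ lab E) (hK : Vis K E) (ha : a ∉ lab K.tree) : Vis K (bind E (sub a s)) := by
  obtain ⟨h1, h2⟩ := con_spec hK
  have hza : K.z ≠ a := by rintro h; exact ha (h ▸ K.z_mem)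
  have hzE : K.z ∈ lab E := vis_lab hK K.z_mem
  refine ⟨bind (con K E) (sub a s), (mem_lab_bind _).2 ⟨K.z, h1, by
    rw [sub_ne _ hza]; exact mem_lab_leaf.2 rfl⟩, ?_⟩
  conv_rhs => rw [← h2]
  rw [bind_bind, bind_bind]
  apply bind_congr
  intro b hb
  by_cases hba : b = a
  · subst hba
    rw [sub_self, K.sp_ne (Ne.symm hza), bind, sub_self]
    apply bind_sub_not_mem
    intro hc
    have hd := good_bind_disj E hg b haE K.z hzE (Ne.symm hza)
    rw [sub_self, sub_ne _ hza, Finset.disjoint_left] at hd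
    exact hd hc (mem_lab_leaf.2 rfl)
  · rw [sub_ne _ hba, bind]
    by_cases hbz : b = K.z
    · subst hbz
      rw [K.sp_z, bind_sub_not_mem ha]
    · rw [K.sp_ne hbz, bind, sub_ne _ hba]

theorem blk_vis {Ps : Set ℕ} {p q : ℕ} {w : ℕ → T} (hg : Good Ps (blk p q w)) {k : ℕ}
    (hk : k < p * q) {I : Car} (h : Vis I (w k)) : Vis I (blk p q w) := by
  have hp : 0 < p := by
    rcases Nat.eq_zero_or_pos p with h | h
    · subst h; simp at hk
    · exact h
  have h1 : k % p < p := Nat.mod_lt _ hp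
  have h2 : k / p < q := Nat.div_lt_of_lt_mul hk
  have e : k % p + p * (k / p) = k := Nat.mod_add_div _ _
  refine vis_child (i := ⟨k % p, h1⟩) hg ?_
  have hg2 := hg.2.1 ⟨k % p, h1⟩
  refine vis_child (i := ⟨k / p, h2⟩) hg2 ?_
  simp only [e]; exact h

theorem blk_card {p q : ℕ} {w : ℕ → T} (h : ∀ k, k < p * q → ∃ a, w k = T.leaf a) :
    (lab (blk p q w)).card ≤ p * q := by
  classical
  have hβ : ∀ k, ∃ a, k < p * q → w k = T.leaf a := by
    intro k
    by_cases hk : k < p * q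
    · obtain ⟨a, ha⟩ := h k hk; exact ⟨a, fun _ => ha⟩
    · exact ⟨0, fun h => absurd h hk⟩
  choose β hβ using hβ
  have hsub : lab (blk p q w) ⊆ (Finset.range (p * q)).image β := by
    intro a ha
    obtain ⟨i, hi⟩ := mem_lab_node.1 ha
    obtain ⟨j, hj⟩ := mem_lab_node.1 hi
    have hlt : (i : ℕ) + p * j < p * q := by
      have h1 := i.isLt
      have h2 := j.isLt
      nlinarith
    rw [hβ _ hlt, mem_lab_leaf] at hj
    rw [Finset.mem_image]
    exact ⟨_, Finset.mem_range.2 hlt, hj.symm⟩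
  calc _ ≤ _ := Finset.card_le_card hsub
    _ ≤ _ := Finset.card_image_le
    _ = _ := Finset.card_range _

/-- the extension step -/
theorem extend {Ps : Set ℕ} (hPs : PS Ps) {P : ℕ} (hP : ∀ p ∈ Ps, p ≤ P) {H : Type*} [Group H]
    {φ : T → T → H} {n : ℕ} (S : Sy Ps φ n) (hn : 4 * P + 2 ≤ n + 1) (hn2 : P * P + 2 < n + 1) :
    ∃ φ' : T → T → H, Sy Ps φ' (n + 1) ∧ ∀ t t', (lab t).card ≤ n → φ' t t' = φ t t' := by
  classical
  have hP2 := hP 2 hPs.two
  have hu : ∀ X : Finset ℕ, ∃ u : T → H, X.card = n + 1 → ∀ t t', Gd Ps X t → Gd Ps X t' →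
      ∀ I, Vis I t → Vis I t' → u t' * (u t)⁻¹ = pI φ I t t' := by
    intro X
    by_cases hX : X.card = n + 1
    · obtain ⟨u, hu⟩ := exists_u (X := X) hPs hP S (by omega) (by omega)
      exact ⟨u, fun _ => hu⟩
    · exact ⟨fun _ => 1, fun h => absurd h hX⟩
  choose u hu using hu
  set φ' : T → T → H := fun t t' => if (lab t).card ≤ n then φ t t' else
    u (lab t) t' * (u (lab t) t)⁻¹ with hφ'
  have low : ∀ t t', (lab t).card ≤ n → φ' t t' = φ t t' := by
    intro t t' h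
    rw [hφ']; simp only [if_pos h]
  have high : ∀ t t', (lab t).card = n + 1 → φ' t t' = u (lab t) t' * (u (lab t) t)⁻¹ := by
    intro t t' h
    have h' : ¬ (lab t).card ≤ n := by omega
    rw [hφ']; simp only [if_neg h']
  have share : ∀ X : Finset ℕ, X.card = n + 1 → ∀ I t t', Gd Ps X t → Gd Ps X t' → Vis I t →
      Vis I t' → φ' t t' = pI φ I t t' := by
    intro X hX I t t' ht ht' hI hI'
    rw [high t t' (by rw [ht.2, hX]), ht.2]
    exact hu X hX t t' ht ht' I hI hI'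
  have coc : ∀ X : Finset ℕ, X.card ≤ n + 1 → ∀ t t' t'', Gd Ps X t → Gd Ps X t' → Gd Ps X t'' →
      φ' t' t'' * φ' t t' = φ' t t'' := by
    intro X hX t t' t'' ht ht' ht''
    by_cases h : X.card ≤ n
    · rw [low t t' (by rw [ht.2]; exact h), low t t'' (by rw [ht.2]; exact h),
        low t' t'' (by rw [ht'.2]; exact h)]
      exact S.coc X h t t' t'' ht ht' ht''
    · have hX' : X.card = n + 1 := by omega
      rw [high t t' (by rw [ht.2]; exact hX'), high t t'' (by rw [ht.2]; exact hX'),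
        high t' t'' (by rw [ht'.2]; exact hX'), ht.2, ht'.2]
      group
  have bnd : ∀ (E E' : T) (f : ℕ → T), Good Ps E → Good Ps E' → lab E = lab E' →
      Good Ps (bind E f) → (lab (bind E f)).card ≤ n + 1 →
      φ' (bind E f) (bind E' f) = φ' E E' := by
    intro E E' f hE hE' hl hg hc
    have hg' : Good Ps (bind E' f) := good_swap hPs hE' hl hg
    have hl' : lab (bind E f) = lab (bind E' f) := lab_swap hl
    by_cases hcn : (lab (bind E f)).card ≤ n
    · have h1 : (lab E).card ≤ n := le_trans (card_le_bind hPs hg) hcn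
      rw [low _ _ hcn, low _ _ h1]
      exact S.bnd E E' f hE hE' hl hg hcn
    · have hcn' : (lab (bind E f)).card = n + 1 := by omega
      by_cases hleaf : ∀ a ∈ lab E, ∃ b, f a = T.leaf b
      · -- relabelling
        have hρ : ∀ a, ∃ b, a ∈ lab E → f a = T.leaf b := by
          intro a
          by_cases ha : a ∈ lab E
          · obtain ⟨b, hb⟩ := hleaf a ha; exact ⟨b, fun _ => hb⟩
          · exact ⟨0, fun h => absurd h ha⟩
        choose ρ hρ using hρ
        have e1 : bind E f = bind E (fun a => T.leaf (ρ a)) := bind_congr E hρ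
        have e2 : bind E' f = bind E' (fun a => T.leaf (ρ a)) :=
          bind_congr E' (fun a ha => hρ a (hl ▸ ha))
        rw [e1] at hg hcn' hl'
        rw [e1, e2]
        have hinj : Set.InjOn ρ (lab E : Set ℕ) := by
          intro a ha b hb hab
          by_contra hne
          have := good_bind_disj E hg a ha b hb hne
          rw [Finset.disjoint_left] at this
          exact this (a := ρ a) (mem_lab_leaf.2 rfl) (mem_lab_leaf.2 hab)
        have hcE : (lab E).card = n + 1 := by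
          have h1 := card_bind hg
          rw [hcn'] at h1
          rw [h1, Finset.card_eq_sum_ones]
          rfl
        have hgt : ∀ t, Gd Ps (lab E) t →
            Gd Ps (lab (bind E (fun a => T.leaf (ρ a)))) (bind t (fun a => T.leaf (ρ a))) := by
          intro t ht
          exact ⟨good_swap hPs ht.1 ht.2.symm hg, lab_swap ht.2⟩
        refine chain (X := lab E) hPs hP (by omega)
          (fun t t' => φ' (bind t (fun a => T.leaf (ρ a))) (bind t' (fun a => T.leaf (ρ a))) =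
            φ' t t') ?_ ?_ E E' ⟨hE, rfl⟩ ⟨hE', hl.symm⟩
        · intro t t' t'' ht ht' ht'' h1 h2
          rw [← coc (lab E) (by omega) t t' t'' ht ht' ht'', ← h1, ← h2]
          exact (coc _ (by omega) _ _ _ (hgt t ht) (hgt t' ht') (hgt t'' ht'')).symm
        · intro I t t' ht ht' hI hI'
          have hsub : ∀ t, Gd Ps (lab E) t → Vis I t → lab (con I t) ⊆ lab t := by
            intro t ht hI a ha
            exact ((mem_lab_con hI ht.1 a).1 ha).1
          obtain ⟨v1, v2⟩ := vis_map (ρ := ρ) hI (by rw [ht.2]; exact hinj) (hsub t ht hI)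
          obtain ⟨w1, w2⟩ := vis_map (ρ := ρ) hI' (by rw [ht'.2]; exact hinj) (hsub t' ht' hI')
          rw [share _ hcn' (I.map ρ) _ _ (hgt t ht) (hgt t' ht') v1 w1,
            share _ hcE I t t' ht ht' hI hI', pI, pI, v2, w2]
          obtain ⟨c1, c2⟩ := gl_con (n := n) hPs (by omega) (hgt t ht) v1
          rw [v2] at c1 c2
          exact S.bnd _ _ _ (con_good hPs hI ht.1) (con_good hPs hI' ht'.1)
            (lab_con_eq hI hI' ht.1 ht'.1 (by rw [ht.2, ht'.2])) c1.1 c2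
      · push Not at hleaf
        obtain ⟨a, ha, hne⟩ := hleaf
        obtain ⟨I, hI⟩ := exists_vis hPs (f a) ((good_of_bind hPs E hg).1 a ha) hne
        obtain ⟨v1, v2⟩ := vis_bind hg ha hI
        obtain ⟨w1, w2⟩ := vis_bind hg' (hl ▸ ha) hI
        rw [share _ hcn' I _ _ ⟨hg, rfl⟩ ⟨hg', hl'.symm⟩ v1 w1, pI, v2, w2]
        obtain ⟨c1, c2⟩ := gl_con (n := n) (X := lab (bind E f)) hPs (by omega) ⟨hg, rfl⟩ v1
        rw [v2] at c1 c2
        rw [S.bnd E E' _ hE hE' hl c1.1 c2, low]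
        exact le_trans (card_le_bind hPs c1.1) c2
  have step : ∀ t t', Step Ps t t' → Good Ps t → (lab t).card = n + 1 → φ' t t' = 1 := by
    intro t t' hst hg hc
    have hsl := step_loc hPs hst
    have hg' : Good Ps t' := (eqv_good hPs (EqvGen.rel _ _ hst)).1 hg
    have hl : lab t = lab t' := loc_lab hPs hg.ok hg'.ok hsl.1
    -- sharing a caret
    have sh : ∀ s s', Good Ps s → Good Ps s' → loc s = loc s' → (lab s).card = n + 1 →
        ∀ I, Vis I s → Vis I s' → φ' s s' = 1 := by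
      intro s s' hs hs' hls hcs I hI hI'
      have hl2 : lab s = lab s' := loc_lab hPs hs.ok hs'.ok hls
      rw [share _ hcs I s s' ⟨hs, rfl⟩ ⟨hs', hl2.symm⟩ hI hI', pI]
      apply S.loc _ _ (con_good hPs hI hs) (con_good hPs hI' hs') (con_loc hPs hI hI' hs hs' hls)
      have := con_card hPs hI hs
      omega
    obtain ⟨E, a, p, q, w, hE, haE, hp, hq, hab, e1, e2⟩ := step_context hPs hst hg
    have hp0 := hPs.pos hp
    have hq0 := hPs.pos hq
    by_cases hEc : 3 ≤ (lab E).card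
    · -- compare with a context having a caret away from `a`
      obtain ⟨x, hx, y, hy, hxy⟩ := Finset.one_lt_card.1
        (show 1 < ((lab E).erase a).card by rw [Finset.card_erase_of_mem haE]; omega)
      rw [Finset.mem_erase] at hx hy
      have hgK : Good Ps (Car.tree ⟨2, ![x, y], two_pos⟩) := by
        refine ⟨hPs.two, fun _ => trivial, ?_⟩
        intro i j hij
        fin_cases i <;> fin_cases j
        · exact absurd rfl hij
        · simpa [lab] using hxy
        · simpa [lab] using hxy.symm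
        · exact absurd rfl hij
      have hmK : ∀ b, b ∈ lab (Car.tree ⟨2, ![x, y], two_pos⟩) ↔ b = x ∨ b = y := by
        intro b
        rw [Car.tree, mem_lab_node, Fin.exists_fin_two]
        simp [lab]
      obtain ⟨E₁, hE1, hlE1, hvE1⟩ := exists_comb hPs [⟨2, ![x, y], two_pos⟩] (lab E) ⟨a, haE⟩ (by
        intro I hI
        rw [List.mem_singleton] at hI
        subst hI
        refine ⟨hgK, fun b hb => ?_⟩
        rcases (hmK b).1 hb with h | h <;> rw [h]
        · exact hx.2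
        · exact hy.2) (List.pairwise_singleton _ _)
      have hvK := hvE1 _ (List.mem_singleton.2 rfl)
      have haK : a ∉ lab (Car.tree ⟨2, ![x, y], two_pos⟩) := by
        intro h
        rcases (hmK a).1 h with h | h
        · exact hx.1 h.symm
        · exact hy.1 h.symm
      rw [e1] at hg hc hl hsl
      rw [e2] at hg' hl hsl
      rw [e1, e2]
      have g1 : Good Ps (bind E₁ (sub a (blk p q w))) := good_swap hPs hE1 hlE1.symm hg
      have g2 : Good Ps (bind E₁ (sub a (blk q p w))) := good_swap hPs hE1 hlE1.symm hg'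
      have l1 : lab (bind E (sub a (blk p q w))) = lab (bind E₁ (sub a (blk p q w))) :=
        lab_swap hlE1.symm
      have l2 : lab (bind E (sub a (blk q p w))) = lab (bind E₁ (sub a (blk q p w))) :=
        lab_swap hlE1.symm
      have hlocE1 : loc (bind E₁ (sub a (blk p q w))) = loc (bind E₁ (sub a (blk q p w))) := by
        funext x
        rw [loc_bind hPs _ _ hE1.ok, loc_bind hPs _ _ hE1.ok]
        by_cases hx : (loc E₁ x).1 = a
        · rw [hx, sub_self, sub_self, loc_blk hp0 hq0, loc_blk hq0 hp0, mul_comm q p]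
        · rw [sub_ne _ hx, sub_ne _ hx]
      have f1 : φ' (bind E₁ (sub a (blk p q w))) (bind E₁ (sub a (blk q p w))) = 1 := by
        apply sh _ _ g1 g2 hlocE1 (by rw [← l1, hc]) ⟨2, ![x, y], two_pos⟩
        · exact vis_sub g1 (hlE1 ▸ haE) hvK haK
        · exact vis_sub g2 (hlE1 ▸ haE) hvK haK
      have f2 : φ' (bind E (sub a (blk p q w))) (bind E₁ (sub a (blk p q w))) = φ' E E₁ :=
        bnd E E₁ _ hE hE1 hlE1.symm hg (by omega)
      have f3 : φ' (bind E₁ (sub a (blk q p w))) (bind E (sub a (blk q p w))) = φ' E₁ E :=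
        bnd E₁ E _ hE1 hE hlE1 g2 (by rw [← l2, ← hl]; omega)
      have cE : (lab E).card ≤ n + 1 := le_trans (card_le_bind hPs hg) (by omega)
      have c1 := coc (lab E) cE E E₁ E ⟨hE, rfl⟩ ⟨hE1, hlE1⟩ ⟨hE, rfl⟩
      have c2 := coc (lab E) cE E E E ⟨hE, rfl⟩ ⟨hE, rfl⟩ ⟨hE, rfl⟩
      have c3 : φ' E E = 1 := by simpa using c2
      have d1 := coc _ (by omega) (bind E (sub a (blk p q w))) (bind E₁ (sub a (blk p q w)))
        (bind E₁ (sub a (blk q p w))) ⟨hg, rfl⟩ ⟨g1, l1.symm⟩ ⟨g2, by rw [← l2, ← hl]⟩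
      have d2 := coc _ (by omega) (bind E (sub a (blk p q w))) (bind E₁ (sub a (blk q p w)))
        (bind E (sub a (blk q p w))) ⟨hg, rfl⟩ ⟨g2, by rw [← l2, ← hl]⟩ ⟨hg', hl.symm⟩
      rw [← d2, ← d1, f1, f2, f3, one_mul, c1, c3]
    · -- a caret inside the block
      by_cases hleaf : ∀ k, k < p * q → ∃ b, w k = T.leaf b
      · exfalso
        have h1 := blk_card hleaf
        have h2 : lab t ⊆ lab E ∪ lab (blk p q w) := by
          rw [e1]
          intro b hb
          obtain ⟨c, hc1, hc2⟩ := (mem_lab_bind E).1 hb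
          rw [Finset.mem_union]
          by_cases hca : c = a
          · subst hca; rw [sub_self] at hc2; exact Or.inr hc2
          · rw [sub_ne _ hca, mem_lab_leaf] at hc2
            rw [hc2]; exact Or.inl hc1
        have h3 := Finset.card_le_card h2
        have h4 := Finset.card_union_le (lab E) (lab (blk p q w))
        have h5 : p * q ≤ P * P := Nat.mul_le_mul (hP p hp) (hP q hq)
        omega
      · push Not at hleaf
        obtain ⟨k, hk, hne⟩ := hleaf
        rw [e1] at hg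
        rw [e2] at hg'
        have gb : Good Ps (blk p q w) := by
          have := (good_of_bind hPs E hg).1 a haE
          rwa [sub_self] at this
        have gb' : Good Ps (blk q p w) := by
          have := (good_of_bind hPs E hg').1 a haE
          rwa [sub_self] at this
        have gw : Good Ps (w k) := by
          have h1 : k % p < p := Nat.mod_lt _ hp0
          have h2 : k / p < q := Nat.div_lt_of_lt_mul hk
          have h3 := (gb.2.1 ⟨k % p, h1⟩).2.1 ⟨k / p, h2⟩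
          simp only at h3
          rwa [Nat.mod_add_div] at h3
        obtain ⟨I, hI⟩ := exists_vis hPs (w k) gw hne
        have v1 := blk_vis gb hk hI
        have v2 := blk_vis gb' (by rw [mul_comm]; exact hk) hI
        have V1 := (vis_bind (I := I) hg haE (by rw [sub_self]; exact v1)).1
        have V2 := (vis_bind (I := I) hg' haE (by rw [sub_self]; exact v2)).1
        rw [e1, e2]
        rw [e1] at hc hsl
        rw [e2] at hsl
        exact sh _ _ hg hg' hsl.1 hc I V1 V2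
  refine ⟨φ', ⟨coc, bnd, ?_⟩, low⟩
  intro t t' hg hg' hl hc
  by_cases hcn : (lab t).card ≤ n
  · rw [low _ _ hcn]; exact S.loc t t' hg hg' hl hcn
  · have hcn' : (lab t).card = n + 1 := by omega
    have he := loc_eqv hPs t' t hg' hg hl
    have key : ∀ s s', EqvGen (Step Ps) s s' → Good Ps s → (lab s).card = n + 1 → φ' s s' = 1 := by
      intro s s' h
      induction h with
      | rel s s' h => exact step s s' h
      | refl s =>
        intro hs hcs
        have := coc (lab s) (by omega) s s s ⟨hs, rfl⟩ ⟨hs, rfl⟩ ⟨hs, rfl⟩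
        simpa using this
      | symm s s' h ih =>
        intro hs' hcs'
        have hs := (eqv_good hPs h).2 hs'
        have hls := loc_lab hPs hs.ok hs'.ok (eqv_loc hPs h).1
        have h1 := ih hs (by rw [hls]; exact hcs')
        have h2 := coc (lab s') (by omega) s' s s' ⟨hs', rfl⟩ ⟨hs, hls⟩ ⟨hs', rfl⟩
        have h3 := coc (lab s') (by omega) s' s' s' ⟨hs', rfl⟩ ⟨hs', rfl⟩ ⟨hs', rfl⟩
        have h4 : φ' s' s' = 1 := by simpa using h3
        rw [h1, one_mul, h4] at h2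
        exact h2
      | trans s s' s'' h h' ih ih' =>
        intro hs hcs
        have hs' := (eqv_good hPs h).1 hs
        have hs'' := (eqv_good hPs h').1 hs'
        have hls := loc_lab hPs hs.ok hs'.ok (eqv_loc hPs h).1
        have hls' := loc_lab hPs hs'.ok hs''.ok (eqv_loc hPs h').1
        rw [← coc (lab s) (by omega) s s' s'' ⟨hs, rfl⟩ ⟨hs', hls.symm⟩
          ⟨hs'', by rw [hls, hls']⟩, ih hs hcs, ih' hs' (by rw [← hls]; exact hcs), one_mul]
    exact key t t' he hg hcn'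

end Pool.Agent.Helper111.FP
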