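import Pool.Agent.Helper111.FP4

set_option autoImplicit false

namespace Pool.Agent.Helper111.FP

open Equiv Relation

open Classical in
/-- transition element -/
noncomputable def act (t t' : T) : Perm ℤ := if h : ∃ g, Act g t t' then h.choose else 1

theorem act_spec {Ps : Set ℕ} (hPs : PS Ps) {t t' : T} (ht : Good Ps t) (ht' : Good Ps t')
    (hl : lab t = lab t') : Act (act t t') t t' := by
  have h := exists_act hPs ht ht' hl
  rw [act, dif_pos h]
  exact h.choose_spec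

theorem act_eq {Ps : Set ℕ} (hPs : PS Ps) {t t' : T} (ht : Good Ps t) (ht' : Good Ps t')
    {g : Perm ℤ} (h : Act g t t') : act t t' = g :=
  act_unique hPs ht' (act_spec hPs ht ht' (act_lab hPs ht.ok ht'.ok h)) h

/-- the elements given by trees with at most `N` labels -/
def Sm (Ps : Set ℕ) (N : ℕ) : Set (Perm ℤ) :=
  {g | ∃ t t', Good Ps t ∧ Good Ps t' ∧ Act g t t' ∧ (lab t).card ≤ N}

theorem base_sy {Ps : Set ℕ} (hPs : PS Ps) {N : ℕ} (hN : 1 ≤ N) {H : Type*} [Group H]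
    (φ₀ : Perm ℤ → H)
    (h : ∀ g h, g ∈ Sm Ps N → h ∈ Sm Ps N → h * g ∈ Sm Ps N → φ₀ (h * g) = φ₀ h * φ₀ g) :
    Sy Ps (fun t t' => φ₀ (act t t')) N := by
  refine ⟨?_, ?_, ?_⟩
  · intro X hX t t' t'' ht ht' ht''
    have a1 := act_spec hPs ht.1 ht'.1 (ht.2.trans ht'.2.symm)
    have a2 := act_spec hPs ht'.1 ht''.1 (ht'.2.trans ht''.2.symm)
    have a3 := act_comp a1 a2
    rw [act_eq hPs ht.1 ht''.1 a3, h]
    · exact ⟨t, t', ht.1, ht'.1, a1, by rw [ht.2]; exact hX⟩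
    · exact ⟨t', t'', ht'.1, ht''.1, a2, by rw [ht'.2]; exact hX⟩
    · exact ⟨t, t'', ht.1, ht''.1, a3, by rw [ht.2]; exact hX⟩
  · intro E E' f hE hE' hl hg _
    rw [act_eq hPs hg (good_swap hPs hE' hl hg) (act_bind hPs hE.ok hE'.ok
      (act_spec hPs hE hE' hl) f)]
  · intro t t' ht ht' hl _
    rw [act_eq hPs ht ht' (act_one hl)]
    have h1 : (1 : Perm ℤ) ∈ Sm Ps N :=
      ⟨T.leaf 0, T.leaf 0, trivial, trivial, act_one rfl, by
        have : (lab (T.leaf 0)).card = 1 := rfl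
        omega⟩
    have h2 := h 1 1 h1 h1 (by rw [one_mul]; exact h1)
    rw [one_mul] at h2
    simpa using h2.symm

theorem tower {Ps : Set ℕ} (hPs : PS Ps) {P : ℕ} (hP : ∀ p ∈ Ps, p ≤ P) {H : Type*} [Group H]
    {φ : T → T → H} {N : ℕ} (S : Sy Ps φ N) (hn : 4 * P + 2 ≤ N + 1) (hn2 : P * P + 2 < N + 1) :
    ∃ φ' : T → T → H, (∀ n, Sy Ps φ' n) ∧ ∀ t t', (lab t).card ≤ N → φ' t t' = φ t t' := by
  classical
  have step : ∀ (k : ℕ) (F : {φ : T → T → H // Sy Ps φ (N + k)}),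
      ∃ F' : {φ : T → T → H // Sy Ps φ (N + (k + 1))},
        ∀ t t', (lab t).card ≤ N + k → F'.1 t t' = F.1 t t' := by
    rintro k ⟨φ, hφ⟩
    obtain ⟨φ', h1, h2⟩ := extend hPs hP hφ (by omega) (by omega)
    exact ⟨⟨φ', h1⟩, h2⟩
  choose F hF using step
  let Φ : (k : ℕ) → {φ : T → T → H // Sy Ps φ (N + k)} :=
    fun k => Nat.rec (motive := fun k => {φ : T → T → H // Sy Ps φ (N + k)}) ⟨φ, S⟩ F k
  have hΦ : ∀ k t t', (lab t).card ≤ N + k → (Φ (k + 1)).1 t t' = (Φ k).1 t t' :=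
    fun k t t' h => hF k (Φ k) t t' h
  have mono : ∀ k j t t', (lab t).card ≤ N + k → (Φ (k + j)).1 t t' = (Φ k).1 t t' := by
    intro k j
    induction j with
    | zero => intro t t' _; rfl
    | succ j ih =>
      intro t t' h
      rw [← ih t t' h]
      exact hΦ (k + j) t t' (by omega)
  have agree : ∀ k t t', (lab t).card ≤ N + k → (Φ (lab t).card).1 t t' = (Φ k).1 t t' := by
    intro k t t' h
    rcases le_total k (lab t).card with h1 | h1
    · obtain ⟨j, hj⟩ := Nat.exists_eq_add_of_le h1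
      rw [hj]; exact mono k j t t' h
    · obtain ⟨j, hj⟩ := Nat.exists_eq_add_of_le h1
      conv_rhs => rw [hj]
      exact (mono _ j t t' (by omega)).symm
  refine ⟨fun t t' => (Φ (lab t).card).1 t t', fun n => ⟨?_, ?_, ?_⟩, ?_⟩
  · intro X hX t t' t'' ht ht' ht''
    rw [agree n t t' (by rw [ht.2]; omega), agree n t t'' (by rw [ht.2]; omega),
      agree n t' t'' (by rw [ht'.2]; omega)]
    exact (Φ n).2.coc X (by omega) t t' t'' ht ht' ht''
  · intro E E' f hE hE' hl hg hc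
    have h1 := card_le_bind hPs hg
    rw [agree n _ _ (by omega), agree n _ _ (by omega)]
    exact (Φ n).2.bnd E E' f hE hE' hl hg (by omega)
  · intro t t' ht ht' hl hc
    rw [agree n _ _ (by omega)]
    exact (Φ n).2.loc t t' ht ht' hl (by omega)
  · intro t t' h
    simp only
    rw [agree 0 t t' (by omega)]
    rfl

/-- independence of the chosen trees -/
theorem phi_indep {Ps : Set ℕ} (hPs : PS Ps) {H : Type*} [Group H]
    {φ : T → T → H} (S : ∀ n, Sy Ps φ n) {g : Perm ℤ} {t t' s s' : T} (ht : Good Ps t)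
    (ht' : Good Ps t') (hs : Good Ps s) (hs' : Good Ps s') (h1 : Act g t t') (h2 : Act g s s') :
    φ t t' = φ s s' := by
  obtain ⟨f, f', k1, k2, k3⟩ := common_refine hPs ht hs
  have l1 := act_lab hPs ht.ok ht'.ok h1
  have l2 := act_lab hPs hs.ok hs'.ok h2
  have k1' : Good Ps (bind t' f) := good_swap hPs ht' l1 k1
  have k2' : Good Ps (bind s' f') := good_swap hPs hs' l2 k2
  have a1 := act_bind hPs ht.ok ht'.ok h1 f
  have a2 := act_bind hPs hs.ok hs'.ok h2 f'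
  have k3' : loc (bind t' f) = loc (bind s' f') := by
    funext x
    obtain ⟨y, rfl⟩ := g.surjective x
    rw [a1, a2, k3]
  have m1 : lab (bind t f) = lab (bind t' f) := lab_swap l1
  have m2 : lab (bind t f) = lab (bind s f') := loc_lab hPs k1.ok k2.ok k3
  have m3 : lab (bind t' f) = lab (bind s' f') := loc_lab hPs k1'.ok k2'.ok k3'
  rw [← (S _).bnd t t' f ht ht' l1 k1 le_rfl, ← (S _).bnd s s' f' hs hs' l2 k2 le_rfl]
  have c1 := (S _).coc (lab (bind t f)) le_rfl (bind t f) (bind t' f) (bind s' f') ⟨k1, rfl⟩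
    ⟨k1', m1.symm⟩ ⟨k2', by rw [← m3, m1]⟩
  have c2 := (S _).coc (lab (bind t f)) le_rfl (bind t f) (bind s f') (bind s' f') ⟨k1, rfl⟩
    ⟨k2, m2.symm⟩ ⟨k2', by rw [← m3, m1]⟩
  rw [(S _).loc _ _ k1' k2' k3' le_rfl, one_mul] at c1
  rw [(S _).loc _ _ k1 k2 k3 le_rfl, mul_one] at c2
  rw [c1, c2]

/-- a local homomorphism extends -/
theorem ext_hom {Ps : Set ℕ} (hPs : PS Ps) {P : ℕ} (hP : ∀ p ∈ Ps, p ≤ P) {Mo : ℤ → Prop}
    (hMo : CT.Adm Mo) (hMoP : ∀ m : ℤ, Mo m → ∀ p : ℕ, p.Prime → (p : ℤ) ∣ m → p ∈ Ps)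
    {N : ℕ} (hn : 4 * P + 2 ≤ N + 1) (hn2 : P * P + 2 < N + 1) {H : Type*} [Group H]
    (φ₀ : Perm ℤ → H)
    (h : ∀ g h, g ∈ Sm Ps N → h ∈ Sm Ps N → h * g ∈ Sm Ps N → φ₀ (h * g) = φ₀ h * φ₀ g) :
    ∃ Ψ : ↥(CT.CTg Mo) →* H, ∀ g : ↥(CT.CTg Mo), (g : Perm ℤ) ∈ Sm Ps N →
      Ψ g = φ₀ (g : Perm ℤ) := by
  classical
  obtain ⟨φ, S, hφ⟩ := tower hPs hP (base_sy hPs (by omega) φ₀ h) hn hn2
  have hex : ∀ g : ↥(CT.CTg Mo), ∃ t t' : T, Good Ps t ∧ Good Ps t' ∧ Act (g : Perm ℤ) t t' :=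
    fun g => exists_trees hPs hMoP ((CT.mem_CTg_iff hMo _).1 g.2)
  choose τ τ' h1 h2 h3 using hex
  refine ⟨⟨⟨fun g => φ (τ g) (τ' g), ?_⟩, ?_⟩, ?_⟩
  · have h4 := phi_indep hPs S (h1 1) (h2 1) (h1 1) (h1 1) (h3 1) (act_one rfl)
    rw [h4]
    exact (S _).loc _ _ (h1 1) (h1 1) rfl le_rfl
  · intro a b
    simp only
    -- `a * b`: first `b`, then `a`
    obtain ⟨f, f', k1, k2, k3⟩ := common_refine hPs (h2 b) (h1 a)
    have l1 := act_lab hPs (h1 b).ok (h2 b).ok (h3 b)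
    have l2 := act_lab hPs (h1 a).ok (h2 a).ok (h3 a)
    have k1' : Good Ps (bind (τ b) f) := good_swap hPs (h1 b) l1.symm k1
    have k2' : Good Ps (bind (τ' a) f') := good_swap hPs (h2 a) l2 k2
    have a1 := act_bind hPs (h1 b).ok (h2 b).ok (h3 b) f
    have a2 := act_bind hPs (h1 a).ok (h2 a).ok (h3 a) f'
    have a2' : Act (a : Perm ℤ) (bind (τ' b) f) (bind (τ' a) f') := by
      intro x; rw [a2, k3]
    have a3 : Act ((a * b : ↥(CT.CTg Mo)) : Perm ℤ) (bind (τ b) f) (bind (τ' a) f') := by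
      rw [Subgroup.coe_mul]; exact act_comp a1 a2'
    rw [phi_indep hPs S (h1 (a * b)) (h2 (a * b)) k1' k2' (h3 (a * b)) a3,
      phi_indep hPs S (h1 b) (h2 b) k1' k1 (h3 b) a1,
      phi_indep hPs S (h1 a) (h2 a) k1 k2' (h3 a) a2']
    have m1 : lab (bind (τ b) f) = lab (bind (τ' b) f) := lab_swap l1
    have m2 : lab (bind (τ' b) f) = lab (bind (τ' a) f') := act_lab hPs k1.ok k2'.ok a2'
    exact ((S _).coc (lab (bind (τ b) f)) le_rfl _ _ _ ⟨k1', rfl⟩ ⟨k1, m1.symm⟩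
      ⟨k2', by rw [m1, m2]⟩).symm
  · rintro g ⟨t, t', ht, ht', ha, hc⟩
    change φ (τ g) (τ' g) = _
    rw [phi_indep hPs S (h1 g) (h2 g) ht ht' (h3 g) ha, hφ t t' hc, act_eq hPs ht ht' ha]

theorem gen_mem {Ps : Set ℕ} (hPs : PS Ps) {P : ℕ} (hP : ∀ p ∈ Ps, p ≤ P)
    {N : ℕ} (hn : 4 * P + 2 ≤ N + 1) : ∀ (k : ℕ) (t t' : T), Good Ps t → Good Ps t' →
      lab t = lab t' → (lab t).card ≤ N + k → act t t' ∈ Subgroup.closure (Sm Ps N) := by
  intro k
  induction k with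
  | zero =>
    intro t t' ht ht' hl hc
    exact Subgroup.subset_closure ⟨t, t', ht, ht', act_spec hPs ht ht' hl, hc⟩
  | succ k ih =>
    intro t t' ht ht' hl hc
    by_cases hc' : (lab t).card ≤ N + k
    · exact ih t t' ht ht' hl hc'
    · refine chain (X := lab t) hPs hP (by omega)
        (fun s s' => act s s' ∈ Subgroup.closure (Sm Ps N)) ?_ ?_ t t' ⟨ht, rfl⟩ ⟨ht', hl.symm⟩
      · intro s s' s'' hs hs' hs'' a1 a2
        have b1 := act_spec hPs hs.1 hs'.1 (hs.2.trans hs'.2.symm)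
        have b2 := act_spec hPs hs'.1 hs''.1 (hs'.2.trans hs''.2.symm)
        rw [act_eq hPs hs.1 hs''.1 (act_comp b1 b2)]
        exact Subgroup.mul_mem _ a2 a1
      · intro I s s' hs hs' hI hI'
        have c1 := con_good hPs hI hs.1
        have c2 := con_good hPs hI' hs'.1
        have c3 := lab_con_eq hI hI' hs.1 hs'.1 (hs.2.trans hs'.2.symm)
        have b1 := act_bind hPs c1.ok c2.ok (act_spec hPs c1 c2 c3) I.sp
        rw [(con_spec hI).2, (con_spec hI').2] at b1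
        rw [act_eq hPs hs.1 hs'.1 b1]
        apply ih _ _ c1 c2 c3
        have := con_card hPs hI hs.1
        rw [hs.2] at this
        omega

theorem closure_sm {Ps : Set ℕ} (hPs : PS Ps) {P : ℕ} (hP : ∀ p ∈ Ps, p ≤ P) {Mo : ℤ → Prop}
    (hMo : CT.Adm Mo) (hMoP : ∀ m : ℤ, Mo m → ∀ p : ℕ, p.Prime → (p : ℤ) ∣ m → p ∈ Ps)
    {N : ℕ} (hn : 4 * P + 2 ≤ N + 1) {g : Perm ℤ} (hg : g ∈ CT.CTg Mo) :
    g ∈ Subgroup.closure (Sm Ps N) := by
  obtain ⟨t, t', ht, ht', ha⟩ := exists_trees hPs hMoP ((CT.mem_CTg_iff hMo _).1 hg)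
  rw [← act_eq hPs ht ht' ha]
  exact gen_mem hPs hP hn _ t t' ht ht' (act_lab hPs ht.ok ht'.ok ha) (Nat.le_add_left _ _)

theorem sm_sub {Ps : Set ℕ} (hPs : PS Ps) {Mo : ℤ → Prop} (hMo : CT.Adm Mo)
    (hPM : ∀ p ∈ Ps, Mo (p : ℤ)) {N : ℕ} {g : Perm ℤ} (hg : g ∈ Sm Ps N) : g ∈ CT.CTg Mo := by
  obtain ⟨t, t', ht, ht', ha, _⟩ := hg
  exact (CT.mem_CTg_iff hMo _).2 (act_full hPs hMo hPM ht.ok ht' ha)

theorem trees_finite {Ps : Set ℕ} (hPs : PS Ps) (hfin : Ps.Finite) (A : Finset ℕ) : ∀ n : ℕ,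
    {t : T | Good Ps t ∧ lab t ⊆ A ∧ (lab t).card ≤ n}.Finite := by
  intro n
  induction n with
  | zero =>
    convert Set.finite_empty
    ext t
    simp only [Set.mem_setOf_eq, Set.mem_empty_iff_false, iff_false, not_and]
    intro ht _ hc
    have := Finset.card_pos.2 (lab_nonempty hPs t ht.ok)
    omega
  | succ n ih =>
    have hsub : {t : T | Good Ps t ∧ lab t ⊆ A ∧ (lab t).card ≤ n + 1} ⊆
        (T.leaf '' (A : Set ℕ)) ∪ ⋃ p ∈ Ps, (T.node p) ''
          {c | ∀ i : Fin p, c i ∈ {t : T | Good Ps t ∧ lab t ⊆ A ∧ (lab t).card ≤ n}} := by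
      rintro t ⟨ht, hA, hc⟩
      cases t with
      | leaf a => exact Or.inl ⟨a, hA (mem_lab_leaf.2 rfl), rfl⟩
      | node p c =>
        right
        simp only [Set.mem_iUnion]
        refine ⟨p, ht.1, c, fun i => ⟨ht.2.1 i, ?_, ?_⟩, rfl⟩
        · exact fun a ha => hA (mem_lab_node.2 ⟨i, ha⟩)
        · have hp := (hPs.prime p ht.1).two_le
          obtain ⟨j, hj⟩ : ∃ j : Fin p, j ≠ i := by
            by_contra hcon
            push Not at hcon
            have h1 := hcon ⟨0, by omega⟩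
            have h2 := hcon ⟨1, by omega⟩
            have h3 := congrArg Fin.val (h1.trans h2.symm)
            simp at h3
          obtain ⟨b, hb⟩ := lab_nonempty hPs _ (ht.2.1 j).ok
          have : (lab (c i)).card < (lab (T.node p c)).card := by
            apply Finset.card_lt_card
            rw [Finset.ssubset_iff_of_subset (fun a ha => mem_lab_node.2 ⟨i, ha⟩)]
            exact ⟨b, mem_lab_node.2 ⟨j, hb⟩,
              fun h => Finset.disjoint_left.1 (ht.2.2 j i hj) hb h⟩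
          omega
    refine Set.Finite.subset ?_ hsub
    refine Set.Finite.union (A.finite_toSet.image _) (hfin.biUnion (fun p _ => ?_))
    exact (Set.Finite.pi' (fun _ => ih)).image _

theorem sm_finite {Ps : Set ℕ} (hPs : PS Ps) (hfin : Ps.Finite) (N : ℕ) : (Sm Ps N).Finite := by
  have h1 := trees_finite hPs hfin (Finset.range N) N
  refine Set.Finite.subset ((h1.prod h1).image (fun u => act u.1 u.2)) ?_
  rintro g ⟨t, t', ht, ht', ha, hc⟩
  have hl := act_lab hPs ht.ok ht'.ok ha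
  set e := (lab t).equivFin with he
  set ρ : ℕ → ℕ := fun a => if h : a ∈ lab t then (e ⟨a, h⟩ : ℕ) else 0 with hρ
  have hρ1 : ∀ a (h : a ∈ lab t), ρ a = (e ⟨a, h⟩ : ℕ) := by
    intro a h; rw [hρ]; simp only [dif_pos h]
  have hinj : ∀ a ∈ lab t, ∀ b ∈ lab t, ρ a = ρ b → a = b := by
    intro a ha b hb h
    rw [hρ1 a ha, hρ1 b hb] at h
    have := e.injective (Fin.ext h)
    exact congrArg Subtype.val this
  have hgood : ∀ s, Good Ps s → lab s = lab t → Good Ps (bind s (fun a => T.leaf (ρ a))) := by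
    intro s hs hls
    apply good_bind s hs (fun a _ => show Good Ps (T.leaf (ρ a)) from trivial)
    intro a ha b hb hab
    rw [Finset.disjoint_left]
    intro c h1 h2
    rw [mem_lab_leaf] at h1 h2
    exact hab (hinj a (hls ▸ ha) b (hls ▸ hb) (h1.symm.trans h2))
  have hlab : ∀ s, Good Ps s → lab s = lab t → lab (bind s (fun a => T.leaf (ρ a))) ⊆
      Finset.range N := by
    intro s _ hls c hc'
    obtain ⟨a, ha1, ha2⟩ := (mem_lab_bind s).1 hc'
    rw [mem_lab_leaf] at ha2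
    rw [hls] at ha1
    rw [ha2, Finset.mem_range, hρ1 a ha1]
    have := (e ⟨a, ha1⟩).isLt
    omega
  have hcard : ∀ s, Good Ps s → lab s = lab t →
      (lab (bind s (fun a => T.leaf (ρ a)))).card ≤ N := by
    intro s hs hls
    have := Finset.card_le_card (hlab s hs hls)
    rwa [Finset.card_range] at this
  refine ⟨(bind t (fun a => T.leaf (ρ a)), bind t' (fun a => T.leaf (ρ a))),
    ⟨⟨hgood t ht rfl, hlab t ht rfl, hcard t ht rfl⟩,
      ⟨hgood t' ht' hl.symm, hlab t' ht' hl.symm, hcard t' ht' hl.symm⟩⟩, ?_⟩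
  exact act_eq hPs (hgood t ht rfl) (hgood t' ht' hl.symm) (act_bind hPs ht.ok ht'.ok ha _)

/-- finite presentability -/
theorem fp {Ps : Set ℕ} (hPs : PS Ps) (hfin : Ps.Finite) {Mo : ℤ → Prop}
    (hMo : CT.Adm Mo) (hPM : ∀ p ∈ Ps, Mo (p : ℤ))
    (hMoP : ∀ m : ℤ, Mo m → ∀ p : ℕ, p.Prime → (p : ℤ) ∣ m → p ∈ Ps) :
    ∃ (n : ℕ) (φ : FreeGroup (Fin n) →* ↥(CT.CTg Mo)), Function.Surjective φ ∧
      ∃ R : Finset (FreeGroup (Fin n)),
        φ.ker = Subgroup.normalClosure (R : Set (FreeGroup (Fin n))) := by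
  classical
  obtain ⟨P, hP⟩ : ∃ P : ℕ, ∀ p ∈ Ps, p ≤ P := hfin.bddAbove
  set N : ℕ := 4 * P + 2 + P * P with hN
  have hS := sm_finite hPs hfin N
  obtain ⟨n, ⟨e⟩⟩ : ∃ n : ℕ, Nonempty (Fin n ≃ (Sm Ps N : Set (Perm ℤ))) := by
    haveI := hS.fintype
    exact ⟨_, ⟨(Fintype.equivFin (Sm Ps N : Set (Perm ℤ))).symm⟩⟩
  have hmem : ∀ i, ((e i : (Sm Ps N : Set (Perm ℤ))) : Perm ℤ) ∈ CT.CTg Mo :=
    fun i => sm_sub hPs hMo hPM (e i).2
  set φ : FreeGroup (Fin n) →* ↥(CT.CTg Mo) := FreeGroup.lift (fun i => ⟨e i, hmem i⟩) with hφ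
  have hφof : ∀ i, ((φ (FreeGroup.of i) : ↥(CT.CTg Mo)) : Perm ℤ) = e i := by
    intro i; rw [hφ, FreeGroup.lift_apply_of]
  have hRfin : {w : FreeGroup (Fin n) | ∃ i j k : Fin n,
      ((e k : (Sm Ps N : Set (Perm ℤ))) : Perm ℤ) = (e i : Perm ℤ) * (e j : Perm ℤ) ∧
      w = FreeGroup.of i * FreeGroup.of j * (FreeGroup.of k)⁻¹}.Finite := by
    refine Set.Finite.subset (Set.finite_range
      (fun u : Fin n × Fin n × Fin n =>
        FreeGroup.of u.1 * FreeGroup.of u.2.1 * (FreeGroup.of u.2.2)⁻¹)) ?_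
    rintro w ⟨i, j, k, _, rfl⟩
    exact ⟨(i, j, k), rfl⟩
  refine ⟨n, φ, ?_, hRfin.toFinset, ?_⟩
  · intro g
    have h1 : (g : Perm ℤ) ∈ Subgroup.closure (Sm Ps N) :=
      closure_sm hPs hP hMo hMoP (by omega) g.2
    have h2 : Subgroup.closure (Sm Ps N) ≤ φ.range.map (CT.CTg Mo).subtype := by
      rw [Subgroup.closure_le]
      intro s hs
      obtain ⟨i, hi⟩ := e.surjective ⟨s, hs⟩
      refine ⟨φ (FreeGroup.of i), ⟨_, rfl⟩, ?_⟩
      change ((φ (FreeGroup.of i) : ↥(CT.CTg Mo)) : Perm ℤ) = s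
      rw [hφof, hi]
    obtain ⟨g', ⟨w, hw⟩, hg'⟩ := h2 h1
    refine ⟨w, ?_⟩
    rw [hw]
    exact Subtype.ext hg'
  · rw [Set.Finite.coe_toFinset]
    apply le_antisymm
    · intro w hw
      set K := Subgroup.normalClosure {w : FreeGroup (Fin n) | ∃ i j k : Fin n,
        ((e k : (Sm Ps N : Set (Perm ℤ))) : Perm ℤ) = (e i : Perm ℤ) * (e j : Perm ℤ) ∧
        w = FreeGroup.of i * FreeGroup.of j * (FreeGroup.of k)⁻¹} with hK
      set φ₀ : Perm ℤ → FreeGroup (Fin n) ⧸ K := fun g =>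
        if h : g ∈ Sm Ps N then ((FreeGroup.of (e.symm ⟨g, h⟩) : FreeGroup (Fin n)) :
          FreeGroup (Fin n) ⧸ K) else 1 with hφ₀
      have hφ₀' : ∀ g (h : g ∈ Sm Ps N), φ₀ g = ((FreeGroup.of (e.symm ⟨g, h⟩) :
          FreeGroup (Fin n)) : FreeGroup (Fin n) ⧸ K) := by
        intro g h; rw [hφ₀]; simp only [dif_pos h]
      obtain ⟨Ψ, hΨ⟩ := ext_hom hPs hP hMo hMoP (N := N) (by omega) (by omega) φ₀ (by
        intro g h hg hh hhg
        rw [hφ₀' g hg, hφ₀' h hh, hφ₀' _ hhg]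
        symm
        rw [← QuotientGroup.mk_mul, QuotientGroup.eq]
        have hr : FreeGroup.of (e.symm ⟨h, hh⟩) * FreeGroup.of (e.symm ⟨g, hg⟩) *
            (FreeGroup.of (e.symm ⟨h * g, hhg⟩))⁻¹ ∈ K := by
          apply Subgroup.subset_normalClosure
          refine ⟨_, _, _, ?_, rfl⟩
          simp only [Equiv.apply_symm_apply]
        have hnorm : K.Normal := Subgroup.normalClosure_normal
        have h3 := hnorm.conj_mem _ (K.inv_mem hr)
          ((FreeGroup.of (e.symm ⟨h, hh⟩) * FreeGroup.of (e.symm ⟨g, hg⟩))⁻¹)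
        convert h3 using 1
        group)
      have hcomp : Ψ.comp φ = QuotientGroup.mk' K := by
        apply FreeGroup.ext_hom
        intro i
        rw [MonoidHom.comp_apply, hΨ, hφof, hφ₀' _ (e i).2]
        · simp
        · rw [hφof]; exact (e i).2
      have hw1 : φ w = 1 := hw
      have hw2 : QuotientGroup.mk' K w = 1 := by
        rw [← hcomp, MonoidHom.comp_apply, hw1, map_one]
      exact (QuotientGroup.eq_one_iff w).1 hw2
    · apply Subgroup.normalClosure_le_normal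
      rintro w ⟨i, j, k, h, rfl⟩
      rw [SetLike.mem_coe, MonoidHom.mem_ker, map_mul, map_mul, map_inv]
      apply Subtype.ext
      rw [Subgroup.coe_mul, Subgroup.coe_mul, Subgroup.coe_inv, hφof, hφof, hφof, ← h,
        mul_inv_cancel]
      rfl

end Pool.Agent.Helper111.FP
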