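import Mathlib

set_option autoImplicit false

open Set Filter Topology Metric

namespace Pool.Agent.Helper111.HI

open scoped RealInnerProductSpace

/-- continuous retraction of a Hilbert space onto a nonempty closed convex set -/
lemma exists_proj {E : Type} [NormedAddCommGroup E] [InnerProductSpace ℝ E] [CompleteSpace E]
    (K : Set E) (hK : IsClosed K) (hne : K.Nonempty) (hc : Convex ℝ K) :
    ∃ p : E → E, Continuous p ∧ (∀ x, p x ∈ K) ∧ ∀ x ∈ K, p x = x := by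
  have h1 := exists_norm_eq_iInf_of_complete_convex hne hK.isComplete hc
  choose p hpK hp using h1
  have h2 : ∀ u, ∀ w ∈ K, ⟪u - p u, w - p u⟫ ≤ 0 := fun u =>
    (norm_eq_iInf_iff_real_inner_le_zero hc (hpK u)).1 (hp u)
  have hlip : ∀ u v, ‖p u - p v‖ ≤ ‖u - v‖ := by
    intro u v
    have a1 := h2 u (p v) (hpK v)
    have a2 := h2 v (p u) (hpK u)
    have a3 : ⟪u - p u, p v - p u⟫ + ⟪v - p v, p u - p v⟫ =
        ‖p u - p v‖ ^ 2 - ⟪u - v, p u - p v⟫ := by
      rw [← real_inner_self_eq_norm_sq]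
      simp only [inner_sub_left, inner_sub_right]
      ring
    have a4 : ‖p u - p v‖ ^ 2 ≤ ⟪u - v, p u - p v⟫ := by linarith
    have a5 : ⟪u - v, p u - p v⟫ ≤ ‖u - v‖ * ‖p u - p v‖ := real_inner_le_norm _ _
    by_contra hcon
    push Not at hcon
    have a6 : 0 ≤ ‖u - v‖ := norm_nonneg _
    nlinarith
  refine ⟨p, ?_, hpK, ?_⟩
  · have : LipschitzWith 1 p := LipschitzWith.of_dist_le_mul fun u v => by
      rw [dist_eq_norm, dist_eq_norm, NNReal.coe_one, one_mul]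
      exact hlip u v
    exact this.continuous
  · intro x hx
    have a1 := h2 x x hx
    have a2 : ‖x - p x‖ ^ 2 ≤ 0 := by
      rw [← real_inner_self_eq_norm_sq]; exact a1
    have a3 : ‖x - p x‖ = 0 := by
      have := norm_nonneg (x - p x)
      nlinarith
    rw [norm_eq_zero, sub_eq_zero] at a3
    exact a3.symm

/-- extension property into `X` for maps defined on closed subsets of `Y` -/
def ANE (Y : Type) [MetricSpace Y] {E : Type} [TopologicalSpace E] (X : Set E) : Prop :=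
  ∀ Z : Set Y, IsClosed Z → ∀ f : Y → E, ContinuousOn f Z → MapsTo f Z X →
    ∃ N : Set Y, IsOpen N ∧ Z ⊆ N ∧ ∃ g : Y → E, ContinuousOn g N ∧ MapsTo g N X ∧ EqOn g f Z

lemma ane_empty (Y : Type) [MetricSpace Y] {E : Type} [TopologicalSpace E] :
    ANE Y (∅ : Set E) := by
  intro Z hZ f hf hm
  have hZe : Z = ∅ := by
    rw [Set.eq_empty_iff_forall_notMem]
    intro z hz
    exact hm hz
  subst hZe
  exact ⟨∅, isOpen_empty, Subset.rfl, f, hf, hm, fun _ h => h.elim⟩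

lemma ane_convex (Y : Type) [MetricSpace Y] {E : Type} [NormedAddCommGroup E]
    [InnerProductSpace ℝ E] [CompleteSpace E] [TietzeExtension.{0, 0} E] {K : Set E}
    (hK : IsClosed K) (hc : Convex ℝ K) : ANE Y K := by
  rcases K.eq_empty_or_nonempty with rfl | hne
  · exact ane_empty Y
  obtain ⟨p, hp, hpK, hpid⟩ := exists_proj K hK hne hc
  intro Z hZ f hf hm
  obtain ⟨g, hg⟩ := ContinuousMap.exists_restrict_eq hZ (⟨Z.domRestrict f, hf.domRestrict⟩ : C(Z, E))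
  refine ⟨univ, isOpen_univ, subset_univ _, fun y => p (g y), (hp.comp g.continuous).continuousOn,
    fun y _ => hpK _, fun y hy => ?_⟩
  have h1 : g y = f y := congrArg (fun h : C(Z, E) => h ⟨y, hy⟩) hg
  change p (g y) = f y
  rw [h1, hpid _ (hm hy)]

lemma ane_union (Y : Type) [MetricSpace Y] {E : Type} [TopologicalSpace E] {X1 X2 : Set E}
    (c1 : IsClosed X1) (c2 : IsClosed X2) (h1 : ANE Y X1) (h2 : ANE Y X2)
    (h0 : ANE Y (X1 ∩ X2)) : ANE Y (X1 ∪ X2) := by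
  classical
  intro Z hZ f hf hm
  set Z1 := Z ∩ f ⁻¹' X1 with hZ1
  set Z2 := Z ∩ f ⁻¹' X2 with hZ2
  have cZ1 : IsClosed Z1 := hf.preimage_isClosed_of_isClosed hZ c1
  have cZ2 : IsClosed Z2 := hf.preimage_isClosed_of_isClosed hZ c2
  have hZ12 : ∀ z ∈ Z, z ∈ Z1 ∨ z ∈ Z2 := by
    intro z hz
    rcases hm hz with h | h
    · exact Or.inl ⟨hz, h⟩
    · exact Or.inr ⟨hz, h⟩
  set Y1 := {y : Y | infEDist y Z1 ≤ infEDist y Z2} with hY1
  set Y2 := {y : Y | infEDist y Z2 ≤ infEDist y Z1} with hY2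
  have cY1 : IsClosed Y1 := isClosed_le continuous_infEDist continuous_infEDist
  have cY2 : IsClosed Y2 := isClosed_le continuous_infEDist continuous_infEDist
  have hY12 : ∀ y, y ∈ Y1 ∨ y ∈ Y2 := fun y => le_total (infEDist y Z1) (infEDist y Z2)
  have z1 : ∀ z ∈ Z, z ∈ Y1 → z ∈ Z1 := by
    intro z hz hzY
    rcases hZ12 z hz with h | h
    · exact h
    · have h3 : infEDist z Z2 = 0 := infEDist_zero_of_mem h
      have h4 : infEDist z Z1 = 0 := le_antisymm (by rw [← h3]; exact hzY) bot_le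
      exact (mem_iff_infEDist_zero_of_closed cZ1).2 h4
  have z2 : ∀ z ∈ Z, z ∈ Y2 → z ∈ Z2 := by
    intro z hz hzY
    rcases hZ12 z hz with h | h
    · have h3 : infEDist z Z1 = 0 := infEDist_zero_of_mem h
      have h4 : infEDist z Z2 = 0 := le_antisymm (by rw [← h3]; exact hzY) bot_le
      exact (mem_iff_infEDist_zero_of_closed cZ2).2 h4
    · exact h
  have z1' : Z1 ⊆ Y1 := by
    intro z hz
    change infEDist z Z1 ≤ infEDist z Z2
    rw [infEDist_zero_of_mem hz]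
    exact bot_le
  have z2' : Z2 ⊆ Y2 := by
    intro z hz
    change infEDist z Z2 ≤ infEDist z Z1
    rw [infEDist_zero_of_mem hz]
    exact bot_le
  obtain ⟨N0, oN0, hZN0, f0, cf0, mf0, ef0⟩ := h0 (Z1 ∩ Z2) (cZ1.inter cZ2) f
    (hf.mono fun z hz => hz.1.1) (fun z hz => ⟨hz.1.2, hz.2.2⟩)
  obtain ⟨U0, oU0, hZU0, hU0⟩ := normal_exists_closure_subset (cZ1.inter cZ2) oN0 hZN0
  set C0 := Y1 ∩ Y2 ∩ closure U0 with hC0
  have cC0 : IsClosed C0 := (cY1.inter cY2).inter isClosed_closure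
  have hC0N : C0 ⊆ N0 := fun y hy => hU0 hy.2
  -- generic one sided extension
  have side : ∀ (Zi : Set Y) (Xi : Set E), IsClosed Zi → Zi ⊆ Z → MapsTo f Zi Xi →
      X1 ∩ X2 ⊆ Xi → ANE Y Xi → (∀ y ∈ Zi, y ∈ C0 → y ∈ Z1 ∩ Z2) →
      ∃ O : Set Y, IsOpen O ∧ Zi ∪ C0 ⊆ O ∧ ∃ g : Y → E, ContinuousOn g O ∧ MapsTo g O Xi ∧
        EqOn g f Zi ∧ EqOn g f0 C0 := by
    intro Zi Xi cZi hZi mZi hXi hane hint
    have e0 : EqOn (Zi.piecewise f f0) f0 C0 := by
      intro y hy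
      by_cases hyi : y ∈ Zi
      · rw [Set.piecewise_eq_of_mem _ _ _ hyi]
        exact (ef0 (hint y hyi hy)).symm
      · rw [Set.piecewise_eq_of_notMem _ _ _ hyi]
    have e1 : EqOn (Zi.piecewise f f0) f Zi := fun y hy => Set.piecewise_eq_of_mem _ _ _ hy
    have c0 : ContinuousOn (Zi.piecewise f f0) C0 := (cf0.mono hC0N).congr e0
    have c1 : ContinuousOn (Zi.piecewise f f0) Zi := (hf.mono hZi).congr e1
    obtain ⟨O, oO, hO, g, cg, mg, eg⟩ := hane (Zi ∪ C0) (cZi.union cC0) (Zi.piecewise f f0)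
      (c1.union_of_isClosed c0 cZi cC0) (by
        rintro y (hy | hy)
        · rw [e1 hy]; exact mZi hy
        · rw [e0 hy]; exact hXi (mf0 (hC0N hy)))
    refine ⟨O, oO, hO, g, cg, mg, ?_, ?_⟩
    · intro y hy
      rw [eg (Or.inl hy), e1 hy]
    · intro y hy
      rw [eg (Or.inr hy), e0 hy]
  obtain ⟨O1, oO1, hO1, g1, cg1, mg1, eg1, eg1'⟩ := side Z1 X1 cZ1 (fun z hz => hz.1)
    (fun z hz => hz.2) inter_subset_left h1 (fun y hy hyC => ⟨hy, z2 y hy.1 hyC.1.2⟩)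
  obtain ⟨O2, oO2, hO2, g2, cg2, mg2, eg2, eg2'⟩ := side Z2 X2 cZ2 (fun z hz => hz.1)
    (fun z hz => hz.2) inter_subset_right h2 (fun y hy hyC => ⟨z1 y hy.1 hyC.1.1, hy⟩)
  set N := (Y1 \ O1)ᶜ ∩ (Y2 \ O2)ᶜ ∩ ((Y1 ∩ Y2) \ U0)ᶜ with hN
  have oN : IsOpen N := by
    refine IsOpen.inter (IsOpen.inter ?_ ?_) ?_
    · exact (cY1.sdiff oO1).isOpen_compl
    · exact (cY2.sdiff oO2).isOpen_compl
    · exact ((cY1.inter cY2).sdiff oU0).isOpen_compl
  have n1 : ∀ y ∈ N, y ∈ Y1 → y ∈ O1 := by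
    intro y hy h
    by_contra hcon
    exact hy.1.1 ⟨h, hcon⟩
  have n2 : ∀ y ∈ N, y ∈ Y2 → y ∈ O2 := by
    intro y hy h
    by_contra hcon
    exact hy.1.2 ⟨h, hcon⟩
  have n0 : ∀ y ∈ N, y ∈ Y1 → y ∈ Y2 → y ∈ C0 := by
    intro y hy h h'
    refine ⟨⟨h, h'⟩, subset_closure ?_⟩
    by_contra hcon
    exact hy.2 ⟨⟨h, h'⟩, hcon⟩
  have E1 : EqOn (Y1.piecewise g1 g2) g1 Y1 := fun y hy => Set.piecewise_eq_of_mem _ _ _ hy
  have E2 : EqOn (Y1.piecewise g1 g2) g2 (N ∩ Y2) := by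
    rintro y ⟨hyN, hy2⟩
    by_cases hy1 : y ∈ Y1
    · rw [E1 hy1]
      have := n0 y hyN hy1 hy2
      rw [eg1' this, eg2' this]
    · rw [Set.piecewise_eq_of_notMem _ _ _ hy1]
  refine ⟨N, oN, ?_, Y1.piecewise g1 g2, ?_, ?_, ?_⟩
  · intro z hz
    refine ⟨⟨?_, ?_⟩, ?_⟩
    · rintro ⟨h, h'⟩
      exact h' (hO1 (Or.inl (z1 z hz h)))
    · rintro ⟨h, h'⟩
      exact h' (hO2 (Or.inl (z2 z hz h)))
    · rintro ⟨h, h'⟩
      exact h' (hZU0 ⟨z1 z hz h.1, z2 z hz h.2⟩)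
  · intro y hy
    have hsplit : N = (N ∩ Y1) ∪ (N ∩ Y2) := by
      rw [← Set.inter_union_distrib_left]
      ext z
      constructor
      · intro h; exact ⟨h, hY12 z⟩
      · intro h; exact h.1
    rw [hsplit]
    apply ContinuousWithinAt.union
    · by_cases h : y ∈ Y1
      · have h5 : ContinuousWithinAt g1 (N ∩ Y1) y :=
          (cg1 y (n1 y hy h)).mono fun z hz => n1 z hz.1 hz.2
        exact h5.congr (fun z hz => E1 hz.2) (E1 h)
      · apply continuousWithinAt_of_notMem_closure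
        intro hcl
        exact h (cY1.closure_subset_iff.2 inter_subset_right hcl)
    · by_cases h : y ∈ Y2
      · have h5 : ContinuousWithinAt g2 (N ∩ Y2) y :=
          (cg2 y (n2 y hy h)).mono fun z hz => n2 z hz.1 hz.2
        exact h5.congr (fun z hz => E2 hz) (E2 ⟨hy, h⟩)
      · apply continuousWithinAt_of_notMem_closure
        intro hcl
        exact h (cY2.closure_subset_iff.2 inter_subset_right hcl)
  · intro y hy
    by_cases h : y ∈ Y1
    · rw [E1 h]; exact Or.inl (mg1 (n1 y hy h))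
    · have h' := (hY12 y).resolve_left h
      rw [E2 ⟨hy, h'⟩]; exact Or.inr (mg2 (n2 y hy h'))
  · intro z hz
    by_cases h : z ∈ Z1
    · rw [E1 (z1' h), eg1 h]
    · have h' := (hZ12 z hz).resolve_left h
      have hzN : z ∈ N := by
        refine ⟨⟨?_, ?_⟩, ?_⟩
        · rintro ⟨h, h'⟩
          exact h' (hO1 (Or.inl (z1 z hz h)))
        · rintro ⟨h, h'⟩
          exact h' (hO2 (Or.inl (z2 z hz h)))
        · rintro ⟨h, h'⟩
          exact h' (hZU0 ⟨z1 z hz h.1, z2 z hz h.2⟩)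
      rw [E2 ⟨hzN, z2' h'⟩, eg2 h']

lemma ane_biUnion (Y : Type) [MetricSpace Y] {E : Type} [NormedAddCommGroup E]
    [InnerProductSpace ℝ E] [CompleteSpace E] [TietzeExtension.{0, 0} E] {ι : Type}
    (s : Finset ι) : ∀ C : ι → Set E, (∀ i, IsClosed (C i)) → (∀ i, Convex ℝ (C i)) →
      ANE Y (⋃ i ∈ s, C i) := by
  classical
  induction s using Finset.induction_on with
  | empty =>
    intro C _ _
    simp only [Finset.notMem_empty, iUnion_of_empty, iUnion_empty]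
    exact ane_empty Y
  | insert a s ha ih =>
    intro C hcl hcv
    rw [Finset.set_biUnion_insert]
    have hcl2 : IsClosed (⋃ i ∈ s, C i) := by
      apply Set.Finite.isClosed_biUnion (Finset.finite_toSet s)
      intro i _
      exact hcl i
    apply ane_union Y (hcl a) hcl2 (ane_convex Y (hcl a) (hcv a)) (ih C hcl hcv)
    rw [Set.inter_iUnion₂]
    exact ih (fun i => C a ∩ C i) (fun i => (hcl a).inter (hcl i)) (fun i => (hcv a).inter (hcv i))

/-- finite unions of closed convex sets are neighbourhood retracts -/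
lemma exists_retract {E : Type} [NormedAddCommGroup E]
    [InnerProductSpace ℝ E] [CompleteSpace E] [TietzeExtension.{0, 0} E] {ι : Type}
    (s : Finset ι) (C : ι → Set E) (hcl : ∀ i, IsClosed (C i)) (hcv : ∀ i, Convex ℝ (C i)) :
    ∃ W : Set E, IsOpen W ∧ (⋃ i ∈ s, C i) ⊆ W ∧ ∃ r : E → E, ContinuousOn r W ∧
      (∀ x ∈ W, r x ∈ ⋃ i ∈ s, C i) ∧ ∀ x ∈ ⋃ i ∈ s, C i, r x = x := by
  have hcl2 : IsClosed (⋃ i ∈ s, C i) := by
    apply Set.Finite.isClosed_biUnion (Finset.finite_toSet s)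
    intro i _
    exact hcl i
  obtain ⟨N, oN, hN, g, cg, mg, eg⟩ := ane_biUnion E s C hcl hcv (⋃ i ∈ s, C i) hcl2 id
    continuousOn_id (fun x hx => hx)
  exact ⟨N, oN, hN, g, cg, fun x hx => mg hx, fun x hx => eg hx⟩

/-- polyhedra are compact neighbourhood retracts -/
lemma polyhedron {q : ℕ} (T : Finset (Finset (EuclideanSpace ℝ (Fin q))))
    (X : Set (EuclideanSpace ℝ (Fin q)))
    (hX : X = ⋃ t ∈ T, convexHull ℝ (t : Set (EuclideanSpace ℝ (Fin q)))) :
    IsCompact X ∧ ∃ W : Set (EuclideanSpace ℝ (Fin q)), IsOpen W ∧ X ⊆ W ∧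
      ∃ r : EuclideanSpace ℝ (Fin q) → EuclideanSpace ℝ (Fin q), ContinuousOn r W ∧
      (∀ x ∈ W, r x ∈ X) ∧ ∀ x ∈ X, r x = x := by
  have hcomp : ∀ t : Finset (EuclideanSpace ℝ (Fin q)),
      IsCompact (convexHull ℝ (t : Set (EuclideanSpace ℝ (Fin q)))) := fun t =>
    (Finset.finite_toSet t).isCompact_convexHull (𝕜 := ℝ)
  refine ⟨?_, ?_⟩
  · rw [hX]
    exact Finset.isCompact_biUnion T fun t _ => hcomp t
  · haveI : TietzeExtension.{0, 0} (EuclideanSpace ℝ (Fin q)) :=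
      TietzeExtension.of_homeo (EuclideanSpace.equiv (Fin q) ℝ).toHomeomorph
    rw [hX]
    exact exists_retract T (fun t => convexHull ℝ (t : Set (EuclideanSpace ℝ (Fin q))))
      (fun t => (hcomp t).isClosed) (fun t => convex_convexHull ℝ _)

end Pool.Agent.Helper111.HI
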