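import Pool.Agent.Helper111.HI1

set_option autoImplicit false
set_option linter.unusedSectionVars false
set_option linter.style.haveILetI false

open Set Filter Topology Metric
open scoped unitInterval

namespace Pool.Agent.Helper111.HI

variable {E : Type} [NormedAddCommGroup E] [NormedSpace ℝ E]

/-- neighbourhood retraction data for a set `X` -/
structure NR (X : Set E) where
  W : Set E
  r : E → E
  ε : ℝ
  δ : ℝ
  oW : IsOpen W
  hXW : X ⊆ W
  cr : ContinuousOn r W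
  rX : ∀ x ∈ W, r x ∈ X
  rid : ∀ x ∈ X, r x = x
  ε0 : 0 < ε
  δ0 : 0 < δ
  δε : δ ≤ ε / 4
  hε : ∀ x ∈ X, ∀ z, ‖z - x‖ < ε → z ∈ W
  hδ : ∀ x ∈ X, ∀ z, ‖z - x‖ < δ → ‖r z - x‖ < ε / 4

lemma exists_NR (X W : Set E) (hX : IsCompact X) (oW : IsOpen W) (hXW : X ⊆ W) (r : E → E)
    (cr : ContinuousOn r W) (rX : ∀ x ∈ W, r x ∈ X) (rid : ∀ x ∈ X, r x = x) :
    Nonempty (NR X) := by
  obtain ⟨ε, hε, h1⟩ := hX.exists_thickening_subset_open oW hXW
  have cV : IsOpen (W ∩ (fun z => ‖r z - z‖) ⁻¹' (Iio (ε / 8))) :=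
    ((cr.sub continuousOn_id).norm).isOpen_inter_preimage oW isOpen_Iio
  have hXV : X ⊆ W ∩ (fun z => ‖r z - z‖) ⁻¹' (Iio (ε / 8)) := by
    intro x hx
    refine ⟨hXW hx, ?_⟩
    simp only [mem_preimage, mem_Iio]
    rw [rid x hx, sub_self, norm_zero]
    positivity
  obtain ⟨δ, hδ, h2⟩ := hX.exists_thickening_subset_open cV hXV
  refine ⟨⟨W, r, ε, min δ (ε / 8), oW, hXW, cr, rX, rid, hε, by positivity, ?_, ?_, ?_⟩⟩
  · exact (min_le_right _ _).trans (by linarith)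
  · intro x hx z hz
    apply h1
    rw [mem_thickening_iff]
    exact ⟨x, hx, by rwa [dist_eq_norm]⟩
  · intro x hx z hz
    have hz1 : ‖z - x‖ < δ := hz.trans_le (min_le_left _ _)
    have hz2 : ‖z - x‖ < ε / 8 := hz.trans_le (min_le_right _ _)
    have hzV := h2 (show z ∈ thickening δ X by
      rw [mem_thickening_iff]
      exact ⟨x, hx, by rwa [dist_eq_norm]⟩)
    have h3 : ‖r z - z‖ < ε / 8 := hzV.2
    calc ‖r z - x‖ = ‖(r z - z) + (z - x)‖ := by congr 1; abel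
      _ ≤ ‖r z - z‖ + ‖z - x‖ := norm_add_le _ _
      _ < ε / 4 := by linarith

variable {X : Set E}

/-- retract a continuous map with values in `W` -/
def NR.retr (N : NR X) {Q : Type} [TopologicalSpace Q] (Φ : Q → E) (hΦ : Continuous Φ)
    (hW : ∀ q, Φ q ∈ N.W) : C(Q, X) :=
  ⟨fun q => ⟨N.r (Φ q), N.rX _ (hW q)⟩,
    (N.cr.comp_continuous hΦ hW).subtype_mk _⟩

lemma NR.retr_apply (N : NR X) {Q : Type} [TopologicalSpace Q] (Φ : Q → E) (hΦ : Continuous Φ)
    (hW : ∀ q, Φ q ∈ N.W) (q : Q) : (N.retr Φ hΦ hW q : E) = N.r (Φ q) := rfl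

lemma NR.retr_of_mem (N : NR X) {Q : Type} [TopologicalSpace Q] (Φ : Q → E) (hΦ : Continuous Φ)
    (hW : ∀ q, Φ q ∈ N.W) (q : Q) (x : X) (h : Φ q = x) : N.retr Φ hΦ hW q = x := by
  apply Subtype.ext
  rw [N.retr_apply, h, N.rid _ x.2]

/-- path in a function space from a map with values in `W` -/
def NR.mkPath (N : NR X) {Y : Type} [TopologicalSpace Y] {a b : C(Y, X)} (Φ : I × Y → E)
    (hΦ : Continuous Φ) (hW : ∀ z, Φ z ∈ N.W) (h0 : ∀ y, Φ (0, y) = a y)
    (h1 : ∀ y, Φ (1, y) = b y) : Path a b where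
  toContinuousMap := (N.retr Φ hΦ hW).curry
  source' := by
    ext y
    exact congrArg Subtype.val (N.retr_of_mem Φ hΦ hW (0, y) (a y) (h0 y))
  target' := by
    ext y
    exact congrArg Subtype.val (N.retr_of_mem Φ hΦ hW (1, y) (b y) (h1 y))

lemma NR.mkPath_apply (N : NR X) {Y : Type} [TopologicalSpace Y] {a b : C(Y, X)} (Φ : I × Y → E)
    (hΦ : Continuous Φ) (hW : ∀ z, Φ z ∈ N.W) (h0 : ∀ y, Φ (0, y) = a y)
    (h1 : ∀ y, Φ (1, y) = b y) (t : I) (y : Y) :
    (N.mkPath Φ hΦ hW h0 h1 t y : E) = N.r (Φ (t, y)) := rfl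

/-- homotopies from maps with values in `W` -/
lemma NR.homotopic' (N : NR X) {Y : Type} [TopologicalSpace Y] {a b : C(Y, X)} (p p' : Path a b)
    (Φ : (I × I) × Y → E) (hΦ : Continuous Φ) (hW : ∀ z, Φ z ∈ N.W)
    (h0 : ∀ t y, N.r (Φ ((0, t), y)) = p t y) (h1 : ∀ t y, N.r (Φ ((1, t), y)) = p' t y)
    (hs : ∀ s y, N.r (Φ ((s, 0), y)) = a y) (ht : ∀ s y, N.r (Φ ((s, 1), y)) = b y) :
    p.Homotopic p' := by
  refine ⟨⟨⟨(N.retr Φ hΦ hW).curry, ?_, ?_⟩, ?_⟩⟩
  · intro t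
    ext y
    exact h0 t y
  · intro t
    ext y
    exact h1 t y
  · intro s t ht'
    simp only [mem_insert_iff, mem_singleton_iff] at ht'
    rcases ht' with rfl | rfl
    · ext y
      refine (hs s y).trans ?_
      simp
    · ext y
      refine (ht s y).trans ?_
      simp

/-- homotopies from maps with values in `W` -/
lemma NR.homotopic (N : NR X) {Y : Type} [TopologicalSpace Y] {a b : C(Y, X)} (p p' : Path a b)
    (Φ : (I × I) × Y → E) (hΦ : Continuous Φ) (hW : ∀ z, Φ z ∈ N.W)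
    (h0 : ∀ t y, Φ ((0, t), y) = p t y) (h1 : ∀ t y, Φ ((1, t), y) = p' t y)
    (hs : ∀ s y, Φ ((s, 0), y) = a y) (ht : ∀ s y, Φ ((s, 1), y) = b y) : p.Homotopic p' := by
  refine N.homotopic' p p' Φ hΦ hW ?_ ?_ ?_ ?_
  · intro t y; rw [h0, N.rid _ (p t y).2]
  · intro t y; rw [h1, N.rid _ (p' t y).2]
  · intro t y; rw [hs, N.rid _ (a y).2]
  · intro t y; rw [ht, N.rid _ (b y).2]

lemma NR.segment (N : NR X) {x y : E} (hx : x ∈ X) (h : ‖y - x‖ < N.ε) (t : I) :
    (1 - (t : ℝ)) • x + (t : ℝ) • y ∈ N.W := by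
  apply N.hε x hx
  have : (1 - (t : ℝ)) • x + (t : ℝ) • y - x = (t : ℝ) • (y - x) := by
    rw [sub_smul, one_smul, smul_sub]; abel
  rw [this, norm_smul, Real.norm_of_nonneg t.2.1]
  calc (t : ℝ) * ‖y - x‖ ≤ 1 * ‖y - x‖ :=
        mul_le_mul_of_nonneg_right t.2.2 (norm_nonneg _)
    _ < N.ε := by rwa [one_mul]

/-- close paths are homotopic -/
lemma NR.close (N : NR X) {Y : Type} [TopologicalSpace Y] [LocallyCompactSpace Y] {a b : C(Y, X)}
    (p p' : Path a b) (h : ∀ t y, ‖(p' t y : E) - p t y‖ < N.ε) : p.Homotopic p' := by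
  have c1 : Continuous fun z : (I × I) × Y => ((p z.1.2 z.2 : X) : E) := by fun_prop
  have c2 : Continuous fun z : (I × I) × Y => ((p' z.1.2 z.2 : X) : E) := by fun_prop
  refine N.homotopic p p' (fun z => (1 - (z.1.1 : ℝ)) • ((p z.1.2 z.2 : X) : E) +
    (z.1.1 : ℝ) • ((p' z.1.2 z.2 : X) : E)) (by fun_prop) ?_ ?_ ?_ ?_ ?_
  · intro z
    exact N.segment (p z.1.2 z.2).2 (h _ _) _
  · intro t y
    simp
  · intro t y
    simp
  · intro s y
    simp only [Path.source]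
    rw [← add_smul]; simp
  · intro s y
    simp only [Path.target]
    rw [← add_smul]; simp

section PO

variable {S : Type} [MetricSpace S] [CompactSpace S] {a b c : C(S, X)}

/-- paths of maps on the subset `L` -/
abbrev PO (a b : C(S, X)) (L : Set S) := Path (a.restrict L) (b.restrict L)

/-- inclusion as a continuous map -/
def inc {A L : Set S} (h : A ⊆ L) : C(A, L) := ⟨Set.inclusion h, continuous_inclusion h⟩

/-- restriction of a path -/
def rs {A L : Set S} (h : A ⊆ L) (p : PO a b L) : PO a b A :=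
  p.map (ContinuousMap.continuous_precomp (inc h))

lemma rs_apply {A L : Set S} (h : A ⊆ L) (p : PO a b L) (t : I) (y : A) :
    rs h p t y = p t ⟨y, h y.2⟩ := rfl

lemma rs_trans {A L : Set S} (h : A ⊆ L) (p : PO a b L) (p' : PO b c L) :
    rs h (p.trans p') = (rs h p).trans (rs h p') := Path.map_trans _ _ _

lemma rs_symm {A L : Set S} (h : A ⊆ L) (p : PO a b L) :
    rs h p.symm = (rs h p).symm := (Path.map_symm _ _).symm

lemma rs_rs {A B L : Set S} (h : A ⊆ L) (h' : B ⊆ A) (p : PO a b L) :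
    rs h' (rs h p) = rs (h'.trans h) p := rfl

lemma rs_self {L : Set S} (p : PO a b L) : rs Subset.rfl p = p := rfl

lemma rs_homotopic {A L : Set S} (h : A ⊆ L) {p p' : PO a b L} (hp : p.Homotopic p') :
    (rs h p).Homotopic (rs h p') :=
  Path.Homotopic.map hp ⟨_, ContinuousMap.continuous_precomp (inc h)⟩

/-- evaluation of a path at a point -/
def ev {L : Set S} (y : L) (p : PO a b L) : Path (a y) (b y) :=
  p.map (continuous_eval_const y)

lemma ev_apply {L : Set S} (y : L) (p : PO a b L) (t : I) : ev y p t = p t y := rfl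

lemma ev_trans {L : Set S} (y : L) (p : PO a b L) (p' : PO b c L) :
    ev y (p.trans p') = (ev y p).trans (ev y p') := Path.map_trans _ _ _

lemma ev_symm {L : Set S} (y : L) (p : PO a b L) : ev y p.symm = (ev y p).symm :=
  (Path.map_symm _ _).symm

lemma ev_rs {A L : Set S} (h : A ⊆ L) (y : A) (p : PO a b L) :
    ev y (rs h p) = ev (a := a) (b := b) (L := L) ⟨y, h y.2⟩ p := rfl

lemma ev_homotopic {L : Set S} (y : L) {p p' : PO a b L} (hp : p.Homotopic p') :
    (ev y p).Homotopic (ev y p') :=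
  Path.Homotopic.map hp ⟨_, continuous_eval_const y⟩

/-- uncurrying -/
lemma continuous_uncurry_hom {A : Set S} (hA : IsClosed A) {p p' : PO a b A}
    (H : p.Homotopy p') : Continuous fun z : (I × I) × A => ((H z.1 z.2 : X) : E) := by
  haveI : CompactSpace A := isCompact_iff_compactSpace.1 hA.isCompact
  have h1 : Continuous fun z : (I × I) × A => H z.1 := H.continuous.comp continuous_fst
  have h2 : Continuous fun z : (I × I) × A => (H z.1) z.2 := by fun_prop
  exact continuous_subtype_val.comp h2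

lemma continuous_uncurry_path {A : Set S} (hA : IsClosed A) (p : PO a b A) :
    Continuous fun z : I × A => ((p z.1 z.2 : X) : E) := by
  haveI : CompactSpace A := isCompact_iff_compactSpace.1 hA.isCompact
  fun_prop

variable [TietzeExtension.{0, 0} E]

/-- extension of a homotopy to the whole space, with values in `E` -/
lemma exists_ext_hom {A : Set S} (hA : IsClosed A) {p p' : PO a b A}
    (H : p.Homotopy p') : ∃ G : (I × I) × S → E, Continuous G ∧
      ∀ z (y : A), G (z, y) = (H z y : X) := by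
  have he : IsClosedEmbedding (Prod.map (id : I × I → I × I) ((↑) : A → S)) :=
    (IsClosedEmbedding.id).prodMap hA.isClosedEmbedding_subtypeVal
  obtain ⟨g, hg⟩ := ContinuousMap.exists_extension' he
    (⟨_, continuous_uncurry_hom hA H⟩ : C((I × I) × A, E))
  exact ⟨g, g.continuous, fun z y => congrFun hg (z, y)⟩

/-- restriction of paths is a fibration -/
lemma fib (N : NR X) {A L : Set S} (hA : IsClosed A) (hL : IsClosed L) (hAL : A ⊆ L)
    (p : PO a b L) (p' : PO a b A) (h : (rs hAL p).Homotopic p') :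
    ∃ p'' : PO a b L, rs hAL p'' = p' ∧ p''.Homotopic p := by
  haveI : CompactSpace L := isCompact_iff_compactSpace.1 hL.isCompact
  obtain ⟨H⟩ := h
  obtain ⟨G, cG, hG⟩ := exists_ext_hom hA H
  let Φ : (I × I) × L → E := fun z =>
    (p z.1.2 z.2 : X) + (G (z.1, z.2) - G ((0, z.1.2), z.2)) -
      (1 - (z.1.2 : ℝ)) • (G ((z.1.1, 0), z.2) - G ((0, 0), z.2)) -
      (z.1.2 : ℝ) • (G ((z.1.1, 1), z.2) - G ((0, 1), z.2))
  have cp := continuous_uncurry_path hL p
  have cp' : Continuous fun z : (I × I) × L => ((p z.1.2 z.2 : X) : E) :=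
    cp.comp ((continuous_snd.comp continuous_fst).prodMk continuous_snd)
  have cΦ : Continuous Φ := by
    refine ((cp'.add ?_).sub ?_).sub ?_
    · exact (cG.comp (by fun_prop)).sub (cG.comp (by fun_prop))
    · exact (by fun_prop : Continuous fun z : (I × I) × L => (1 - (z.1.2 : ℝ))).smul
        ((cG.comp (by fun_prop)).sub (cG.comp (by fun_prop)))
    · exact (by fun_prop : Continuous fun z : (I × I) × L => (z.1.2 : ℝ)).smul
        ((cG.comp (by fun_prop)).sub (cG.comp (by fun_prop)))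
  have Φ0 : ∀ t y, Φ ((0, t), y) = (p t y : X) := by
    intro t y; simp [Φ]
  have Φs0 : ∀ s y, Φ ((s, 0), y) = (a y : X) := by
    intro s y; simp [Φ]
  have Φs1 : ∀ s y, Φ ((s, 1), y) = (b y : X) := by
    intro s y; simp [Φ]
  have ΦA : ∀ s t (y : L) (hy : (y : S) ∈ A), Φ ((s, t), y) = (H (s, t) ⟨y, hy⟩ : X) := by
    intro s t y hy
    have e1 : ∀ z, G (z, (y : S)) = (H z ⟨y, hy⟩ : X) := fun z => hG z ⟨y, hy⟩
    simp only [Φ]
    rw [e1, e1, e1, e1, e1, e1]
    have e2 : H (0, t) = rs hAL p t := H.apply_zero t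
    have e3 : H (s, 0) = a.restrict A := H.source s
    have e4 : H (0, 0) = a.restrict A := H.source 0
    have e5 : H (s, 1) = b.restrict A := H.target s
    have e6 : H (0, 1) = b.restrict A := H.target 0
    rw [e2, e3, e4, e5, e6]
    simp only [sub_self, smul_zero, sub_zero]
    have e7 : rs hAL p t ⟨y, hy⟩ = p t y := rfl
    rw [e7]
    abel
  -- bad set
  let Bad : Set (I × L) := {z | ∃ s : I, Φ ((s, z.1), z.2) ∉ N.W}
  have cBad : IsClosed Bad := by
    have h1 : IsClosed {z : I × (I × L) | Φ ((z.1, z.2.1), z.2.2) ∈ N.Wᶜ} :=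
      N.oW.isClosed_compl.preimage (cΦ.comp (by fun_prop))
    have h2 := isClosedMap_snd_of_compactSpace _ h1
    convert h2 using 1
    ext z
    constructor
    · rintro ⟨s, hs⟩
      exact ⟨(s, z), hs, rfl⟩
    · rintro ⟨⟨s, z'⟩, hs, rfl⟩
      exact ⟨s, hs⟩
  let Good : Set (I × L) := {z | (z.2 : S) ∈ A} ∪ ({z | z.1 = 0} ∪ {z | z.1 = 1})
  have cGood : IsClosed Good := by
    refine IsClosed.union ?_ (IsClosed.union ?_ ?_)
    · exact hA.preimage (continuous_subtype_val.comp continuous_snd)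
    · exact isClosed_eq continuous_fst continuous_const
    · exact isClosed_eq continuous_fst continuous_const
  have hdisj : Disjoint Bad Good := by
    rw [Set.disjoint_left]
    rintro ⟨t, y⟩ ⟨s, hs⟩ hg
    apply hs
    rcases hg with hg | hg | hg
    · change Φ ((s, t), y) ∈ N.W
      rw [ΦA s t y hg]
      exact N.hXW (H (s, t) ⟨y, hg⟩).2
    · simp only [mem_ofPred_eq] at hg
      change Φ ((s, t), y) ∈ N.W
      rw [hg, Φs0]
      exact N.hXW (a y).2
    · simp only [mem_ofPred_eq] at hg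
      change Φ ((s, t), y) ∈ N.W
      rw [hg, Φs1]
      exact N.hXW (b y).2
  obtain ⟨lam, l0, l1, l01⟩ := exists_continuous_zero_one_of_isClosed cBad cGood hdisj
  let sl : I → I × L → I := fun s z => ⟨(s : ℝ) * lam z, unitInterval.mul_mem s.2 (l01 z)⟩
  have csl : Continuous fun z : (I × I) × L => sl z.1.1 (z.1.2, z.2) := by
    apply Continuous.subtype_mk
    fun_prop
  have Wsl : ∀ s t y, Φ ((sl s (t, y), t), y) ∈ N.W := by
    intro s t y
    by_cases hb : (t, y) ∈ Bad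
    · have : sl s (t, y) = 0 := by
        apply Subtype.ext
        change (s : ℝ) * lam (t, y) = 0
        rw [l0 hb]; simp
      rw [this, Φ0]
      exact N.hXW (p t y).2
    · by_contra hcon
      exact hb ⟨_, hcon⟩
  have sl1 : ∀ t (y : L), (t, y) ∈ Good → sl 1 (t, y) = 1 := by
    intro t y hg
    apply Subtype.ext
    change ((1 : I) : ℝ) * lam (t, y) = 1
    rw [l1 hg]; simp
  have sl0 : ∀ z, sl 0 z = 0 := by
    intro z
    apply Subtype.ext
    change ((0 : I) : ℝ) * lam z = 0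
    simp
  have g0 : ∀ y : L, ((0 : I), y) ∈ Good := fun y => Or.inr (Or.inl rfl)
  have g1 : ∀ y : L, ((1 : I), y) ∈ Good := fun y => Or.inr (Or.inr rfl)
  let p'' : PO a b L := N.mkPath (fun z : I × L => Φ ((sl 1 z, z.1), z.2))
    (cΦ.comp ((((csl.comp (by fun_prop : Continuous fun z : I × L => (((1 : I), z.1), z.2))).prodMk
      continuous_fst)).prodMk continuous_snd))
    (fun z => Wsl 1 z.1 z.2) (fun y => Φs0 _ y) (fun y => Φs1 _ y)
  refine ⟨p'', ?_, ?_⟩
  · ext t y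
    have hy : ((t : I), (⟨y, hAL y.2⟩ : L)) ∈ Good := Or.inl y.2
    change N.r (Φ ((sl 1 (t, ⟨y, hAL y.2⟩), t), ⟨y, hAL y.2⟩)) = _
    rw [sl1 t _ hy, ΦA 1 t ⟨y, hAL y.2⟩ y.2]
    rw [N.rid _ (H (1, t) ⟨y, y.2⟩).2]
    have : H (1, t) = p' t := H.apply_one t
    rw [this]
  · apply Path.Homotopic.symm
    refine N.homotopic' p p'' (fun z => Φ ((sl z.1.1 (z.1.2, z.2), z.1.2), z.2))
      (cΦ.comp ((csl.prodMk (continuous_snd.comp continuous_fst)).prodMk continuous_snd))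
      (fun z => Wsl _ _ _) ?_ ?_ ?_ ?_
    · intro t y
      change N.r (Φ ((sl 0 (t, y), t), y)) = _
      rw [sl0, Φ0, N.rid _ (p t y).2]
    · intro t y
      rfl
    · intro s y
      change N.r (Φ ((sl s (0, y), 0), y)) = _
      rw [Φs0]
      exact N.rid _ (a y).2
    · intro s y
      change N.r (Φ ((sl s (1, y), 1), y)) = _
      rw [Φs1]
      exact N.rid _ (b y).2

/-- homotopies over a closed set extend to a neighbourhood -/
lemma nbhd_ext (N : NR X) {D L : Set S} (hD : IsClosed D) (hL : IsClosed L) (hDL : D ⊆ L)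
    (p p' : PO a b L) (h : (rs hDL p).Homotopic (rs hDL p')) :
    ∃ V : Set S, IsOpen V ∧ D ⊆ V ∧ ∀ D' : Set S, (h' : D' ⊆ L) → D' ⊆ V →
      (rs h' p).Homotopic (rs h' p') := by
  haveI : CompactSpace L := isCompact_iff_compactSpace.1 hL.isCompact
  obtain ⟨H⟩ := h
  obtain ⟨G, cG, hG⟩ := exists_ext_hom hD H
  let Bk : I → I → I → S → E := fun t u s y =>
    G ((s, u), y) - ((1 - (s : ℝ)) • G ((0, u), y) + (s : ℝ) • G ((1, u), y))
  let Φ : (I × I) × L → E := fun z =>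
    ((1 - (z.1.1 : ℝ)) • ((p z.1.2 z.2 : X) : E) + (z.1.1 : ℝ) • ((p' z.1.2 z.2 : X) : E)) +
      (G (z.1, z.2) - ((1 - (z.1.1 : ℝ)) • G ((0, z.1.2), z.2) +
        (z.1.1 : ℝ) • G ((1, z.1.2), z.2))) -
      (1 - (z.1.2 : ℝ)) • (G ((z.1.1, 0), z.2) - ((1 - (z.1.1 : ℝ)) • G ((0, 0), z.2) +
        (z.1.1 : ℝ) • G ((1, 0), z.2))) -
      (z.1.2 : ℝ) • (G ((z.1.1, 1), z.2) - ((1 - (z.1.1 : ℝ)) • G ((0, 1), z.2) +
        (z.1.1 : ℝ) • G ((1, 1), z.2)))
  have cp := continuous_uncurry_path hL p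
  have cp' := continuous_uncurry_path hL p'
  have cq : Continuous fun z : (I × I) × L => ((p z.1.2 z.2 : X) : E) :=
    cp.comp ((continuous_snd.comp continuous_fst).prodMk continuous_snd)
  have cq' : Continuous fun z : (I × I) × L => ((p' z.1.2 z.2 : X) : E) :=
    cp'.comp ((continuous_snd.comp continuous_fst).prodMk continuous_snd)
  have k1 : Continuous fun z : (I × I) × L => (1 - (z.1.1 : ℝ)) := by fun_prop
  have k2 : Continuous fun z : (I × I) × L => (z.1.1 : ℝ) := by fun_prop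
  have k3 : Continuous fun z : (I × I) × L => (1 - (z.1.2 : ℝ)) := by fun_prop
  have k4 : Continuous fun z : (I × I) × L => (z.1.2 : ℝ) := by fun_prop
  have cΦ : Continuous Φ := by
    refine ((((k1.smul cq).add (k2.smul cq')).add ?_).sub ?_).sub ?_
    · exact (cG.comp (by fun_prop)).sub
        ((k1.smul (cG.comp (by fun_prop))).add (k2.smul (cG.comp (by fun_prop))))
    · exact k3.smul ((cG.comp (by fun_prop)).sub
        ((k1.smul (cG.comp (by fun_prop))).add (k2.smul (cG.comp (by fun_prop)))))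
    · exact k4.smul ((cG.comp (by fun_prop)).sub
        ((k1.smul (cG.comp (by fun_prop))).add (k2.smul (cG.comp (by fun_prop)))))
  have Φ0 : ∀ t y, Φ ((0, t), y) = (p t y : X) := by
    intro t y; simp [Φ]
  have Φ1 : ∀ t y, Φ ((1, t), y) = (p' t y : X) := by
    intro t y; simp [Φ]
  have Φs0 : ∀ s y, Φ ((s, 0), y) = (a y : X) := by
    intro s y
    simp only [Φ, Path.source, Icc.coe_zero, sub_zero, one_smul, zero_smul,
      add_sub_cancel_right]
    rw [← add_smul]; simp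
  have Φs1 : ∀ s y, Φ ((s, 1), y) = (b y : X) := by
    intro s y
    simp only [Φ, Path.target, Icc.coe_one, sub_self, zero_smul, sub_zero, one_smul,
      add_sub_cancel_right]
    rw [← add_smul]; simp
  have ΦD : ∀ s t (y : L) (hy : (y : S) ∈ D), Φ ((s, t), y) = (H (s, t) ⟨y, hy⟩ : X) := by
    intro s t y hy
    have e1 : ∀ z, G (z, (y : S)) = (H z ⟨y, hy⟩ : X) := fun z => hG z ⟨y, hy⟩
    simp only [Φ]
    rw [e1, e1, e1, e1, e1, e1, e1, e1, e1]
    have e2 : H (0, t) = rs hDL p t := H.apply_zero t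
    have e2' : H (1, t) = rs hDL p' t := H.apply_one t
    have e3 : ∀ s, H (s, 0) = a.restrict D := fun s => H.source s
    have e5 : ∀ s, H (s, 1) = b.restrict D := fun s => H.target s
    rw [e2, e2', e3, e3, e3, e5, e5, e5]
    have e7 : rs hDL p t ⟨y, hy⟩ = p t y := rfl
    have e8 : rs hDL p' t ⟨y, hy⟩ = p' t y := rfl
    rw [e7, e8, ← add_smul, ← add_smul]
    simp
  let Bad : Set L := {y | ∃ z : I × I, Φ (z, y) ∉ N.W}
  have cBad : IsClosed Bad := by
    have h1 : IsClosed {z : (I × I) × L | Φ z ∈ N.Wᶜ} :=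
      N.oW.isClosed_compl.preimage cΦ
    have h2 := isClosedMap_snd_of_compactSpace _ h1
    convert h2 using 1
    ext z
    constructor
    · rintro ⟨s, hs⟩
      exact ⟨(s, z), hs, rfl⟩
    · rintro ⟨⟨s, z'⟩, hs, rfl⟩
      exact ⟨s, hs⟩
  have cBadS : IsClosed ((↑) '' Bad : Set S) := hL.isClosedEmbedding_subtypeVal.isClosedMap _ cBad
  refine ⟨((↑) '' Bad : Set S)ᶜ, cBadS.isOpen_compl, ?_, ?_⟩
  · rintro y hy ⟨y', ⟨z, hz⟩, rfl⟩
    apply hz
    have := ΦD z.1 z.2 y' hy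
    rw [show Φ (z, y') = Φ ((z.1, z.2), y') from rfl, this]
    exact N.hXW (H (z.1, z.2) ⟨y', hy⟩).2
  · intro D' h' hV
    have gd : ∀ (z : I × I) (y : D'), Φ (z, ⟨y, h' y.2⟩) ∈ N.W := by
      intro z y
      by_contra hcon
      exact hV y.2 ⟨⟨y, h' y.2⟩, ⟨z, hcon⟩, rfl⟩
    refine N.homotopic (rs h' p) (rs h' p') (fun z => Φ (z.1, ⟨z.2, h' z.2.2⟩)) ?_ ?_ ?_ ?_ ?_ ?_
    · exact cΦ.comp (continuous_fst.prodMk ((continuous_subtype_val.comp continuous_snd).subtype_mk _))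
    · intro z; exact gd z.1 z.2
    · intro t y; exact Φ0 t _
    · intro t y; exact Φ1 t _
    · intro s y; exact Φs0 s _
    · intro s y; exact Φs1 s _

/-- gluing of continuous maps on closed pieces -/
lemma glue_cont {Q Z : Type} [TopologicalSpace Q] [TopologicalSpace Z] {L1 L2 L : Set S}
    (h1 : IsClosed L1) (h2 : IsClosed L2) (hL : L ⊆ L1 ∪ L2) (g1 : Q × L1 → Z) (g2 : Q × L2 → Z)
    (c1 : Continuous g1) (c2 : Continuous g2)
    (agree : ∀ q y (y1 : y ∈ L1) (y2 : y ∈ L2), g1 (q, ⟨y, y1⟩) = g2 (q, ⟨y, y2⟩)) :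
    ∃ g : Q × L → Z, Continuous g ∧
      (∀ q y (hy : y ∈ L) (y1 : y ∈ L1), g (q, ⟨y, hy⟩) = g1 (q, ⟨y, y1⟩)) ∧
      (∀ q y (hy : y ∈ L) (y2 : y ∈ L2), g (q, ⟨y, hy⟩) = g2 (q, ⟨y, y2⟩)) := by
  classical
  let g : Q × L → Z := fun z => if h : (z.2 : S) ∈ L1 then g1 (z.1, ⟨z.2, h⟩)
    else g2 (z.1, ⟨z.2, (hL z.2.2).resolve_left h⟩)
  have e1 : ∀ q y (hy : y ∈ L) (y1 : y ∈ L1), g (q, ⟨y, hy⟩) = g1 (q, ⟨y, y1⟩) := by
    intro q y hy y1
    simp only [g]
    rw [dif_pos y1]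
  have e2 : ∀ q y (hy : y ∈ L) (y2 : y ∈ L2), g (q, ⟨y, hy⟩) = g2 (q, ⟨y, y2⟩) := by
    intro q y hy y2
    by_cases y1 : y ∈ L1
    · rw [e1 q y hy y1, agree q y y1 y2]
    · simp only [g]
      rw [dif_neg y1]
  refine ⟨g, ?_, e1, e2⟩
  have piece : ∀ (Li : Set S), IsClosed Li → ∀ gi : Q × Li → Z, Continuous gi → ∀ C : Set Z,
      IsClosed C → IsClosed {z : Q × L | ∃ h : (z.2 : S) ∈ Li, gi (z.1, ⟨z.2, h⟩) ∈ C} := by
    intro Li hLi gi cgi C hC
    have he : IsClosedEmbedding (Prod.map (id : Q → Q) ((↑) : Li → S)) :=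
      (IsClosedEmbedding.id).prodMap hLi.isClosedEmbedding_subtypeVal
    have h3 := he.isClosedMap _ (hC.preimage cgi)
    have h4 : Continuous (Prod.map (id : Q → Q) ((↑) : L → S)) :=
      continuous_id.prodMap continuous_subtype_val
    convert h3.preimage h4 using 1
    ext ⟨q, y⟩
    constructor
    · rintro ⟨h, hc⟩
      exact ⟨(q, ⟨y, h⟩), hc, rfl⟩
    · rintro ⟨⟨q', y'⟩, hc, he⟩
      have e3 : q' = q := congrArg Prod.fst he
      have e4 : (y' : S) = y := congrArg Prod.snd he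
      subst e3
      have e5 : y' = ⟨(y : S), by rw [← e4]; exact y'.2⟩ := Subtype.ext e4
      rw [mem_preimage, e5] at hc
      exact ⟨_, hc⟩
  rw [continuous_iff_isClosed]
  intro C hC
  have : g ⁻¹' C = {z : Q × L | ∃ h : (z.2 : S) ∈ L1, g1 (z.1, ⟨z.2, h⟩) ∈ C} ∪
      {z : Q × L | ∃ h : (z.2 : S) ∈ L2, g2 (z.1, ⟨z.2, h⟩) ∈ C} := by
    ext ⟨q, y⟩
    constructor
    · intro h
      rcases hL y.2 with hy | hy
      · left; exact ⟨hy, by rw [← e1 q y y.2 hy]; exact h⟩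
      · right; exact ⟨hy, by rw [← e2 q y y.2 hy]; exact h⟩
    · rintro (⟨hy, h⟩ | ⟨hy, h⟩)
      · rw [mem_preimage, show (q, y) = (q, (⟨y, y.2⟩ : L)) from rfl, e1 q y y.2 hy]; exact h
      · rw [mem_preimage, show (q, y) = (q, (⟨y, y.2⟩ : L)) from rfl, e2 q y y.2 hy]; exact h
  rw [this]
  exact (piece L1 h1 g1 c1 C hC).union (piece L2 h2 g2 c2 C hC)

/-- gluing of paths -/
lemma glue_path (N : NR X) {L1 L2 L : Set S} (h1 : IsClosed L1) (h2 : IsClosed L2)
    (hL : L ⊆ L1 ∪ L2) (h1L : L1 ⊆ L) (h2L : L2 ⊆ L) (p1 : PO a b L1) (p2 : PO a b L2)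
    (agree : ∀ t y (y1 : y ∈ L1) (y2 : y ∈ L2), p1 t ⟨y, y1⟩ = p2 t ⟨y, y2⟩) :
    ∃ p : PO a b L, rs h1L p = p1 ∧ rs h2L p = p2 := by
  obtain ⟨g, cg, e1, e2⟩ := glue_cont h1 h2 hL (fun z : I × L1 => ((p1 z.1 z.2 : X) : E))
    (fun z : I × L2 => ((p2 z.1 z.2 : X) : E)) (continuous_uncurry_path h1 p1)
    (continuous_uncurry_path h2 p2) (fun t y y1 y2 => by
      simp only
      rw [agree t y y1 y2])
  have gX : ∀ z, g z ∈ X := by
    rintro ⟨t, y⟩
    rcases hL y.2 with hy | hy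
    · rw [show (t, y) = (t, (⟨y, y.2⟩ : L)) from rfl, e1 t y y.2 hy]
      exact (p1 t ⟨y, hy⟩).2
    · rw [show (t, y) = (t, (⟨y, y.2⟩ : L)) from rfl, e2 t y y.2 hy]
      exact (p2 t ⟨y, hy⟩).2
  have g0 : ∀ y : L, g (0, y) = a y := by
    intro y
    rcases hL y.2 with hy | hy
    · rw [show ((0 : I), y) = (0, (⟨y, y.2⟩ : L)) from rfl, e1 0 y y.2 hy]
      simp
    · rw [show ((0 : I), y) = (0, (⟨y, y.2⟩ : L)) from rfl, e2 0 y y.2 hy]
      simp
  have g1 : ∀ y : L, g (1, y) = b y := by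
    intro y
    rcases hL y.2 with hy | hy
    · rw [show ((1 : I), y) = (1, (⟨y, y.2⟩ : L)) from rfl, e1 1 y y.2 hy]
      simp
    · rw [show ((1 : I), y) = (1, (⟨y, y.2⟩ : L)) from rfl, e2 1 y y.2 hy]
      simp
  refine ⟨N.mkPath g cg (fun z => N.hXW (gX z)) g0 g1, ?_, ?_⟩
  · ext t y
    change N.r (g (t, ⟨y, h1L y.2⟩)) = p1 t y
    rw [N.rid _ (gX _), e1 t y (h1L y.2) y.2]
  · ext t y
    change N.r (g (t, ⟨y, h2L y.2⟩)) = p2 t y
    rw [N.rid _ (gX _), e2 t y (h2L y.2) y.2]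

/-- gluing of homotopies over disjoint closed sets -/
lemma glue_hom (N : NR X) {L1 L2 L : Set S} (h1 : IsClosed L1) (h2 : IsClosed L2)
    (hd : Disjoint L1 L2) (hL : L = L1 ∪ L2) (h1L : L1 ⊆ L) (h2L : L2 ⊆ L) (p p' : PO a b L)
    (k1 : (rs h1L p).Homotopic (rs h1L p')) (k2 : (rs h2L p).Homotopic (rs h2L p')) :
    p.Homotopic p' := by
  obtain ⟨H1⟩ := k1
  obtain ⟨H2⟩ := k2
  obtain ⟨g, cg, e1, e2⟩ := glue_cont (L := L) h1 h2 hL.le
    (fun z : (I × I) × L1 => ((H1 z.1 z.2 : X) : E))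
    (fun z : (I × I) × L2 => ((H2 z.1 z.2 : X) : E)) (continuous_uncurry_hom h1 H1)
    (continuous_uncurry_hom h2 H2) (fun t y y1 y2 => (Set.disjoint_left.1 hd y1 y2).elim)
  have cases : ∀ y : L, (y : S) ∈ L1 ∨ (y : S) ∈ L2 := fun y => hL.le y.2
  refine N.homotopic p p' g cg ?_ ?_ ?_ ?_ ?_
  · rintro ⟨t, y⟩
    apply N.hXW
    rcases cases y with hy | hy
    · rw [show (t, y) = (t, (⟨y, y.2⟩ : L)) from rfl, e1 t y y.2 hy]
      exact (H1 t ⟨y, hy⟩).2
    · rw [show (t, y) = (t, (⟨y, y.2⟩ : L)) from rfl, e2 t y y.2 hy]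
      exact (H2 t ⟨y, hy⟩).2
  · intro t y
    rcases cases y with hy | hy
    · rw [show (((0 : I), t), y) = ((0, t), (⟨y, y.2⟩ : L)) from rfl, e1 (0, t) y y.2 hy]
      simp only [H1.apply_zero]; rfl
    · rw [show (((0 : I), t), y) = ((0, t), (⟨y, y.2⟩ : L)) from rfl, e2 (0, t) y y.2 hy]
      simp only [H2.apply_zero]; rfl
  · intro t y
    rcases cases y with hy | hy
    · rw [show (((1 : I), t), y) = ((1, t), (⟨y, y.2⟩ : L)) from rfl, e1 (1, t) y y.2 hy]
      simp only [H1.apply_one]; rfl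
    · rw [show (((1 : I), t), y) = ((1, t), (⟨y, y.2⟩ : L)) from rfl, e2 (1, t) y y.2 hy]
      simp only [H2.apply_one]; rfl
  · intro s y
    rcases cases y with hy | hy
    · rw [show ((s, (0 : I)), y) = ((s, 0), (⟨y, y.2⟩ : L)) from rfl, e1 (s, 0) y y.2 hy]
      simp only [Path.Homotopy.source]; rfl
    · rw [show ((s, (0 : I)), y) = ((s, 0), (⟨y, y.2⟩ : L)) from rfl, e2 (s, 0) y y.2 hy]
      simp only [Path.Homotopy.source]; rfl
  · intro s y
    rcases cases y with hy | hy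
    · rw [show ((s, (1 : I)), y) = ((s, 1), (⟨y, y.2⟩ : L)) from rfl, e1 (s, 1) y y.2 hy]
      simp only [Path.Homotopy.target]; rfl
    · rw [show ((s, (1 : I)), y) = ((s, 1), (⟨y, y.2⟩ : L)) from rfl, e2 (s, 1) y y.2 hy]
      simp only [Path.Homotopy.target]; rfl

end PO

end Pool.Agent.Helper111.HI
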