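import Pool.Agent.Helper111.HI2

set_option autoImplicit false
set_option linter.unusedSectionVars false
set_option linter.style.haveILetI false

open Set Filter Topology Metric
open scoped unitInterval

namespace Pool.Agent.Helper111.HI

section clopen

variable {K : Type} [TopologicalSpace K] [T2Space K] [CompactSpace K]

lemma exists_clopen_nbhd (x : K) (U : Set K) (hU : IsOpen U) (h : connectedComponent x ⊆ U) :
    ∃ Z : Set K, IsClopen Z ∧ x ∈ Z ∧ Z ⊆ U := by
  have hc : IsCompact Uᶜ := hU.isClosed_compl.isCompact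
  have key : ∃ Z : Set K, IsClopen Z ∧ x ∈ Z ∧ Disjoint Uᶜ Z := by
    refine hc.induction_on (p := fun T => ∃ Z : Set K, IsClopen Z ∧ x ∈ Z ∧ Disjoint T Z)
      ?_ ?_ ?_ ?_
    · exact ⟨univ, isClopen_univ, mem_univ _, empty_disjoint _⟩
    · rintro s t hst ⟨Z, hZ, hx, hd⟩
      exact ⟨Z, hZ, hx, hd.mono_left hst⟩
    · rintro s t ⟨Z, hZ, hx, hd⟩ ⟨Z', hZ', hx', hd'⟩
      refine ⟨Z ∩ Z', hZ.inter hZ', ⟨hx, hx'⟩, ?_⟩
      rw [Set.disjoint_union_left]
      exact ⟨hd.mono_right inter_subset_left, hd'.mono_right inter_subset_right⟩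
    · intro y hy
      have h1 : y ∉ connectedComponent x := fun h' => hy (h h')
      rw [connectedComponent_eq_iInter_isClopen, mem_iInter, not_forall] at h1
      obtain ⟨⟨Z, hZ, hxZ⟩, hyZ⟩ := h1
      refine ⟨Zᶜ, mem_nhdsWithin_of_mem_nhds (hZ.isClosed.isOpen_compl.mem_nhds hyZ), Z, hZ, hxZ,
        disjoint_compl_left⟩
  obtain ⟨Z, hZ, hx, hd⟩ := key
  refine ⟨Z, hZ, hx, ?_⟩
  intro z hz
  by_contra hcon
  exact Set.disjoint_left.1 hd hcon hz

lemma exists_clopen_sep (A B : Set K) (hA : IsClosed A) (hB : IsClosed B)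
    (h : ∀ x ∈ A, Disjoint (connectedComponent x) B) :
    ∃ Z : Set K, IsClopen Z ∧ A ⊆ Z ∧ Disjoint Z B := by
  refine hA.isCompact.induction_on (p := fun T => ∃ Z : Set K, IsClopen Z ∧ T ⊆ Z ∧ Disjoint Z B)
    ?_ ?_ ?_ ?_
  · exact ⟨∅, isClopen_empty, Subset.rfl, empty_disjoint _⟩
  · rintro s t hst ⟨Z, hZ, hx, hd⟩
    exact ⟨Z, hZ, hst.trans hx, hd⟩
  · rintro s t ⟨Z, hZ, hx, hd⟩ ⟨Z', hZ', hx', hd'⟩
    refine ⟨Z ∪ Z', hZ.union hZ', union_subset_union hx hx', ?_⟩
    rw [Set.disjoint_union_left]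
    exact ⟨hd, hd'⟩
  · intro x hx
    obtain ⟨Z, hZ, hxZ, hZU⟩ := exists_clopen_nbhd x Bᶜ hB.isOpen_compl
      (fun z hz hzB => Set.disjoint_left.1 (h x hx) hz hzB)
    refine ⟨Z, mem_nhdsWithin_of_mem_nhds (hZ.isOpen.mem_nhds hxZ), Z, hZ, Subset.rfl, ?_⟩
    rw [Set.disjoint_left]
    intro z hz hzB
    exact hZU hz hzB

end clopen

lemma sep {S : Type} [TopologicalSpace S] [T2Space S] [CompactSpace S] {M A B : Set S}
    (hM : IsClosed M) (hA : IsClosed A) (hB : IsClosed B)
    (h : ∀ C ⊆ M, IsClosed C → IsConnected C → (C ∩ A).Nonempty → ¬ (C ∩ B).Nonempty) :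
    ∃ M1 M2 : Set S, IsClosed M1 ∧ IsClosed M2 ∧ Disjoint M1 M2 ∧ M = M1 ∪ M2 ∧ M ∩ A ⊆ M1 ∧
      M ∩ B ⊆ M2 := by
  haveI : CompactSpace M := isCompact_iff_compactSpace.1 hM.isCompact
  have hemb := hM.isClosedEmbedding_subtypeVal
  obtain ⟨Z, hZ, hAZ, hZB⟩ := exists_clopen_sep ((↑) ⁻¹' A : Set M) ((↑) ⁻¹' B : Set M)
    (hA.preimage continuous_subtype_val) (hB.preimage continuous_subtype_val) (by
      intro x hx
      rw [Set.disjoint_left]
      intro z hz hzB
      refine h ((↑) '' connectedComponent x) ?_ (hemb.isClosedMap _ isClosed_connectedComponent)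
        (isConnected_connectedComponent.image _ continuous_subtype_val.continuousOn)
        ⟨x, ⟨x, mem_connectedComponent, rfl⟩, hx⟩ ⟨z, ⟨z, hz, rfl⟩, hzB⟩
      rintro _ ⟨w, _, rfl⟩
      exact w.2)
  refine ⟨(↑) '' Z, (↑) '' Zᶜ, hemb.isClosedMap _ hZ.isClosed,
    hemb.isClosedMap _ hZ.compl.isClosed, ?_, ?_, ?_, ?_⟩
  · rw [Set.disjoint_image_iff Subtype.val_injective]
    exact disjoint_compl_right
  · rw [← Set.image_union, Set.union_compl_self, Set.image_univ, Subtype.range_coe]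
  · rintro x ⟨hxM, hxA⟩
    exact ⟨⟨x, hxM⟩, hAZ hxA, rfl⟩
  · rintro x ⟨hxM, hxB⟩
    exact ⟨⟨x, hxM⟩, fun hz => Set.disjoint_left.1 hZB hz hxB, rfl⟩

variable {E : Type} [NormedAddCommGroup E] [NormedSpace ℝ E] [TietzeExtension.{0, 0} E]
  {X : Set E} {S : Type} [MetricSpace S] [CompactSpace S] {a b c : C(S, X)}

/-- homotopy over all components implies homotopy -/
lemma comp_glue (N : NR X) {L : Set S} (hL : IsClosed L) (p p' : PO a b L)
    (h : ∀ D : Set S, ∀ hD : D ⊆ L, IsClosed D → IsConnected D →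
      (rs hD p).Homotopic (rs hD p')) : p.Homotopic p' := by
  haveI : CompactSpace L := isCompact_iff_compactSpace.1 hL.isCompact
  have hemb := hL.isClosedEmbedding_subtypeVal
  have sub : ∀ C : Set L, ((↑) '' C : Set S) ⊆ L := by
    rintro C _ ⟨w, _, rfl⟩
    exact w.2
  have key : ∃ C : Set L, IsClopen C ∧ (univ : Set L) ⊆ C ∧
      (rs (sub C) p).Homotopic (rs (sub C) p') := by
    refine isCompact_univ.induction_on (p := fun T : Set L => ∃ C : Set L, IsClopen C ∧ T ⊆ C ∧
      (rs (sub C) p).Homotopic (rs (sub C) p')) ?_ ?_ ?_ ?_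
    · refine ⟨∅, isClopen_empty, Subset.rfl, ?_⟩
      apply NR.close N
      rintro t ⟨y, hy⟩
      simp at hy
    · rintro s t hst ⟨C, hC, hsC, hh⟩
      exact ⟨C, hC, hst.trans hsC, hh⟩
    · rintro s t ⟨C, hC, hsC, hh⟩ ⟨C', hC', hsC', hh'⟩
      refine ⟨C ∪ C', hC.union hC', union_subset_union hsC hsC', ?_⟩
      have i1 : ((↑) '' C : Set S) ⊆ ((↑) '' (C ∪ C') : Set S) := image_mono subset_union_left
      have i2 : ((↑) '' (C' \ C) : Set S) ⊆ ((↑) '' (C ∪ C') : Set S) :=
        image_mono (sdiff_subset.trans subset_union_right)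
      have i3 : ((↑) '' (C' \ C) : Set S) ⊆ ((↑) '' C' : Set S) := image_mono sdiff_subset
      refine glue_hom N (L1 := (↑) '' C) (L2 := (↑) '' (C' \ C)) (hemb.isClosedMap _ hC.isClosed)
        (hemb.isClosedMap _ (hC'.diff hC).isClosed) ?_ ?_ i1 i2 _ _ ?_ ?_
      · rw [Set.disjoint_image_iff Subtype.val_injective]
        exact disjoint_sdiff_right
      · rw [← Set.image_union, Set.union_sdiff_self]
      · exact hh
      · have := rs_homotopic i3 hh'
        exact this
    · intro y _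
      have hD := h ((↑) '' connectedComponent y) (sub _)
        (hemb.isClosedMap _ isClosed_connectedComponent)
        (isConnected_connectedComponent.image _ continuous_subtype_val.continuousOn)
      obtain ⟨V, oV, hV, hVV⟩ := nbhd_ext N (hemb.isClosedMap _ isClosed_connectedComponent) hL
        (sub (connectedComponent y)) p p' hD
      obtain ⟨Z, hZ, hyZ, hZV⟩ := exists_clopen_nbhd y ((↑) ⁻¹' V)
        (oV.preimage continuous_subtype_val) (fun z hz => hV ⟨z, hz, rfl⟩)
      refine ⟨Z, mem_nhdsWithin_of_mem_nhds (hZ.isOpen.mem_nhds hyZ), Z, hZ, Subset.rfl, ?_⟩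
      apply hVV
      rintro _ ⟨w, hw, rfl⟩
      exact hZV hw
  obtain ⟨C, hC, hu, hh⟩ := key
  have hL' : L ⊆ ((↑) '' C : Set S) := fun y hy => ⟨⟨y, hy⟩, hu (mem_univ _), rfl⟩
  have := rs_homotopic hL' hh
  exact this

/-- constant families -/
def cf {x x' : X} (D : Set S) (l : Path x x') :
    PO (ContinuousMap.const S x) (ContinuousMap.const S x') D :=
  l.map ContinuousMap.continuous_const'

lemma cf_trans {x x' x'' : X} (D : Set S) (l : Path x x') (l' : Path x' x'') :
    cf D (l.trans l') = (cf D l).trans (cf D l') := Path.map_trans _ _ _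

lemma cf_homotopic {x x' : X} (D : Set S) {l l' : Path x x'} (h : l.Homotopic l') :
    (cf D l).Homotopic (cf D l') :=
  Path.Homotopic.map h ⟨_, ContinuousMap.continuous_const'⟩

lemma cf_refl {x : X} (D : Set S) : cf D (Path.refl x) = Path.refl _ := rfl

lemma rs_cf {x x' : X} {D L : Set S} (h : D ⊆ L) (l : Path x x') :
    rs h (cf L l) = cf D l := rfl

lemma ev_cf {x x' : X} (D : Set S) (y : D) (l : Path x x') :
    ev y (cf D l) = l := rfl

/-- all evaluations of the path are in the prescribed classes -/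
def Good {f : C(S, X)} {x0 : X} (c : ∀ y : S, Path.Homotopic.Quotient (f y) x0) (L : Set S)
    (p : PO f (ContinuousMap.const S x0) L) : Prop :=
  ∀ y : L, Path.Homotopic.Quotient.mk (ev y p) = c y

lemma Good.rs {f : C(S, X)} {x0 : X} {c : ∀ y : S, Path.Homotopic.Quotient (f y) x0} {L A : Set S}
    {p : PO f (ContinuousMap.const S x0) L} (hp : Good c L p) (h : A ⊆ L) :
    Good c A (rs h p) := fun y => hp ⟨y, h y.2⟩

lemma Good.congr {f : C(S, X)} {x0 : X} {c : ∀ y : S, Path.Homotopic.Quotient (f y) x0} {L : Set S}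
    {p p' : PO f (ContinuousMap.const S x0) L} (hp : Good c L p) (h : p.Homotopic p') :
    Good c L p' := by
  intro y
  rw [← hp y, Path.Homotopic.Quotient.eq]
  exact (ev_homotopic y h).symm

lemma hom_symm_trans {Y : Type} [TopologicalSpace Y] {x y : Y} {p p' : Path x y}
    (h : p.Homotopic p') : (p.symm.trans p').Homotopic (Path.refl y) := by
  rw [← Path.Homotopic.Quotient.eq] at h ⊢
  rw [Path.Homotopic.Quotient.mk_trans, Path.Homotopic.Quotient.mk_symm, ← h]
  simp

lemma hom_of_symm_trans {Y : Type} [TopologicalSpace Y] {x y : Y} {p p' : Path x y}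
    (h : (p.symm.trans p').Homotopic (Path.refl y)) : p.Homotopic p' := by
  rw [← Path.Homotopic.Quotient.eq] at h ⊢
  rw [Path.Homotopic.Quotient.mk_trans, Path.Homotopic.Quotient.mk_symm] at h
  have h1 := congrArg (fun q => Path.Homotopic.Quotient.trans (Path.Homotopic.Quotient.mk p) q) h
  simp only [Path.Homotopic.Quotient.mk_refl, Path.Homotopic.Quotient.trans_refl] at h1
  rw [← Path.Homotopic.Quotient.trans_assoc, Path.Homotopic.Quotient.trans_symm,
    Path.Homotopic.Quotient.refl_trans] at h1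
  exact h1.symm

/-- the key separation lemma -/
lemma lemA (N : NR X) {f : C(S, X)} {x0 : X} {c : ∀ y : S, Path.Homotopic.Quotient (f y) x0}
    {Nn R M D : Set S} (hM : IsClosed M)
    (hRN : R ⊆ Nn) (hNRM : Nn ⊆ R ∪ M) (hD : IsClosed D) (hDN : D ⊆ Nn)
    (hDne : D.Nonempty)
    (p p' : PO f (ContinuousMap.const S x0) Nn) (gp : Good c Nn p) (gp' : Good c Nn p')
    (hR : (rs hRN p).Homotopic (rs hRN p'))
    (hB : ∀ G : PO (X := X) (ContinuousMap.const S x0) (ContinuousMap.const S x0) univ,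
      ∃ l : Path x0 x0, (rs (subset_univ D) G).Homotopic (cf D l))
    (hsep : ∀ C ⊆ M, IsClosed C → IsConnected C → (C ∩ D).Nonempty → C ⊆ interior Nn) :
    (rs hDN p).Homotopic (rs hDN p') := by
  obtain ⟨M1, M2, cM1, cM2, hdisj, hM12, hMD, hMF⟩ := sep hM hD
    (isOpen_interior (s := Nn)).isClosed_compl (by
      intro C hC cC hcC hCD hCF
      obtain ⟨z, hz, hz'⟩ := hCF
      exact hz' (hsep C hC cC hcC hCD hz))
  have hM1i : M1 ⊆ interior Nn ∩ M2ᶜ := by
    intro z hz
    refine ⟨?_, fun h => Set.disjoint_left.1 hdisj hz h⟩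
    by_contra hcon
    have : z ∈ M2 := hMF ⟨hM12 ▸ Or.inl hz, hcon⟩
    exact Set.disjoint_left.1 hdisj hz this
  obtain ⟨O, oO, hM1O, hcO⟩ := normal_exists_closure_subset cM1
    (isOpen_interior.inter cM2.isOpen_compl) hM1i
  set L1 := Oᶜ with hL1
  set L2 := closure O ∪ D with hL2
  have cL1 : IsClosed L1 := oO.isClosed_compl
  have cL2 : IsClosed L2 := isClosed_closure.union hD
  have hL2N : L2 ⊆ Nn := by
    rintro z (hz | hz)
    · exact interior_subset (hcO hz).1
    · exact hDN hz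
  have hDL2 : D ⊆ L2 := subset_union_right
  set Z := L1 ∩ L2 with hZ
  have cZ : IsClosed Z := cL1.inter cL2
  have hZR : Z ⊆ R := by
    rintro z ⟨hz1, hz2⟩
    rcases hNRM (hL2N hz2) with h | h
    · exact h
    · exfalso
      rw [hM12] at h
      rcases h with h | h
      · exact hz1 (hM1O h)
      · rcases hz2 with h' | h'
        · exact (hcO h').2 h
        · have : z ∈ M1 := hMD ⟨hM12 ▸ Or.inr h, h'⟩
          exact Set.disjoint_left.1 hdisj this h
  have hZL1 : Z ⊆ L1 := inter_subset_left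
  have hZL2 : Z ⊆ L2 := inter_subset_right
  let k : C(S, X) := ContinuousMap.const S x0
  let G : PO k k Nn := p.symm.trans p'
  have hGZ : (rs (hZL2.trans hL2N) G).Homotopic (Path.refl (k.restrict Z)) := by
    have h1 : rs (hZL2.trans hL2N) G =
        (rs (hZR.trans hRN) p).symm.trans (rs (hZR.trans hRN) p') := by
      rw [← rs_symm, ← rs_trans]
    rw [h1]
    exact hom_symm_trans (rs_homotopic hZR hR)
  obtain ⟨q, hq, _⟩ := fib N cZ cL1 hZL1 (Path.refl (k.restrict L1) : PO k k L1)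
    (rs (hZL2.trans hL2N) G) hGZ.symm
  obtain ⟨G', hG'1, hG'2⟩ := glue_path N cL1 cL2 (L := univ) (by
      intro z _
      by_cases hz : z ∈ O
      · exact Or.inr (Or.inl (subset_closure hz))
      · exact Or.inl hz) (subset_univ _) (subset_univ _) q (rs hL2N G) (by
      intro t y y1 y2
      have h2 := congrArg (fun r : PO k k Z => r t ⟨y, ⟨y1, y2⟩⟩) hq
      exact h2)
  have hDG : rs (subset_univ D) G' = rs hDN G := by
    have h3 := congrArg (fun r => rs hDL2 r) hG'2
    exact h3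
  obtain ⟨l, hl⟩ := hB G'
  rw [hDG] at hl
  obtain ⟨z, hz⟩ := hDne
  have hlz : l.Homotopic (Path.refl x0) := by
    have h4 := ev_homotopic (⟨z, hz⟩ : D) hl
    have h5 : (ev (⟨z, hDN hz⟩ : Nn) p).Homotopic (ev (⟨z, hDN hz⟩ : Nn) p') := by
      rw [← Path.Homotopic.Quotient.eq]
      exact (gp _).trans (gp' _).symm
    have h6 : ev (⟨z, hz⟩ : D) (rs hDN G) =
        (ev (⟨z, hDN hz⟩ : Nn) p).symm.trans (ev (⟨z, hDN hz⟩ : Nn) p') := by
      rw [← ev_symm, ← ev_trans]
      rfl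
    rw [h6] at h4
    exact h4.symm.trans (hom_symm_trans h5)
  have h7 : (rs hDN G).Homotopic (Path.refl (k.restrict D)) :=
    hl.trans (cf_homotopic D hlz)
  have h8 : rs hDN G = (rs hDN p).symm.trans (rs hDN p') := by
    rw [← rs_symm, ← rs_trans]
  rw [h8] at h7
  exact hom_of_symm_trans h7

end Pool.Agent.Helper111.HI
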