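import Pool.Agent.Helper111.HI3

set_option autoImplicit false
set_option linter.unusedSectionVars false
set_option linter.style.haveILetI false

open Set Filter Topology Metric
open scoped unitInterval

noncomputable section

namespace Pool.Agent.Helper111.HI

variable {E : Type} [NormedAddCommGroup E] [NormedSpace ℝ E] {X : Set E}

/-- short paths -/
def NR.sh (N : NR X) {x x' : X} (h : ‖(x' : E) - x‖ < N.ε) : Path x x' where
  toContinuousMap := N.retr (fun t : I => (1 - (t : ℝ)) • (x : E) + (t : ℝ) • (x' : E))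
    (by fun_prop) (fun t => N.segment x.2 h t)
  source' := N.retr_of_mem _ _ _ _ _ (by simp)
  target' := N.retr_of_mem _ _ _ _ _ (by simp)

lemma NR.sh_apply (N : NR X) {x x' : X} (h : ‖(x' : E) - x‖ < N.ε) (t : I) :
    (N.sh h t : E) = N.r ((1 - (t : ℝ)) • (x : E) + (t : ℝ) • (x' : E)) := rfl

lemma NR.r_close (N : NR X) {x x' : E} (hx : x ∈ X) (h : ‖x' - x‖ < N.δ) (t : I) :
    ‖N.r ((1 - (t : ℝ)) • x + (t : ℝ) • x') - x‖ < N.ε / 4 := by
  apply N.hδ x hx
  have : (1 - (t : ℝ)) • x + (t : ℝ) • x' - x = (t : ℝ) • (x' - x) := by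
    rw [sub_smul, one_smul, smul_sub]; abel
  rw [this, norm_smul, Real.norm_of_nonneg t.2.1]
  calc (t : ℝ) * ‖x' - x‖ ≤ 1 * ‖x' - x‖ :=
        mul_le_mul_of_nonneg_right t.2.2 (norm_nonneg _)
    _ < N.δ := by rwa [one_mul]

lemma NR.close_pt (N : NR X) {x x' : X} (p p' : Path x x')
    (h : ∀ t, ‖(p' t : E) - p t‖ < N.ε) : p.Homotopic p' := by
  have h1 : (p.map (ContinuousMap.continuous_const' (X := Unit))).Homotopic
      (p'.map (ContinuousMap.continuous_const' (X := Unit))) :=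
    N.close _ _ fun t _ => h t
  have h2 := Path.Homotopic.map h1 ⟨_, continuous_eval_const ()⟩
  exact h2

/-- bound for concatenations -/
lemma trans_mem {Y : Type} [TopologicalSpace Y] {x y z : Y} (p : Path x y) (q : Path y z)
    (P : Y → Prop) (hp : ∀ t, P (p t)) (hq : ∀ t, P (q t)) (t : I) : P (p.trans q t) := by
  rw [Path.trans_apply]
  split_ifs
  · exact hp _
  · exact hq _

lemma NR.δε' (N : NR X) : N.δ < N.ε := by
  have := N.δε
  have := N.ε0
  linarith

lemma NR.triangle (N : NR X) {x y z : X} (hxy : ‖(y : E) - x‖ < N.δ) (hyz : ‖(z : E) - y‖ < N.δ)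
    (hxz : ‖(z : E) - x‖ < N.δ) :
    ((N.sh (hxy.trans N.δε')).trans (N.sh (hyz.trans N.δε'))).Homotopic
      (N.sh (hxz.trans N.δε')) := by
  apply N.close_pt
  intro t
  have hε := N.ε0
  have hδ := N.δε
  have h1 : ‖((N.sh (hxy.trans N.δε')).trans (N.sh (hyz.trans N.δε')) t : E) - x‖ < N.ε / 2 := by
    refine trans_mem _ _ (fun w : X => ‖(w : E) - x‖ < N.ε / 2) ?_ ?_ t
    · intro s
      have := N.r_close x.2 hxy s
      rw [N.sh_apply]
      linarith
    · intro s
      have := N.r_close y.2 hyz s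
      rw [N.sh_apply]
      calc ‖N.r ((1 - (s : ℝ)) • (y : E) + (s : ℝ) • (z : E)) - x‖
          = ‖(N.r ((1 - (s : ℝ)) • (y : E) + (s : ℝ) • (z : E)) - y) + (y - x)‖ := by
            congr 1; abel
        _ ≤ ‖(N.r ((1 - (s : ℝ)) • (y : E) + (s : ℝ) • (z : E)) - y)‖ + ‖(y : E) - x‖ :=
            norm_add_le _ _
        _ < N.ε / 2 := by linarith
  have h2 := N.r_close x.2 hxz t
  rw [N.sh_apply]
  calc ‖N.r ((1 - (t : ℝ)) • (x : E) + (t : ℝ) • (z : E)) -
        ((N.sh (hxy.trans N.δε')).trans (N.sh (hyz.trans N.δε')) t : E)‖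
      = ‖(N.r ((1 - (t : ℝ)) • (x : E) + (t : ℝ) • (z : E)) - x) -
        (((N.sh (hxy.trans N.δε')).trans (N.sh (hyz.trans N.δε')) t : E) - x)‖ := by
        congr 1; abel
    _ ≤ ‖N.r ((1 - (t : ℝ)) • (x : E) + (t : ℝ) • (z : E)) - x‖ +
        ‖((N.sh (hxy.trans N.δε')).trans (N.sh (hyz.trans N.δε')) t : E) - x‖ := norm_sub_le _ _
    _ < N.ε := by linarith

lemma NR.back (N : NR X) {x y : X} (hxy : ‖(y : E) - x‖ < N.δ) (hyx : ‖(x : E) - y‖ < N.δ) :
    ((N.sh (hxy.trans N.δε')).trans (N.sh (hyx.trans N.δε'))).Homotopic (Path.refl x) := by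
  have h0 : ‖(x : E) - x‖ < N.δ := by rw [sub_self, norm_zero]; exact N.δ0
  refine (N.triangle hxy hyx h0).trans ?_
  apply N.close_pt
  intro t
  rw [N.sh_apply]
  have : (1 - (t : ℝ)) • (x : E) + (t : ℝ) • (x : E) = x := by
    rw [← add_smul]; simp
  rw [this, N.rid _ x.2]
  simpa using N.ε0

/-- moving the initial point of a path -/
lemma NR.move (N : NR X) {x x' y : X} (p : Path x y) (p' : Path x' y)
    (hx : ‖(x : E) - x'‖ < N.δ) (h : ∀ t, ‖(p t : E) - p' t‖ < N.ε) :
    ((N.sh (hx.trans N.δε')).trans p).Homotopic p' := by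
  refine Path.Homotopic.symm (Path.Homotopic.trans (Path.Homotopic.refl_trans p').symm ?_)
  apply N.close_pt
  intro t
  rw [Path.trans_apply, Path.trans_apply]
  split_ifs with ht
  · have h1 := N.r_close x'.2 hx ⟨2 * t, (unitInterval.mul_pos_mem_iff zero_lt_two).2 ⟨t.2.1, ht⟩⟩
    rw [N.sh_apply]
    have h2 := N.ε0
    simp only [Path.refl_apply]
    linarith
  · exact h _

variable {S : Type} [MetricSpace S] [CompactSpace S] {a b : C(S, X)}

/-- linear path between close maps -/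
def NR.lin (N : NR X) (a b : C(S, X)) (L : Set S) (h : ∀ y ∈ L, ‖(b y : E) - a y‖ < N.ε) :
    PO a b L :=
  N.mkPath (fun z : I × L => (1 - (z.1 : ℝ)) • ((a z.2 : X) : E) + (z.1 : ℝ) • ((b z.2 : X) : E))
    (by fun_prop) (fun z => N.segment (a z.2).2 (h _ z.2.2) _) (fun y => by simp) (fun y => by simp)

lemma NR.lin_apply (N : NR X) (a b : C(S, X)) (L : Set S) (h : ∀ y ∈ L, ‖(b y : E) - a y‖ < N.ε)
    (t : I) (y : L) : (N.lin a b L h t y : E) =
      N.r ((1 - (t : ℝ)) • ((a y : X) : E) + (t : ℝ) • ((b y : X) : E)) := rfl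

/-- locally constant families of paths -/
def lcf {x x' : X} {L : Set S} (κ : L → Path.Homotopic.Quotient x x') (hκ : IsLocallyConstant κ) :
    PO (ContinuousMap.const S x) (ContinuousMap.const S x') L where
  toContinuousMap := ContinuousMap.curry
    ⟨fun z : I × L => Quotient.out (κ z.2) z.1, by
      rw [continuous_iff_continuousAt]
      rintro ⟨t, y⟩
      have h1 : ContinuousAt (fun z : I × L => Quotient.out (κ y) z.1) (t, y) :=
        ((Quotient.out (κ y)).continuous.comp continuous_fst).continuousAt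
      refine h1.congr ?_
      have h2 : ∀ᶠ z : I × L in 𝓝 (t, y), κ z.2 = κ y := by
        have h3 := (IsLocallyConstant.iff_eventually_eq κ).1 hκ y
        exact (continuous_snd.tendsto (t, y)).eventually h3
      filter_upwards [h2] with z hz
      rw [hz]⟩
  source' := by
    ext y
    change ((Quotient.out (κ y) 0 : X) : E) = x
    rw [Path.source]
  target' := by
    ext y
    change ((Quotient.out (κ y) 1 : X) : E) = x'
    rw [Path.target]

lemma lcf_apply {x x' : X} {L : Set S} (κ : L → Path.Homotopic.Quotient x x')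
    (hκ : IsLocallyConstant κ) (t : I) (y : L) : lcf κ hκ t y = Quotient.out (κ y) t := rfl

lemma mk_out {x x' : X} (q : Path.Homotopic.Quotient x x') :
    Path.Homotopic.Quotient.mk (Quotient.out q) = q := Quotient.out_eq q

lemma ev_lcf {x x' : X} {L : Set S} (κ : L → Path.Homotopic.Quotient x x')
    (hκ : IsLocallyConstant κ) (y : L) :
    Path.Homotopic.Quotient.mk (ev y (lcf κ hκ)) = κ y := mk_out (κ y)

lemma rs_lcf {x x' : X} {L D : Set S} (κ : L → Path.Homotopic.Quotient x x')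
    (hκ : IsLocallyConstant κ) (hD : D ⊆ L) (hDc : IsPreconnected D) (y0 : D) :
    rs hD (lcf κ hκ) = cf D (Quotient.out (κ ⟨y0, hD y0.2⟩)) := by
  have h1 : ∀ y : D, κ ⟨y, hD y.2⟩ = κ ⟨y0, hD y0.2⟩ := by
    intro y
    have h2 : IsPreconnected ((↑) ⁻¹' D : Set L) :=
      (Subtype.preconnectedSpace hDc |> fun _ => by
        have h3 : ((↑) ⁻¹' D : Set L) = Set.range (Set.inclusion hD) := by
          ext z
          constructor
          · intro hz; exact ⟨⟨z, hz⟩, rfl⟩
          · rintro ⟨w, rfl⟩; exact w.2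
        rw [h3]
        haveI := Subtype.preconnectedSpace hDc
        exact isPreconnected_range (continuous_inclusion hD))
    exact hκ.apply_eq_of_isPreconnected h2 y.2 y0.2
  ext t y
  change ((Quotient.out (κ ⟨y, hD y.2⟩) t : X) : E) = _
  rw [h1 y]
  rfl

/-- the family of classes `c` is locally parallel -/
def LocC (N : NR X) (f : C(S, X)) {x0 : X} (c : ∀ y : S, Path.Homotopic.Quotient (f y) x0) : Prop :=
  ∀ y, ∀ᶠ y' in 𝓝 y, ∀ h : ‖(f y : E) - f y'‖ < N.ε,
    c y' = (Path.Homotopic.Quotient.mk (N.sh h)).trans (c y)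

/-- the small set around a point -/
def Lk (N : NR X) (f : C(S, X)) (xk : X) : Set S := {y | ‖(f y : E) - xk‖ ≤ N.δ / 4}

lemma isClosed_Lk (N : NR X) (f : C(S, X)) (xk : X) : IsClosed (Lk N f xk) :=
  isClosed_le (by fun_prop) continuous_const

lemma Lk_lt (N : NR X) {f : C(S, X)} {xk : X} {y : S} (hy : y ∈ Lk N f xk) :
    ‖(f y : E) - xk‖ < N.δ := by
  have h1 : ‖(f y : E) - xk‖ ≤ N.δ / 4 := hy
  have := N.δ0
  linarith

lemma Lk_lt' (N : NR X) {f : C(S, X)} {xk : X} {y : S} (hy : y ∈ Lk N f xk) :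
    ‖(xk : E) - f y‖ < N.δ := by
  rw [norm_sub_rev]; exact Lk_lt N hy

/-- class of the local lift -/
def kap (N : NR X) (f : C(S, X)) {x0 : X} (c : ∀ y : S, Path.Homotopic.Quotient (f y) x0) (xk : X)
    (y : Lk N f xk) : Path.Homotopic.Quotient xk x0 :=
  (Path.Homotopic.Quotient.mk (N.sh ((Lk_lt N y.2).trans N.δε'))).trans (c y)

lemma kap_loc (N : NR X) (f : C(S, X)) {x0 : X} (c : ∀ y : S, Path.Homotopic.Quotient (f y) x0)
    (hc : LocC N f c) (xk : X) : IsLocallyConstant (kap N f c xk) := by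
  rw [IsLocallyConstant.iff_eventually_eq]
  intro y
  have h1 : ∀ᶠ y' in 𝓝 (y : S), ‖(f y : E) - f y'‖ < N.δ := by
    have h2 : Continuous fun y' : S => ‖(f y : E) - f y'‖ := by fun_prop
    have h3 := h2.tendsto (y : S)
    simp only [sub_self, norm_zero] at h3
    exact h3.eventually (gt_mem_nhds N.δ0)
  have h4 := (continuous_subtype_val.tendsto y).eventually (h1.and (hc y))
  filter_upwards [h4] with y' hy'
  obtain ⟨h5, h6⟩ := hy'
  unfold kap
  rw [h6 (h5.trans N.δε'), ← Path.Homotopic.Quotient.trans_assoc,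
    ← Path.Homotopic.Quotient.mk_trans]
  congr 1
  rw [Path.Homotopic.Quotient.eq]
  exact N.triangle (Lk_lt N y'.2) h5 (Lk_lt N y.2)

/-- local lift -/
def sk (N : NR X) (f : C(S, X)) {x0 : X} (c : ∀ y : S, Path.Homotopic.Quotient (f y) x0)
    (hc : LocC N f c) (xk : X) : PO f (ContinuousMap.const S x0) (Lk N f xk) :=
  (N.lin f (ContinuousMap.const S xk) (Lk N f xk) (fun _ hy => (Lk_lt' N hy).trans N.δε')).trans
    (lcf (kap N f c xk) (kap_loc N f c hc xk))

lemma sk_good (N : NR X) (f : C(S, X)) {x0 : X} (c : ∀ y : S, Path.Homotopic.Quotient (f y) x0)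
    (hc : LocC N f c) (xk : X) : Good c (Lk N f xk) (sk N f c hc xk) := by
  intro y
  unfold sk
  rw [ev_trans, Path.Homotopic.Quotient.mk_trans, ev_lcf]
  have h1 : ev y (N.lin f (ContinuousMap.const S xk) (Lk N f xk)
      (fun _ hy => (Lk_lt' N hy).trans N.δε')) = N.sh ((Lk_lt' N y.2).trans N.δε') := rfl
  have h2 := N.back (Lk_lt' N y.2) (Lk_lt N y.2)
  rw [← Path.Homotopic.Quotient.eq, Path.Homotopic.Quotient.mk_trans] at h2
  have h3 : ((Path.Homotopic.Quotient.mk (N.sh ((Lk_lt' N y.2).trans N.δε'))).trans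
      ((Path.Homotopic.Quotient.mk (N.sh ((Lk_lt N y.2).trans N.δε'))).trans (c y))) = c y := by
    rw [← Path.Homotopic.Quotient.trans_assoc, h2]
    simp
  exact h3

variable [TietzeExtension.{0, 0} E]

lemma sk_hom (N : NR X) (f : C(S, X)) {x0 : X} (c : ∀ y : S, Path.Homotopic.Quotient (f y) x0)
    (hc : LocC N f c) (xk xj : X) {L : Set S} (hL : IsClosed L) (hk : L ⊆ Lk N f xk)
    (hj : L ⊆ Lk N f xj) :
    (rs hk (sk N f c hc xk)).Homotopic (rs hj (sk N f c hc xj)) := by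
  apply comp_glue N hL
  intro D hD cD hDc
  obtain ⟨y0, hy0⟩ := hDc.nonempty
  haveI : CompactSpace D := isCompact_iff_compactSpace.1 cD.isCompact
  rw [rs_rs, rs_rs]
  unfold sk
  rw [rs_trans, rs_trans, rs_lcf _ _ (hD.trans hk) hDc.isPreconnected ⟨y0, hy0⟩,
    rs_lcf _ _ (hD.trans hj) hDc.isPreconnected ⟨y0, hy0⟩]
  set αk := rs (hD.trans hk) (N.lin f (ContinuousMap.const S xk) (Lk N f xk)
    (fun _ hy => (Lk_lt' N hy).trans N.δε')) with hαk
  set αj := rs (hD.trans hj) (N.lin f (ContinuousMap.const S xj) (Lk N f xj)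
    (fun _ hy => (Lk_lt' N hy).trans N.δε')) with hαj
  have hy0k : y0 ∈ Lk N f xk := hk (hD hy0)
  have hy0j : y0 ∈ Lk N f xj := hj (hD hy0)
  have hkj : ‖(xk : E) - xj‖ < N.δ := by
    have h1 : ‖(f y0 : E) - xk‖ ≤ N.δ / 4 := hy0k
    have h2 : ‖(f y0 : E) - xj‖ ≤ N.δ / 4 := hy0j
    have h3 := N.δ0
    calc ‖(xk : E) - xj‖ = ‖((f y0 : E) - xj) - ((f y0 : E) - xk)‖ := by congr 1; abel
      _ ≤ ‖(f y0 : E) - xj‖ + ‖(f y0 : E) - xk‖ := norm_sub_le _ _
      _ < N.δ := by linarith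
  -- αk ≃ αj * (short path)
  have hA : αk.Homotopic (αj.trans (cf D (N.sh (hkj.trans N.δε')))) := by
    apply N.close
    intro t y
    have hyk : ‖(xk : E) - f y‖ < N.δ := Lk_lt' N (hk (hD y.2))
    have hyj : ‖(xj : E) - f y‖ < N.δ := Lk_lt' N (hj (hD y.2))
    have hε := N.ε0
    have hδ := N.δε
    have b1 : ‖((αk t y : X) : E) - f y‖ < N.ε / 4 := N.r_close (f y).2 hyk t
    have b2 : ‖((αj.trans (cf D (N.sh (hkj.trans N.δε'))) t y : X) : E) - f y‖ < N.ε / 2 := by
      refine trans_mem αj (cf D (N.sh (hkj.trans N.δε')))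
        (fun w => ‖((w y : X) : E) - f y‖ < N.ε / 2) ?_ ?_ t
      · intro s
        have : ‖((αj s y : X) : E) - f y‖ < N.ε / 4 := N.r_close (f y).2 hyj s
        linarith
      · intro s
        have h5 : ‖((N.sh (hkj.trans N.δε') s : X) : E) - xj‖ < N.ε / 4 := N.r_close xj.2 hkj s
        have h6 : (cf D (N.sh (hkj.trans N.δε')) s y : X) = N.sh (hkj.trans N.δε') s := rfl
        rw [h6]
        calc ‖((N.sh (hkj.trans N.δε') s : X) : E) - f y‖
            = ‖(((N.sh (hkj.trans N.δε') s : X) : E) - xj) + (xj - f y)‖ := by congr 1; abel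
          _ ≤ ‖(((N.sh (hkj.trans N.δε') s : X) : E) - xj)‖ + ‖(xj : E) - f y‖ := norm_add_le _ _
          _ < N.ε / 2 := by linarith
    calc ‖((αj.trans (cf D (N.sh (hkj.trans N.δε'))) t y : X) : E) - αk t y‖
        = ‖(((αj.trans (cf D (N.sh (hkj.trans N.δε'))) t y : X) : E) - f y) -
          (((αk t y : X) : E) - f y)‖ := by congr 1; abel
      _ ≤ ‖((αj.trans (cf D (N.sh (hkj.trans N.δε'))) t y : X) : E) - f y‖ +
          ‖((αk t y : X) : E) - f y‖ := norm_sub_le _ _
      _ < N.ε := by linarith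
  have hB : ((N.sh (hkj.trans N.δε')).trans
      (Quotient.out (kap N f c xk ⟨y0, hk (hD hy0)⟩))).Homotopic
      (Quotient.out (kap N f c xj ⟨y0, hj (hD hy0)⟩)) := by
    rw [← Path.Homotopic.Quotient.eq, Path.Homotopic.Quotient.mk_trans, mk_out, mk_out]
    unfold kap
    rw [← Path.Homotopic.Quotient.trans_assoc, ← Path.Homotopic.Quotient.mk_trans]
    congr 1
    rw [Path.Homotopic.Quotient.eq]
    exact N.triangle hkj (Lk_lt N hy0k) (Lk_lt N hy0j)
  refine (Path.Homotopic.hcomp hA (Path.Homotopic.refl _)).trans ?_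
  refine (Path.Homotopic.trans_assoc _ _ _).trans ?_
  refine Path.Homotopic.hcomp (Path.Homotopic.refl _) ?_
  rw [← cf_trans]
  exact cf_homotopic D hB

end Pool.Agent.Helper111.HI
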