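import Pool.Agent.Helper111.HI4

set_option autoImplicit false
set_option linter.unusedSectionVars false
set_option linter.style.haveILetI false

open Set Filter Topology Metric
open scoped unitInterval

noncomputable section

namespace Pool.Agent.Helper111.HI

/-- crookedness of `g` with respect to four sets -/
def Crook {S Z : Type} [TopologicalSpace S] (g : S → Z) (A O B B' : Set Z) : Prop :=
  ∀ D C : Set S, IsClosed D → IsConnected D → IsClosed C → IsConnected C → (C ∩ D).Nonempty →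
    D ⊆ g ⁻¹' A → C ⊆ g ⁻¹' B → ¬ C ⊆ g ⁻¹' O → D ⊆ g ⁻¹' B'

variable {E : Type} [NormedAddCommGroup E] [NormedSpace ℝ E] {X : Set E}
  {S : Type} [MetricSpace S] [CompactSpace S]

/-- points mapped close to `x k` -/
def Bs (f : C(S, X)) (x : ℕ → X) (k : ℕ) (r : ℝ) : Set S := {y | ‖(f y : E) - x k‖ ≤ r}

/-- points mapped close to one of the first `j` points -/
def Ts (f : C(S, X)) (x : ℕ → X) : ℕ → ℝ → Set S
  | 0, _ => ∅
  | j + 1, r => Bs f x j r ∪ Ts f x j r

lemma isClosed_Bs (f : C(S, X)) (x : ℕ → X) (k : ℕ) (r : ℝ) : IsClosed (Bs f x k r) :=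
  isClosed_le (by fun_prop) continuous_const

lemma isClosed_Ts (f : C(S, X)) (x : ℕ → X) (k : ℕ) (r : ℝ) : IsClosed (Ts f x k r) := by
  induction k with
  | zero => exact isClosed_empty
  | succ k ih => exact (isClosed_Bs f x k r).union ih

lemma Bs_mono (f : C(S, X)) (x : ℕ → X) (k : ℕ) {r r' : ℝ} (h : r ≤ r') :
    Bs f x k r ⊆ Bs f x k r' := fun _ hy => le_trans hy h

lemma Ts_mono (f : C(S, X)) (x : ℕ → X) (k : ℕ) {r r' : ℝ} (h : r ≤ r') :
    Ts f x k r ⊆ Ts f x k r' := by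
  induction k with
  | zero => exact Subset.rfl
  | succ k ih => exact union_subset_union (Bs_mono f x k h) ih

lemma Bs_sub_Lk (N : NR X) (f : C(S, X)) (x : ℕ → X) (k : ℕ) {r : ℝ} (h : r ≤ N.δ / 4) :
    Bs f x k r ⊆ Lk N f (x k) := fun _ hy => le_trans hy h

lemma mem_Ts (f : C(S, X)) (x : ℕ → X) (k : ℕ) (r : ℝ) (y : S) :
    y ∈ Ts f x k r ↔ ∃ i < k, ‖(f y : E) - x i‖ ≤ r := by
  induction k with
  | zero => simp [Ts]
  | succ k ih =>
    constructor
    · rintro (h | h)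
      · exact ⟨k, by omega, h⟩
      · obtain ⟨i, hi, h'⟩ := ih.1 h
        exact ⟨i, by omega, h'⟩
    · rintro ⟨i, hi, h⟩
      rcases Nat.lt_succ_iff_lt_or_eq.1 hi with h' | rfl
      · exact Or.inr (ih.2 ⟨i, h', h⟩)
      · exact Or.inl h

variable {N : NR X} {f : C(S, X)} {x0 : X}
  {c : ∀ y : S, Path.Homotopic.Quotient (f y) x0} {hc : LocC N f c} {x : ℕ → X} {ρ : ℕ → ℝ}
  {hρ : Antitone ρ} {hρ0 : ρ 0 ≤ N.δ / 4}

/-- compatible sequence of lifts -/
def Chain (N : NR X) (f : C(S, X)) {x0 : X}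
    (c : ∀ y : S, Path.Homotopic.Quotient (f y) x0) (hc : LocC N f c) (x : ℕ → X) (ρ : ℕ → ℝ)
    (hρ : Antitone ρ) (hρ0 : ρ 0 ≤ N.δ / 4) :
    (k : ℕ) → PO f (ContinuousMap.const S x0) (Ts f x k (ρ k)) → Prop
  | 0, _ => True
  | k + 1, s => (rs (subset_union_left : Bs f x k (ρ (k + 1)) ⊆ Ts f x (k + 1) (ρ (k + 1)))
        s).Homotopic
      (rs (Bs_sub_Lk N f x k ((hρ (Nat.zero_le (k + 1))).trans hρ0)) (sk N f c hc (x k))) ∧
      ∃ s' : PO f (ContinuousMap.const S x0) (Ts f x k (ρ k)), Good c _ s' ∧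
        Chain N f c hc x ρ hρ hρ0 k s' ∧
        (rs (subset_union_right : Ts f x k (ρ (k + 1)) ⊆ Ts f x (k + 1) (ρ (k + 1)))
          s).Homotopic (rs (Ts_mono f x k (hρ (Nat.le_succ k))) s')

variable [TietzeExtension.{0, 0} E]

/-- property of the domain: loops of constant maps become constant families over proper closed
subsets -/
def Dom (S : Type) [MetricSpace S] {E : Type} [NormedAddCommGroup E] [NormedSpace ℝ E]
    (X : Set E) : Prop :=
  ∀ D : Set S, D ≠ univ → ∀ x0 : X,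
    ∀ G : PO (X := X) (ContinuousMap.const S x0) (ContinuousMap.const S x0) univ,
      ∃ l : Path x0 x0, (rs (subset_univ D) G).Homotopic (cf D l)

/-- the crookedness hypotheses -/
def Crk (f : C(S, X)) (x : ℕ → X) (ρ : ℕ → ℝ) (n : ℕ) : Prop :=
  ∀ j k, j < k → k < n → Crook (fun y : S => (f y : E))
      {z | ‖z - x k‖ ≤ ρ (k + 1) ∧ ∃ i < j + 1, ‖z - x i‖ ≤ ρ (k + 1)}
      {z | ‖z - x k‖ < ρ k ∧ ∃ i < j + 1, ‖z - x i‖ < ρ k}
      {z | ρ k ≤ ‖z - x j‖} {z | ρ (k + 1) < ‖z - x j‖}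

lemma inner (hS : Dom S X) (n : ℕ) (hcr : Crk f x ρ n) (j : ℕ) :
    ∀ s : PO f (ContinuousMap.const S x0) (Ts f x j (ρ j)), Good c _ s →
      Chain N f c hc x ρ hρ hρ0 j s → ∀ k, (hjk : j ≤ k) → k < n → ∀ D : Set S, IsClosed D →
        IsConnected D → D ≠ univ → ∀ (h1 : D ⊆ Bs f x k (ρ (k + 1)))
        (h2 : D ⊆ Ts f x j (ρ (k + 1))),
        (rs (h2.trans (Ts_mono f x j (hρ (hjk.trans (Nat.le_succ k))))) s).Homotopic
          (rs (h1.trans (Bs_sub_Lk N f x k ((hρ (Nat.zero_le (k + 1))).trans hρ0)))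
            (sk N f c hc (x k))) := by
  induction j with
  | zero =>
    intro s _ _ k _ _ D _ hDc _ _ h2
    obtain ⟨y, hy⟩ := hDc.nonempty
    exact (h2 hy).elim
  | succ j ih =>
    intro s gs hs k hjk hkn D cD hDc hDu h1 h2
    obtain ⟨hsj, s', gs', hs', hss'⟩ := hs
    by_cases hcase : D ⊆ Ts f x j (ρ (k + 1))
    · have h3 := ih s' gs' hs' k (by omega) hkn D cD hDc hDu h1 hcase
      refine Path.Homotopic.trans ?_ h3
      have h4 : D ⊆ Ts f x j (ρ (j + 1)) := hcase.trans (Ts_mono f x j (hρ (by omega)))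
      exact rs_homotopic h4 hss'
    · -- the separation lemma applies
      have hk0 : ρ k ≤ N.δ / 4 := (hρ (Nat.zero_le k)).trans hρ0
      have hj0 : ρ (j + 1) ≤ N.δ / 4 := (hρ (Nat.zero_le (j + 1))).trans hρ0
      have cM : IsClosed ((Bs f x k (ρ k) ∩ Ts f x (j + 1) (ρ k)) ∩ {y | ρ k ≤ ‖(f y : E) - x j‖}) :=
        ((isClosed_Bs f x k _).inter (isClosed_Ts f x _ _)).inter
          (isClosed_le continuous_const (by fun_prop))
      have hNT : Bs f x k (ρ k) ∩ Ts f x (j + 1) (ρ k) ⊆ Ts f x (j + 1) (ρ (j + 1)) :=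
        inter_subset_right.trans (Ts_mono f x (j + 1) (hρ hjk))
      have hNL : Bs f x k (ρ k) ∩ Ts f x (j + 1) (ρ k) ⊆ Lk N f (x k) :=
        inter_subset_left.trans (Bs_sub_Lk N f x k hk0)
      have hDN : D ⊆ Bs f x k (ρ k) ∩ Ts f x (j + 1) (ρ k) :=
        subset_inter (h1.trans (Bs_mono f x k (hρ (Nat.le_succ k))))
          (h2.trans (Ts_mono f x (j + 1) (hρ (Nat.le_succ k))))
      have hRN : (Bs f x k (ρ k) ∩ Ts f x (j + 1) (ρ k)) ∩ Bs f x j (ρ k) ⊆
        Bs f x k (ρ k) ∩ Ts f x (j + 1) (ρ k) := inter_subset_left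
      have cR : IsClosed ((Bs f x k (ρ k) ∩ Ts f x (j + 1) (ρ k)) ∩ Bs f x j (ρ k)) :=
        ((isClosed_Bs f x k _).inter (isClosed_Ts f x _ _)).inter (isClosed_Bs f x j _)
      refine lemA N (c := c) cM hRN ?_ cD hDN hDc.nonempty (rs hNT s)
        (rs hNL (sk N f c hc (x k))) (gs.rs hNT) ((sk_good N f c hc (x k)).rs hNL) ?_
        (fun G => hS D hDu x0 G) ?_
      · intro y hy
        rcases le_total ‖(f y : E) - x j‖ (ρ k) with h | h
        · exact Or.inl ⟨hy, h⟩
        · exact Or.inr ⟨hy, h⟩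
      · have hRj : (Bs f x k (ρ k) ∩ Ts f x (j + 1) (ρ k)) ∩ Bs f x j (ρ k) ⊆
            Bs f x j (ρ (j + 1)) :=
          inter_subset_right.trans (Bs_mono f x j (hρ hjk))
        have h5 := rs_homotopic hRj hsj
        refine Path.Homotopic.trans h5 ?_
        exact sk_hom N f c hc (x j) (x k) cR (hRj.trans (Bs_sub_Lk N f x j hj0)) (hRN.trans hNL)
      · intro C hCM cC hCc hCD
        by_contra hcon
        apply hcase
        have h6 := hcr j k (by omega) hkn D C cD hDc cC hCc hCD ?_ ?_ ?_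
        · intro y hy
          rcases h2 hy with h | h
          · have h7 : ρ (k + 1) < ‖(f y : E) - x j‖ := h6 hy
            exact absurd h (not_le.2 h7)
          · exact h
        · intro y hy
          exact ⟨h1 hy, (mem_Ts f x (j + 1) _ y).1 (h2 hy)⟩
        · intro y hy
          exact (hCM hy).2
        · intro hCO
          apply hcon
          refine hCO.trans (interior_maximal ?_ ?_)
          · rintro y ⟨hy1, i, hi, hy2⟩
            exact ⟨hy1.le, (mem_Ts f x (j + 1) _ y).2 ⟨i, hi, hy2.le⟩⟩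
          · refine IsOpen.preimage (f := fun y : S => (f y : E)) (by fun_prop) ?_
            have h8 : {z : E | ‖z - x k‖ < ρ k ∧ ∃ i < j + 1, ‖z - x i‖ < ρ k} =
                {z : E | ‖z - x k‖ < ρ k} ∩ ⋃ i ∈ Set.Iio (j + 1), {z : E | ‖z - x i‖ < ρ k} := by
              ext z
              simp
            rw [h8]
            refine IsOpen.inter (isOpen_lt (by fun_prop) continuous_const) ?_
            exact isOpen_biUnion fun i _ => isOpen_lt (by fun_prop) continuous_const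

lemma outer (hS : Dom S X) (n : ℕ) (hcr : Crk f x ρ n) (k : ℕ) (hkn : k ≤ n) :
    Nonempty (PO f (ContinuousMap.const S x0) univ) ∨
    ∃ s : PO f (ContinuousMap.const S x0) (Ts f x k (ρ k)), Good c _ s ∧
      Chain N f c hc x ρ hρ hρ0 k s := by
  induction k with
  | zero =>
    right
    have e : ∀ y : S, y ∈ Ts f x 0 (ρ 0) → False := fun y hy => hy
    haveI : IsEmpty (Ts f x 0 (ρ 0)) := ⟨fun y => e y y.2⟩
    have h1 : f.restrict (Ts f x 0 (ρ 0)) =
        (ContinuousMap.const S x0).restrict (Ts f x 0 (ρ 0)) := by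
      ext y
      exact (e y y.2).elim
    refine ⟨(Path.refl _).cast rfl h1.symm, fun y => (e y y.2).elim, trivial⟩
  | succ k ih =>
    rcases ih (by omega) with h | ⟨s, gs, hs⟩
    · exact Or.inl h
    by_cases hg : Nonempty (PO f (ContinuousMap.const S x0) univ)
    · exact Or.inl hg
    right
    have hk0 : ρ (k + 1) ≤ N.δ / 4 := (hρ (Nat.zero_le (k + 1))).trans hρ0
    have hL1 : Ts f x k (ρ (k + 1)) ⊆ Ts f x k (ρ k) := Ts_mono f x k (hρ (Nat.le_succ k))
    have hL2 : Bs f x k (ρ (k + 1)) ⊆ Lk N f (x k) := Bs_sub_Lk N f x k hk0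
    have cL1 := isClosed_Ts f x k (ρ (k + 1))
    have cL2 := isClosed_Bs f x k (ρ (k + 1))
    have hA1 : Bs f x k (ρ (k + 1)) ∩ Ts f x k (ρ (k + 1)) ⊆ Ts f x k (ρ (k + 1)) :=
      inter_subset_right
    have hA2 : Bs f x k (ρ (k + 1)) ∩ Ts f x k (ρ (k + 1)) ⊆ Bs f x k (ρ (k + 1)) :=
      inter_subset_left
    have cA := cL2.inter cL1
    have key : (rs hA1 (rs hL1 s)).Homotopic (rs (hA2.trans hL2) (sk N f c hc (x k))) := by
      apply comp_glue N cA
      intro D hD cD hDc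
      by_cases hDu : D = univ
      · exfalso
        apply hg
        have : (univ : Set S) ⊆ Lk N f (x k) := by
          rw [← hDu]
          exact hD.trans (hA2.trans hL2)
        exact ⟨rs this (sk N f c hc (x k))⟩
      exact inner hS n hcr k s gs hs k le_rfl (by omega) D cD hDc hDu (hD.trans hA2)
        (hD.trans hA1)
    obtain ⟨p'', hp1, hp2⟩ := fib N cA cL1 hA1 (rs hL1 s) _ key
    obtain ⟨g, hg1, hg2⟩ := glue_path N (L := Ts f x (k + 1) (ρ (k + 1))) cL1 cL2
      (by rw [union_comm]; exact Subset.rfl)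
      subset_union_right subset_union_left p'' (rs hL2 (sk N f c hc (x k))) (by
        intro t y y1 y2
        have h2 := congrArg (fun r => r t ⟨y, ⟨y2, y1⟩⟩) hp1
        exact h2)
    refine ⟨g, ?_, ?_, s, gs, hs, ?_⟩
    · rintro ⟨y, hy⟩
      rcases hy with hy' | hy'
      · have h3 := (sk_good N f c hc (x k)).rs hL2 ⟨y, hy'⟩
        rw [← hg2] at h3
        exact h3
      · have h3 := ((gs.rs hL1).congr hp2.symm) ⟨y, hy'⟩
        rw [← hg1] at h3
        exact h3
    · exact Eq.subst (motive := fun r => Path.Homotopic r (rs hL2 (sk N f c hc (x k))))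
        hg2.symm (Path.Homotopic.refl _)
    · exact Eq.subst (motive := fun r => Path.Homotopic r (rs hL1 s)) hg1.symm hp2

/-- main conclusion for a crooked map -/
lemma null_of_crook (N : NR X) (f : C(S, X)) {x0 : X}
    (c : ∀ y : S, Path.Homotopic.Quotient (f y) x0) (hc : LocC N f c) (x : ℕ → X) (ρ : ℕ → ℝ)
    (hρ : Antitone ρ) (hρ0 : ρ 0 ≤ N.δ / 4) (hS : Dom S X) (n : ℕ) (hcr : Crk f x ρ n)
    (hcov : ∀ y : S, ∃ i < n, ‖(f y : E) - x i‖ ≤ ρ n) :
    Nonempty (PO f (ContinuousMap.const S x0) univ) := by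
  rcases outer (hc := hc) (hρ := hρ) (hρ0 := hρ0) hS n hcr n le_rfl with h | ⟨s, _, _⟩
  · exact h
  · exact ⟨rs (fun y _ => (mem_Ts f x n _ y).2 (hcov y)) s⟩

end Pool.Agent.Helper111.HI
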