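import Pool.Agent.Helper111.HI5

set_option autoImplicit false
set_option linter.unusedSectionVars false
set_option linter.style.haveILetI false

open Set Filter Topology Metric
open scoped unitInterval

noncomputable section

namespace Pool.Agent.Helper111.HI

/-- the ambient three-space -/
abbrev E3 := EuclideanSpace ℝ (Fin 3)

/-- the two-sphere -/
abbrev S2 := sphere (0 : E3) 1

lemma norm_S2 (e : S2) : ‖(e : E3)‖ = 1 := mem_sphere_zero_iff_norm.1 e.2

lemma S2_ne_zero (e : S2) : (e : E3) ≠ 0 := by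
  intro h
  have := norm_S2 e
  rw [h, norm_zero] at this
  exact zero_ne_one this

/-- normalisation, with a default value -/
def nrm (e : S2) (v : E3) : S2 :=
  if h : v = 0 then e else ⟨‖v‖⁻¹ • v, by
    rw [mem_sphere_zero_iff_norm, norm_smul, norm_inv, norm_norm]
    exact inv_mul_cancel₀ (norm_ne_zero_iff.2 h)⟩

lemma nrm_coe (e : S2) {v : E3} (h : v ≠ 0) : (nrm e v : E3) = ‖v‖⁻¹ • v := by
  unfold nrm
  rw [dif_neg h]

lemma nrm_smul (e : S2) (z : S2) {s : ℝ} (hs : 0 < s) : nrm e (s • (z : E3)) = z := by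
  have h : s • (z : E3) ≠ 0 := smul_ne_zero hs.ne' (S2_ne_zero z)
  apply Subtype.ext
  rw [nrm_coe e h, norm_smul, norm_S2, mul_one, Real.norm_of_nonneg hs.le, smul_smul,
    inv_mul_cancel₀ hs.ne', one_smul]

lemma nrm_self (e : S2) (z : S2) : nrm e (z : E3) = z := by
  have := nrm_smul e z one_pos
  rwa [one_smul] at this

lemma continuous_nrm (e : S2) {Q : Type} [TopologicalSpace Q] (g : Q → E3) (hg : Continuous g)
    (h : ∀ q, g q ≠ 0) : Continuous fun q => nrm e (g q) := by
  rw [continuous_induced_rng]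
  have : ((fun x : S2 => (x : E3)) ∘ fun q => nrm e (g q)) = fun q => ‖g q‖⁻¹ • g q := by
    funext q
    exact nrm_coe e (h q)
  rw [this]
  exact (hg.norm.inv₀ fun q => norm_ne_zero_iff.2 (h q)).smul hg

lemma seg_ne_zero (y z : S2) (h : (y : E3) ≠ -z) (t : I) :
    (1 - (t : ℝ)) • (y : E3) + (t : ℝ) • (z : E3) ≠ 0 := by
  intro h0
  have h1 : (1 - (t : ℝ)) • (y : E3) = -((t : ℝ) • (z : E3)) := eq_neg_of_add_eq_zero_left h0
  have h2 := congrArg norm h1
  rw [norm_neg, norm_smul, norm_smul, norm_S2, norm_S2, mul_one, mul_one,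
    Real.norm_of_nonneg (sub_nonneg.2 t.2.2), Real.norm_of_nonneg t.2.1] at h2
  have h3 : (t : ℝ) = 1 / 2 := by linarith
  rw [h3] at h1
  apply h
  have h4 : (1 / 2 : ℝ) • (y : E3) = (1 / 2 : ℝ) • (-(z : E3)) := by
    rw [smul_neg, ← h1]
    norm_num
  have h5 := congrArg (fun v => (2 : ℝ) • v) h4
  simp only [smul_smul] at h5
  norm_num at h5
  exact h5

/-- the antipode -/
def anti (e : S2) : S2 := -e

lemma anti_coe (e : S2) : (anti e : E3) = -e := rfl

/-- great-circle path -/
def gp (e : S2) {y : S2} (h : y ≠ anti e) : Path y e where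
  toFun t := nrm e ((1 - (t : ℝ)) • (y : E3) + (t : ℝ) • (e : E3))
  continuous_toFun := continuous_nrm e _ (by fun_prop)
    (fun t => seg_ne_zero y e (fun h' => h (Subtype.ext h')) t)
  source' := by simp [nrm_self]
  target' := by simp [nrm_self]

variable {E : Type} [NormedAddCommGroup E] [NormedSpace ℝ E] {X : Set E}

lemma gp_near (e : S2) (f : C(S2, X)) {y : S2} (h : y ≠ anti e) {η : ℝ} (hη : 0 < η) :
    ∀ᶠ y' in 𝓝 y, ∀ h' : y' ≠ anti e, ∀ t : I, ‖(f (gp e h t) : E) - f (gp e h' t)‖ < η := by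
  have key : ∀ᶠ y' : S2 in 𝓝 y, ∀ t ∈ (univ : Set I),
      ‖(f (nrm e ((1 - (t : ℝ)) • (y : E3) + (t : ℝ) • (e : E3))) : E) -
        f (nrm e ((1 - (t : ℝ)) • (y' : E3) + (t : ℝ) • (e : E3)))‖ < η := by
    apply isCompact_univ.eventually_forall_of_forall_eventually
    intro t _
    have hne := seg_ne_zero y e (fun h' => h (Subtype.ext h')) t
    have c1 : ContinuousAt (fun z : S2 × I => nrm e ((1 - (z.2 : ℝ)) • (z.1 : E3) +
        (z.2 : ℝ) • (e : E3))) (y, t) := by
      rw [IsInducing.subtypeVal.continuousAt_iff]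
      have c2 : ContinuousAt (fun z : S2 × I => ‖((1 - (z.2 : ℝ)) • (z.1 : E3) +
        (z.2 : ℝ) • (e : E3))‖⁻¹ • ((1 - (z.2 : ℝ)) • (z.1 : E3) +
        (z.2 : ℝ) • (e : E3))) (y, t) := by
        have c0 : Continuous (fun z : S2 × I => ((1 - (z.2 : ℝ)) • (z.1 : E3) +
          (z.2 : ℝ) • (e : E3))) := by fun_prop
        exact (c0.norm.continuousAt.inv₀ (norm_ne_zero_iff.2 hne)).smul c0.continuousAt
      refine c2.congr ?_
      have c3 : ∀ᶠ z : S2 × I in 𝓝 (y, t), ((1 - (z.2 : ℝ)) • (z.1 : E3) +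
        (z.2 : ℝ) • (e : E3)) ≠ 0 := by
        have c4 : ContinuousAt (fun z : S2 × I => ((1 - (z.2 : ℝ)) • (z.1 : E3) +
          (z.2 : ℝ) • (e : E3))) (y, t) := by fun_prop
        exact c4.eventually_ne hne
      filter_upwards [c3] with z hz
      exact (nrm_coe e hz).symm
    have c5 : ContinuousAt (fun z : S2 × I => ‖(f (nrm e ((1 - (z.2 : ℝ)) • (y : E3) +
        (z.2 : ℝ) • (e : E3))) : E) - f (nrm e ((1 - (z.2 : ℝ)) • (z.1 : E3) +
        (z.2 : ℝ) • (e : E3)))‖) (y, t) := by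
      have c6 : ContinuousAt (fun z : S2 × I => ((y, z.2) : S2 × I)) (y, t) := by fun_prop
      have c7 : ContinuousAt (fun z : S2 × I => nrm e ((1 - (z.2 : ℝ)) • (y : E3) +
        (z.2 : ℝ) • (e : E3))) (y, t) :=
        ContinuousAt.comp (f := fun z : S2 × I => ((y, z.2) : S2 × I))
          (g := fun z : S2 × I => nrm e ((1 - (z.2 : ℝ)) • (z.1 : E3) +
            (z.2 : ℝ) • (e : E3))) c1 c6
      have cf : Continuous fun w : S2 => (f w : E) := by fun_prop
      exact ((cf.continuousAt.comp c7).sub (cf.continuousAt.comp c1)).norm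
    have c8 := c5.tendsto
    simp only [sub_self, norm_zero] at c8
    exact c8.eventually (gt_mem_nhds hη)
  filter_upwards [key] with y' hy' h' t
  exact hy' t (mem_univ _)

lemma ev_lt (f : C(S2, X)) (y : S2) {η : ℝ} (hη : 0 < η) :
    ∀ᶠ y' in 𝓝 y, ‖(f y : E) - f y'‖ < η := by
  have h2 : Continuous fun y' : S2 => ‖(f y : E) - f y'‖ := by fun_prop
  have h3 := h2.tendsto y
  simp only [sub_self, norm_zero] at h3
  exact h3.eventually (gt_mem_nhds hη)

/-- local parallelism on a set -/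
def LocOn (N : NR X) (f : C(S2, X)) {x0 : X} (c : ∀ y : S2, Path.Homotopic.Quotient (f y) x0)
    (U : Set S2) : Prop :=
  ∀ y ∈ U, ∀ᶠ y' in 𝓝 y, y' ∈ U ∧ ∀ h : ‖(f y : E) - f y'‖ < N.ε,
    c y' = (Path.Homotopic.Quotient.mk (N.sh h)).trans (c y)

instance : PathConnectedSpace S2 := by
  rw [← isPathConnected_iff_pathConnectedSpace]
  apply isPathConnected_sphere _ _ zero_le_one
  rw [← Module.finrank_eq_rank]
  simp only [finrank_euclideanSpace, Fintype.card_fin]
  norm_num

/-- classes from paths to `e` -/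
def cp (f : C(S2, X)) (e : S2) (y : S2) : Path.Homotopic.Quotient (f y) (f e) :=
  open Classical in
  if h : y ≠ anti e then Path.Homotopic.Quotient.mk ((gp e h).map f.continuous)
  else Path.Homotopic.Quotient.mk ((PathConnectedSpace.somePath y e).map f.continuous)

lemma cp_loc (N : NR X) (f : C(S2, X)) (e : S2) : LocOn N f (cp f e) {anti e}ᶜ := by
  intro y hy
  have hy' : y ≠ anti e := hy
  filter_upwards [isOpen_compl_singleton.mem_nhds hy, gp_near e f hy' N.ε0, ev_lt f y N.δ0]
    with y' h1 h2 h3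
  refine ⟨h1, fun h => ?_⟩
  have h1' : y' ≠ anti e := h1
  unfold cp
  rw [dif_pos h1', dif_pos hy', ← Path.Homotopic.Quotient.mk_trans, eq_comm,
    Path.Homotopic.Quotient.eq]
  exact N.move _ _ h3 (fun t => h2 h1' t)

lemma LocOn.trans {N : NR X} {f : C(S2, X)} {x0 x1 : X}
    {c : ∀ y : S2, Path.Homotopic.Quotient (f y) x0} {U : Set S2} (h : LocOn N f c U)
    (β : Path.Homotopic.Quotient x0 x1) : LocOn N f (fun y => (c y).trans β) U := by
  intro y hy
  filter_upwards [h y hy] with y' hy'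
  refine ⟨hy'.1, fun h => ?_⟩
  rw [hy'.2 h, Path.Homotopic.Quotient.trans_assoc]

lemma cancel_left {Y : Type} [TopologicalSpace Y] {x y z : Y} (p : Path.Homotopic.Quotient x y)
    (q q' : Path.Homotopic.Quotient y z) (h : p.trans q = p.trans q') : q = q' := by
  have h1 := congrArg (fun r => p.symm.trans r) h
  simp only [← Path.Homotopic.Quotient.trans_assoc, Path.Homotopic.Quotient.symm_trans,
    Path.Homotopic.Quotient.refl_trans] at h1
  exact h1

lemma LocOn.eq {N : NR X} {f : C(S2, X)} {x0 : X}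
    {c c' : ∀ y : S2, Path.Homotopic.Quotient (f y) x0} {U : Set S2} (h : LocOn N f c U)
    (h' : LocOn N f c' U) (hU : IsPreconnected U) {y1 : S2} (h1 : y1 ∈ U) (he : c y1 = c' y1)
    {y : S2} (hy : y ∈ U) : c y = c' y := by
  by_contra hcon
  have hloc : ∀ z ∈ U, ∀ᶠ z' in 𝓝 z, z' ∈ U ∧ (c z' = c' z' ↔ c z = c' z) := by
    intro z hz
    filter_upwards [h z hz, h' z hz, ev_lt f z N.ε0] with z' h2 h3 h4
    refine ⟨h2.1, ?_⟩
    rw [h2.2 h4, h3.2 h4]
    constructor
    · exact cancel_left _ _ _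
    · intro h5; rw [h5]
  have o1 : IsOpen {z | z ∈ U ∧ c z = c' z} := by
    rw [isOpen_iff_mem_nhds]
    rintro z ⟨hz, hz'⟩
    filter_upwards [hloc z hz] with z' h2
    exact ⟨h2.1, h2.2.2 hz'⟩
  have o2 : IsOpen {z | z ∈ U ∧ c z ≠ c' z} := by
    rw [isOpen_iff_mem_nhds]
    rintro z ⟨hz, hz'⟩
    filter_upwards [hloc z hz] with z' h2
    exact ⟨h2.1, fun h3 => hz' (h2.2.1 h3)⟩
  obtain ⟨z, _, hz1, hz2⟩ := hU _ _ o1 o2 (fun z hz => by
    by_cases h3 : c z = c' z
    · exact Or.inl ⟨hz, h3⟩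
    · exact Or.inr ⟨hz, h3⟩) ⟨y1, h1, h1, he⟩ ⟨y, hy, hy, hcon⟩
  exact hz2.2 hz1.2

lemma conn_punct (e : S2) : IsConnected ({e, anti e}ᶜ : Set S2) := by
  have h1 : IsConnected ((ℝ ∙ (e : E3) : Submodule ℝ E3)ᶜ : Set E3) := by
    apply isConnected_compl_of_one_lt_codim
    rw [← Module.finrank_eq_rank]
    have h2 := Submodule.finrank_quotient_add_finrank (ℝ ∙ (e : E3) : Submodule ℝ E3)
    rw [finrank_span_singleton (S2_ne_zero e)] at h2
    simp only [finrank_euclideanSpace, Fintype.card_fin] at h2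
    have h3 : Module.finrank ℝ (E3 ⧸ (ℝ ∙ (e : E3) : Submodule ℝ E3)) = 2 := by omega
    rw [h3]
    norm_num
  have h4 : ContinuousOn (nrm e) ((ℝ ∙ (e : E3) : Submodule ℝ E3)ᶜ : Set E3) := by
    rw [continuousOn_iff_continuous_domRestrict]
    apply continuous_nrm e (fun v : ((ℝ ∙ (e : E3) : Submodule ℝ E3)ᶜ : Set E3) => (v : E3))
      continuous_subtype_val
    rintro ⟨v, hv⟩ rfl
    exact hv (Submodule.zero_mem _)
  have h5 := h1.image _ h4
  convert h5 using 1
  ext z
  constructor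
  · intro hz
    refine ⟨z, ?_, nrm_self e z⟩
    intro hz'
    rw [SetLike.mem_coe, Submodule.mem_span_singleton] at hz'
    obtain ⟨s, hs⟩ := hz'
    apply hz
    have h6 := congrArg norm hs
    rw [norm_smul, norm_S2, norm_S2, mul_one, Real.norm_eq_abs] at h6
    rcases (abs_eq zero_le_one).1 h6 with h7 | h7
    · left
      apply Subtype.ext
      rw [← hs, h7, one_smul]
    · right
      apply Subtype.ext
      rw [← hs, h7, neg_one_smul]
      rfl
  · rintro ⟨v, hv, rfl⟩ hz
    have hv0 : v ≠ 0 := by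
      rintro rfl
      exact hv (Submodule.zero_mem _)
    apply hv
    rw [SetLike.mem_coe, Submodule.mem_span_singleton]
    have h8 : v = ‖v‖ • ((nrm e v : S2) : E3) := by
      rw [nrm_coe e hv0, smul_smul, mul_inv_cancel₀ (norm_ne_zero_iff.2 hv0), one_smul]
    rcases hz with hz | hz
    · refine ⟨‖v‖, ?_⟩
      rw [hz] at h8
      exact h8.symm
    · refine ⟨-‖v‖, ?_⟩
      have hz' : nrm e v = anti e := hz
      rw [hz', anti_coe] at h8
      rw [neg_smul, ← smul_neg]
      exact h8.symm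

lemma anti_ne (e : S2) : anti e ≠ e := by
  intro h
  have h1 : (e : E3) = -e := (congrArg Subtype.val h).symm
  have h2 : (2 : ℝ) • (e : E3) = 0 := by
    rw [two_smul]
    nth_rewrite 1 [h1]
    exact neg_add_cancel _
  rcases smul_eq_zero.1 h2 with h3 | h3
  · norm_num at h3
  · exact S2_ne_zero e h3

lemma exists_LocC (N : NR X) (f : C(S2, X)) (e : S2) :
    ∃ c : ∀ y : S2, Path.Homotopic.Quotient (f y) (f e), LocC N f c := by
  classical
  obtain ⟨y1, hy1⟩ := (conn_punct e).nonempty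
  have hae : anti (anti e) = e := by
    apply Subtype.ext
    rw [anti_coe, anti_coe, neg_neg]
  have L1 : LocOn N f (cp f e) {anti e}ᶜ := cp_loc N f e
  have L2' : LocOn N f (cp f (anti e)) {anti (anti e)}ᶜ := cp_loc N f (anti e)
  rw [hae] at L2'
  let β : Path.Homotopic.Quotient (f (anti e)) (f e) := (cp f (anti e) y1).symm.trans (cp f e y1)
  have L2 := L2'.trans β
  have heq : ∀ y ∈ ({e, anti e}ᶜ : Set S2), cp f e y = (cp f (anti e) y).trans β := by
    intro y hy
    have sub1 : ({e, anti e}ᶜ : Set S2) ⊆ {anti e}ᶜ := by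
      intro z hz hz'
      exact hz (Or.inr hz')
    have sub2 : ({e, anti e}ᶜ : Set S2) ⊆ {e}ᶜ := by
      intro z hz hz'
      exact hz (Or.inl hz')
    have oU : IsOpen ({e, anti e}ᶜ : Set S2) := (Set.toFinite _).isClosed.isOpen_compl
    refine LocOn.eq (N := N) (U := ({e, anti e}ᶜ : Set S2)) (c := cp f e)
      (c' := fun y => (cp f (anti e) y).trans β) ?_ ?_ (conn_punct e).isPreconnected hy1 ?_ hy
    · intro z hz
      filter_upwards [L1 z (sub1 hz), oU.mem_nhds hz] with z' h1 h2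
      exact ⟨h2, h1.2⟩
    · intro z hz
      filter_upwards [L2 z (sub2 hz), oU.mem_nhds hz] with z' h1 h2
      exact ⟨h2, h1.2⟩
    · change cp f e y1 = (cp f (anti e) y1).trans ((cp f (anti e) y1).symm.trans (cp f e y1))
      rw [← Path.Homotopic.Quotient.trans_assoc, Path.Homotopic.Quotient.trans_symm,
        Path.Homotopic.Quotient.refl_trans]
  have hne : anti e ≠ e := anti_ne e
  refine ⟨fun y => if y = anti e then (cp f (anti e) y).trans β else cp f e y, ?_⟩
  intro y
  by_cases hy : y = anti e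
  · have hy2 : y ∈ ({e}ᶜ : Set S2) := by
      rw [hy]; exact hne
    filter_upwards [L2 y hy2] with y' h1 h
    rw [if_pos hy]
    have h2 := h1.2 h
    split_ifs with h3
    · exact h2
    · rw [heq y' (by
        rintro (h4 | h4)
        · exact h1.1 h4
        · exact h3 h4)]
      exact h2
  · filter_upwards [L1 y hy] with y' h1 h
    have h1' : ¬ y' = anti e := h1.1
    rw [if_neg hy, if_neg h1']
    exact h1.2 h

lemma dom_S2 : Dom S2 X := by
  intro D hD x0 G
  obtain ⟨p, hp⟩ := (Set.ne_univ_iff_exists_notMem D).1 hD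
  let q : S2 := anti p
  refine ⟨ev ⟨q, mem_univ _⟩ G, ?_⟩
  have hne : ∀ y : D, ((y : S2) : E3) ≠ -(q : E3) := by
    intro y h
    apply hp
    have : (y : S2) = p := by
      apply Subtype.ext
      rw [h]
      change -(-(p : E3)) = p
      rw [neg_neg]
    rw [← this]
    exact y.2
  have cG : Continuous fun z : I × (univ : Set S2) => ((G z.1 z.2 : X) : E) :=
    continuous_uncurry_path isClosed_univ G
  let h : I × D → (univ : Set S2) := fun z =>
    ⟨nrm q ((1 - (z.1 : ℝ)) • ((z.2 : S2) : E3) + (z.1 : ℝ) • (q : E3)), mem_univ _⟩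
  have ch : Continuous h := by
    apply Continuous.subtype_mk
    exact continuous_nrm q _ (by fun_prop) (fun z => seg_ne_zero _ _ (hne z.2) z.1)
  have c1 : Continuous fun z : (I × I) × D => G z.1.2 (h (z.1.1, z.2)) := by
    rw [continuous_induced_rng]
    exact cG.comp ((continuous_snd.comp continuous_fst).prodMk
      (ch.comp ((continuous_fst.comp continuous_fst).prodMk continuous_snd)))
  refine ⟨⟨⟨(⟨_, c1⟩ : C((I × I) × D, X)).curry, ?_, ?_⟩, ?_⟩⟩
  · intro t
    ext y
    change ((G t (h (0, y)) : X) : E) = (G t ⟨y, mem_univ _⟩ : X)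
    have : h (0, y) = ⟨y, mem_univ _⟩ := by
      apply Subtype.ext
      simp [h, nrm_self]
    rw [this]
  · intro t
    ext y
    change ((G t (h (1, y)) : X) : E) = (G t ⟨q, mem_univ _⟩ : X)
    have : h (1, y) = ⟨q, mem_univ _⟩ := by
      apply Subtype.ext
      simp [h, nrm_self]
    rw [this]
  · intro s t ht
    simp only [mem_insert_iff, mem_singleton_iff] at ht
    rcases ht with rfl | rfl
    · ext y
      change ((G 0 (h (s, y)) : X) : E) = ((rs (subset_univ D) G) 0 y : X)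
      rw [G.source, (rs (subset_univ D) G).source]
      rfl
    · ext y
      change ((G 1 (h (s, y)) : X) : E) = ((rs (subset_univ D) G) 1 y : X)
      rw [G.target, (rs (subset_univ D) G).target]
      rfl

lemma homotopic_of_PO {S : Type} [MetricSpace S] [CompactSpace S] {a b : C(S, X)}
    (h : Nonempty (PO a b univ)) : a.Homotopic b := by
  obtain ⟨p⟩ := h
  have c1 : Continuous fun z : I × (univ : Set S) => ((p z.1 z.2 : X) : E) :=
    continuous_uncurry_path isClosed_univ p
  have c2 : Continuous fun z : I × S => (p z.1 ⟨z.2, mem_univ _⟩ : X) := by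
    rw [continuous_induced_rng]
    exact c1.comp (continuous_fst.prodMk (continuous_snd.subtype_mk _))
  refine ⟨⟨⟨_, c2⟩, ?_, ?_⟩⟩
  · intro y
    change p 0 ⟨y, mem_univ _⟩ = a y
    rw [p.source]
    rfl
  · intro y
    change p 1 ⟨y, mem_univ _⟩ = b y
    rw [p.target]
    rfl

end Pool.Agent.Helper111.HI
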