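import Pool.Agent.Helper111.HI6

set_option autoImplicit false
set_option linter.unusedSectionVars false
set_option linter.style.haveILetI false

open Set Filter Topology Metric
open scoped unitInterval

noncomputable section

namespace Pool.Agent.Helper111.HI

section limits

variable {T : Type} [TopologicalSpace T] [T2Space T] [CompactSpace T] {S : Type}
  [TopologicalSpace S]

/-- limit set of a sequence of images along an ultrafilter -/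
def lim (𝒰 : Ultrafilter ℕ) (Φ : ℕ → S → T) (D : ℕ → Set S) : Set T :=
  {x | ∀ V ∈ 𝓝 x, ∀ᶠ m in (𝒰 : Filter ℕ), ∃ y ∈ D m, Φ m y ∈ V}

lemma exists_lim (𝒰 : Ultrafilter ℕ) (z : ℕ → T) :
    ∃ x : T, ∀ V ∈ 𝓝 x, ∀ᶠ m in (𝒰 : Filter ℕ), z m ∈ V := by
  obtain ⟨x, _, hx⟩ := isCompact_univ.ultrafilter_le_nhds (𝒰.map z) (by simp)
  exact ⟨x, fun V hV => hx hV⟩

lemma mem_lim {𝒰 : Ultrafilter ℕ} {Φ : ℕ → S → T} {D : ℕ → Set S} {s : ℕ → S}
    (hs : ∀ᶠ m in (𝒰 : Filter ℕ), s m ∈ D m) {x : T}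
    (hx : ∀ V ∈ 𝓝 x, ∀ᶠ m in (𝒰 : Filter ℕ), Φ m (s m) ∈ V) : x ∈ lim 𝒰 Φ D := by
  intro V hV
  filter_upwards [hs, hx V hV] with m h1 h2
  exact ⟨s m, h1, h2⟩

lemma lim_closed_of (𝒰 : Ultrafilter ℕ) {z : ℕ → T} {x : T}
    (hx : ∀ V ∈ 𝓝 x, ∀ᶠ m in (𝒰 : Filter ℕ), z m ∈ V) {Q : Set T} (hQ : IsClosed Q)
    (hz : ∀ᶠ m in (𝒰 : Filter ℕ), z m ∈ Q) : x ∈ Q := by
  by_contra hcon
  obtain ⟨m, h1, h2⟩ := ((hx Qᶜ (hQ.isOpen_compl.mem_nhds hcon)).and hz).exists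
  exact h1 h2

lemma isClosed_lim (𝒰 : Ultrafilter ℕ) (Φ : ℕ → S → T) (D : ℕ → Set S) :
    IsClosed (lim 𝒰 Φ D) := by
  rw [← isOpen_compl_iff, isOpen_iff_mem_nhds]
  intro x hx
  simp only [lim, mem_compl_iff, mem_ofPred_eq, not_forall] at hx
  obtain ⟨V, hV, hV'⟩ := hx
  filter_upwards [interior_mem_nhds.2 hV] with y hy hy'
  apply hV'
  exact hy' V (mem_interior_iff_mem_nhds.1 hy)

lemma lim_subset (𝒰 : Ultrafilter ℕ) {Φ : ℕ → S → T} {D : ℕ → Set S} {Q : Set T}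
    (hQ : IsClosed Q) (h : ∀ᶠ m in (𝒰 : Filter ℕ), ∀ y ∈ D m, Φ m y ∈ Q) : lim 𝒰 Φ D ⊆ Q := by
  intro x hx
  by_contra hcon
  obtain ⟨m, ⟨y, hy, hy'⟩, h2⟩ := ((hx Qᶜ (hQ.isOpen_compl.mem_nhds hcon)).and h).exists
  exact hy' (h2 y hy)

lemma lim_sub_L (𝒰 : Ultrafilter ℕ) {Φ : ℕ → S → T} (D : ℕ → Set S) {L : Set T}
    (h : ∀ x ∉ L, ∃ V ∈ 𝓝 x, ∀ᶠ m in (𝒰 : Filter ℕ), ∀ y, Φ m y ∉ V) : lim 𝒰 Φ D ⊆ L := by
  intro x hx
  by_contra hcon
  obtain ⟨V, hV, h1⟩ := h x hcon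
  obtain ⟨m, ⟨y, _, hy'⟩, h2⟩ := ((hx V hV).and h1).exists
  exact h2 y hy'

lemma isConnected_lim (𝒰 : Ultrafilter ℕ) {Φ : ℕ → S → T} (hΦ : ∀ m, Continuous (Φ m))
    {D : ℕ → Set S} (hD : ∀ᶠ m in (𝒰 : Filter ℕ), IsConnected (D m)) (s0 : S) :
    IsConnected (lim 𝒰 Φ D) := by
  classical
  have hex : ∀ P : ℕ → S → Prop, (∀ᶠ m in (𝒰 : Filter ℕ), ∃ y ∈ D m, P m y) →
      ∃ s : ℕ → S, ∀ᶠ m in (𝒰 : Filter ℕ), s m ∈ D m ∧ P m (s m) := by
    intro P hP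
    refine ⟨fun m => if h : ∃ y ∈ D m, P m y then h.choose else s0, ?_⟩
    filter_upwards [hP] with m hm
    rw [dif_pos hm]
    exact hm.choose_spec
  refine ⟨?_, ?_⟩
  · obtain ⟨s, hs⟩ := hex (fun _ _ => True) (by
      filter_upwards [hD] with m hm
      obtain ⟨y, hy⟩ := hm.nonempty
      exact ⟨y, hy, trivial⟩)
    obtain ⟨x, hx⟩ := exists_lim 𝒰 (fun m => Φ m (s m))
    exact ⟨x, mem_lim (hs.mono fun m h => h.1) hx⟩
  · have hcl := isClosed_lim 𝒰 Φ D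
    rw [isPreconnected_iff_subset_of_fully_disjoint_closed hcl]
    intro u v hu hv huv hd
    obtain ⟨U1, U2, o1, o2, hU1, hU2, hdU⟩ := normal_separation (hcl.inter hu) (hcl.inter hv)
      (hd.mono inter_subset_right inter_subset_right)
    have e1 : ∀ᶠ m in (𝒰 : Filter ℕ), ∀ y ∈ D m, Φ m y ∈ U1 ∪ U2 := by
      by_contra hcon
      rw [← Ultrafilter.eventually_not] at hcon
      obtain ⟨s, hs⟩ := hex (fun m y => Φ m y ∉ U1 ∪ U2) (by
        filter_upwards [hcon] with m hm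
        push Not at hm
        exact hm)
      obtain ⟨x, hx⟩ := exists_lim 𝒰 (fun m => Φ m (s m))
      have h1 : x ∈ lim 𝒰 Φ D := mem_lim (hs.mono fun m h => h.1) hx
      have h2 : x ∈ (U1 ∪ U2)ᶜ := lim_closed_of 𝒰 hx (o1.union o2).isClosed_compl
        (hs.mono fun m h => h.2)
      rcases huv h1 with h3 | h3
      · exact h2 (Or.inl (hU1 ⟨h1, h3⟩))
      · exact h2 (Or.inr (hU2 ⟨h1, h3⟩))
    have e2 : ∀ᶠ m in (𝒰 : Filter ℕ), (∀ y ∈ D m, Φ m y ∈ U1) ∨ (∀ y ∈ D m, Φ m y ∈ U2) := by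
      filter_upwards [e1, hD] with m hm hDm
      have h1 := hDm.isPreconnected.image _ (hΦ m).continuousOn
      have h2 : Φ m '' D m ⊆ U1 ∪ U2 := by
        rintro _ ⟨y, hy, rfl⟩
        exact hm y hy
      rcases h1.subset_or_subset o1 o2 hdU h2 with h3 | h3
      · exact Or.inl fun y hy => h3 ⟨y, hy, rfl⟩
      · exact Or.inr fun y hy => h3 ⟨y, hy, rfl⟩
    rw [Ultrafilter.eventually_or] at e2
    rcases e2 with e3 | e3
    · left
      intro x hx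
      rcases huv hx with h3 | h3
      · exact h3
      · exfalso
        obtain ⟨m, ⟨y, hy, hy'⟩, h4⟩ := ((hx U2 (o2.mem_nhds (hU2 ⟨hx, h3⟩))).and e3).exists
        exact Set.disjoint_left.1 hdU (h4 y hy) hy'
    · right
      intro x hx
      rcases huv hx with h3 | h3
      · exfalso
        obtain ⟨m, ⟨y, hy, hy'⟩, h4⟩ := ((hx U1 (o1.mem_nhds (hU1 ⟨hx, h3⟩))).and e3).exists
        exact Set.disjoint_left.1 hdU hy' (h4 y hy)
      · exact h3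

/-- crookedness of maps close to a hereditarily indecomposable continuum -/
lemma crook_ev {Z : Type} [TopologicalSpace Z] (π : T → Z) (hπ : Continuous π) (L : Set T)
    (hL : ∀ A B : Set T, A ⊆ L → B ⊆ L → IsCompact A → IsConnected A → IsCompact B →
      IsConnected B → (A ∩ B).Nonempty → A ⊆ B ∨ B ⊆ A)
    (Φ : ℕ → S → T) (hΦ : ∀ m, Continuous (Φ m))
    (hΦL : ∀ x ∉ L, ∃ V ∈ 𝓝 x, ∀ᶠ m in atTop, ∀ y, Φ m y ∉ V)
    (A O B B' : Set Z) (hA : IsClosed A) (hO : IsOpen O) (hB : IsClosed B) (hB' : IsOpen B')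
    (hAO : A ⊆ O) (hBB : B ⊆ B') (s0 : S) :
    ∀ᶠ m in atTop, Crook (fun y => π (Φ m y)) A O B B' := by
  classical
  by_contra hcon
  rw [Filter.not_eventually] at hcon
  haveI : NeBot (atTop ⊓ 𝓟 {m | ¬ Crook (fun y => π (Φ m y)) A O B B'} : Filter ℕ) :=
    frequently_mem_iff_neBot.1 hcon
  let 𝒰 : Ultrafilter ℕ := Ultrafilter.of (atTop ⊓ 𝓟 {m | ¬ Crook (fun y => π (Φ m y)) A O B B'})
  have hU : (𝒰 : Filter ℕ) ≤ atTop ⊓ 𝓟 {m | ¬ Crook (fun y => π (Φ m y)) A O B B'} :=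
    Ultrafilter.of_le _
  have hU1 : (𝒰 : Filter ℕ) ≤ atTop := hU.trans inf_le_left
  have hU2 : ∀ᶠ m in (𝒰 : Filter ℕ), ¬ Crook (fun y => π (Φ m y)) A O B B' :=
    (hU.trans inf_le_right) (mem_principal_self _)
  have hdata : ∀ m, ∃ q : (Set S × Set S) × (S × S × S),
      ¬ Crook (fun y => π (Φ m y)) A O B B' →
      IsConnected q.1.1 ∧ IsConnected q.1.2 ∧ (q.2.1 ∈ q.1.1 ∧ q.2.1 ∈ q.1.2) ∧
      (∀ y ∈ q.1.1, π (Φ m y) ∈ A) ∧ (∀ y ∈ q.1.2, π (Φ m y) ∈ B) ∧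
      (q.2.2.1 ∈ q.1.2 ∧ π (Φ m q.2.2.1) ∉ O) ∧ (q.2.2.2 ∈ q.1.1 ∧ π (Φ m q.2.2.2) ∉ B') := by
    intro m
    by_cases hm : Crook (fun y => π (Φ m y)) A O B B'
    · exact ⟨((∅, ∅), (s0, s0, s0)), fun h => (h hm).elim⟩
    · unfold Crook at hm
      push Not at hm
      obtain ⟨D, C, _, hDc, _, hCc, ⟨z, hz1, hz2⟩, hDA, hCB, hCO, hDB⟩ := hm
      rw [Set.not_subset] at hCO hDB
      obtain ⟨a, ha, ha'⟩ := hCO
      obtain ⟨b, hb, hb'⟩ := hDB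
      exact ⟨((D, C), (z, a, b)), fun _ => ⟨hDc, hCc, ⟨hz2, hz1⟩, fun y hy => hDA hy,
        fun y hy => hCB hy, ⟨ha, ha'⟩, ⟨hb, hb'⟩⟩⟩
  choose q hq using hdata
  have hq' : ∀ᶠ m in (𝒰 : Filter ℕ), _ := hU2.mono (fun m hm => hq m hm)
  have hΦ' : ∀ x ∉ L, ∃ V ∈ 𝓝 x, ∀ᶠ m in (𝒰 : Filter ℕ), ∀ y, Φ m y ∉ V := by
    intro x hx
    obtain ⟨V, hV, h⟩ := hΦL x hx
    exact ⟨V, hV, hU1 h⟩
  set KD := lim 𝒰 Φ (fun m => (q m).1.1) with hKD
  set KC := lim 𝒰 Φ (fun m => (q m).1.2) with hKC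
  have cD : IsConnected KD := isConnected_lim 𝒰 hΦ (hq'.mono fun m h => h.1) s0
  have cC : IsConnected KC := isConnected_lim 𝒰 hΦ (hq'.mono fun m h => h.2.1) s0
  obtain ⟨z, hz⟩ := exists_lim 𝒰 (fun m => Φ m (q m).2.1)
  have hzD : z ∈ KD := mem_lim (hq'.mono fun m h => h.2.2.1.1) hz
  have hzC : z ∈ KC := mem_lim (hq'.mono fun m h => h.2.2.1.2) hz
  obtain ⟨a, ha⟩ := exists_lim 𝒰 (fun m => Φ m (q m).2.2.1)
  have haC : a ∈ KC := mem_lim (hq'.mono fun m h => h.2.2.2.2.2.1.1) ha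
  have haO : a ∈ π ⁻¹' Oᶜ := lim_closed_of 𝒰 ha (hO.isClosed_compl.preimage hπ)
    (hq'.mono fun m h => h.2.2.2.2.2.1.2)
  obtain ⟨b, hb⟩ := exists_lim 𝒰 (fun m => Φ m (q m).2.2.2)
  have hbD : b ∈ KD := mem_lim (hq'.mono fun m h => h.2.2.2.2.2.2.1) hb
  have hbB : b ∈ π ⁻¹' B'ᶜ := lim_closed_of 𝒰 hb (hB'.isClosed_compl.preimage hπ)
    (hq'.mono fun m h => h.2.2.2.2.2.2.2)
  have hDA : KD ⊆ π ⁻¹' A := lim_subset 𝒰 (hA.preimage hπ) (hq'.mono fun m h => h.2.2.2.1)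
  have hCB : KC ⊆ π ⁻¹' B := lim_subset 𝒰 (hB.preimage hπ) (hq'.mono fun m h => h.2.2.2.2.1)
  rcases hL KD KC (lim_sub_L 𝒰 _ hΦ') (lim_sub_L 𝒰 _ hΦ') (isClosed_lim _ _ _).isCompact cD
    (isClosed_lim _ _ _).isCompact cC ⟨z, hzD, hzC⟩ with h | h
  · exact hbB (hBB (hCB (h hbD)))
  · exact haO (hAO (hDA (h haC)))

end limits

section inverse

/-- sequences of maps compatible up to stage `m` -/
lemma exists_g {S : Type} [TopologicalSpace S] {X : ℕ → Type} [∀ n, TopologicalSpace (X n)]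
    (P : ∀ n, C(X (n + 1), X n)) (m : ℕ) : ∀ F : ∀ n, C(S, X n),
    (∀ n, (F n).Homotopic ((P n).comp (F (n + 1)))) →
    ∃ g : ∀ n, C(S, X n), (∀ n < m, g n = (P n).comp (g (n + 1))) ∧ (∀ n, m ≤ n → g n = F n) ∧
      ∀ n, (g n).Homotopic (F n) := by
  classical
  induction m with
  | zero =>
    intro F hF
    exact ⟨F, fun n hn => (Nat.not_lt_zero n hn).elim, fun n _ => rfl,
      fun n => ContinuousMap.Homotopic.refl _⟩
  | succ m ih =>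
    intro F hF
    have h0 : (Function.update F m ((P m).comp (F (m + 1)))) m = (P m).comp (F (m + 1)) :=
      Function.update_self _ _ _
    have hne : ∀ n, n ≠ m → (Function.update F m ((P m).comp (F (m + 1)))) n = F n :=
      fun n hn => Function.update_of_ne hn _ _
    have hG : ∀ n, ((Function.update F m ((P m).comp (F (m + 1)))) n).Homotopic (F n) := by
      intro n
      by_cases hn : n = m
      · subst hn
        rw [h0]
        exact (hF n).symm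
      · rw [hne n hn]
    obtain ⟨g, h1, h2, h3⟩ := ih (Function.update F m ((P m).comp (F (m + 1)))) (by
      intro n
      exact ((hG n).trans (hF n)).trans
        ((ContinuousMap.Homotopic.refl (P n)).comp (hG (n + 1)).symm))
    refine ⟨g, ?_, ?_, fun n => (h3 n).trans (hG n)⟩
    · intro n hn
      rcases Nat.lt_succ_iff_lt_or_eq.1 hn with h | rfl
      · exact h1 n h
      · rw [h2 n le_rfl, h0, h2 (n + 1) (Nat.le_succ n), hne (n + 1) (by omega)]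
    · intro n hn
      rw [h2 n (by omega), hne n (by omega)]

end inverse

end Pool.Agent.Helper111.HI
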