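import Pool.Agent.Helper111.HI7

set_option autoImplicit false
set_option linter.unusedSectionVars false
set_option linter.style.haveILetI false

open Set Filter Topology Metric
open scoped unitInterval

noncomputable section

namespace Pool.Agent.Helper111.HI

/-- the radii -/
def rad (δ : ℝ) (k : ℕ) : ℝ := δ / 8 * (1 + 1 / ((k : ℝ) + 1))

lemma rad_zero (δ : ℝ) : rad δ 0 = δ / 4 := by
  unfold rad; norm_num; ring

lemma rad_strict {δ : ℝ} (hδ : 0 < δ) : StrictAnti (rad δ) := by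
  intro a b hab
  unfold rad
  have h1 : (a : ℝ) + 1 < (b : ℝ) + 1 := by
    have : (a : ℝ) < b := by exact_mod_cast hab
    linarith
  have h2 : (0 : ℝ) < (a : ℝ) + 1 := by positivity
  have h3 := one_div_lt_one_div_of_lt h2 h1
  have h4 : 0 < δ / 8 := by positivity
  nlinarith

lemma rad_gt {δ : ℝ} (hδ : 0 < δ) (k : ℕ) : δ / 8 < rad δ k := by
  unfold rad
  have h2 : (0 : ℝ) < 1 / ((k : ℝ) + 1) := by positivity
  have h4 : 0 < δ / 8 := by positivity
  nlinarith

lemma exists_cover {E : Type} [NormedAddCommGroup E] {X : Set E} (hX : IsCompact X)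
    [Nonempty X] {η : ℝ} (hη : 0 < η) :
    ∃ (x : ℕ → X) (n : ℕ), ∀ z : X, ∃ i < n, ‖(z : E) - x i‖ < η := by
  haveI : CompactSpace X := isCompact_iff_compactSpace.1 hX
  refine ⟨TopologicalSpace.denseSeq X, ?_⟩
  have hop : ∀ n : ℕ,
      IsOpen {z : X | ∃ i < n, ‖(z : E) - TopologicalSpace.denseSeq X i‖ < η} := by
    intro n
    have : {z : X | ∃ i < n, ‖(z : E) - TopologicalSpace.denseSeq X i‖ < η} =
        ⋃ i ∈ Set.Iio n, {z : X | ‖(z : E) - TopologicalSpace.denseSeq X i‖ < η} := by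
      ext z; simp
    rw [this]
    exact isOpen_biUnion fun i _ => isOpen_lt (by fun_prop) continuous_const
  have hcov : (univ : Set X) ⊆
      ⋃ n : ℕ, {z : X | ∃ i < n, ‖(z : E) - TopologicalSpace.denseSeq X i‖ < η} := by
    intro z _
    have h1 := TopologicalSpace.denseRange_denseSeq X
    obtain ⟨i, hi⟩ := h1.exists_mem_open (isOpen_lt (f := fun w : X => ‖(z : E) - w‖)
      (g := fun _ => η) (by fun_prop) continuous_const) ⟨z, by simpa using hη⟩
    exact mem_iUnion.2 ⟨i + 1, i, Nat.lt_succ_self i, hi⟩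
  have hdir : Directed (· ⊆ ·)
      fun n : ℕ => {z : X | ∃ i < n, ‖(z : E) - TopologicalSpace.denseSeq X i‖ < η} := by
    refine directed_of_isDirected_le ?_
    intro a b hab z ⟨i, hi, h⟩
    exact ⟨i, hi.trans_le hab, h⟩
  obtain ⟨n, hn⟩ := isCompact_univ.elim_directed_cover _ hop hcov hdir
  exact ⟨n, fun z => hn (mem_univ z)⟩

/-- the main theorem, abstract form -/
lemma main {k : ℕ → ℕ} (X : ∀ n, Set (EuclideanSpace ℝ (Fin (k n))))
    (P : ∀ n, C(↥(X (n+1)), ↥(X n))) (F : ∀ n, C(S2, ↥(X n)))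
    (hX : ∀ n, IsCompact (X n)) (N : NR (X 0))
    (hnest : ∀ A B : Set (∀ n, ↥(X n)),
          A ⊆ {x : ∀ n, ↥(X n) | ∀ n, P n (x (n+1)) = x n} →
          B ⊆ {x : ∀ n, ↥(X n) | ∀ n, P n (x (n+1)) = x n} →
          IsCompact A → IsConnected A → IsCompact B → IsConnected B →
          (A ∩ B).Nonempty → A ⊆ B ∨ B ⊆ A)
    (hF : ∀ n, (F n).Homotopic ((P n).comp (F (n+1)))) :
    ∃ c : ↥(X 0), (F 0).Homotopic (ContinuousMap.const _ c) := by
  haveI : ∀ n, CompactSpace (X n) := fun n => isCompact_iff_compactSpace.1 (hX n)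
  haveI : TietzeExtension.{0, 0} (EuclideanSpace ℝ (Fin (k 0))) :=
    TietzeExtension.of_homeo (EuclideanSpace.equiv (Fin (k 0)) ℝ).toHomeomorph
  choose g hg1 hg2 hg3 using fun m => exists_g P m F hF
  obtain ⟨e⟩ : Nonempty S2 := inferInstance
  haveI : Nonempty (X 0) := ⟨F 0 e⟩
  obtain ⟨x, n, hx⟩ := exists_cover (hX 0) (η := N.δ / 8) (by have := N.δ0; positivity)
  have key : ∀ᶠ m in atTop, Crk (g m 0) x (rad N.δ) n := by
    have h1 : ∀ j k', k' < n → j < k' → ∀ᶠ m in atTop, Crook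
        (fun y : S2 => (g m 0 y : EuclideanSpace ℝ (Fin (k 0))))
        {z | ‖z - x k'‖ ≤ rad N.δ (k' + 1) ∧ ∃ i < j + 1, ‖z - x i‖ ≤ rad N.δ (k' + 1)}
        {z | ‖z - x k'‖ < rad N.δ k' ∧ ∃ i < j + 1, ‖z - x i‖ < rad N.δ k'}
        {z | rad N.δ k' ≤ ‖z - x j‖} {z | rad N.δ (k' + 1) < ‖z - x j‖} := by
      intro j k' _ _
      have hlt : rad N.δ (k' + 1) < rad N.δ k' := rad_strict N.δ0 (Nat.lt_succ_self k')
      refine crook_ev (fun z : ∀ n, X n => (z 0 : EuclideanSpace ℝ (Fin (k 0))))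
        (by fun_prop) _ hnest (fun m y i => g m i y) (fun m => by fun_prop) ?_ _ _ _ _
        ?_ ?_ ?_ ?_ ?_ ?_ e
      · intro z hz
        simp only [mem_ofPred_eq, not_forall] at hz
        obtain ⟨i, hi⟩ := hz
        refine ⟨{w | P i (w (i + 1)) ≠ w i}, ?_, ?_⟩
        · exact (isOpen_ne_fun (by fun_prop) (by fun_prop)).mem_nhds hi
        · filter_upwards [eventually_gt_atTop i] with m hm y hy
          apply hy
          exact (DFunLike.congr_fun (hg1 m i hm) y).symm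
      · have : {z : EuclideanSpace ℝ (Fin (k 0)) | ‖z - x k'‖ ≤ rad N.δ (k' + 1) ∧
            ∃ i < j + 1, ‖z - x i‖ ≤ rad N.δ (k' + 1)} =
            {z : EuclideanSpace ℝ (Fin (k 0)) | ‖z - x k'‖ ≤ rad N.δ (k' + 1)} ∩
              ⋃ i ∈ Set.Iio (j + 1),
                {z : EuclideanSpace ℝ (Fin (k 0)) | ‖z - x i‖ ≤ rad N.δ (k' + 1)} := by
          ext z; simp
        rw [this]
        refine IsClosed.inter (isClosed_le (by fun_prop) continuous_const) ?_
        exact (Set.finite_Iio _).isClosed_biUnion fun i _ =>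
          isClosed_le (by fun_prop) continuous_const
      · have : {z : EuclideanSpace ℝ (Fin (k 0)) | ‖z - x k'‖ < rad N.δ k' ∧
            ∃ i < j + 1, ‖z - x i‖ < rad N.δ k'} =
            {z : EuclideanSpace ℝ (Fin (k 0)) | ‖z - x k'‖ < rad N.δ k'} ∩
              ⋃ i ∈ Set.Iio (j + 1),
                {z : EuclideanSpace ℝ (Fin (k 0)) | ‖z - x i‖ < rad N.δ k'} := by
          ext z; simp
        rw [this]
        refine IsOpen.inter (isOpen_lt (by fun_prop) continuous_const) ?_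
        exact isOpen_biUnion fun i _ => isOpen_lt (by fun_prop) continuous_const
      · exact isClosed_le continuous_const (by fun_prop)
      · exact isOpen_lt continuous_const (by fun_prop)
      · rintro z ⟨h1, i, hi, h2⟩
        exact ⟨h1.trans_lt hlt, i, hi, h2.trans_lt hlt⟩
      · intro z hz
        exact lt_of_lt_of_le hlt hz
    have h2 : ∀ᶠ m in atTop, ∀ k' ∈ Set.Iio n, ∀ j ∈ Set.Iio k', Crook
        (fun y : S2 => (g m 0 y : EuclideanSpace ℝ (Fin (k 0))))
        {z | ‖z - x k'‖ ≤ rad N.δ (k' + 1) ∧ ∃ i < j + 1, ‖z - x i‖ ≤ rad N.δ (k' + 1)}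
        {z | ‖z - x k'‖ < rad N.δ k' ∧ ∃ i < j + 1, ‖z - x i‖ < rad N.δ k'}
        {z | rad N.δ k' ≤ ‖z - x j‖} {z | rad N.δ (k' + 1) < ‖z - x j‖} := by
      rw [Filter.eventually_all_finite (Set.finite_Iio n)]
      intro k' hk'
      rw [Filter.eventually_all_finite (Set.finite_Iio k')]
      intro j hj
      exact h1 j k' hk' hj
    filter_upwards [h2] with m hm j k' hj hk'
    exact hm k' hk' j hj
  obtain ⟨m, hm⟩ := key.exists
  obtain ⟨c, hc⟩ := exists_LocC N (g m 0) e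
  refine ⟨g m 0 e, (hg3 m 0).symm.trans ?_⟩
  apply homotopic_of_PO
  refine null_of_crook N (g m 0) c hc x (rad N.δ) (rad_strict N.δ0).antitone
    (rad_zero N.δ).le dom_S2 n hm ?_
  intro y
  obtain ⟨i, hi, h⟩ := hx (g m 0 y)
  exact ⟨i, hi, (h.trans (rad_gt N.δ0 n)).le⟩

end Pool.Agent.Helper111.HI
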