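import Pool.Agent.Helper111.CTAlg

set_option autoImplicit false

namespace Pool.Agent.Helper111.CT

open Equiv Pool.Agent.Helper111.Recon

theorem exists_split_nat (a : ℕ) : ∀ M : ℕ, 0 < M → ∃ M1 M2 K : ℕ, M = M1 * M2 ∧ M1 ∣ a ^ K ∧
    Nat.Coprime M2 a := by
  intro M
  induction M using Nat.strong_induction_on with
  | _ M ih =>
    intro hM
    by_cases hc : Nat.Coprime M a
    · exact ⟨1, M, 0, by simp, by simp, hc⟩
    · obtain ⟨M', hM'⟩ := Nat.gcd_dvd_left M a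
      have hg : 1 < Nat.gcd M a := by
        have h1 : Nat.gcd M a ≠ 1 := hc
        have h2 : 0 < Nat.gcd M a := Nat.gcd_pos_of_pos_left _ hM
        omega
      have hM'0 : 0 < M' := by
        rcases Nat.eq_zero_or_pos M' with h | h
        · rw [h, mul_zero] at hM'; omega
        · exact h
      obtain ⟨M1, M2, K, h1, h2, h3⟩ := ih M' (by
        rw [hM']
        nlinarith) hM'0
      refine ⟨Nat.gcd M a * M1, M2, K + 1, ?_, ?_, h3⟩
      · rw [mul_assoc, ← h1]; exact hM'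
      · rw [pow_succ']
        exact mul_dvd_mul (Nat.gcd_dvd_right M a) h2

theorem exists_split {a M : ℤ} (ha : 0 < a) (hM : 0 < M) : ∃ M1 M2 : ℤ, ∃ K : ℕ, 0 < M1 ∧ 0 < M2 ∧
    M = M1 * M2 ∧ M1 ∣ a ^ K ∧ IsCoprime M2 a := by
  obtain ⟨a, rfl⟩ := Int.eq_ofNat_of_zero_le ha.le
  obtain ⟨M, rfl⟩ := Int.eq_ofNat_of_zero_le hM.le
  obtain ⟨M1, M2, K, h1, h2, h3⟩ := exists_split_nat a M (by exact_mod_cast hM)
  have hM' : 0 < M := by exact_mod_cast hM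
  rw [h1] at hM'
  have p1 : 0 < M1 := Nat.pos_of_mul_pos_right hM' 
  have p2 : 0 < M2 := Nat.pos_of_mul_pos_left hM'
  exact ⟨M1, M2, K, by exact_mod_cast p1, by exact_mod_cast p2, by exact_mod_cast h1,
    by exact_mod_cast h2, Nat.isCoprime_iff_coprime.2 h3⟩

theorem dvd_of_pow_dvd {M m z : ℤ} (hM : 0 < M) (hz : z ≠ 0)
    (h : ∀ i : ℕ, M ^ i ∣ m ^ i * z) : M ∣ m := by
  obtain ⟨d, hd⟩ : ∃ d : ℕ, d = Int.gcd M m := ⟨_, rfl⟩
  obtain ⟨M0, hM0⟩ := Int.gcd_dvd_left M m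
  obtain ⟨m0, hm0⟩ := Int.gcd_dvd_right M m
  rw [← hd] at hM0 hm0
  have hd0 : 0 < d := by
    rw [hd]; exact Int.gcd_pos_of_ne_zero_left _ hM.ne'
  have hd0' : (0 : ℤ) < d := by exact_mod_cast hd0
  have hM0pos : 0 < M0 := by
    by_contra hc
    have : (d : ℤ) * M0 ≤ 0 := mul_nonpos_of_nonneg_of_nonpos hd0'.le (by linarith)
    linarith
  have hcop : IsCoprime M0 m0 := by
    have h1 := Int.gcd_eq_gcd_ab M m
    rw [← hd] at h1
    refine ⟨Int.gcdA M m, Int.gcdB M m, ?_⟩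
    apply mul_left_cancel₀ hd0'.ne'
    calc (d : ℤ) * (Int.gcdA M m * M0 + Int.gcdB M m * m0)
        = (d * M0) * Int.gcdA M m + (d * m0) * Int.gcdB M m := by ring
      _ = M * Int.gcdA M m + m * Int.gcdB M m := by rw [← hM0, ← hm0]
      _ = d * 1 := by rw [← h1]; ring
  have key : ∀ i : ℕ, M0 ^ i ∣ z := by
    intro i
    have h1 := h i
    rw [hM0, hm0, mul_pow, mul_pow, mul_assoc] at h1
    have h2 := (mul_dvd_mul_iff_left (pow_ne_zero i hd0'.ne')).1 h1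
    exact (hcop.pow (m := i) (n := i)).dvd_of_dvd_mul_left h2
  have hone : M0 = 1 := by
    by_contra hne
    have h2 : 2 ≤ M0 := by omega
    have h3 := Int.le_of_dvd (abs_pos.2 hz) ((dvd_abs _ _).2 (key z.natAbs))
    have h4 : (2 : ℤ) ^ z.natAbs ≤ M0 ^ z.natAbs := pow_le_pow_left₀ (by norm_num) h2 _
    have h5 : z.natAbs < 2 ^ z.natAbs := Nat.lt_two_pow_self
    have h6 : (z.natAbs : ℤ) < 2 ^ z.natAbs := by exact_mod_cast h5
    rw [Int.abs_eq_natAbs] at h3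
    linarith
  rw [hone, mul_one] at hM0
  rw [hM0]
  exact ⟨m0, hm0⟩

/-- good sets of moduli -/
structure Adm2 (Mo : ℤ → Prop) : Prop extends Adm Mo where
  pos : ∀ m, Mo m → 0 < m
  dvd : ∀ a m, Mo m → 0 < a → a ∣ m → Mo a

theorem split_coprime {Mo : ℤ → Prop} (hMo : Adm2 Mo) (v : ℤ) (hv : v ≠ 0) :
    ∃ v1 v2 : ℤ, v = v1 * v2 ∧ Mo v1 ∧ ∀ w, Mo w → IsCoprime v2 w := by
  classical
  -- the largest admissible divisor
  have hne : ((Nat.divisors v.natAbs).filter (fun d : ℕ => Mo (d : ℤ))).Nonempty :=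
    ⟨1, by simp [hv, hMo.one]⟩
  obtain ⟨d, hd, hmax⟩ := Finset.exists_max_image _ (fun d : ℕ => d) hne
  rw [Finset.mem_filter, Nat.mem_divisors] at hd
  obtain ⟨⟨hdv, _⟩, hMd⟩ := hd
  have hdv' : (d : ℤ) ∣ v := Int.natCast_dvd.2 hdv
  obtain ⟨v2, hv2⟩ := hdv'
  refine ⟨d, v2, hv2, hMd, ?_⟩
  intro w hw
  by_contra hnc
  have hg : Nat.gcd v2.natAbs w.natAbs ≠ 1 := by
    intro h
    apply hnc
    rw [Int.isCoprime_iff_gcd_eq_one]; exact h
  obtain ⟨q, hq, hqd⟩ := Nat.exists_prime_and_dvd hg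
  have hq1 : q ∣ v2.natAbs := dvd_trans hqd (Nat.gcd_dvd_left _ _)
  have hq2 : q ∣ w.natAbs := dvd_trans hqd (Nat.gcd_dvd_right _ _)
  have hMq : Mo (q : ℤ) := hMo.dvd _ w hw (by exact_mod_cast hq.pos) (Int.natCast_dvd.2 hq2)
  have hmem : d * q ∈ (Nat.divisors v.natAbs).filter (fun d : ℕ => Mo (d : ℤ)) := by
    rw [Finset.mem_filter, Nat.mem_divisors]
    refine ⟨⟨?_, by simpa using hv⟩, ?_⟩
    · rw [hv2, Int.natAbs_mul, Int.natAbs_natCast]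
      exact mul_dvd_mul (dvd_refl _) hq1
    · push_cast; exact hMo.mul _ _ hMd hMq
  have h1 := hmax _ hmem
  have hdpos : 0 < d := by exact_mod_cast hMo.pos _ hMd
  have := hq.two_le
  nlinarith

/-- Euler type congruence -/
theorem pow_congr {a b : ℕ} (hab : Nat.Coprime b a) (K : ℕ) :
    (a : ℤ) ^ (K + 1) ∣ (b : ℤ) ^ (a.totient * a ^ K) - 1 := by
  induction K with
  | zero =>
    have := Nat.ModEq.pow_totient hab
    have h2 := (Nat.modEq_iff_dvd.1 this.symm)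
    push_cast at h2
    simpa using h2
  | succ K ih =>
    obtain ⟨t, ht⟩ := ih
    rw [pow_succ a K, ← mul_assoc, pow_mul]
    set x : ℤ := (b : ℤ) ^ (a.totient * a ^ K) with hx
    -- x = 1 + a^(K+1) t
    have h1 : x ^ a - 1 = (x - 1) * ∑ i ∈ Finset.range a, x ^ i := by
      rw [mul_comm]; exact (geom_sum_mul x a).symm
    have h2 : (a : ℤ) ∣ ∑ i ∈ Finset.range a, x ^ i := by
      have h3 : (a : ℤ) ∣ ∑ i ∈ Finset.range a, (x ^ i - 1) := by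
        apply Finset.dvd_sum
        intro i _
        have h4 : x - 1 ∣ x ^ i - 1 := by
          have := sub_dvd_pow_sub_pow x 1 i
          rwa [one_pow] at this
        have h5 : (a : ℤ) ∣ x - 1 := by
          rw [ht, pow_succ]; exact ⟨a ^ K * t, by ring⟩
        exact dvd_trans h5 h4
      rw [Finset.sum_sub_distrib, Finset.sum_const, Finset.card_range] at h3
      have h6 := dvd_add h3 (show (a : ℤ) ∣ a • (1 : ℤ) by simp)
      simpa using h6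
    rw [h1, pow_succ (a : ℤ) (K + 1)]
    exact mul_dvd_mul ⟨t, ht⟩ h2


theorem mem_img_pow {g : Perm ℤ} {D : Set ℤ} {y : ℤ} (n : ℕ) (hy : y ∈ D) :
    (g ^ n) y ∈ (g ^ n : Perm ℤ) '' D := ⟨y, hy, rfl⟩

/-- the behaviour of a full element fixing the filter, in the coordinate `v2 * y - u2` -/
theorem local_mult {Mo : ℤ → Prop} (hMo : Adm2 Mo) {F : Set (Set ℤ)}
    (hF2 : ∀ b ∈ F, ∀ b' ∈ F, (b ∩ b').Nonempty)
    (hF3 : ∀ w, Mo w → ∃ s : ℤ, {y : ℤ | w ∣ y - s} ∈ F)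
    {v2 u2 : ℤ} (hZ : ∀ w, Mo w → {y : ℤ | w ∣ v2 * y - u2} ∈ F)
    {f : Perm ℤ} (hf : Full Mo f) (hFf : ∀ b ∈ F, f '' b ∈ F) :
    ∃ M m : ℤ, 0 < M ∧ Mo M ∧ 0 < m ∧ Mo m ∧
      ∀ y : ℤ, M ∣ v2 * y - u2 → (∀ x : ℤ, M ∣ v2 * x - u2 → M ∣ x - y) →
        M * (v2 * f y - u2) = m * (v2 * y - u2) := by
  obtain ⟨M, hM, hMM, h⟩ := hf
  obtain ⟨s0, hs0⟩ := hF3 M hMM
  obtain ⟨c, m, h1, h2, h3, h4⟩ := h (s0 % M) (Int.emod_nonneg _ hM.ne')
    (Int.emod_lt_of_pos _ hM)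
  refine ⟨M, m, hM, hMM, by linarith, h3, ?_⟩
  intro y hy hyu
  set r := s0 % M with hr
  -- the constant
  set κ : ℤ := v2 * (M * c - m * r) - (M - m) * u2 with hκ
  have hform : ∀ x : ℤ, M ∣ x - s0 → M * (v2 * f x - u2) - m * (v2 * x - u2) = κ := by
    intro x hx
    have e1 := Int.emod_add_mul_ediv s0 M
    obtain ⟨k, hk⟩ := hx
    have e2 : x = r + M * (s0 / M + k) := by rw [hr]; linear_combination hk - e1
    rw [e2, h4, hκ]; ring
  have hκ0 : κ = 0 := by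
    by_contra hne
    set t := κ.natAbs with ht
    have hw : Mo (M * 2 ^ t) := hMo.mul _ _ hMM (two_pow_mem hMo.toAdm t)
    have hw' : Mo (2 ^ t) := two_pow_mem hMo.toAdm t
    obtain ⟨s1, hs1⟩ := hF3 (M * 2 ^ t) hw
    have A := hF2 _ hs0 _ hs1
    obtain ⟨x0, hx0, hx1⟩ := A
    simp only [Set.mem_ofPred_eq] at hx0 hx1
    have hs10 : M ∣ s1 - s0 := by
      have h5 : M ∣ x0 - s1 := dvd_trans ⟨2 ^ t, rfl⟩ hx1
      have := dvd_sub hx0 h5
      rwa [show x0 - s0 - (x0 - s1) = s1 - s0 by ring] at this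
    have A3 := hF2 _ hs1 _ (hZ _ hw')
    obtain ⟨x1, hx2, hx3⟩ := A3
    simp only [Set.mem_ofPred_eq] at hx2 hx3
    have A2 := hF2 _ (hFf _ hs1) _ (hZ _ hw')
    obtain ⟨z, ⟨x, hx, hxz⟩, hz⟩ := A2
    simp only [Set.mem_ofPred_eq] at hx hz
    have h6 : (2 : ℤ) ^ t ∣ v2 * x - u2 := by
      have h7 : (2 : ℤ) ^ t ∣ x - s1 := dvd_trans ⟨M, by ring⟩ hx
      have h8 : (2 : ℤ) ^ t ∣ x1 - s1 := dvd_trans ⟨M, by ring⟩ hx2
      have h9 := dvd_sub h7 h8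
      have h10 := dvd_add hx3 (Dvd.dvd.mul_left h9 v2)
      rwa [show v2 * x1 - u2 + v2 * (x - s1 - (x1 - s1)) = v2 * x - u2 by ring] at h10
    have h7 : M ∣ x - s0 := by
      have h5 : M ∣ x - s1 := dvd_trans ⟨2 ^ t, rfl⟩ hx
      have := dvd_add h5 hs10
      rwa [show x - s1 + (s1 - s0) = x - s0 by ring] at this
    have h8 := hform x h7
    rw [← hxz] at hz
    have h9 : (2 : ℤ) ^ t ∣ κ := by
      rw [← h8]
      exact dvd_sub (Dvd.dvd.mul_left hz M) (Dvd.dvd.mul_left h6 m)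
    have h10 := Int.le_of_dvd (abs_pos.2 hne) ((dvd_abs _ _).2 h9)
    have h5 : t < 2 ^ t := Nat.lt_two_pow_self
    have h6 : (t : ℤ) < 2 ^ t := by exact_mod_cast h5
    rw [Int.abs_eq_natAbs, ← ht] at h10
    linarith
  have hy' : M ∣ y - s0 := by
    obtain ⟨x, hx0, hx1⟩ := hF2 _ hs0 _ (hZ _ hMM)
    simp only [Set.mem_ofPred_eq] at hx0 hx1
    have := dvd_sub hx0 (hyu x hx1)
    rwa [show x - s0 - (x - y) = y - s0 by ring] at this
  have := hform y hy'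
  rw [hκ0] at this
  linarith

theorem qside {Mo : ℤ → Prop} (hMo : Adm2 Mo) {F : Set (Set ℤ)} (hF1 : ∀ b ∈ F, b ∈ PB Mo)
    (hF2 : ∀ b ∈ F, ∀ b' ∈ F, (b ∩ b').Nonempty)
    (hF3 : ∀ w, Mo w → ∃ s : ℤ, {y : ℤ | w ∣ y - s} ∈ F)
    {g h : Perm ℤ} (hg : Full Mo g) (hh : Full Mo h)
    (hFg : ∀ b ∈ F, g '' b ∈ F) (hFh : ∀ b ∈ F, h '' b ∈ F)
    {p : ℕ} (hp : p.Prime)
    (hD : ∀ V ∈ F, ∀ j : ℕ, ∃ N : ℕ, 0 < N ∧ p ^ j ∣ N ∧ ∃ D ∈ PB Mo,
        D.Nonempty ∧ (∀ i : ℕ, (g ^ i : Perm ℤ) '' D ⊆ V) ∧ (∀ i : ℕ, (h ^ i : Perm ℤ) '' D ⊆ V) ∧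
        (∀ U ∈ F, ∃ n : ℕ, ((g ^ n : Perm ℤ) '' D ∩ U).Nonempty) ∧
        (∀ i : ℕ, ¬ N ∣ i → D ∩ (h ^ i : Perm ℤ) '' D = ∅) ∧
        (∀ i : ℕ, N ∣ i → ∃ U ∈ F,
          ∀ n : ℕ, (g ^ n : Perm ℤ) '' (D \ (h ^ i : Perm ℤ) '' D) ∩ U = ∅) ∧
        Dᶜ ∈ F) : Mo (p : ℤ) := by
  -- Step 1, 2, 3: the fixed point
  obtain ⟨v, u, hv, hvu⟩ : ∃ v u : ℤ, v ≠ 0 ∧ ∀ w s : ℤ, Mo w → {y : ℤ | w ∣ y - s} ∈ F →
      w ∣ v * s - u := by
    obtain ⟨M, hM, hMM, h'⟩ := hg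
    obtain ⟨s0, hs0⟩ := hF3 M hMM
    obtain ⟨c, m, h1, h2, h3, h4⟩ := h' (s0 % M) (Int.emod_nonneg _ hM.ne')
      (Int.emod_lt_of_pos _ hM)
    have e1 := Int.emod_add_mul_ediv s0 M
    have r0 := Int.emod_nonneg s0 hM.ne'
    have r1 := Int.emod_lt_of_pos s0 hM
    set r := s0 % M with hr
    have hform : ∀ x : ℤ, M ∣ x - s0 → ∃ k, x = r + M * k := by
      rintro x ⟨k, hk⟩
      exact ⟨s0 / M + k, by linear_combination hk - e1⟩
    have hmM : m ≠ M := by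
      intro hmM
      obtain ⟨y, ⟨x, hx, hxy⟩, hy⟩ := hF2 _ (hFg _ hs0) _ hs0
      simp only [Set.mem_ofPred_eq] at hx hy
      obtain ⟨k, hk⟩ := hform x hx
      obtain ⟨l, hl⟩ := hform y hy
      have e2 : c + M * k = r + M * l := by
        rw [← hl, ← hxy, hk, h4, hmM]
      have e3 : c = r := by
        have : (c + M * k) % M = (r + M * l) % M := by rw [e2]
        rwa [Int.add_mul_emod_self_left, Int.add_mul_emod_self_left,
          Int.emod_eq_of_lt h1 (by rw [← hmM]; exact h2), Int.emod_eq_of_lt r0 r1] at this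
      have hid : ∀ x ∈ {y : ℤ | M ∣ y - s0}, g x = x := by
        intro x hx
        simp only [Set.mem_ofPred_eq] at hx
        obtain ⟨k, hk⟩ := hform x hx
        rw [hk, h4, e3, hmM]
      obtain ⟨N, _, _, D, _, _, hgV, _, hU, _, _, hDc⟩ := hD _ hs0 0
      obtain ⟨n, z, ⟨y, hyD, hyz⟩, hz⟩ := hU _ hDc
      have : ∀ i : ℕ, (g ^ i) y = y := by
        intro i
        induction i with
        | zero => rfl
        | succ i ih =>
          rw [pow_succ', Perm.mul_apply, ih]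
          apply hid
          exact hgV 0 ⟨y, hyD, rfl⟩
      rw [this] at hyz
      rw [← hyz] at hz
      exact hz hyD
    refine ⟨M - m, M * c - m * r, sub_ne_zero.2 (Ne.symm hmM), ?_⟩
    intro w s hw hs
    have hwM : Mo (M * w) := hMo.mul _ _ hMM hw
    obtain ⟨s', hs'⟩ := hF3 _ hwM
    obtain ⟨x, hx1, hx2⟩ := hF2 _ hs' _ hs
    obtain ⟨x', hx1', hx2'⟩ := hF2 _ hs' _ hs0
    simp only [Set.mem_ofPred_eq] at hx1 hx2 hx1' hx2'
    have a1 : w ∣ s' - s := by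
      have := dvd_sub hx2 (dvd_trans (Dvd.intro_left M rfl) hx1)
      rwa [show x - s - (x - s') = s' - s by ring] at this
    have a2 : M ∣ s' - s0 := by
      have := dvd_sub hx2' (dvd_trans (Dvd.intro w rfl) hx1')
      rwa [show x' - s0 - (x' - s') = s' - s0 by ring] at this
    obtain ⟨s1, hs1⟩ := hform s' a2
    obtain ⟨y, ⟨z, hz, hzy⟩, hy⟩ := hF2 _ (hFg _ hs') _ hs'
    simp only [Set.mem_ofPred_eq] at hz hy
    obtain ⟨k2, hk2⟩ := hz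
    obtain ⟨k, hk⟩ := hy
    have e2 : z = r + M * (s1 + w * k2) := by linear_combination hk2 + hs1
    have e3 : y = c + m * (s1 + w * k2) := by rw [← hzy, e2, h4]
    -- v s' - u divisible by w
    have a3 : w ∣ (M - m) * s' - (M * c - m * r) := by
      refine ⟨M * (m * k2 - M * k), ?_⟩
      linear_combination (-M) * hk + M * e3 - m * hs1
    have a4 := dvd_sub a3 (Dvd.dvd.mul_left a1 (M - m))
    rwa [show (M - m) * s' - (M * c - m * r) - (M - m) * (s' - s) =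
      (M - m) * s - (M * c - m * r) by ring] at a4
  -- Step 4 : normalisation
  obtain ⟨v1, v2, hv12, hMv1, hcop⟩ := split_coprime hMo v hv
  obtain ⟨u2, hu2⟩ : ∃ u2 : ℤ, ∀ w s : ℤ, Mo w → {y : ℤ | w ∣ y - s} ∈ F → w ∣ v2 * s - u2 := by
    obtain ⟨s1, hs1⟩ := hF3 v1 hMv1
    have h1 := hvu v1 s1 hMv1 hs1
    have h2 : v1 ∣ u := by
      have := dvd_sub (show v1 ∣ v * s1 by rw [hv12]; exact ⟨v2 * s1, by ring⟩) h1
      rwa [show v * s1 - (v * s1 - u) = u by ring] at this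
    obtain ⟨u2, hu2⟩ := h2
    refine ⟨u2, ?_⟩
    intro w s hw hs
    have hw' : Mo (v1 * w) := hMo.mul _ _ hMv1 hw
    obtain ⟨s', hs'⟩ := hF3 _ hw'
    have h3 := hvu _ s' hw' hs'
    rw [hv12, hu2, show v1 * v2 * s' - v1 * u2 = v1 * (v2 * s' - u2) by ring] at h3
    have h4 := (mul_dvd_mul_iff_left (hMo.pos _ hMv1).ne').1 h3
    obtain ⟨x, hx1, hx2⟩ := hF2 _ hs' _ hs
    simp only [Set.mem_ofPred_eq] at hx1 hx2
    have a1 : w ∣ s' - s := by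
      have := dvd_sub hx2 (dvd_trans (Dvd.intro_left v1 rfl) hx1)
      rwa [show x - s - (x - s') = s' - s by ring] at this
    have a4 := dvd_sub h4 (Dvd.dvd.mul_left a1 v2)
    rwa [show v2 * s' - u2 - v2 * (s' - s) = v2 * s - u2 by ring] at a4
  have hv2 : v2 ≠ 0 := by rintro rfl; rw [mul_zero] at hv12; exact hv hv12
  -- Step 5
  have hcanc : ∀ w x y : ℤ, Mo w → w ∣ v2 * x - u2 → w ∣ v2 * y - u2 → w ∣ x - y := by
    intro w x y hw h1 h2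
    have h3 := dvd_sub h1 h2
    rw [show v2 * x - u2 - (v2 * y - u2) = v2 * (x - y) by ring] at h3
    exact (hcop w hw).symm.dvd_of_dvd_mul_left h3
  have hZ : ∀ w, Mo w → {y : ℤ | w ∣ v2 * y - u2} ∈ F := by
    intro w hw
    obtain ⟨s, hs⟩ := hF3 w hw
    have h1 := hu2 w s hw hs
    convert hs using 1
    ext y
    simp only [Set.mem_ofPred_eq]
    constructor
    · intro h2; exact hcanc w y s hw h2 h1
    · intro h2
      have := dvd_add (Dvd.dvd.mul_left h2 v2) h1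
      rwa [show v2 * (y - s) + (v2 * s - u2) = v2 * y - u2 by ring] at this
  -- Step 6
  obtain ⟨Mg, mg, hMg0, hMMg, hmg0, hMmg, hgz⟩ := local_mult hMo hF2 hF3 hZ hg hFg
  obtain ⟨Mh, mh, hMh0, hMMh, hmh0, hMmh, hhz⟩ := local_mult hMo hF2 hF3 hZ hh hFh
  have hgz' : ∀ y : ℤ, Mg ∣ v2 * y - u2 → Mg * (v2 * g y - u2) = mg * (v2 * y - u2) :=
    fun y hy => hgz y hy (fun x hx => hcanc Mg x y hMMg hx hy)
  have hhz' : ∀ y : ℤ, Mh ∣ v2 * y - u2 → Mh * (v2 * h y - u2) = mh * (v2 * y - u2) :=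
    fun y hy => hhz y hy (fun x hx => hcanc Mh x y hMMh hx hy)
  -- Step 7
  have hMV : Mo (Mg * Mh) := hMo.mul _ _ hMMg hMMh
  set V : Set ℤ := {y : ℤ | Mg * Mh ∣ v2 * y - u2} with hVdef
  have hVF : V ∈ F := hZ _ hMV
  have hVg : ∀ y ∈ V, Mg ∣ v2 * y - u2 := fun y hy => dvd_trans (Dvd.intro _ rfl) hy
  have hVh : ∀ y ∈ V, Mh ∣ v2 * y - u2 := fun y hy => dvd_trans (Dvd.intro_left _ rfl) hy
  -- powers
  have hpowg : ∀ y : ℤ, (∀ i : ℕ, (g ^ i) y ∈ V) → ∀ i : ℕ,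
      Mg ^ i * (v2 * (g ^ i) y - u2) = mg ^ i * (v2 * y - u2) := by
    intro y hy i
    induction i with
    | zero => simp
    | succ i ih =>
      have h1 := hgz' _ (hVg _ (hy i))
      rw [pow_succ' g, Perm.mul_apply]
      calc Mg ^ (i + 1) * (v2 * g ((g ^ i) y) - u2)
          = Mg ^ i * (Mg * (v2 * g ((g ^ i) y) - u2)) := by ring
        _ = mg * (Mg ^ i * (v2 * (g ^ i) y - u2)) := by rw [h1]; ring
        _ = mg ^ (i + 1) * (v2 * y - u2) := by rw [ih]; ring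
  have hpowh : ∀ y : ℤ, (∀ i : ℕ, (h ^ i) y ∈ V) → ∀ i : ℕ,
      Mh ^ i * (v2 * (h ^ i) y - u2) = mh ^ i * (v2 * y - u2) := by
    intro y hy i
    induction i with
    | zero => simp
    | succ i ih =>
      have h1 := hhz' _ (hVh _ (hy i))
      rw [pow_succ' h, Perm.mul_apply]
      calc Mh ^ (i + 1) * (v2 * h ((h ^ i) y) - u2)
          = Mh ^ i * (Mh * (v2 * h ((h ^ i) y) - u2)) := by ring
        _ = mh * (Mh ^ i * (v2 * (h ^ i) y - u2)) := by rw [h1]; ring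
        _ = mh ^ (i + 1) * (v2 * y - u2) := by rw [ih]; ring
  -- Step 8 : integrality of the multipliers
  obtain ⟨hdg, hdh⟩ : Mg ∣ mg ∧ Mh ∣ mh := by
    obtain ⟨N, _, _, D, hDB, ⟨y0, hy0⟩, hgV, hhV, _⟩ := hD V hVF 0
    obtain ⟨MD, hMD, _, hper⟩ := hDB
    obtain ⟨y, hyD, hyz⟩ : ∃ y ∈ D, v2 * y - u2 ≠ 0 := by
      by_cases hz : v2 * y0 - u2 = 0
      · refine ⟨y0 + MD, (hper _).1 hy0, ?_⟩
        intro hz2
        have : v2 * MD = 0 := by linear_combination hz2 - hz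
        rcases mul_eq_zero.1 this with h | h
        · exact hv2 h
        · linarith
      · exact ⟨y0, hy0, hz⟩
    constructor
    · apply dvd_of_pow_dvd hMg0 hyz
      intro i
      rw [← hpowg y (fun i => hgV i ⟨y, hyD, rfl⟩) i]
      exact Dvd.intro _ rfl
    · apply dvd_of_pow_dvd hMh0 hyz
      intro i
      rw [← hpowh y (fun i => hhV i ⟨y, hyD, rfl⟩) i]
      exact Dvd.intro _ rfl
  obtain ⟨a, ha⟩ := hdg
  obtain ⟨b, hb⟩ := hdh
  have ha0 : 0 < a := by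
    by_contra hc
    have : Mg * a ≤ 0 := mul_nonpos_of_nonneg_of_nonpos hMg0.le (by linarith)
    linarith
  have hb0 : 0 < b := by
    by_contra hc
    have : Mh * b ≤ 0 := mul_nonpos_of_nonneg_of_nonpos hMh0.le (by linarith)
    linarith
  have hMa : Mo a := hMo.dvd a mg hMmg ha0 ⟨Mg, by rw [ha]; ring⟩
  have hMb : Mo b := hMo.dvd b mh hMmh hb0 ⟨Mh, by rw [hb]; ring⟩
  have hpowg' : ∀ y : ℤ, (∀ i : ℕ, (g ^ i) y ∈ V) → ∀ i : ℕ,
      v2 * (g ^ i) y - u2 = a ^ i * (v2 * y - u2) := by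
    intro y hy i
    have h1 := hpowg y hy i
    rw [ha, mul_pow, mul_assoc] at h1
    exact mul_left_cancel₀ (pow_ne_zero i hMg0.ne') h1
  have hpowh' : ∀ y : ℤ, (∀ i : ℕ, (h ^ i) y ∈ V) → ∀ i : ℕ,
      v2 * (h ^ i) y - u2 = b ^ i * (v2 * y - u2) := by
    intro y hy i
    have h1 := hpowh y hy i
    rw [hb, mul_pow, mul_assoc] at h1
    exact mul_left_cancel₀ (pow_ne_zero i hMh0.ne') h1
  -- Step 9
  obtain ⟨A, rfl⟩ := Int.eq_ofNat_of_zero_le ha0.le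
  obtain ⟨Bn, rfl⟩ := Int.eq_ofNat_of_zero_le hb0.le
  have hA0 : 0 < A := by exact_mod_cast ha0
  obtain ⟨N, hN0, hpN, D, hDB, hDne, hgV, hhV, hU, hper1, hper2, hDc⟩ := hD V hVF A
  obtain ⟨MD, hMD, hMMD, hper⟩ := hDB
  obtain ⟨Ma, M2, K, hMa0, hM20, hMDe, hMaK, hM2c⟩ := exists_split ha0 hMD
  have hMM2 : Mo M2 := hMo.dvd M2 MD hMMD hM20 ⟨Ma, by rw [hMDe]; ring⟩
  have hgVy : ∀ y ∈ D, ∀ i : ℕ, (g ^ i) y ∈ V := fun y hy i => hgV i ⟨y, hy, rfl⟩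
  have hhVy : ∀ y ∈ D, ∀ i : ℕ, (h ^ i) y ∈ V := fun y hy i => hhV i ⟨y, hy, rfl⟩
  have hleaf : ∀ W : ℤ, Mo W → IsCoprime W (A : ℤ) → ∃ y ∈ D, W ∣ v2 * y - u2 := by
    intro W hW hWc
    obtain ⟨n, z, ⟨y, hy, hyz⟩, hz⟩ := hU _ (hZ W hW)
    refine ⟨y, hy, ?_⟩
    simp only [Set.mem_ofPred_eq] at hz
    rw [← hyz, hpowg' y (hgVy y hy) n] at hz
    exact (hWc.pow_right).dvd_of_dvd_mul_left hz
  -- Step 10 : the multipliers are coprime
  have hAB : Nat.Coprime Bn A := by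
    by_contra hnc
    obtain ⟨q, hq, hqd⟩ := Nat.exists_prime_and_dvd hnc
    have hqB : (q : ℤ) ∣ (Bn : ℤ) := by
      exact_mod_cast dvd_trans hqd (Nat.gcd_dvd_left _ _)
    have hqA : (q : ℤ) ∣ (A : ℤ) := by
      exact_mod_cast dvd_trans hqd (Nat.gcd_dvd_right _ _)
    have hMq : Mo (q : ℤ) := hMo.dvd _ _ hMa (by exact_mod_cast hq.pos) hqA
    set i := N * Ma.natAbs with hi
    have hqi : ¬ (q : ℤ) ^ i ∣ Ma := by
      intro hdvd
      have h1 := Int.le_of_dvd hMa0 hdvd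
      have h2 : (2 : ℤ) ^ i ≤ (q : ℤ) ^ i := pow_le_pow_left₀ (by norm_num)
        (by exact_mod_cast hq.two_le) i
      have h3 : (2 : ℤ) ^ Ma.natAbs ≤ 2 ^ i := by
        apply pow_le_pow_right₀ (by norm_num)
        rw [hi]; exact Nat.le_mul_of_pos_left _ hN0
      have h4 : Ma.natAbs < 2 ^ Ma.natAbs := Nat.lt_two_pow_self
      have h5 : (Ma.natAbs : ℤ) < 2 ^ Ma.natAbs := by exact_mod_cast h4
      rw [Int.natAbs_of_nonneg hMa0.le] at h5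
      linarith
    obtain ⟨U, hUF, hUe⟩ := hper2 i ⟨Ma.natAbs, rfl⟩
    obtain ⟨W, hW0, hMW, hWper⟩ := hF1 U hUF
    obtain ⟨Wa, W2, K', hWa0, hW20, hWe, hWaK, hW2c⟩ := exists_split ha0 hW0
    have hMW2 : Mo W2 := hMo.dvd W2 W hMW hW20 ⟨Wa, by rw [hWe]; ring⟩
    obtain ⟨y0, hy0D, hy0⟩ := hleaf (M2 * W2) (hMo.mul _ _ hMM2 hMW2) (hM2c.mul_left hW2c)
    -- adjust the q-part
    obtain ⟨y1, hy1D, hy1, hy1q⟩ : ∃ y1 ∈ D, M2 * W2 ∣ v2 * y1 - u2 ∧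
        ¬ (q : ℤ) ^ i ∣ v2 * y1 - u2 := by
      by_cases hcase : (q : ℤ) ^ i ∣ v2 * y0 - u2
      · refine ⟨y0 + MD * W2, (per_mul hper _ _).1 hy0D, ?_, ?_⟩
        · have : M2 * W2 ∣ v2 * (MD * W2) := ⟨v2 * Ma, by rw [hMDe]; ring⟩
          have := dvd_add hy0 this
          rwa [show v2 * y0 - u2 + v2 * (MD * W2) = v2 * (y0 + MD * W2) - u2 by ring] at this
        · intro hc
          have h1 := dvd_sub hc hcase
          rw [show v2 * (y0 + MD * W2) - u2 - (v2 * y0 - u2) = (v2 * (M2 * W2)) * Ma by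
            rw [hMDe]; ring] at h1
          have c1 : IsCoprime ((q : ℤ) ^ i) v2 := ((hcop _ hMq).symm).pow_left
          have c2 : IsCoprime ((q : ℤ) ^ i) M2 := by
            apply IsCoprime.pow_left
            exact (IsCoprime.of_isCoprime_of_dvd_right hM2c hqA).symm
          have c3 : IsCoprime ((q : ℤ) ^ i) W2 := by
            apply IsCoprime.pow_left
            exact (IsCoprime.of_isCoprime_of_dvd_right hW2c hqA).symm
          exact hqi ((c1.mul_right (c2.mul_right c3)).dvd_of_dvd_mul_left h1)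
      · exact ⟨y0, hy0D, hy0, hcase⟩
    have hnot : y1 ∉ (h ^ i : Perm ℤ) '' D := by
      rintro ⟨y', hy', hyy⟩
      apply hy1q
      rw [← hyy, hpowh' y' (hhVy y' hy') i]
      exact Dvd.dvd.mul_right (pow_dvd_pow_of_dvd hqB i) _
    have hin : (g ^ K') y1 ∈ (g ^ K' : Perm ℤ) '' (D \ (h ^ i : Perm ℤ) '' D) ∩ U := by
      refine ⟨⟨y1, ⟨hy1D, hnot⟩, rfl⟩, ?_⟩
      -- U contains the class
      obtain ⟨x, hxU, hxZ⟩ := hF2 _ hUF _ (hZ W hMW)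
      simp only [Set.mem_ofPred_eq] at hxZ
      have h1 : W ∣ v2 * (g ^ K') y1 - u2 := by
        rw [hpowg' y1 (hgVy y1 hy1D) K', hWe]
        exact mul_dvd_mul hWaK (dvd_trans (Dvd.intro_left _ rfl) hy1)
      obtain ⟨k, hk⟩ := hcanc W _ _ hMW h1 hxZ
      have : (g ^ K') y1 = x + W * k := by linarith
      rw [this, ← per_mul hWper]; exact hxU
    rw [hUe K'] at hin
    exact hin
  -- Step 11
  have hMaK' : Ma ∣ (Bn : ℤ) ^ (A.totient * A ^ K) - 1 := by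
    have h1 := pow_congr (a := A) (b := Bn) hAB K
    exact dvd_trans (dvd_trans hMaK (pow_dvd_pow _ (Nat.le_succ K))) h1
  obtain ⟨y2, hy2D, hy2⟩ := hleaf M2 hMM2 hM2c
  have hmem : (h ^ (A.totient * A ^ K)) y2 ∈ D := by
    have h1 : MD ∣ v2 * (h ^ (A.totient * A ^ K)) y2 - u2 - (v2 * y2 - u2) := by
      rw [hpowh' y2 (hhVy y2 hy2D), hMDe,
        show (Bn : ℤ) ^ (A.totient * A ^ K) * (v2 * y2 - u2) - (v2 * y2 - u2) =
          ((Bn : ℤ) ^ (A.totient * A ^ K) - 1) * (v2 * y2 - u2) by ring]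
      exact mul_dvd_mul hMaK' hy2
    rw [show v2 * (h ^ (A.totient * A ^ K)) y2 - u2 - (v2 * y2 - u2) =
      v2 * ((h ^ (A.totient * A ^ K)) y2 - y2) by ring] at h1
    obtain ⟨k, hk⟩ := (hcop _ hMMD).symm.dvd_of_dvd_mul_left h1
    have : (h ^ (A.totient * A ^ K)) y2 = y2 + MD * k := by linarith
    rw [this, ← per_mul hper]; exact hy2D
  have hNdvd : N ∣ A.totient * A ^ K := by
    by_contra hnd
    have h1 := hper1 _ hnd
    have : (h ^ (A.totient * A ^ K)) y2 ∈ D ∩ (h ^ (A.totient * A ^ K) : Perm ℤ) '' D :=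
      ⟨hmem, y2, hy2D, rfl⟩
    rw [h1] at this
    exact this
  -- Step 12
  have hpA : p ∣ A := by
    by_contra hpA
    have h1 : p ^ A ∣ A.totient * A ^ K := dvd_trans hpN hNdvd
    have h2 : Nat.Coprime (p ^ A) (A ^ K) :=
      Nat.Coprime.pow _ _ ((Nat.Prime.coprime_iff_not_dvd hp).2 hpA)
    have h3 := h2.dvd_of_dvd_mul_right h1
    have h4 := Nat.le_of_dvd (Nat.totient_pos.2 hA0) h3
    have h5 := Nat.totient_le A
    have h6 : A < 2 ^ A := Nat.lt_two_pow_self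
    have h7 : 2 ^ A ≤ p ^ A := Nat.pow_le_pow_left hp.two_le A
    omega
  exact hMo.dvd _ _ hMa (by exact_mod_cast hp.pos) (by exact_mod_cast hpA)

end Pool.Agent.Helper111.CT
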