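import Pool.Agent.Helper111.PSide
import Pool.Agent.Helper111.QSide

set_option autoImplicit false

namespace Pool.Agent.Helper111.CT

open Equiv Pool.Agent.Helper111.Recon

theorem coe_pow_img {G : Subgroup (Perm ℤ)} (g : G) (n : ℕ) : ((g ^ n : G) : Perm ℤ) = (g : Perm ℤ) ^ n :=
  rfl

theorem prime_transfer {Mo₁ Mo₂ : ℤ → Prop} (h₁ : Adm Mo₁) (h₂ : Adm2 Mo₂)
    (Θ : CTg Mo₁ ≃* CTg Mo₂) (p : ℕ) (hp : p.Prime) (hp2 : p ≠ 2) (hMp : Mo₁ (p : ℤ)) :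
    Mo₂ (p : ℤ) := by
  have S := sysCT h₁
  have T := sysCT h₂.toAdm
  obtain ⟨g, hg, h, hh, hg0, hh0, hP⟩ := pside h₁ p hp hp2 hMp
  let g₁ : CTg Mo₁ := ⟨g, hg⟩
  let h₁' : CTg Mo₁ := ⟨h, hh⟩
  let F : Set (Set ℤ) := {b | ∃ a, Rel (PB Mo₁) (PB Mo₂) Θ a b ∧ (0 : ℤ) ∈ a}
  have hne : ∀ {a b : Set ℤ}, Rel (PB Mo₁) (PB Mo₂) Θ a b → (a.Nonempty ↔ b.Nonempty) := by
    intro a b hab
    rw [Set.nonempty_iff_ne_empty, Set.nonempty_iff_ne_empty, ne_eq, ne_eq, not_iff_not]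
    have := Rel.disj_iff S T hab hab
    rwa [Set.inter_self, Set.inter_self] at this
  have hF2 : ∀ b ∈ F, ∀ b' ∈ F, (b ∩ b').Nonempty := by
    rintro b ⟨a, hab, ha⟩ b' ⟨a', hab', ha'⟩
    rw [← hne (Rel.inter S T hab hab')]
    exact ⟨0, ha, ha'⟩
  have hFimg : ∀ k : CTg Mo₁, (k : Perm ℤ) 0 = 0 → ∀ b ∈ F, ((Θ k : CTg Mo₂) : Perm ℤ) '' b ∈ F := by
    rintro k hk b ⟨a, hab, ha⟩
    exact ⟨_, Rel.img S T hab k, ⟨0, ha, hk⟩⟩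
  have hF3 : ∀ w, Mo₂ w → ∃ s : ℤ, {y : ℤ | w ∣ y - s} ∈ F := by
    intro w hw
    have hw0 := h₂.pos w hw
    -- classes belong to the algebra
    have hcl : ∀ s : ℤ, {y : ℤ | w ∣ y - s} ∈ PB Mo₂ := by
      intro s
      refine ⟨w, hw0, hw, fun x => ?_⟩
      simp only [Set.mem_ofPred_eq]
      rw [show x + w - s = x - s + w by ring]
      simp
    by_contra hcon
    push Not at hcon
    -- finite induction: complement of classes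
    have key : ∀ n : ℕ, ∃ a b : Set ℤ, Rel (PB Mo₁) (PB Mo₂) Θ a b ∧ (0 : ℤ) ∈ a ∧
        ∀ s : ℕ, s < n → ∀ y ∈ b, ¬ w ∣ y - s := by
      intro n
      induction n with
      | zero =>
        obtain ⟨a, hab⟩ := rel_exists' S T Θ _ (hcl 0)
        have hna : (0 : ℤ) ∉ a := fun hc => hcon 0 ⟨a, hab, hc⟩
        exact ⟨_, _, Rel.compl S T hab, hna, fun s hs => absurd hs (Nat.not_lt_zero s)⟩
      | succ n ih =>
        obtain ⟨a, b, hab, ha0, hb⟩ := ih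
        obtain ⟨a', hab'⟩ := rel_exists' S T Θ _ (hcl n)
        have hna : (0 : ℤ) ∉ a' := fun hc => hcon n ⟨a', hab', hc⟩
        refine ⟨_, _, Rel.inter S T hab (Rel.compl S T hab'), ⟨ha0, hna⟩, ?_⟩
        intro s hs y hy
        rcases Nat.lt_succ_iff_lt_or_eq.1 hs with h | h
        · exact hb s h y hy.1
        · subst h
          exact hy.2
    obtain ⟨a, b, hab, ha0, hb⟩ := key w.toNat
    obtain ⟨y, hy⟩ := (hne hab).1 ⟨0, ha0⟩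
    have h1 := Int.emod_nonneg y hw0.ne'
    have h2 := Int.emod_lt_of_pos y hw0
    apply hb (y % w).toNat (by omega) y hy
    rw [Int.toNat_of_nonneg h1]
    exact Int.dvd_self_sub_emod
  have hsubset : ∀ {a a' b b' : Set ℤ}, Rel (PB Mo₁) (PB Mo₂) Θ a b →
      Rel (PB Mo₁) (PB Mo₂) Θ a' b' → a ⊆ a' → b ⊆ b' := fun h1 h2 h3 => Rel.subset_imp S T h1 h2 h3
  apply qside h₂ (F := F) (fun b ⟨a, hab, _⟩ => hab.2.1) hF2 hF3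
    ((mem_CTg_iff h₂.toAdm _).1 (Θ g₁).2) ((mem_CTg_iff h₂.toAdm _).1 (Θ h₁').2)
    (hFimg g₁ hg0) (hFimg h₁' hh0) hp
  rintro V ⟨V₁, hVV, hV0⟩ j
  obtain ⟨N, hN, hpN, D, hDB, hDne, hgV, hhV, hU, hper1, hper2, hD0⟩ := hP V₁ hVV.1 hV0 j
  obtain ⟨D', hDD⟩ := rel_exists S T Θ D hDB
  have hgi : ∀ n : ℕ, ∀ {a b : Set ℤ}, Rel (PB Mo₁) (PB Mo₂) Θ a b →
      Rel (PB Mo₁) (PB Mo₂) Θ ((g ^ n : Perm ℤ) '' a) ((((Θ g₁ : CTg Mo₂) : Perm ℤ) ^ n : Perm ℤ) '' b) := by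
    intro n a b hab
    have := Rel.img S T hab (g₁ ^ n)
    rw [map_pow] at this
    exact this
  have hhi : ∀ n : ℕ, ∀ {a b : Set ℤ}, Rel (PB Mo₁) (PB Mo₂) Θ a b →
      Rel (PB Mo₁) (PB Mo₂) Θ ((h ^ n : Perm ℤ) '' a) ((((Θ h₁' : CTg Mo₂) : Perm ℤ) ^ n : Perm ℤ) '' b) := by
    intro n a b hab
    have := Rel.img S T hab (h₁' ^ n)
    rw [map_pow] at this
    exact this
  refine ⟨N, hN, hpN, D', hDD.2.1, (hne hDD).1 hDne, ?_, ?_, ?_, ?_, ?_, ?_⟩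
  · intro i; exact hsubset (hgi i hDD) hVV (hgV i)
  · intro i; exact hsubset (hhi i hDD) hVV (hhV i)
  · rintro U ⟨U₁, hUU, hU0⟩
    obtain ⟨n, hn⟩ := hU U₁ hUU.1 hU0
    exact ⟨n, (hne (Rel.inter S T (hgi n hDD) hUU)).1 hn⟩
  · intro i hi
    exact (Rel.disj_iff S T hDD (hhi i hDD)).1 (hper1 i hi)
  · intro i hi
    obtain ⟨U₁, hU₁, hU0, hUn⟩ := hper2 i hi
    obtain ⟨U, hUU⟩ := rel_exists S T Θ U₁ hU₁
    refine ⟨U, ⟨U₁, hUU, hU0⟩, fun n => ?_⟩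
    have hdiff : Rel (PB Mo₁) (PB Mo₂) Θ (D \ (h ^ i : Perm ℤ) '' D)
        (D' \ (((Θ h₁' : CTg Mo₂) : Perm ℤ) ^ i : Perm ℤ) '' D') :=
      Rel.inter S T hDD (Rel.compl S T (hhi i hDD))
    exact (Rel.disj_iff S T (hgi n hdiff) hUU).1 (hUn n)
  · exact ⟨Dᶜ, Rel.compl S T hDD, hD0⟩

end Pool.Agent.Helper111.CT
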