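import Pool.Agent.Helper111.CTAlg

set_option autoImplicit false

namespace Pool.Agent.Helper111.CT

open Equiv Pool.Agent.Helper111.Recon

theorem exists_mult {Mo : ℤ → Prop} (hMo : Adm Mo) (c : ℤ) (hc : 0 < c) (hMc : Mo c) :
    ∃ f ∈ CTg Mo, ∀ k : ℤ, f (4 * k) = c * (4 * k) := by
  have h4 : Mo 4 := by
    have := two_pow_mem hMo 2
    norm_num at this; exact this
  have hd1 : ∀ n : ℤ, ¬ ((4 : ℤ) ∣ n - 0 ∧ (2 : ℤ) ∣ n - 1) := by intro n; omega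
  have hd2 : ∀ n : ℤ, ¬ ((2 : ℤ) ∣ n - 1 ∧ (4 * c) ∣ n - 0) := by
    rintro n ⟨h1, ⟨k, hk⟩⟩
    obtain ⟨l, hl⟩ := h1
    have : n = 2 * (2 * c * k) := by linarith
    omega
  obtain ⟨τ, t1, t2⟩ := exists_ct 0 4 1 2 (by norm_num) (by norm_num) hd1
  obtain ⟨ρ, s1, s2⟩ := exists_ct 1 2 0 (4 * c) (by norm_num) (by positivity) hd2
  have hτ : τ ∈ CTg Mo := mem_of_isCT ⟨0, 4, 1, 2, by norm_num, by norm_num, by norm_num,
    by norm_num, h4, hMo.two, hd1, t1, t2⟩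
  have hρ : ρ ∈ CTg Mo := mem_of_isCT ⟨1, 2, 0, 4 * c, by norm_num, by norm_num, by norm_num,
    by positivity, hMo.two, hMo.mul _ _ h4 hMc, hd2, s1, s2⟩
  refine ⟨ρ * τ, Subgroup.mul_mem _ hρ hτ, fun k => ?_⟩
  have e1 := (t1 k).1
  have e2 := (s1 k).1
  rw [zero_add] at e1 e2
  rw [Perm.mul_apply, e1, e2]; ring

theorem mult_pow {f : Perm ℤ} {c : ℤ} (hf : ∀ k : ℤ, f (4 * k) = c * (4 * k)) (i : ℕ) (k : ℤ) :
    (f ^ i) (4 * k) = c ^ i * (4 * k) := by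
  induction i with
  | zero => simp
  | succ i ih =>
    rw [pow_succ', Perm.mul_apply, ih, show c ^ i * (4 * k) = 4 * (c ^ i * k) by ring, hf]; ring

theorem exists_order (p : ℕ) (hp : p.Prime) (hp2 : p ≠ 2) (j : ℕ) :
    ∃ e N : ℕ, 0 < e ∧ 0 < N ∧ p ^ j ∣ N ∧ ∀ i : ℕ, N ∣ i ↔ ((p ^ e : ℕ) : ℤ) ∣ 2 ^ i - 1 := by
  set e := p ^ j * (p - 1) + 1 with he
  have hcop : Nat.Coprime 2 (p ^ e) := by
    apply Nat.Coprime.pow_right
    exact (Nat.coprime_primes Nat.prime_two hp).2 (Ne.symm hp2)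
  have key : ∀ i : ℕ, orderOf (2 : ZMod (p ^ e)) ∣ i ↔ ((p ^ e : ℕ) : ℤ) ∣ 2 ^ i - 1 := by
    intro i
    rw [orderOf_dvd_iff_pow_eq_one, ← sub_eq_zero]
    rw [← ZMod.intCast_zmod_eq_zero_iff_dvd]
    push_cast
    rfl
  refine ⟨e, orderOf (2 : ZMod (p ^ e)), Nat.succ_pos _, ?_, ?_, key⟩
  · have h1 : orderOf (2 : ZMod (p ^ e)) ∣ (p ^ e).totient := by
      rw [key]
      have := Nat.ModEq.pow_totient hcop
      have h2 := (Nat.modEq_iff_dvd.1 this.symm)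
      push_cast at h2 ⊢
      exact h2
    exact Nat.pos_of_dvd_of_pos h1 (Nat.totient_pos.2 (pow_pos hp.pos _))
  · by_contra hnd
    set N := orderOf (2 : ZMod (p ^ e)) with hN
    have h1 : N ∣ (p ^ e).totient := by
      rw [key]
      have := Nat.ModEq.pow_totient hcop
      have h2 := (Nat.modEq_iff_dvd.1 this.symm)
      push_cast at h2 ⊢
      exact h2
    have hNpos : N ≠ 0 := (Nat.pos_of_dvd_of_pos h1 (Nat.totient_pos.2 (pow_pos hp.pos _))).ne'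
    rw [he, Nat.totient_prime_pow_succ hp] at h1
    obtain ⟨s, d, hd, hNd⟩ := Nat.exists_eq_pow_mul_and_not_dvd hNpos p hp.ne_one
    have hs : s < j := by
      by_contra hc
      push Not at hc
      apply hnd
      rw [hNd]
      exact Dvd.dvd.mul_right (pow_dvd_pow p hc) d
    have hdc : Nat.Coprime d (p ^ (p ^ j * (p - 1))) := by
      apply Nat.Coprime.pow_right
      exact ((Nat.Prime.coprime_iff_not_dvd hp).2 hd).symm
    have hd1 : d ∣ p - 1 := by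
      apply hdc.dvd_of_dvd_mul_left
      exact dvd_trans ⟨p ^ s, by rw [hNd]; ring⟩ h1
    have hN2 : N ∣ p ^ j * (p - 1) := by
      rw [hNd]
      exact mul_dvd_mul (pow_dvd_pow p hs.le) hd1
    rw [key] at hN2
    have hp1 : 0 < p - 1 := Nat.sub_pos_of_lt hp.one_lt
    have hexp : 0 < p ^ j * (p - 1) := Nat.mul_pos (pow_pos hp.pos _) hp1
    have h3 := Int.le_of_dvd (by
      have : (2 : ℤ) ^ 1 ≤ 2 ^ (p ^ j * (p - 1)) := pow_le_pow_right₀ (by norm_num) hexp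
      linarith) hN2
    have h4 : (2 : ℤ) ^ e ≤ ((p ^ e : ℕ) : ℤ) := by
      push_cast
      exact pow_le_pow_left₀ (by norm_num) (by exact_mod_cast hp.two_le) e
    have h5 : (2 : ℤ) ^ (p ^ j * (p - 1)) < 2 ^ e := by
      rw [he]
      exact pow_lt_pow_right₀ (by norm_num) (Nat.lt_succ_self _)
    linarith

theorem pside {Mo : ℤ → Prop} (hMo : Adm Mo) (p : ℕ) (hp : p.Prime) (hp2 : p ≠ 2)
    (hMp : Mo (p : ℤ)) :
    ∃ g ∈ CTg Mo, ∃ h ∈ CTg Mo, g 0 = 0 ∧ h 0 = 0 ∧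
      ∀ V ∈ PB Mo, (0 : ℤ) ∈ V → ∀ j : ℕ, ∃ N : ℕ, 0 < N ∧ p ^ j ∣ N ∧ ∃ D ∈ PB Mo,
        D.Nonempty ∧ (∀ i : ℕ, (g ^ i : Perm ℤ) '' D ⊆ V) ∧ (∀ i : ℕ, (h ^ i : Perm ℤ) '' D ⊆ V) ∧
        (∀ U ∈ PB Mo, (0 : ℤ) ∈ U → ∃ n : ℕ, ((g ^ n : Perm ℤ) '' D ∩ U).Nonempty) ∧
        (∀ i : ℕ, ¬ N ∣ i → D ∩ (h ^ i : Perm ℤ) '' D = ∅) ∧
        (∀ i : ℕ, N ∣ i → ∃ U ∈ PB Mo, (0 : ℤ) ∈ U ∧
          ∀ n : ℕ, (g ^ n : Perm ℤ) '' (D \ (h ^ i : Perm ℤ) '' D) ∩ U = ∅) ∧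
        (0 : ℤ) ∉ D := by
  have hp0 : (0 : ℤ) < p := by exact_mod_cast hp.pos
  obtain ⟨g, hg, hgm⟩ := exists_mult hMo p hp0 hMp
  obtain ⟨h, hh, hhm⟩ := exists_mult hMo 2 (by norm_num) hMo.two
  have ppow : ∀ n : ℕ, Mo ((p : ℤ) ^ n) := by
    intro n
    induction n with
    | zero => simpa using hMo.one
    | succ n ih => rw [pow_succ]; exact hMo.mul _ _ ih hMp
  have h4 : Mo 4 := by
    have := two_pow_mem hMo 2
    norm_num at this; exact this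
  refine ⟨g, hg, h, hh, by simpa using hgm 0, by simpa using hhm 0, ?_⟩
  rintro V ⟨M, hM, hMM, hV⟩ hV0 j
  obtain ⟨e, N, he0, hN, hpN, hord⟩ := exists_order p hp hp2 j
  push_cast at hord
  set q : ℤ := (p : ℤ) ^ e with hq
  have hqpos : 0 < q := by positivity
  set m1 : ℤ := 4 * M with hm1
  have hm1pos : 0 < m1 := by positivity
  have hMm1 : Mo m1 := hMo.mul _ _ h4 hMM
  -- multiples of m1 lie in V
  have hmV : ∀ w : ℤ, m1 * w ∈ V := by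
    intro w
    have := (per_mul hV 0 (4 * w)).1 hV0
    rw [show (0 : ℤ) + M * (4 * w) = m1 * w by rw [hm1]; ring] at this
    exact this
  have hgpow : ∀ (n : ℕ) (w : ℤ), (g ^ n) (m1 * w) = (p : ℤ) ^ n * (m1 * w) := by
    intro n w
    rw [hm1, show 4 * M * w = 4 * (M * w) by ring, mult_pow hgm]
  have hhpow : ∀ (n : ℕ) (w : ℤ), (h ^ n) (m1 * w) = (2 : ℤ) ^ n * (m1 * w) := by
    intro n w
    rw [hm1, show 4 * M * w = 4 * (M * w) by ring, mult_pow hhm]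
  let D : Set ℤ := {y | ∃ w : ℤ, y = m1 * w ∧ q ∣ w - 1}
  have hD : ∀ y, y ∈ D ↔ ∃ w : ℤ, y = m1 * w ∧ q ∣ w - 1 := fun y => Iff.rfl
  have hcopq : ∀ n : ℕ, IsCoprime q ((2 : ℤ) ^ n) := by
    intro n
    rw [hq]
    apply IsCoprime.pow
    have : Nat.Coprime p 2 := (Nat.coprime_primes hp Nat.prime_two).2 hp2
    have := Nat.isCoprime_iff_coprime.2 this
    exact_mod_cast this
  refine ⟨N, hN, hpN, D, ⟨m1 * q, by positivity, hMo.mul _ _ hMm1 (ppow e), ?_⟩, ?_, ?_, ?_, ?_,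
    ?_, ?_, ?_⟩
  · intro x
    rw [hD, hD]
    constructor
    · rintro ⟨w, rfl, hw⟩
      refine ⟨w + q, by ring, ?_⟩
      rw [show w + q - 1 = (w - 1) + q by ring]
      exact dvd_add hw (dvd_refl _)
    · rintro ⟨w, hx, hw⟩
      refine ⟨w - q, by linear_combination hx, ?_⟩
      rw [show w - q - 1 = (w - 1) - q by ring]
      exact dvd_sub hw (dvd_refl _)
  · exact ⟨m1, (hD _).2 ⟨1, by ring, by simp⟩⟩
  · rintro i _ ⟨y, ⟨w, rfl, _⟩, rfl⟩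
    rw [hgpow, show (p : ℤ) ^ i * (m1 * w) = m1 * (p ^ i * w) by ring]
    exact hmV _
  · rintro i _ ⟨y, ⟨w, rfl, _⟩, rfl⟩
    rw [hhpow, show (2 : ℤ) ^ i * (m1 * w) = m1 * (2 ^ i * w) by ring]
    exact hmV _
  · rintro U ⟨M', hM', hMM', hU⟩ hU0
    -- M' = p^n * M''
    obtain ⟨M'n, rfl⟩ := Int.eq_ofNat_of_zero_le hM'.le
    have hM'n : M'n ≠ 0 := by rintro rfl; simp at hM'
    obtain ⟨n, d, hd, hMd⟩ := Nat.exists_eq_pow_mul_and_not_dvd hM'n p hp.ne_one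
    have hcop : IsCoprime q (d : ℤ) := by
      rw [hq]
      apply IsCoprime.pow_left
      exact Nat.isCoprime_iff_coprime.2 ((Nat.Prime.coprime_iff_not_dvd hp).2 hd)
    obtain ⟨a, b, hab⟩ := hcop
    -- w = b * d = 1 - a * q
    refine ⟨n, (g ^ n) (m1 * (b * d)), ⟨_, ⟨b * d, rfl, ⟨-a, by linear_combination hab⟩⟩, rfl⟩, ?_⟩
    rw [hgpow]
    have := (per_mul hU 0 (m1 * b)).1 hU0
    rw [hMd] at this
    push_cast at this
    rw [show (0 : ℤ) + (p : ℤ) ^ n * d * (m1 * b) = (p : ℤ) ^ n * (m1 * (b * d)) by ring] at this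
    exact this
  · intro i hi
    by_contra hne
    obtain ⟨y, ⟨w, hyw, hw⟩, ⟨y', ⟨w', hyw', hw'⟩, hyy⟩⟩ := Set.nonempty_iff_ne_empty.2 hne
    apply hi
    rw [hord]
    rw [hyw', hhpow, hyw] at hyy
    have e1 : w = 2 ^ i * w' := by
      apply mul_left_cancel₀ hm1pos.ne'
      linear_combination -hyy
    rw [e1] at hw
    have : q ∣ (2 ^ i * w' - 1) - 2 ^ i * (w' - 1) := dvd_sub hw (Dvd.dvd.mul_left hw' _)
    rwa [show (2 : ℤ) ^ i * w' - 1 - 2 ^ i * (w' - 1) = 2 ^ i - 1 by ring] at this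
  · intro i hi
    rw [hord] at hi
    refine ⟨{y | (2 : ℤ) ^ i * m1 ∣ y}, ⟨2 ^ i * m1, by positivity,
      hMo.mul _ _ (two_pow_mem hMo i) hMm1, ?_⟩, ?_, ?_⟩
    · intro x
      simp only [Set.mem_ofPred_eq]
      simp
    · simp
    · intro n
      by_contra hne
      obtain ⟨y, ⟨y', ⟨⟨w, hyw, hw⟩, hnot⟩, hyy⟩, hyU⟩ := Set.nonempty_iff_ne_empty.2 hne
      simp only [Set.mem_ofPred_eq] at hyU
      rw [← hyy, hyw, hgpow, show (p : ℤ) ^ n * (m1 * w) = (p ^ n * w) * m1 by ring] at hyU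
      have h1 := (mul_dvd_mul_iff_right hm1pos.ne').1 hyU
      have hcop2 : IsCoprime ((2 : ℤ) ^ i) ((p : ℤ) ^ n) := by
        apply IsCoprime.pow
        have : Nat.Coprime 2 p := (Nat.coprime_primes Nat.prime_two hp).2 (Ne.symm hp2)
        have := Nat.isCoprime_iff_coprime.2 this
        exact_mod_cast this
      obtain ⟨w', hw'⟩ := hcop2.dvd_of_dvd_mul_left h1
      apply hnot
      refine ⟨m1 * w', ⟨w', rfl, ?_⟩, ?_⟩
      · apply (hcopq i).dvd_of_dvd_mul_left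
        rw [hw'] at hw
        have := dvd_sub hw hi
        rwa [show (2 : ℤ) ^ i * w' - 1 - (2 ^ i - 1) = 2 ^ i * (w' - 1) by ring] at this
      · rw [hhpow, hyw, hw']; ring
  · rintro ⟨w, hw0, hw⟩
    have : w = 0 := by
      rcases mul_eq_zero.1 hw0.symm with h | h
      · linarith
      · exact h
    rw [this] at hw
    have hq1 : q ∣ 1 := by
      have := (dvd_neg).2 hw
      simpa using this
    have hq1' := Int.le_of_dvd one_pos hq1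
    have h2 : (2 : ℤ) ^ 1 ≤ 2 ^ e := pow_le_pow_right₀ (by norm_num) he0
    have h3 : (2 : ℤ) ^ e ≤ q := by
      rw [hq]
      exact pow_le_pow_left₀ (by norm_num) (by exact_mod_cast hp.two_le) e
    linarith

end Pool.Agent.Helper111.CT
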