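import Mathlib

set_option autoImplicit false

namespace Pool.Agent.Helper111.SK

/-- Stepanov-good algebra over a finite field `K` -/
structure SG (K : Type) [Field K] (B : Type) [CommRing B] [Algebra K B] (g : ℕ) where
  δ : B → ℕ
  dom : IsDomain B
  δ_zero : δ 0 = 0
  δ_mul : ∀ a b : B, a ≠ 0 → b ≠ 0 → δ (a * b) = δ a + δ b
  δ_add : ∀ a b : B, δ (a + b) ≤ max (δ a) (δ b)
  δ_alg : ∀ t : K, δ (algebraMap K B t) = 0
  surj : ∀ R : ℕ, g ≤ R → ∃ e : B, e ≠ 0 ∧ δ e = R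
  one : ∀ a b : B, a ≠ 0 → b ≠ 0 → δ a = δ b →
    ∃ t : K, a = t • b ∨ δ (a - t • b) < δ a

variable {K : Type} [Field K] {B : Type} [CommRing B] [Algebra K B] {g : ℕ}

/-- filtration -/
def SG.W (S : SG K B g) (R : ℕ) : Submodule K B where
  carrier := {b | S.δ b ≤ R}
  zero_mem' := by simp [S.δ_zero]
  add_mem' := by
    intro a b ha hb
    exact le_trans (S.δ_add a b) (max_le ha hb)
  smul_mem' := by
    intro t b hb
    show S.δ (t • b) ≤ R
    rw [Algebra.smul_def]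
    by_cases h1 : algebraMap K B t = 0
    · rw [h1, zero_mul, S.δ_zero]; exact Nat.zero_le _
    by_cases h2 : b = 0
    · rw [h2, mul_zero, S.δ_zero]; exact Nat.zero_le _
    rw [S.δ_mul _ _ h1 h2, S.δ_alg, zero_add]
    exact hb


theorem W_span (S : SG K B g) (R : ℕ) :
    ∃ s : Finset B, S.W R ≤ Submodule.span K (s : Set B) := by
  classical
  induction R with
  | zero =>
    by_cases hex : ∃ b0 : B, b0 ≠ 0 ∧ S.δ b0 = 0
    · obtain ⟨b0, hb0, hb1⟩ := hex
      refine ⟨{b0}, ?_⟩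
      intro a ha
      have ha' : S.δ a ≤ 0 := ha
      by_cases ha0 : a = 0
      · rw [ha0]; exact Submodule.zero_mem _
      · obtain ⟨t, ht | ht⟩ := S.one a b0 ha0 hb0 (by omega)
        · rw [ht]
          exact Submodule.smul_mem _ _ (Submodule.subset_span (by simp))
        · omega
    · refine ⟨∅, ?_⟩
      intro a ha
      have ha' : S.δ a ≤ 0 := ha
      by_cases ha0 : a = 0
      · rw [ha0]; exact Submodule.zero_mem _
      · exact absurd ⟨a, ha0, by omega⟩ hex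
  | succ R ih =>
    obtain ⟨s, hs⟩ := ih
    by_cases hex : ∃ b0 : B, b0 ≠ 0 ∧ S.δ b0 = R + 1
    · obtain ⟨b0, hb0, hb1⟩ := hex
      refine ⟨insert b0 s, ?_⟩
      have hle : Submodule.span K (s : Set B) ≤ Submodule.span K ((insert b0 s : Finset B) : Set B) :=
        Submodule.span_mono (by simp)
      have hb0m : b0 ∈ Submodule.span K ((insert b0 s : Finset B) : Set B) :=
        Submodule.subset_span (by simp)
      intro a ha
      have ha' : S.δ a ≤ R + 1 := ha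
      by_cases h : S.δ a ≤ R
      · exact hle (hs h)
      · have ha0 : a ≠ 0 := by
          rintro rfl
          rw [S.δ_zero] at h
          omega
        obtain ⟨t, ht | ht⟩ := S.one a b0 ha0 hb0 (by omega)
        · rw [ht]
          exact Submodule.smul_mem _ _ hb0m
        · have h2 : a - t • b0 ∈ S.W R := by
            show S.δ (a - t • b0) ≤ R
            omega
          have h3 := hle (hs h2)
          have h4 : a = (a - t • b0) + t • b0 := by abel
          rw [h4]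
          exact Submodule.add_mem _ h3 (Submodule.smul_mem _ _ hb0m)
    · refine ⟨s, ?_⟩
      intro a ha
      have ha' : S.δ a ≤ R + 1 := ha
      by_cases h : S.δ a ≤ R
      · exact hs h
      · have ha0 : a ≠ 0 := by
          rintro rfl
          rw [S.δ_zero] at h
          omega
        exact absurd ⟨a, ha0, by omega⟩ hex

theorem W_finite (S : SG K B g) (R : ℕ) : FiniteDimensional K (S.W R) := by
  obtain ⟨s, hs⟩ := W_span S R
  have h1 : FiniteDimensional K (Submodule.span K (s : Set B)) :=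
    FiniteDimensional.span_of_finite K s.finite_toSet
  exact Submodule.finiteDimensional_of_le hs

theorem W_spanB (S : SG K B g) : ∀ R : ℕ, ∃ v : Fin (R + 1) → B,
    S.W R ≤ Submodule.span K (Set.range v) := by
  have hdom := S.dom
  intro R
  induction R with
  | zero =>
    refine ⟨fun _ => 1, ?_⟩
    intro a ha
    have ha' : S.δ a ≤ 0 := ha
    by_cases ha0 : a = 0
    · rw [ha0]; exact Submodule.zero_mem _
    have h1 : S.δ 1 = 0 := by
      have := S.δ_alg 1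
      rwa [map_one] at this
    obtain ⟨t, ht | ht⟩ := S.one a 1 ha0 one_ne_zero (by omega)
    · rw [ht]
      exact Submodule.smul_mem _ _ (Submodule.subset_span ⟨0, rfl⟩)
    · omega
  | succ R ih =>
    obtain ⟨v, hv⟩ := ih
    by_cases hex : ∃ b0 : B, b0 ≠ 0 ∧ S.δ b0 = R + 1
    · obtain ⟨b0, hb0, hb1⟩ := hex
      refine ⟨Fin.cons b0 v, ?_⟩
      rw [Fin.range_cons]
      have hle : Submodule.span K (Set.range v) ≤
          Submodule.span K (insert b0 (Set.range v)) :=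
        Submodule.span_mono (Set.subset_insert _ _)
      have hb0m : b0 ∈ Submodule.span K (insert b0 (Set.range v)) :=
        Submodule.subset_span (Set.mem_insert _ _)
      intro a ha
      have ha' : S.δ a ≤ R + 1 := ha
      by_cases h : S.δ a ≤ R
      · exact hle (hv h)
      · have ha0 : a ≠ 0 := by
          rintro rfl
          rw [S.δ_zero] at h
          omega
        obtain ⟨t, ht | ht⟩ := S.one a b0 ha0 hb0 (by omega)
        · rw [ht]
          exact Submodule.smul_mem _ _ hb0m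
        · have h2 : a - t • b0 ∈ S.W R := by
            show S.δ (a - t • b0) ≤ R
            omega
          have h3 := hle (hv h2)
          have h4 : a = (a - t • b0) + t • b0 := by abel
          rw [h4]
          exact Submodule.add_mem _ h3 (Submodule.smul_mem _ _ hb0m)
    · refine ⟨Fin.cons 0 v, ?_⟩
      rw [Fin.range_cons]
      have hle : Submodule.span K (Set.range v) ≤
          Submodule.span K (insert 0 (Set.range v)) :=
        Submodule.span_mono (Set.subset_insert _ _)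
      intro a ha
      have ha' : S.δ a ≤ R + 1 := ha
      by_cases h : S.δ a ≤ R
      · exact hle (hv h)
      · have ha0 : a ≠ 0 := by
          rintro rfl
          rw [S.δ_zero] at h
          omega
        exact absurd ⟨a, ha0, by omega⟩ hex

theorem W_le (S : SG K B g) (R : ℕ) : Module.finrank K (S.W R) ≤ R + 1 := by
  obtain ⟨v, hv⟩ := W_spanB S R
  have h1 : FiniteDimensional K (Submodule.span K (Set.range v)) :=
    FiniteDimensional.span_of_finite K (Set.finite_range v)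
  refine (Submodule.finrank_mono hv).trans ?_
  have := finrank_range_le_card (R := K) v
  rw [Fintype.card_fin] at this
  exact this

theorem W_ge (S : SG K B g) (R : ℕ) : R + 1 ≤ Module.finrank K (S.W R) + g := by
  induction R with
  | zero =>
    rcases Nat.eq_zero_or_pos g with h | h
    · obtain ⟨e, he, hδ⟩ := S.surj 0 (by omega)
      haveI := W_finite S 0
      have hmem : e ∈ S.W 0 := le_of_eq hδ
      have h1 : 0 < Module.finrank K (S.W 0) :=
        Module.finrank_pos_iff_exists_ne_zero.mpr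
          ⟨⟨e, hmem⟩, fun hh => he (congrArg Subtype.val hh)⟩
      omega
    · omega
  | succ R ih =>
    rcases Nat.lt_or_ge (R + 1) g with h | h
    · omega
    · obtain ⟨e, he, hδ⟩ := S.surj (R + 1) h
      haveI := W_finite S (R + 1)
      have hle : S.W R ≤ S.W (R + 1) := by
        intro b hb
        have hb' : S.δ b ≤ R := hb
        show S.δ b ≤ R + 1
        omega
      have hlt : S.W R < S.W (R + 1) := by
        refine lt_of_le_of_ne hle (fun heq => ?_)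
        have h1 : e ∈ S.W (R + 1) := le_of_eq hδ
        rw [← heq] at h1
        have h2 : S.δ e ≤ R := h1
        omega
      have h3 := Submodule.finrank_lt_finrank_of_lt hlt
      omega


theorem zero_count (S : SG K B g) (T : Finset (B →ₐ[K] K)) (Φ : B) (hΦ : Φ ≠ 0)
    (h : ∀ P ∈ T, P Φ = 0) : T.card ≤ S.δ Φ + g := by
  classical
  haveI := S.dom
  have hsep : ∀ P Q : B →ₐ[K] K, P ≠ Q → ∃ h : B, P h ≠ 0 ∧ Q h = 0 := by
    intro P Q hPQ
    obtain ⟨b, hb⟩ : ∃ b, P b ≠ Q b := by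
      by_contra hcon
      push Not at hcon
      exact hPQ (AlgHom.ext hcon)
    refine ⟨b - algebraMap K B (Q b), ?_, ?_⟩
    · rw [map_sub, AlgHom.commutes]
      simpa [sub_eq_zero] using hb
    · rw [map_sub, AlgHom.commutes]
      simp
  choose! hh hh1 hh2 using hsep
  let e : (B →ₐ[K] K) → B := fun P => ∏ Q ∈ T.erase P, hh P Q
  have he1 : ∀ P : B →ₐ[K] K, P (e P) ≠ 0 := by
    intro P
    simp only [e]
    rw [map_prod]
    apply Finset.prod_ne_zero_iff.2
    intro Q hQ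
    exact hh1 P Q (Finset.ne_of_mem_erase hQ).symm
  have he2 : ∀ P Q : B →ₐ[K] K, Q ∈ T → Q ≠ P → Q (e P) = 0 := by
    intro P Q hQ hne
    simp only [e]
    rw [map_prod]
    apply Finset.prod_eq_zero (Finset.mem_erase.2 ⟨hne, hQ⟩)
    exact hh2 P Q hne.symm
  set R : ℕ := ∑ P ∈ T, S.δ (e P) + S.δ Φ + g with hR
  haveI hfR : FiniteDimensional K (S.W R) := W_finite S R
  have heW : ∀ P ∈ T, e P ∈ S.W R := by
    intro P hP
    show S.δ (e P) ≤ R
    have := Finset.single_le_sum (f := fun P => S.δ (e P)) (fun _ _ => Nat.zero_le _) hP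
    omega
  let J : S.W R →ₗ[K] (T → K) :=
    LinearMap.pi (fun P : T => (P.1.toLinearMap).comp (S.W R).subtype)
  have hJ : ∀ (a : S.W R) (P : T), J a P = P.1 (a : B) := fun a P => rfl
  have hsurj : Function.Surjective J := by
    intro y
    refine ⟨∑ P : T, (y P / P.1 (e P.1)) • (⟨e P.1, heW P.1 P.2⟩ : S.W R), ?_⟩
    funext Q
    rw [hJ]
    simp only [Submodule.coe_sum, Submodule.coe_smul, map_sum, map_smul, smul_eq_mul]
    rw [Finset.sum_eq_single Q]
    · exact div_mul_cancel₀ _ (he1 Q.1)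
    · intro P _ hP
      rw [he2 P.1 Q.1 Q.2 (fun h => hP (Subtype.ext h.symm)), mul_zero]
    · intro h; exact absurd (Finset.mem_univ _) h
  have hmem : ∀ x ∈ S.W (R - S.δ Φ), (LinearMap.mulLeft K Φ) x ∈ S.W R := by
    intro x hx
    have hx' : S.δ x ≤ R - S.δ Φ := hx
    show S.δ (Φ * x) ≤ R
    by_cases h0 : x = 0
    · rw [h0, mul_zero, S.δ_zero]; exact Nat.zero_le _
    · rw [S.δ_mul _ _ hΦ h0]; omega
  let M : S.W (R - S.δ Φ) →ₗ[K] S.W R := (LinearMap.mulLeft K Φ).restrict hmem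
  have hMi : Function.Injective M := by
    intro x y hxy
    have h1 : Φ * (x : B) = Φ * (y : B) := congrArg Subtype.val hxy
    exact Subtype.ext (mul_left_cancel₀ hΦ h1)
  have hrange : LinearMap.range M ≤ LinearMap.ker J := by
    rintro _ ⟨x, rfl⟩
    rw [LinearMap.mem_ker]
    funext P
    rw [hJ]
    show P.1 (Φ * (x : B)) = 0
    rw [map_mul, h P.1 P.2, zero_mul]
  have h1 := LinearMap.finrank_range_add_finrank_ker J
  rw [LinearMap.range_eq_top.2 hsurj, finrank_top, Module.finrank_fintype_fun_eq_card,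
    Fintype.card_coe] at h1
  have h2 := Submodule.finrank_mono hrange
  rw [LinearMap.finrank_range_of_inj hMi] at h2
  have h3 := W_ge S (R - S.δ Φ)
  have h4 := W_le S R
  omega


theorem st_sum_lt (S : SG K B g) {ι : Type} (s : Finset ι) (f : ι → B) (N : ℕ)
    (h : ∀ i ∈ s, f i ≠ 0 → S.δ (f i) < N) : ∑ i ∈ s, f i = 0 ∨ S.δ (∑ i ∈ s, f i) < N := by
  classical
  induction s using Finset.induction_on with
  | empty => left; simp
  | insert i s hi ih =>
    rw [Finset.sum_insert hi]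
    have ih' := ih (fun j hj => h j (Finset.mem_insert_of_mem hj))
    have hfi := h i (Finset.mem_insert_self i s)
    by_cases h1 : f i = 0
    · rw [h1, zero_add]; exact ih'
    · rcases ih' with h2 | h2
      · rw [h2, add_zero]; right; exact hfi h1
      · right
        exact lt_of_le_of_lt (S.δ_add _ _) (max_lt (hfi h1) h2)

theorem stepanov (p : ℕ) [Fact p.Prime] [CharP K p] [Fintype K] (S : SG K B g) (m n : ℕ)
    (hK : Nat.card K = p ^ (n + m)) (hp : (p ^ m + 2) * g + 1 < p ^ n) (T : Finset (B →ₐ[K] K)) :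
    T.card ≤ ((p ^ m + 2) * g + 1) + p ^ n * (g + p ^ m) + g := by
  classical
  haveI := S.dom
  have hpp : p.Prime := Fact.out
  haveI : CharP B p := charP_of_injective_algebraMap (algebraMap K B).injective p
  obtain ⟨M, hM⟩ : ∃ M, M = p ^ m := ⟨_, rfl⟩
  obtain ⟨Q, hQ⟩ : ∃ Q, Q = p ^ n := ⟨_, rfl⟩
  have hM1 : 1 ≤ M := by rw [hM]; exact Nat.one_le_pow _ _ hpp.pos
  rw [← hM, ← hQ] at hp ⊢
  obtain ⟨L, hL⟩ : ∃ L, L = (M + 2) * g + 1 := ⟨_, rfl⟩
  rw [← hL] at hp ⊢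
  obtain ⟨N, hN⟩ : ∃ N, N = M * L + g + M := ⟨_, rfl⟩
  choose e he0 heδ using fun i : Fin (M + 1) => S.surj (g + i) (Nat.le_add_right _ _)
  have hmul_le : ∀ a b : B, S.δ (a * b) ≤ S.δ a + S.δ b := by
    intro a b
    by_cases ha : a = 0
    · rw [ha, zero_mul, S.δ_zero]; omega
    by_cases hb : b = 0
    · rw [hb, mul_zero, S.δ_zero]; omega
    exact (S.δ_mul a b ha hb).le
  have hδpow : ∀ (k : ℕ) (x : B), x ≠ 0 → S.δ (x ^ k) = k * S.δ x := by
    intro k x hx
    induction k with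
    | zero =>
      have : (1 : B) = algebraMap K B 1 := (map_one _).symm
      rw [pow_zero, this, S.δ_alg, zero_mul]
    | succ k ih =>
      rw [pow_succ, S.δ_mul _ _ (pow_ne_zero _ hx) hx, ih]
      ring
  have hδpow_le : ∀ (k : ℕ) (x : B), 1 ≤ k → S.δ (x ^ k) ≤ k * S.δ x := by
    intro k x hk
    by_cases hx : x = 0
    · rw [hx, zero_pow (by omega), S.δ_zero]; omega
    · exact (hδpow k x hx).le
  have hΨmem : ∀ (a : Fin (M + 1) → S.W L),
      (∑ i, ((a i : B)) ^ M * e i) ∈ S.W N := by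
    intro a
    apply Submodule.sum_mem
    intro i _
    show S.δ _ ≤ N
    have h1 := hmul_le ((a i : B) ^ M) (e i)
    have h2 := hδpow_le M (a i : B) hM1
    have h3 : S.δ (a i : B) ≤ L := (a i).2
    have h4 := heδ i
    have h5 : M * S.δ (a i : B) ≤ M * L := Nat.mul_le_mul_left _ h3
    have h6 : (i : ℕ) ≤ M := by have := i.2; omega
    omega
  let Ψ : (Fin (M + 1) → S.W L) →+ S.W N := AddMonoidHom.mk'
    (fun a => ⟨∑ i, ((a i : B)) ^ M * e i, hΨmem a⟩) (by
      intro a b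
      apply Subtype.ext
      simp only [Pi.add_apply, Submodule.coe_add]
      rw [← Finset.sum_add_distrib]
      apply Finset.sum_congr rfl
      intro i _
      rw [hM, add_pow_char_pow, add_mul])
  haveI := W_finite S L
  haveI := W_finite S N
  haveI : Finite (S.W L) := Module.finite_of_finite K
  haveI : Finite (S.W N) := Module.finite_of_finite K
  have hcard : Nat.card (S.W N) < Nat.card (Fin (M + 1) → S.W L) := by
    rw [Nat.card_fun, Module.natCard_eq_pow_finrank (K := K) (V := S.W N),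
      Module.natCard_eq_pow_finrank (K := K) (V := S.W L), ← pow_mul, Nat.card_fin]
    apply Nat.pow_lt_pow_right
    · exact Finite.one_lt_card
    · have h1 := W_ge S L
      have h2 := W_le S N
      generalize Module.finrank K (S.W L) = fL at *
      generalize Module.finrank K (S.W N) = fN at *
      have h4 : (M + 1) * (L + 1) ≤ (M + 1) * (fL + g) := Nat.mul_le_mul_left _ h1
      have h5 : (M + 1) * (fL + g) = fL * (M + 1) + (M + 1) * g := by ring
      have h6 : (M + 1) * (L + 1) = M * L + L + M + 1 := by ring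
      have h7 : (M + 2) * g = (M + 1) * g + g := by ring
      omega
  have hninj : ¬ Function.Injective Ψ := fun h =>
    absurd (Nat.card_le_card_of_injective Ψ h) (not_le.mpr hcard)
  obtain ⟨a, haker, hane⟩ : ∃ a, Ψ a = 0 ∧ a ≠ 0 := by
    by_contra hcon
    apply hninj
    rw [injective_iff_map_eq_zero]
    intro a ha
    by_contra h
    exact hcon ⟨a, ha, h⟩
  have hker : ∑ i, ((a i : B)) ^ M * e i = 0 := congrArg Subtype.val haker
  obtain ⟨Φ, hΦdef⟩ : ∃ Φ : B, Φ = ∑ i, (a i : B) * e i ^ Q := ⟨_, rfl⟩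
  have hterm : ∀ i, S.δ ((a i : B) * e i ^ Q) ≤ L + Q * (g + i) := by
    intro i
    have h1 := hmul_le (a i : B) (e i ^ Q)
    have h2 : S.δ (a i : B) ≤ L := (a i).2
    have h3 := hδpow Q (e i) (he0 i)
    rw [heδ i] at h3
    omega
  have hΦδ : S.δ Φ ≤ L + Q * (g + M) := by
    have : Φ ∈ S.W (L + Q * (g + M)) := by
      rw [hΦdef]
      apply Submodule.sum_mem
      intro i _
      show S.δ _ ≤ _
      refine (hterm i).trans ?_
      have h6 : (i : ℕ) ≤ M := by have := i.2; omega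
      have : Q * (g + i) ≤ Q * (g + M) := Nat.mul_le_mul_left _ (by omega)
      omega
    exact this
  have hΦ0 : Φ ≠ 0 := by
    intro hΦ
    have hs : (Finset.univ.filter (fun i => a i ≠ 0)).Nonempty := by
      by_contra hcon
      rw [Finset.not_nonempty_iff_eq_empty, Finset.filter_eq_empty_iff] at hcon
      apply hane
      funext i
      by_contra h
      exact hcon (Finset.mem_univ i) h
    obtain ⟨i0, hi0⟩ : ∃ i0, i0 = (Finset.univ.filter (fun i => a i ≠ 0)).max' hs := ⟨_, rfl⟩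
    have hi0mem : i0 ∈ Finset.univ.filter (fun i => a i ≠ 0) := by
      rw [hi0]; exact Finset.max'_mem _ hs
    have hai0 : a i0 ≠ 0 := (Finset.mem_filter.mp hi0mem).2
    have hai0' : (a i0 : B) ≠ 0 := fun h => hai0 (Subtype.ext h)
    have hmax : ∀ i, i0 < i → a i = 0 := by
      intro i hi
      by_contra h
      have h1 := Finset.le_max' (Finset.univ.filter (fun i => a i ≠ 0)) i
        (Finset.mem_filter.mpr ⟨Finset.mem_univ i, h⟩)
      rw [← hi0] at h1
      exact absurd h1 (not_le.mpr hi)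
    have hsplit : (a i0 : B) * e i0 ^ Q +
        ∑ i ∈ Finset.univ.erase i0, (a i : B) * e i ^ Q = 0 := by
      rw [Finset.add_sum_erase _ (fun i => (a i : B) * e i ^ Q) (Finset.mem_univ i0), ← hΦdef]
      exact hΦ
    have hne : (a i0 : B) * e i0 ^ Q ≠ 0 := mul_ne_zero hai0' (pow_ne_zero _ (he0 i0))
    have hlt := st_sum_lt S (Finset.univ.erase i0) (fun i => (a i : B) * e i ^ Q)
      (Q * (g + i0)) (by
        intro i hi hi2
        have hii : i ≠ i0 := (Finset.mem_erase.mp hi).1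
        have hlt : i < i0 := by
          rcases lt_trichotomy i i0 with h | h | h
          · exact h
          · exact absurd h hii
          · exact absurd (by rw [hmax i h]; simp) hi2
        have h1 := hterm i
        have h2 : (i : ℕ) + 1 ≤ (i0 : ℕ) := hlt
        have h3 : Q * (g + i) + Q ≤ Q * (g + i0) := by
          have : Q * (g + i) + Q = Q * (g + i + 1) := by ring
          rw [this]
          exact Nat.mul_le_mul_left _ (by omega)
        show S.δ ((a i : B) * e i ^ Q) < Q * (g + i0)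
        omega)
    rcases hlt with h1 | h1
    · rw [h1, add_zero] at hsplit
      exact hne hsplit
    · have h2 : (a i0 : B) * e i0 ^ Q = -∑ i ∈ Finset.univ.erase i0, (a i : B) * e i ^ Q :=
        eq_neg_of_add_eq_zero_left hsplit
      have h3 : (-∑ i ∈ Finset.univ.erase i0, (a i : B) * e i ^ Q) ∈
          S.W (S.δ (∑ i ∈ Finset.univ.erase i0, (a i : B) * e i ^ Q)) := by
        apply Submodule.neg_mem
        show S.δ _ ≤ S.δ _
        exact le_refl _
      rw [← h2] at h3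
      have h4 : S.δ ((a i0 : B) * e i0 ^ Q) ≤ _ := h3
      have h5 := S.δ_mul (a i0 : B) (e i0 ^ Q) hai0' (pow_ne_zero _ (he0 i0))
      have h6 := hδpow Q (e i0) (he0 i0)
      rw [heδ i0] at h6
      omega
  have hzero : ∀ P ∈ T, P Φ = 0 := by
    intro P _
    have hMB : ∀ x : B, x ^ M = x ^ p ^ m := fun x => by rw [hM]
    have hQB : ∀ x : B, x ^ Q = x ^ p ^ n := fun x => by rw [hQ]
    have hq : ∀ x : K, x ^ (p ^ n * p ^ m) = x := by
      intro x
      rw [← pow_add, ← hK, Nat.card_eq_fintype_card, FiniteField.pow_card]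
    have h1 : (P Φ) ^ p ^ m = 0 := by
      rw [hΦdef, map_sum, sum_pow_char_pow]
      have h2 := congrArg P hker
      rw [map_sum, map_zero] at h2
      rw [← h2]
      apply Finset.sum_congr rfl
      intro i _
      rw [hMB, hQB, map_mul, map_mul, map_pow, map_pow, mul_pow, ← pow_mul, hq]
    exact (pow_eq_zero_iff (by rw [← hM]; omega)).mp h1
  have := zero_count S T Φ hΦ0 hzero
  omega

theorem pts_finite [Fintype K] (S : SG K B g) : Finite (B →ₐ[K] K) := by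
  haveI := S.dom
  obtain ⟨b, hb, hδ⟩ := S.surj (g + 1) (by omega)
  have hpow : ∀ k : ℕ, S.δ (b ^ k) = k * (g + 1) := by
    intro k
    induction k with
    | zero =>
      have := S.δ_alg 1
      rw [map_one] at this
      simpa using this
    | succ k ih =>
      rw [pow_succ, S.δ_mul _ _ (pow_ne_zero k hb) hb, ih, hδ]
      ring
  have hq : 1 < Fintype.card K := Fintype.one_lt_card
  have hΦ : b ^ (Fintype.card K) - b ≠ 0 := by
    intro h0
    have h1 : b ^ (Fintype.card K) = b := sub_eq_zero.1 h0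
    have h2 := hpow (Fintype.card K)
    rw [h1, hδ] at h2
    nlinarith
  by_contra hinf
  rw [not_finite_iff_infinite] at hinf
  obtain ⟨T, hT⟩ := Infinite.exists_subset_card_eq (B →ₐ[K] K)
    (S.δ (b ^ (Fintype.card K) - b) + g + 1)
  have h3 := zero_count S T (b ^ (Fintype.card K) - b) hΦ (by
    intro P _
    rw [map_sub, map_pow, FiniteField.pow_card, sub_self])
  omega

theorem pts_le (p : ℕ) [Fact p.Prime] (g : ℕ) (ε : ℝ) (hε : 0 < ε) : ∃ f₀ : ℕ, ∀ f : ℕ, f₀ ≤ f →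
    ∀ (K : Type) [Field K] [CharP K p] [Fintype K], Nat.card K = p ^ f →
    ∀ (B : Type) [CommRing B] [Algebra K B] (_ : SG K B g),
      (Nat.card (B →ₐ[K] K) : ℝ) ≤ (1 + ε) * Nat.card K := by
  have hp1 : 1 < p := (Fact.out : p.Prime).one_lt
  have hp1' : (1:ℝ) < (p:ℝ) := by exact_mod_cast hp1
  obtain ⟨m, hm⟩ := pow_unbounded_of_one_lt (2 * (g:ℝ) / ε) hp1'
  set C0 : ℕ := (p ^ m + 2) * g + 1 + g with hC0
  refine ⟨m + max ((p ^ m + 2) * g + 1) ⌈2 * (C0 : ℝ) / ε⌉₊, ?_⟩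
  intro f hf K _ _ _ hK B _ _ S
  obtain ⟨n, rfl⟩ : ∃ n, f = n + m := ⟨f - m, by omega⟩
  have hn1 : (p ^ m + 2) * g + 1 ≤ n := by
    have := le_max_left ((p ^ m + 2) * g + 1) ⌈2 * (C0 : ℝ) / ε⌉₊
    omega
  have hn2 : ⌈2 * (C0 : ℝ) / ε⌉₊ ≤ n := by
    have := le_max_right ((p ^ m + 2) * g + 1) ⌈2 * (C0 : ℝ) / ε⌉₊
    omega
  have hnp : n < p ^ n := Nat.lt_pow_self hp1
  have : Finite (B →ₐ[K] K) := pts_finite S
  have : Fintype (B →ₐ[K] K) := Fintype.ofFinite _
  have hst := stepanov p S m n hK (by omega) (Finset.univ : Finset (B →ₐ[K] K))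
  rw [Finset.card_univ, ← Nat.card_eq_fintype_card] at hst
  have hst' : (Nat.card (B →ₐ[K] K) : ℝ) ≤ (C0 : ℝ) + (p:ℝ) ^ n * g + (p:ℝ) ^ n * (p:ℝ) ^ m := by
    have h1 : ((Nat.card (B →ₐ[K] K) : ℕ) : ℝ) ≤ (((p ^ m + 2) * g + 1) + p ^ n * (g + p ^ m) + g : ℕ) := by
      exact_mod_cast hst
    refine h1.trans (le_of_eq ?_)
    rw [hC0]
    push_cast
    ring
  have hq : (Nat.card K : ℝ) = (p:ℝ) ^ n * (p:ℝ) ^ m := by
    rw [hK]
    push_cast
    rw [pow_add]
  have hpn : (0:ℝ) < (p:ℝ) ^ n := by positivity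
  have hpm1 : (1:ℝ) ≤ (p:ℝ) ^ m := one_le_pow₀ hp1'.le
  have hg : (g:ℝ) ≤ ε / 2 * (p:ℝ) ^ m := by
    rw [div_lt_iff₀ hε] at hm
    linarith
  have h2 : (p:ℝ) ^ n * g ≤ ε / 2 * ((p:ℝ) ^ n * (p:ℝ) ^ m) := by
    calc (p:ℝ) ^ n * g ≤ (p:ℝ) ^ n * (ε / 2 * (p:ℝ) ^ m) := mul_le_mul_of_nonneg_left hg hpn.le
      _ = _ := by ring
  have h3 : (C0 : ℝ) ≤ ε / 2 * ((p:ℝ) ^ n * (p:ℝ) ^ m) := by
    have h4 : 2 * (C0 : ℝ) / ε ≤ n := (Nat.le_ceil _).trans (by exact_mod_cast hn2)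
    have h5 : (n:ℝ) ≤ (p:ℝ) ^ n := by exact_mod_cast hnp.le
    have h6 : (p:ℝ) ^ n ≤ (p:ℝ) ^ n * (p:ℝ) ^ m := le_mul_of_one_le_right hpn.le hpm1
    have h7 : 2 * (C0 : ℝ) / ε ≤ (p:ℝ) ^ n * (p:ℝ) ^ m := h4.trans (h5.trans h6)
    rw [div_le_iff₀ hε] at h7
    linarith
  rw [hq]
  linarith

noncomputable def SG_base (K : Type) [Field K] : SG K (Polynomial K) 0 where
  δ := Polynomial.natDegree
  dom := inferInstance
  δ_zero := Polynomial.natDegree_zero
  δ_mul := fun a b ha hb => Polynomial.natDegree_mul ha hb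
  δ_add := fun a b => Polynomial.natDegree_add_le a b
  δ_alg := fun t => Polynomial.natDegree_C t
  surj := fun R _ => ⟨Polynomial.X ^ R, by simp [Polynomial.X_ne_zero], by simp⟩
  one := by
    intro a b ha hb hd
    have hla : a.leadingCoeff ≠ 0 := Polynomial.leadingCoeff_ne_zero.mpr ha
    have hlb : b.leadingCoeff ≠ 0 := Polynomial.leadingCoeff_ne_zero.mpr hb
    have hc : a.leadingCoeff / b.leadingCoeff ≠ 0 := div_ne_zero hla hlb
    refine ⟨a.leadingCoeff / b.leadingCoeff, ?_⟩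
    rw [← Polynomial.C_mul']
    by_cases h : a = Polynomial.C (a.leadingCoeff / b.leadingCoeff) * b
    · exact Or.inl h
    · right
      have hdeg : a.degree = (Polynomial.C (a.leadingCoeff / b.leadingCoeff) * b).degree := by
        rw [Polynomial.degree_C_mul hc, Polynomial.degree_eq_natDegree ha,
          Polynomial.degree_eq_natDegree hb, hd]
      have hlc : a.leadingCoeff =
          (Polynomial.C (a.leadingCoeff / b.leadingCoeff) * b).leadingCoeff := by
        rw [Polynomial.leadingCoeff_mul, Polynomial.leadingCoeff_C, div_mul_cancel₀ _ hlb]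
      exact Polynomial.natDegree_lt_natDegree (sub_ne_zero.mpr h)
        (Polynomial.degree_sub_lt hdeg ha hlc)

theorem SG.neg' (S : SG K B g) (a : B) : S.δ (-a) = S.δ a := by
  have := S.dom
  by_cases h : a = 0
  · rw [h, neg_zero]
  have h1 : algebraMap (K) B (-1) = -1 := by rw [map_neg, map_one]
  have h2 : algebraMap (K) B (-1) ≠ 0 := by rw [h1]; exact neg_ne_zero.mpr one_ne_zero
  have h3 := S.δ_mul _ a h2 h
  rw [S.δ_alg, zero_add, h1, neg_one_mul] at h3
  exact h3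

theorem SG.mul_le' (S : SG K B g) (a b : B) : S.δ (a * b) ≤ S.δ a + S.δ b := by
  by_cases h1 : a = 0
  · rw [h1, zero_mul, S.δ_zero]; exact Nat.zero_le _
  by_cases h2 : b = 0
  · rw [h2, mul_zero, S.δ_zero]; exact Nat.zero_le _
  rw [S.δ_mul _ _ h1 h2]

theorem SG.smul_le' (S : SG K B g) (t : K) (b : B) : S.δ (t • b) ≤ S.δ b := by
  rw [Algebra.smul_def]
  refine (S.mul_le' _ _).trans ?_
  rw [S.δ_alg, zero_add]

theorem SG.sub_le' (S : SG K B g) (a b : B) : S.δ (a - b) ≤ max (S.δ a) (S.δ b) := by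
  rw [sub_eq_add_neg]
  refine (S.δ_add _ _).trans ?_
  rw [S.neg']

theorem SG.sub_smul_le' (S : SG K B g) (a b : B) (t : K) :
    S.δ (a - t • b) ≤ max (S.δ a) (S.δ b) :=
  (S.sub_le' _ _).trans (max_le_max le_rfl (S.smul_le' t b))

theorem SG.two_le' (S : SG K B g) (a : B) : S.δ (2 * a) ≤ S.δ a := by
  refine (S.mul_le' _ _).trans ?_
  have : (2 : B) = algebraMap (K) B 2 := by rw [map_ofNat]
  rw [this, S.δ_alg, zero_add]

theorem SG.sub_lt' (S : SG K B g) (a b : B) (h : S.δ a < S.δ b) : S.δ (a - b) = S.δ b := by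
  apply le_antisymm
  · exact (S.sub_le' a b).trans (by rw [max_eq_right h.le])
  · have h1 : S.δ b ≤ max (S.δ a) (S.δ (a - b)) := by
      have := S.sub_le' a (a - b)
      rwa [sub_sub_cancel] at this
    rcases le_max_iff.mp h1 with h2 | h2
    · omega
    · exact h2

theorem SG.sub_lt'' (S : SG K B g) (a b : B) (h : S.δ b < S.δ a) : S.δ (a - b) = S.δ a := by
  rw [← neg_sub, S.neg', S.sub_lt' b a h]

open Classical in
noncomputable def SG.fo (S : SG K B g) (D : B) (b : B) : ℕ := if b = 0 then 0 else 2 * S.δ b + S.δ D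

theorem SG.fo_zero (S : SG K B g) (D : B) : S.fo D 0 = 0 := by simp [SG.fo]

theorem SG.fo_ne (S : SG K B g) (D b : B) (h : b ≠ 0) : S.fo D b = 2 * S.δ b + S.δ D := by
  simp [SG.fo, h]

theorem SG.fo_le (S : SG K B g) (D b : B) : S.fo D b ≤ 2 * S.δ b + S.δ D := by
  by_cases h : b = 0
  · rw [h, S.fo_zero]; exact Nat.zero_le _
  · rw [S.fo_ne D b h]

noncomputable def SG.dq (S : SG K B g) (D : B) (u : QuadraticAlgebra B D 0) : ℕ :=
  max (2 * S.δ u.re) (S.fo D u.im)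

def nq (D : B) (u : QuadraticAlgebra B D 0) : B := u.re ^ 2 - u.im ^ 2 * D

theorem nq_mul (D : B) (u v : QuadraticAlgebra B D 0) : nq D (u * v) = nq D u * nq D v := by
  simp only [nq, QuadraticAlgebra.re_mul, QuadraticAlgebra.im_mul]
  ring

theorem SG.sq_d (S : SG K B g) (a : B) : S.δ (a ^ 2) = 2 * S.δ a := by
  by_cases h : a = 0
  · rw [h, zero_pow two_ne_zero, S.δ_zero]
  · rw [sq, S.δ_mul _ _ h h, two_mul]

theorem SG.sqD_d (S : SG K B g) (D a : B) (hD0 : D ≠ 0) : S.δ (a ^ 2 * D) = S.fo D a := by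
  have := S.dom
  by_cases h : a = 0
  · rw [h, zero_pow two_ne_zero, zero_mul, S.δ_zero, S.fo_zero]
  · rw [S.δ_mul _ _ (pow_ne_zero 2 h) hD0, S.sq_d, S.fo_ne D a h]

theorem SG.fo_ne_even (S : SG K B g) (D b : B) (hodd : Odd (S.δ D)) (h : b ≠ 0) (m : ℕ) :
    S.fo D b ≠ 2 * m := by
  rw [S.fo_ne D b h]
  obtain ⟨r, hr⟩ := hodd
  omega

theorem SG.dq_eq (S : SG K B g) (D : B) (hD0 : D ≠ 0) (hodd : Odd (S.δ D))
    (u : QuadraticAlgebra B D 0) : S.dq D u = S.δ (nq D u) := by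
  unfold SG.dq nq
  by_cases h : u.im = 0
  · rw [h, S.fo_zero, zero_pow two_ne_zero, zero_mul, sub_zero, S.sq_d]
    simp
  · have h1 := S.fo_ne_even D u.im hodd h (S.δ u.re)
    rcases lt_or_gt_of_ne h1 with h2 | h2
    · rw [max_eq_left h2.le, S.sub_lt'', S.sq_d]
      rw [S.sq_d, S.sqD_d D _ hD0]; exact h2
    · rw [max_eq_right h2.le, S.sub_lt', S.sqD_d D _ hD0]
      rw [S.sq_d, S.sqD_d D _ hD0]; exact h2

theorem SG.nq_zero (S : SG K B g) (D : B) (hD0 : D ≠ 0) (hodd : Odd (S.δ D))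
    (u : QuadraticAlgebra B D 0) (h0 : nq D u = 0) : u = 0 := by
  have := S.dom
  have h1 : u.re ^ 2 = u.im ^ 2 * D := sub_eq_zero.mp h0
  have h2 : 2 * S.δ u.re = S.fo D u.im := by rw [← S.sq_d, h1, S.sqD_d D _ hD0]
  have h3 : u.im = 0 := by
    by_contra h
    exact S.fo_ne_even D u.im hodd h _ h2.symm
  have h4 : u.re = 0 := by
    rw [h3, zero_pow two_ne_zero, zero_mul] at h1
    exact pow_eq_zero_iff two_ne_zero |>.mp h1
  ext
  · exact h4
  · exact h3

theorem SG_quad (S : SG K B g) (D : B) (hD0 : D ≠ 0) (hodd : Odd (S.δ D)) :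
    ∃ S' : SG K (QuadraticAlgebra B D 0) (2 * g + S.δ D),
      (∀ a : B, S'.δ ⟨a, 0⟩ = 2 * S.δ a) ∧ S'.δ ⟨0, 1⟩ = S.δ D := by
  have hdom := S.dom
  obtain ⟨r, hr⟩ := id hodd
  refine ⟨{ δ := S.dq D, dom := ?_, δ_zero := ?_, δ_mul := ?_, δ_add := ?_,
            δ_alg := ?_, surj := ?_, one := ?_ }, ?_, ?_⟩
  · have : NoZeroDivisors (QuadraticAlgebra B D 0) := ⟨by
      intro u v huv
      have h1 : nq D u * nq D v = 0 := by
        rw [← nq_mul, huv]; simp [nq]
      rcases mul_eq_zero.mp h1 with h | h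
      · exact Or.inl (S.nq_zero D hD0 hodd u h)
      · exact Or.inr (S.nq_zero D hD0 hodd v h)⟩
    have : Nontrivial (QuadraticAlgebra B D 0) := inferInstance
    exact NoZeroDivisors.to_isDomain _
  · simp [SG.dq, S.δ_zero, S.fo_zero]
  · intro u v hu hv
    rw [S.dq_eq D hD0 hodd, S.dq_eq D hD0 hodd, S.dq_eq D hD0 hodd, nq_mul]
    exact S.δ_mul _ _ (fun h => hu (S.nq_zero D hD0 hodd u h)) (fun h => hv (S.nq_zero D hD0 hodd v h))
  · intro u v
    have h1 := S.δ_add u.re v.re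
    have h2 : S.fo D (u.im + v.im) ≤ max (S.fo D u.im) (S.fo D v.im) := by
      by_cases h : u.im + v.im = 0
      · rw [h, S.fo_zero]; exact Nat.zero_le _
      by_cases hu : u.im = 0
      · rw [hu, zero_add]; exact le_max_right _ _
      by_cases hv : v.im = 0
      · rw [hv, add_zero]; exact le_max_left _ _
      have := S.δ_add u.im v.im
      rw [S.fo_ne D _ h, S.fo_ne D _ hu, S.fo_ne D _ hv]
      omega
    simp only [SG.dq, QuadraticAlgebra.re_add, QuadraticAlgebra.im_add]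
    omega
  · intro t
    have : algebraMap (K) (QuadraticAlgebra B D 0) t = ⟨algebraMap (K) B t, 0⟩ := rfl
    rw [this]
    simp [SG.dq, S.δ_alg, S.fo_zero]
  · intro R hR
    rcases Nat.even_or_odd R with ⟨m, hm⟩ | ⟨m, hm⟩
    · obtain ⟨e, he, hδ⟩ := S.surj m (by omega)
      refine ⟨⟨e, 0⟩, ?_, ?_⟩
      · intro h
        exact he (congrArg QuadraticAlgebra.re h)
      · simp only [SG.dq, S.fo_zero]
        omega
    · obtain ⟨e, he, hδ⟩ := S.surj (m - r) (by omega)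
      refine ⟨⟨0, e⟩, ?_, ?_⟩
      · intro h
        exact he (congrArg QuadraticAlgebra.im h)
      · simp only [SG.dq, S.fo_ne D e he, S.δ_zero]
        omega
  · intro u v hu hv huv
    have hfo : ∀ b : B, ∃ m e : ℕ, S.fo D b = 2 * m + e ∧ e ≤ 1 ∧ (e = 1 ∨ m = 0) := by
      intro b
      by_cases h : b = 0
      · exact ⟨0, 0, by rw [h, S.fo_zero], by omega, Or.inr rfl⟩
      · exact ⟨S.δ b + r, 1, by rw [S.fo_ne D b h]; omega, le_rfl, Or.inl rfl⟩
    have hre : ∀ w : QuadraticAlgebra B D 0, w ≠ 0 → w.re = 0 → w.im ≠ 0 := by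
      intro w hw h1 h2
      apply hw
      ext
      · exact h1
      · exact h2
    have hfoadd : ∀ (t : K), S.fo D (u.im - t • v.im) ≤ max (S.fo D u.im) (S.fo D v.im) := by
      intro t
      by_cases h : u.im - t • v.im = 0
      · rw [h, S.fo_zero]; exact Nat.zero_le _
      by_cases hv' : v.im = 0
      · rw [hv', smul_zero, sub_zero]; exact le_max_left _ _
      by_cases hu' : u.im = 0
      · have := S.smul_le' t v.im
        have h2 : S.δ (u.im - t • v.im) = S.δ (t • v.im) := by rw [hu', zero_sub, S.neg']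
        rw [S.fo_ne D _ h, S.fo_ne D _ hv', h2]
        refine le_trans ?_ (le_max_right _ _)
        omega
      have := S.sub_smul_le' u.im v.im t
      rw [S.fo_ne D _ h, S.fo_ne D _ hu', S.fo_ne D _ hv']
      omega
    have hreadd := fun t : K => S.sub_smul_le' u.re v.re t
    simp only [SG.dq] at huv ⊢
    by_cases hev : S.fo D u.im ≤ 2 * S.δ u.re
    · -- even case
      obtain ⟨mu, eu, hu1, hu2, hu3⟩ := hfo u.im
      obtain ⟨mv, ev, hv1, hv2, hv3⟩ := hfo v.im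
      have hev2 : S.fo D v.im ≤ 2 * S.δ v.re := by omega
      have hδ : S.δ u.re = S.δ v.re := by omega
      have hur : u.re ≠ 0 := by
        intro h
        have h2 := S.fo_ne D _ (hre u hu h)
        rw [h, S.δ_zero] at hev
        omega
      have hvr : v.re ≠ 0 := by
        intro h
        have h2 := S.fo_ne D _ (hre v hv h)
        rw [h, S.δ_zero] at hev2
        omega
      obtain ⟨t, ht⟩ := S.one u.re v.re hur hvr hδ
      refine ⟨t, ?_⟩
      have h3 := hfoadd t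
      obtain ⟨mt, et, h4, h4b, h4c⟩ := hfo (u.im - t • v.im)
      simp only [QuadraticAlgebra.re_sub, QuadraticAlgebra.im_sub, QuadraticAlgebra.re_smul,
        QuadraticAlgebra.im_smul]
      rcases ht with ht | ht
      · by_cases h5 : u.im = t • v.im
        · left
          ext
          · exact ht
          · exact h5
        · right
          have h6 : S.fo D (u.im - t • v.im) ≠ 0 := by
            rw [S.fo_ne D _ (sub_ne_zero.mpr h5)]; omega
          rw [sub_eq_zero.mpr ht, S.δ_zero]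
          omega
      · right
        omega
    · have hu1 := hfo u.im
      have hv1 := hfo v.im
      have hev2 : 2 * S.δ v.re < S.fo D v.im := by omega
      have hui : u.im ≠ 0 := by
        intro h; rw [h, S.fo_zero] at hev; omega
      have hvi : v.im ≠ 0 := by
        intro h; rw [h, S.fo_zero] at hev2; omega
      have e1 := S.fo_ne D _ hui
      have e2 := S.fo_ne D _ hvi
      have hδ : S.δ u.im = S.δ v.im := by omega
      obtain ⟨t, ht⟩ := S.one u.im v.im hui hvi hδ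
      refine ⟨t, Or.inr ?_⟩
      have h3 := hreadd t
      simp only [QuadraticAlgebra.re_sub, QuadraticAlgebra.im_sub, QuadraticAlgebra.re_smul,
        QuadraticAlgebra.im_smul]
      rcases ht with ht | ht
      · rw [sub_eq_zero.mpr ht, S.fo_zero]
        omega
      · have h4 := S.fo_le D (u.im - t • v.im)
        omega
  · intro a
    simp [SG.dq, S.fo_zero]
  · have h1 : S.δ (1 : B) = 0 := by
      have := S.δ_alg 1
      rwa [map_one] at this
    show max (2 * S.δ (0 : B)) (S.fo D 1) = S.δ D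
    rw [S.δ_zero, S.fo_ne D 1 one_ne_zero, h1]
    simp


noncomputable def pq_equiv (D : B) : (QuadraticAlgebra B D 0 →ₐ[K] K) ≃
    {q : (B →ₐ[K] K) × K // q.2 * q.2 = q.1 D} where
  toFun Q := ⟨(Q.comp (IsScalarTower.toAlgHom (K) B (QuadraticAlgebra B D 0)), Q ⟨0, 1⟩), by
    simp only [AlgHom.comp_apply, IsScalarTower.coe_toAlgHom']
    rw [← map_mul]
    congr 1
    ext <;> simp⟩
  invFun q :=
    { toFun := fun z => q.1.1 z.re + q.1.1 z.im * q.1.2
      map_one' := by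
        have h1 : (1 : QuadraticAlgebra B D 0).re = 1 := rfl
        have h2 : (1 : QuadraticAlgebra B D 0).im = 0 := rfl
        rw [h1, h2, map_one, map_zero, zero_mul, add_zero]
      map_mul' := by
        intro z w
        have h := q.2
        simp only [QuadraticAlgebra.re_mul, QuadraticAlgebra.im_mul, map_add, map_mul, map_zero,
          zero_mul, add_zero]
        linear_combination (-(q.1.1 z.im * q.1.1 w.im)) * h
      map_zero' := by simp
      map_add' := by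
        intro z w
        simp only [QuadraticAlgebra.re_add, QuadraticAlgebra.im_add, map_add]
        ring
      commutes' := by
        intro r
        have h1 : (algebraMap (K) (QuadraticAlgebra B D 0) r).re = algebraMap (K) B r := rfl
        have h2 : (algebraMap (K) (QuadraticAlgebra B D 0) r).im = 0 := rfl
        rw [h1, h2, map_zero, zero_mul, add_zero, AlgHom.commutes] }
  left_inv Q := by
    ext z
    simp only [AlgHom.coe_mk, RingHom.coe_mk, MonoidHom.coe_mk, OneHom.coe_mk, AlgHom.comp_apply,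
      IsScalarTower.coe_toAlgHom']
    rw [← map_mul, ← map_add]
    congr 1
    ext <;> simp
  right_inv q := by
    apply Subtype.ext
    apply Prod.ext
    · ext b
      simp
    · simp

open Classical in
theorem pq_count [Fintype K] (h20 : (2 : K) ≠ 0) (ν : K) (hν : ¬ IsSquare ν) (s : K) :
    (∑ y : K, if y * y = s then 1 else 0) + (∑ y : K, if y * y = ν * s then 1 else 0) = 2 := by
  have hF : ringChar K ≠ 2 := by
    intro h
    apply h20
    have := CharP.cast_eq_zero K (ringChar K)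
    rw [h] at this
    exact_mod_cast this
  have h1 : ∀ s : K, ((∑ y : K, if y * y = s then 1 else 0 : ℕ) : ℤ) =
      quadraticChar (K) s + 1 := by
    intro s
    rw [← quadraticChar_card_sqrts hF s, ← Finset.card_filter]
    congr 2
    ext y
    simp [sq]
  have h2 : quadraticChar (K) ν = -1 := quadraticChar_neg_one_iff_not_isSquare.mpr hν
  have h3 := h1 s
  have h4 := h1 (ν * s)
  rw [map_mul, h2] at h4
  zify
  push_cast at h3 h4
  rw [h3, h4]
  ring

theorem pts_quad [Fintype K] (h2 : (2 : K) ≠ 0) (hfin : Finite (B →ₐ[K] K)) (D : B) (ν : K)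
    (hν : ¬ IsSquare ν) :
    Nat.card (QuadraticAlgebra B D 0 →ₐ[K] K) +
      Nat.card (QuadraticAlgebra B (ν • D) 0 →ₐ[K] K) =
        2 * Nat.card (B →ₐ[K] K) := by
  classical
  haveI := Fintype.ofFinite (B →ₐ[K] K)
  rw [Nat.card_congr (pq_equiv D), Nat.card_congr (pq_equiv (ν • D))]
  have h1 : ∀ D : B, Nat.card {q : (B →ₐ[K] K) × K // q.2 * q.2 = q.1 D} =
      ∑ P : (B →ₐ[K] K), ∑ y : K, if y * y = P D then 1 else 0 := by
    intro D
    rw [Nat.card_eq_fintype_card, Fintype.card_subtype, Finset.card_filter, Fintype.sum_prod_type]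
  rw [h1, h1, ← Finset.sum_add_distrib]
  have h2' : ∀ P : (B →ₐ[K] K), ((∑ y : K, if y * y = P D then 1 else 0) +
      ∑ y : K, if y * y = P (ν • D) then 1 else 0) = 2 := by
    intro P
    rw [map_smul, smul_eq_mul]
    have h3 := pq_count h2 ν hν (P D)
    exact h3
  rw [Finset.sum_congr rfl fun P _ => h2' P]
  simp [Nat.card_eq_fintype_card, mul_comm]

def Ch {K : Type} [Field K] : ℕ → K → K → Prop
  | 0, v, Y => Y = 8 * v * (v ^ 2 + 1)
  | i + 1, v, Y => ∃ Y' : K, Ch i v Y' ∧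
      Y ^ 2 = (256 * v ^ 4 + 32 * v ^ 2 * (v ^ 2 - 1) ^ 2) + 2 * (v ^ 2 - 1) ^ 2 * Y'

theorem tw_δ_one (S : SG K B g) : S.δ 1 = 0 := by
  have := S.δ_alg 1
  rwa [map_one] at this

theorem tw_alg_ne (S : SG K B g) (t : K) (ht : t ≠ 0) : algebraMap K B t ≠ 0 := by
  have := S.dom
  exact (map_ne_zero (algebraMap K B)).mpr ht

theorem tw_δ_algmul (S : SG K B g) (t : K) (ht : t ≠ 0) (b : B) (hb : b ≠ 0) :
    S.δ (algebraMap K B t * b) = S.δ b := by
  rw [S.δ_mul _ _ (tw_alg_ne S t ht) hb, S.δ_alg, zero_add]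

theorem tw_δ_neg (S : SG K B g) (b : B) : S.δ (-b) = S.δ b := by
  by_cases hb : b = 0
  · rw [hb, neg_zero]
  · have h1 : -b = algebraMap K B (-1) * b := by rw [map_neg, map_one]; ring
    rw [h1]
    exact tw_δ_algmul S (-1) (neg_ne_zero.mpr one_ne_zero) b hb

theorem tw_δ_add_of_lt (S : SG K B g) (a b : B) (h : S.δ b < S.δ a) : S.δ (a + b) = S.δ a := by
  apply le_antisymm
  · exact (S.δ_add a b).trans (max_le le_rfl h.le)
  · have h1 := S.δ_add (a + b) (-b)
    rw [add_neg_cancel_right, tw_δ_neg] at h1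
    rcases le_max_iff.mp h1 with h2 | h2
    · exact h2
    · omega

theorem tw_δ_pow (S : SG K B g) (a : B) (ha : a ≠ 0) (n : ℕ) : S.δ (a ^ n) = n * S.δ a := by
  have := S.dom
  induction n with
  | zero => rw [pow_zero, tw_δ_one, zero_mul]
  | succ n ih =>
    rw [pow_succ, S.δ_mul _ _ (pow_ne_zero n ha) ha, ih]
    ring

theorem tw_ne_of_δ (S : SG K B g) (a : B) (h : S.δ a ≠ 0) : a ≠ 0 := by
  rintro rfl
  exact h S.δ_zero

theorem tw_numeral (h2 : (2 : K) ≠ 0) (S : SG K B g) (j : ℕ) (b : B) (hb : b ≠ 0) :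
    S.δ ((2 : B) ^ j * b) = S.δ b := by
  have h1 : (2 : B) ^ j = algebraMap K B (2 ^ j) := by
    rw [map_pow, map_ofNat]
  rw [h1]
  exact tw_δ_algmul S _ (pow_ne_zero j h2) b hb

theorem tw_D (h2 : (2 : K) ≠ 0) (S : SG K B g) (i : ℕ) (v Y : B) (hv : S.δ v = 2 ^ i)
    (hY : S.δ Y = 2 ^ (i + 2) - 1) (hY0 : Y ≠ 0) :
    S.δ ((256 * v ^ 4 + 32 * v ^ 2 * (v ^ 2 - 1) ^ 2) + 2 * (v ^ 2 - 1) ^ 2 * Y) = 2 ^ (i + 3) - 1 := by
  have := S.dom
  have hi : 1 ≤ 2 ^ i := Nat.one_le_two_pow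
  have e2 : 2 ^ (i + 2) = 4 * 2 ^ i := by ring
  have e3 : 2 ^ (i + 3) = 8 * 2 ^ i := by ring
  have hv0 : v ≠ 0 := tw_ne_of_δ S v (by omega)
  have hv2 : S.δ (v ^ 2) = 2 * 2 ^ i := by rw [tw_δ_pow S v hv0, hv]
  have hw : S.δ (v ^ 2 - 1) = 2 * 2 ^ i := by
    rw [sub_eq_add_neg, tw_δ_add_of_lt S _ _ (by rw [tw_δ_neg, tw_δ_one, hv2]; omega), hv2]
  have hw0 : v ^ 2 - 1 ≠ 0 := tw_ne_of_δ S _ (by omega)
  have hT3 : S.δ (2 * (v ^ 2 - 1) ^ 2 * Y) = 2 * (2 * 2 ^ i) + (2 ^ (i + 2) - 1) := by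
    have h1 : 2 * (v ^ 2 - 1) ^ 2 * Y = (2 : B) ^ 1 * ((v ^ 2 - 1) ^ 2 * Y) := by ring
    rw [h1, tw_numeral h2 S 1 _ (mul_ne_zero (pow_ne_zero 2 hw0) hY0),
      S.δ_mul _ _ (pow_ne_zero 2 hw0) hY0, tw_δ_pow S _ hw0, hw, hY]
  have hT1 : S.δ (256 * v ^ 4) = 4 * 2 ^ i := by
    have h1 : 256 * v ^ 4 = (2 : B) ^ 8 * (v ^ 4) := by norm_num
    rw [h1, tw_numeral h2 S 8 _ (pow_ne_zero 4 hv0), tw_δ_pow S v hv0, hv]
  have hT2 : S.δ (32 * v ^ 2 * (v ^ 2 - 1) ^ 2) = 2 * 2 ^ i + 2 * (2 * 2 ^ i) := by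
    have h1 : 32 * v ^ 2 * (v ^ 2 - 1) ^ 2 = (2 : B) ^ 5 * (v ^ 2 * (v ^ 2 - 1) ^ 2) := by
      norm_num [mul_assoc]
    rw [h1, tw_numeral h2 S 5 _ (mul_ne_zero (pow_ne_zero 2 hv0) (pow_ne_zero 2 hw0)),
      S.δ_mul _ _ (pow_ne_zero 2 hv0) (pow_ne_zero 2 hw0), tw_δ_pow S _ hw0, hw, hv2]
  have hT12 := S.δ_add (256 * v ^ 4) (32 * v ^ 2 * (v ^ 2 - 1) ^ 2)
  rw [hT1, hT2] at hT12
  have hlt : S.δ (256 * v ^ 4 + 32 * v ^ 2 * (v ^ 2 - 1) ^ 2) < S.δ (2 * (v ^ 2 - 1) ^ 2 * Y) := by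
    rw [hT3]
    refine lt_of_le_of_lt hT12 ?_
    rw [max_lt_iff]
    constructor <;> omega
  rw [add_comm, tw_δ_add_of_lt S _ _ hlt, hT3]
  omega

theorem tw_base (ε : ℝ) (hε : 0 < ε) (K : Type) [Field K] [Fintype K] (h2 : (2 : K) ≠ 0) :
    ∃ (B : Type) (_ : CommRing B) (_ : Algebra K B) (S : SG K B 0) (v Y : B),
      S.δ v = 2 ^ 0 ∧ S.δ Y = 2 ^ (0 + 2) - 1 ∧ Y ≠ 0 ∧
      (∀ P : B →ₐ[K] K, Ch 0 (P v) (P Y)) ∧
      (1 - ε) * Nat.card K ≤ (Nat.card (B →ₐ[K] K) : ℝ) := by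
  have hX : (SG_base K).δ Polynomial.X = 1 := Polynomial.natDegree_X
  have hX0 : (Polynomial.X : Polynomial K) ≠ 0 := Polynomial.X_ne_zero
  have h1 : (SG_base K).δ (Polynomial.X ^ 2 + 1) = 2 := by
    rw [tw_δ_add_of_lt _ _ _ (by rw [tw_δ_one, tw_δ_pow _ _ hX0, hX]; norm_num),
      tw_δ_pow _ _ hX0, hX]
  have h10 : (Polynomial.X ^ 2 + 1 : Polynomial K) ≠ 0 := tw_ne_of_δ (SG_base K) _ (by rw [h1]; norm_num)
  have hY : (SG_base K).δ (8 * Polynomial.X * (Polynomial.X ^ 2 + 1)) = 3 := by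
    have h3 : 8 * Polynomial.X * (Polynomial.X ^ 2 + 1) =
        (2 : Polynomial K) ^ 3 * (Polynomial.X * (Polynomial.X ^ 2 + 1)) := by
      norm_num [mul_assoc]
    rw [h3, tw_numeral h2 _ 3 _ (mul_ne_zero hX0 h10), (SG_base K).δ_mul _ _ hX0 h10, hX, h1]
  refine ⟨Polynomial K, inferInstance, inferInstance, SG_base K, Polynomial.X,
    8 * Polynomial.X * (Polynomial.X ^ 2 + 1), ?_, ?_, ?_, ?_, ?_⟩
  · rw [hX]; norm_num
  · rw [hY]; norm_num
  · exact tw_ne_of_δ (SG_base K) _ (by rw [hY]; norm_num)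
  · intro P
    show P (8 * Polynomial.X * (Polynomial.X ^ 2 + 1)) = 8 * P Polynomial.X * (P Polynomial.X ^ 2 + 1)
    simp only [map_mul, map_add, map_pow, map_one, map_ofNat]
  · have e : (Polynomial K →ₐ[K] K) ≃ K :=
      { toFun := fun P => P Polynomial.X
        invFun := fun a => Polynomial.aeval a
        left_inv := fun P => Polynomial.algHom_ext (by simp)
        right_inv := fun a => by simp }
    rw [Nat.card_congr e]
    have : (0 : ℝ) ≤ (Nat.card K : ℝ) := Nat.cast_nonneg _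
    nlinarith

theorem tw_Ch (i : ℕ) (v Y D : B)
    (hD : D = (256 * v ^ 4 + 32 * v ^ 2 * (v ^ 2 - 1) ^ 2) + 2 * (v ^ 2 - 1) ^ 2 * Y)
    (hCh : ∀ P : B →ₐ[K] K, Ch i (P v) (P Y)) :
    ∀ P : QuadraticAlgebra B D 0 →ₐ[K] K,
      Ch (i + 1) (P ⟨v, 0⟩) (P ⟨0, 1⟩) := by
  intro P
  let Q : B →ₐ[K] K := P.comp (IsScalarTower.toAlgHom K B (QuadraticAlgebra B D 0))
  have hQ : ∀ a : B, Q a = P ⟨a, 0⟩ := fun a => rfl
  refine ⟨P ⟨Y, 0⟩, ?_, ?_⟩
  · have h0 := hCh Q
    rw [hQ, hQ] at h0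
    exact h0
  · have h1 : (⟨0, 1⟩ : QuadraticAlgebra B D 0) ^ 2 = ⟨D, 0⟩ := by
      rw [pow_two]
      ext <;> simp
    rw [← map_pow, h1, ← hQ, ← hQ, ← hQ]
    have h2 : Q D = Q ((256 * v ^ 4 + 32 * v ^ 2 * (v ^ 2 - 1) ^ 2) + 2 * (v ^ 2 - 1) ^ 2 * Y) :=
      congrArg Q hD
    rw [h2]
    simp only [map_mul, map_add, map_pow, map_sub, map_one, map_ofNat]

theorem tw_step (i : ℕ) (g : ℕ) (ε : ℝ) (K : Type) [Field K] [Fintype K] (h2 : (2 : K) ≠ 0)
    (hch : ringChar K ≠ 2)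
    (hp1 : ∀ (B : Type) [CommRing B] [Algebra K B] (_ : SG K B (2 * g + (2 ^ (i + 3) - 1))),
        (Nat.card (B →ₐ[K] K) : ℝ) ≤ (1 + ε / 3) * Nat.card K)
    (B : Type) [CommRing B] [Algebra K B] (S : SG K B g) (v Y : B)
    (hv : S.δ v = 2 ^ i) (hY : S.δ Y = 2 ^ (i + 2) - 1) (hY0 : Y ≠ 0)
    (hCh : ∀ P : B →ₐ[K] K, Ch i (P v) (P Y))
    (hcard : (1 - ε / 3) * Nat.card K ≤ (Nat.card (B →ₐ[K] K) : ℝ)) :
    ∃ (B : Type) (_ : CommRing B) (_ : Algebra K B)
      (S : SG K B (2 * g + (2 ^ (i + 3) - 1))) (v Y : B),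
      S.δ v = 2 ^ (i + 1) ∧ S.δ Y = 2 ^ (i + 1 + 2) - 1 ∧ Y ≠ 0 ∧
      (∀ P : B →ₐ[K] K, Ch (i + 1) (P v) (P Y)) ∧
      (1 - ε) * Nat.card K ≤ (Nat.card (B →ₐ[K] K) : ℝ) := by
  have hδD := tw_D h2 S i v Y hv hY hY0
  obtain ⟨D, hD⟩ : ∃ D : B,
    D = (256 * v ^ 4 + 32 * v ^ 2 * (v ^ 2 - 1) ^ 2) + 2 * (v ^ 2 - 1) ^ 2 * Y := ⟨_, rfl⟩
  rw [← hD] at hδD
  have hChD := tw_Ch (K := K) i v Y D hD hCh
  have hi : 1 ≤ 2 ^ i := Nat.one_le_two_pow
  have e3 : 2 ^ (i + 3) = 8 * 2 ^ i := by ring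
  have hoddn : Odd (2 ^ (i + 3) - 1) := ⟨4 * 2 ^ i - 1, by omega⟩
  have hD0 : D ≠ 0 := tw_ne_of_δ S D (by omega)
  have key := SG_quad S D hD0 (by rw [hδD]; exact hoddn)
  rw [hδD] at key
  obtain ⟨S', k1, k2⟩ := key
  -- a nonsquare
  obtain ⟨ν, hν⟩ : ∃ ν : K, ¬ IsSquare ν := FiniteField.exists_nonsquare hch
  have hν0 : ν ≠ 0 := by
    rintro rfl
    exact hν ⟨0, by simp⟩
  have hδD' : S.δ (ν • D) = 2 ^ (i + 3) - 1 := by
    rw [Algebra.smul_def, tw_δ_algmul S ν hν0 D hD0, hδD]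
  have hD0' : ν • D ≠ 0 := tw_ne_of_δ S _ (by omega)
  have key2 := SG_quad S (ν • D) hD0' (by rw [hδD']; exact hoddn)
  rw [hδD'] at key2
  obtain ⟨S'', l1, l2⟩ := key2
  have hfin := pts_finite S
  have hcount := pts_quad h2 hfin D ν hν
  have hub := hp1 (QuadraticAlgebra B (ν • D) 0) S''
  have hcountR : (Nat.card (QuadraticAlgebra B D 0 →ₐ[K] K) : ℝ) +
      (Nat.card (QuadraticAlgebra B (ν • D) 0 →ₐ[K] K) : ℝ) =
        2 * (Nat.card (B →ₐ[K] K) : ℝ) := by exact_mod_cast hcount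
  refine ⟨QuadraticAlgebra B D 0, inferInstance, inferInstance, S', ⟨v, 0⟩, ⟨0, 1⟩, ?_, ?_, ?_,
    hChD, ?_⟩
  · rw [k1, hv, pow_succ]; ring
  · rw [k2]
  · exact tw_ne_of_δ S' _ (by rw [k2]; omega)
  · nlinarith

theorem tower (p : ℕ) [Fact p.Prime] (hp : p ≠ 2) (i : ℕ) : ∃ g : ℕ, ∀ ε : ℝ, 0 < ε → ∃ f₀ : ℕ,
    ∀ f : ℕ, f₀ ≤ f → ∀ (K : Type) [Field K] [CharP K p] [Fintype K], Nat.card K = p ^ f →
    ∃ (B : Type) (_ : CommRing B) (_ : Algebra K B) (S : SG K B g) (v Y : B),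
      S.δ v = 2 ^ i ∧ S.δ Y = 2 ^ (i + 2) - 1 ∧ Y ≠ 0 ∧
      (∀ P : B →ₐ[K] K, Ch i (P v) (P Y)) ∧
      (1 - ε) * Nat.card K ≤ (Nat.card (B →ₐ[K] K) : ℝ) := by
  have h2K : ∀ (K : Type) [Field K] [CharP K p], (2 : K) ≠ 0 := by
    intro K _ _ h
    have h1 : ((2 : ℕ) : K) = 0 := by exact_mod_cast h
    rw [CharP.cast_eq_zero_iff K p] at h1
    exact hp ((Nat.prime_dvd_prime_iff_eq (Fact.out : p.Prime) Nat.prime_two).mp h1)
  have hchK : ∀ (K : Type) [Field K] [CharP K p], ringChar K ≠ 2 := by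
    intro K _ _
    rw [ringChar.eq K p]
    exact hp
  induction i with
  | zero =>
    refine ⟨0, fun ε hε => ⟨0, fun f _ K _ _ _ _ => ?_⟩⟩
    exact tw_base ε hε K (h2K K)
  | succ i ih =>
    obtain ⟨g, ih⟩ := ih
    refine ⟨2 * g + (2 ^ (i + 3) - 1), fun ε hε => ?_⟩
    obtain ⟨f₀, h0⟩ := ih (ε / 3) (by positivity)
    obtain ⟨f₁, h1⟩ := pts_le p (2 * g + (2 ^ (i + 3) - 1)) (ε / 3) (by positivity)
    refine ⟨max f₀ f₁, fun f hf K _ _ _ hK => ?_⟩
    obtain ⟨B, iB, iA, S, v, Y, hv, hY, hY0, hCh, hcard⟩ :=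
      h0 f ((le_max_left _ _).trans hf) K hK
    exact tw_step i g ε K (h2K K) (hchK K) (h1 f ((le_max_right _ _).trans hf) K hK) B S v Y
      hv hY hY0 hCh hcard

theorem exists_chain (p : ℕ) [Fact p.Prime] (hp : p ≠ 2) (i : ℕ) : ∃ f₀ : ℕ, ∀ f : ℕ, f₀ ≤ f →
    ∀ (K : Type) [Field K] [CharP K p] [Fintype K], Nat.card K = p ^ f →
    ∃ v Y : K, v ≠ 0 ∧ v ^ 2 ≠ 1 ∧ Ch i v Y := by
  classical
  obtain ⟨g, htow⟩ := tower p hp i
  obtain ⟨f₀, hf₀⟩ := htow (1 / 2) (by norm_num)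
  refine ⟨max f₀ (2 * (3 * 2 ^ i + g) + 1), ?_⟩
  intro f hf K _ _ _ hK
  obtain ⟨B, _, _, S, v, Y, hv, hY, hY0, hCh, hcard⟩ := hf₀ f ((le_max_left _ _).trans hf) K hK
  have hp2 : 2 * (3 * 2 ^ i + g) + 1 ≤ Nat.card K := by
    have h1 : 2 * (3 * 2 ^ i + g) + 1 ≤ f := (le_max_right _ _).trans hf
    have h2 : f < p ^ f := Nat.lt_pow_self (Fact.out : p.Prime).one_lt
    rw [hK]
    omega
  haveI := S.dom
  have hone : S.δ (1 : B) = 0 := by
    have := S.δ_alg 1
    rwa [map_one] at this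
  have hnegone : S.δ (-1 : B) = 0 := by
    have := S.δ_alg (-1)
    rwa [map_neg, map_one] at this
  have hpow : 1 ≤ 2 ^ i := Nat.one_le_two_pow
  have hv0 : v ≠ 0 := by
    rintro rfl
    rw [S.δ_zero] at hv
    omega
  have hvv : S.δ (v ^ 2) = 2 ^ i + 2 ^ i := by
    rw [sq, S.δ_mul v v hv0 hv0, hv]
  have hv1 : v ^ 2 - 1 ≠ 0 := by
    intro h
    have h1 : v ^ 2 = 1 := sub_eq_zero.1 h
    rw [h1, hone] at hvv
    omega
  have hd1 : S.δ (v ^ 2 - 1) ≤ 2 ^ i + 2 ^ i := by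
    have := S.δ_add (v ^ 2) (-1)
    rw [hvv, hnegone, ← sub_eq_add_neg] at this
    simpa using this
  have hΦ : v * (v ^ 2 - 1) ≠ 0 := mul_ne_zero hv0 hv1
  have hδΦ : S.δ (v * (v ^ 2 - 1)) ≤ 3 * 2 ^ i := by
    rw [S.δ_mul _ _ hv0 hv1, hv]
    omega
  haveI : Finite (B →ₐ[K] K) := pts_finite S
  haveI : Fintype (B →ₐ[K] K) := Fintype.ofFinite _
  have hex : ∃ P : B →ₐ[K] K, P (v * (v ^ 2 - 1)) ≠ 0 := by
    by_contra hcon
    push Not at hcon
    have h1 := zero_count S (Finset.univ : Finset (B →ₐ[K] K)) (v * (v ^ 2 - 1)) hΦ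
      (fun P _ => hcon P)
    rw [Finset.card_univ, ← Nat.card_eq_fintype_card] at h1
    have h2 : Nat.card (B →ₐ[K] K) ≤ 3 * 2 ^ i + g := by omega
    have h3 : (Nat.card (B →ₐ[K] K) : ℝ) ≤ ((3 * 2 ^ i + g : ℕ) : ℝ) := by
      exact_mod_cast h2
    have h4 : ((2 * (3 * 2 ^ i + g) + 1 : ℕ) : ℝ) ≤ (Nat.card K : ℝ) := by exact_mod_cast hp2
    have h5 : ((2 * (3 * 2 ^ i + g) + 1 : ℕ) : ℝ) = 2 * ((3 * 2 ^ i + g : ℕ) : ℝ) + 1 := by
      push_cast; ring
    rw [h5] at h4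
    linarith
  obtain ⟨P, hP⟩ := hex
  rw [map_mul, map_sub, map_pow, map_one] at hP
  refine ⟨P v, P Y, left_ne_zero_of_mul hP, ?_, hCh P⟩
  exact sub_ne_zero.1 (right_ne_zero_of_mul hP)

theorem chain_dyn (K : Type) [Field K] (h2 : (2 : K) ≠ 0) (i : ℕ) (v Y : K) (hv : v ≠ 0)
    (hv1 : v ^ 2 ≠ 1) (h : Ch i v Y) :
    ∃ T μ w : K, μ ≠ 0 ∧ T ^ 2 - 4 = μ ^ 2 ∧
      (fun w : K => w ^ 2 - (T ^ 2 - 4) * w)^[i + 1] w = T ^ 2 - 4 := by
  have hD : v ^ 2 - 1 ≠ 0 := sub_ne_zero.2 hv1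
  have h4 : (4 : K) ≠ 0 := by
    have : (4 : K) = 2 * 2 := by norm_num
    rw [this]
    exact mul_ne_zero h2 h2
  obtain ⟨d, hd⟩ : ∃ d : K, (v ^ 2 - 1) * d = 1 := ⟨(v ^ 2 - 1)⁻¹, mul_inv_cancel₀ hD⟩
  obtain ⟨t, ht⟩ : ∃ t : K, 2 * t = 1 := ⟨2⁻¹, mul_inv_cancel₀ h2⟩
  have key : ∀ (lam : K), lam = 16 * v ^ 2 * d ^ 2 → ∀ (i : ℕ) (Y : K), Ch i v Y →
      (fun w : K => w ^ 2 - lam * w)^[i + 1] ((Y * d ^ 2 + lam) * t) = lam := by
    intro lam hlam i
    have hf : ∀ Z : K, ((Z + lam) * t) ^ 2 - lam * ((Z + lam) * t) = (Z ^ 2 - lam ^ 2) * t ^ 2 := by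
      intro Z
      linear_combination (lam * Z * t + lam ^ 2 * t) * ht
    induction i with
    | zero =>
      intro Y h
      have h : Y = 8 * v * (v ^ 2 + 1) := h
      rw [zero_add, Function.iterate_one]
      show ((Y * d ^ 2 + lam) * t) ^ 2 - lam * ((Y * d ^ 2 + lam) * t) = lam
      rw [hf]
      have e1 : (Y * d ^ 2) ^ 2 - lam ^ 2 = 4 * lam := by
        have e2 : (Y * d ^ 2) ^ 2 - lam ^ 2 = 64 * v ^ 2 * d ^ 2 * ((v ^ 2 - 1) * d) ^ 2 := by
          rw [h, hlam]; ring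
        rw [e2, hd, hlam]; ring
      rw [e1]
      linear_combination (lam * (2 * t + 1)) * ht
    | succ i ih =>
      intro Y h
      obtain ⟨Y', h1, h3⟩ := h
      rw [Function.iterate_succ_apply]
      have e : ((Y * d ^ 2 + lam) * t) ^ 2 - lam * ((Y * d ^ 2 + lam) * t) = (Y' * d ^ 2 + lam) * t := by
        rw [hf]
        have e1 : (Y * d ^ 2) ^ 2 - lam ^ 2 = 2 * (Y' * d ^ 2 + lam) := by
          have e2 : (Y * d ^ 2) ^ 2 - lam ^ 2 =
              (32 * v ^ 2 * d ^ 2 + 2 * Y' * d ^ 2) * ((v ^ 2 - 1) * d) ^ 2 := by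
            have : (Y * d ^ 2) ^ 2 = Y ^ 2 * d ^ 4 := by ring
            rw [this, h3, hlam]; ring
          rw [e2, hd, hlam]; ring
        rw [e1]
        linear_combination ((Y' * d ^ 2 + lam) * t) * ht
      show (fun w : K => w ^ 2 - lam * w)^[i + 1]
        (((Y * d ^ 2 + lam) * t) ^ 2 - lam * ((Y * d ^ 2 + lam) * t)) = lam
      rw [e]
      exact ih Y' h1
  have hlam : (2 * (v ^ 2 + 1) * d) ^ 2 - 4 = 16 * v ^ 2 * d ^ 2 := by
    linear_combination (4 * ((v ^ 2 - 1) * d + 1)) * hd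
  refine ⟨2 * (v ^ 2 + 1) * d, 4 * v * d, (Y * d ^ 2 + ((2 * (v ^ 2 + 1) * d) ^ 2 - 4)) * t, ?_, ?_, ?_⟩
  · refine mul_ne_zero (mul_ne_zero h4 hv) ?_
    rintro rfl
    rw [mul_zero] at hd
    exact zero_ne_one hd
  · rw [hlam]; ring
  · exact key _ hlam i Y h

theorem sl2_gen_aux (K : Type) [Field K] (τ τ' lam : K) (h : τ * τ' = 1)
    (hl : (τ - τ') ^ 2 = lam)
    (y z : Matrix.SpecialLinearGroup (Fin 2) K) (hy : y.1 = !![τ, 0; 0, τ']) :
    Matrix.trace (z⁻¹ * y⁻¹ * z * y).1 = 2 - lam * (z.1 0 1 * z.1 1 0) ∧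
    (z⁻¹ * y⁻¹ * z * y).1 0 1 * (z⁻¹ * y⁻¹ * z * y).1 1 0 =
      - lam * (z.1 0 1 * z.1 1 0) * (1 + z.1 0 1 * z.1 1 0) := by
  have hdet : z.1 0 0 * z.1 1 1 - z.1 0 1 * z.1 1 0 = 1 := by
    have := z.2
    rwa [Matrix.det_fin_two] at this
  have hyi : (y⁻¹).1 = !![τ', 0; 0, τ] := by
    rw [Matrix.SpecialLinearGroup.SL2_inv_expl]
    ext i j
    fin_cases i <;> fin_cases j <;> simp [hy]
  have hzi : (z⁻¹).1 = !![z.1 1 1, -z.1 0 1; -z.1 1 0, z.1 0 0] := by
    rw [Matrix.SpecialLinearGroup.SL2_inv_expl]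
    rfl
  have hz : z.1 = !![z.1 0 0, z.1 0 1; z.1 1 0, z.1 1 1] := by
    ext i j
    fin_cases i <;> fin_cases j <;> rfl
  have hprod : (z⁻¹ * y⁻¹ * z * y).1 = (z⁻¹).1 * (y⁻¹).1 * z.1 * y.1 := rfl
  set a := z.1 0 0 with ha
  set b := z.1 0 1 with hb
  set c := z.1 1 0 with hc
  set d := z.1 1 1 with hd
  have hM : (z⁻¹ * y⁻¹ * z * y).1 = !![a * d - b * c * τ ^ 2, b * d * (τ' ^ 2 - 1);
      a * c * (τ ^ 2 - 1), a * d - b * c * τ' ^ 2] := by
    rw [hprod, hyi, hzi, hy, hz]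
    ext i j
    fin_cases i <;> fin_cases j <;> simp [Matrix.mul_apply, Fin.sum_univ_two]
    · linear_combination (a * d) * h
    · linear_combination (-b * d) * h
    · linear_combination (-a * c) * h
    · linear_combination (a * d) * h
  rw [hM]
  constructor
  · simp [Matrix.trace, Fin.sum_univ_two]
    rw [← hl]
    linear_combination 2 * hdet - 2 * b * c * h
  · simp
    rw [← hl]
    have e : a * d = 1 + b * c := by linear_combination hdet
    have e2 : b * d * (τ' ^ 2 - 1) * (a * c * (τ ^ 2 - 1)) =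
        (b * c) * (a * d) * ((τ' ^ 2 - 1) * (τ ^ 2 - 1)) := by ring
    have e3 : (τ' ^ 2 - 1) * (τ ^ 2 - 1) = - (τ - τ') ^ 2 := by
      linear_combination (τ * τ' - 1) * h
    rw [e2, e, e3]
    ring

theorem sl2_gen (K : Type) [Field K] (h2 : (2 : K) ≠ 0) (T μ w : K) (hμ : μ ≠ 0)
    (hT : T ^ 2 - 4 = μ ^ 2) :
    ∃ x y : Matrix.SpecialLinearGroup (Fin 2) K, ∀ i : ℕ,
      Matrix.trace (((fun z => z⁻¹ * y⁻¹ * z * y)^[i + 1] x).1) =
        2 + (fun w : K => w ^ 2 - (T ^ 2 - 4) * w)^[i] w := by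
  have hlam : T ^ 2 - 4 ≠ 0 := by
    rw [hT]
    exact pow_ne_zero _ hμ
  have hττ : (T + μ) / 2 * ((T - μ) / 2) = 1 := by
    field_simp
    linear_combination hT
  have hl : ((T + μ) / 2 - (T - μ) / 2) ^ 2 = T ^ 2 - 4 := by
    rw [hT]
    field_simp
    ring
  set lam := T ^ 2 - 4 with hlamdef
  let y : Matrix.SpecialLinearGroup (Fin 2) K :=
    ⟨!![(T + μ) / 2, 0; 0, (T - μ) / 2], by rw [Matrix.det_fin_two_of, hττ]; ring⟩
  let x : Matrix.SpecialLinearGroup (Fin 2) K :=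
    ⟨!![1, -w / lam; 1, 1 + -w / lam], by rw [Matrix.det_fin_two_of]; ring⟩
  have key : ∀ i : ℕ, - lam * (((fun z => z⁻¹ * y⁻¹ * z * y)^[i] x).1 0 1 *
      ((fun z => z⁻¹ * y⁻¹ * z * y)^[i] x).1 1 0) =
      (fun w : K => w ^ 2 - lam * w)^[i] w := by
    intro i
    induction i with
    | zero =>
      simp only [Function.iterate_zero, id]
      change - lam * ((-w / lam) * 1) = w
      field_simp
    | succ i ih =>
      rw [Function.iterate_succ_apply', Function.iterate_succ_apply', ← ih]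
      have h3 := (sl2_gen_aux K _ _ lam hττ hl y ((fun z => z⁻¹ * y⁻¹ * z * y)^[i] x) rfl).2
      exact (congrArg (fun t => - lam * t) h3).trans (by ring)
  refine ⟨x, y, fun i => ?_⟩
  rw [← key i, Function.iterate_succ_apply']
  have h3 := (sl2_gen_aux K _ _ lam hττ hl y ((fun z => z⁻¹ * y⁻¹ * z * y)^[i] x) rfl).1
  exact h3.trans (by ring)


end Pool.Agent.Helper111.SK
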