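import Mathlib

set_option autoImplicit false

namespace Pool.Agent.Helper111.ST

/-- Stepanov-good algebra over `ZMod p` -/
structure SG (p : ℕ) [Fact p.Prime] (B : Type) [CommRing B] [Algebra (ZMod p) B] (g c : ℕ) where
  δ : B → ℕ
  E : Derivation (ZMod p) B B
  dom : IsDomain B
  δ_zero : δ 0 = 0
  δ_mul : ∀ a b : B, a ≠ 0 → b ≠ 0 → δ (a * b) = δ a + δ b
  δ_add : ∀ a b : B, δ (a + b) ≤ max (δ a) (δ b)
  δ_alg : ∀ t : ZMod p, δ (algebraMap (ZMod p) B t) = 0
  surj : ∀ R : ℕ, g ≤ R → ∃ e : B, e ≠ 0 ∧ δ e = R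
  one : ∀ a b : B, a ≠ 0 → b ≠ 0 → δ a = δ b →
    ∃ t : ZMod p, a = t • b ∨ δ (a - t • b) < δ a
  E_le : ∀ a : B, δ (E a) ≤ δ a + c

variable {p : ℕ} [Fact p.Prime] {B : Type} [CommRing B] [Algebra (ZMod p) B] {g c : ℕ}

/-- filtration -/
def SG.W (S : SG p B g c) (R : ℕ) : Submodule (ZMod p) B where
  carrier := {b | S.δ b ≤ R}
  zero_mem' := by simp [S.δ_zero]
  add_mem' := by
    intro a b ha hb
    exact le_trans (S.δ_add a b) (max_le ha hb)
  smul_mem' := by
    intro t b hb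
    show S.δ (t • b) ≤ R
    rw [Algebra.smul_def]
    by_cases h1 : algebraMap (ZMod p) B t = 0
    · rw [h1, zero_mul, S.δ_zero]; exact Nat.zero_le _
    by_cases h2 : b = 0
    · rw [h2, mul_zero, S.δ_zero]; exact Nat.zero_le _
    rw [S.δ_mul _ _ h1 h2, S.δ_alg, zero_add]
    exact hb


theorem W_finite (S : SG p B g c) (R : ℕ) : FiniteDimensional (ZMod p) (S.W R) := by
  classical
  let b : ℕ → B := fun r => if h : ∃ x : B, x ≠ 0 ∧ S.δ x = r then h.choose else 0
  have hb : ∀ r, (∃ x : B, x ≠ 0 ∧ S.δ x = r) → b r ≠ 0 ∧ S.δ (b r) = r := by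
    intro r h
    simp only [b, dif_pos h]
    exact h.choose_spec
  have key : ∀ (n : ℕ) (a : B), S.δ a = n → n ≤ R →
      a ∈ Submodule.span (ZMod p) (b '' Set.Iic R) := by
    intro n
    induction n using Nat.strong_induction_on with
    | _ n ih =>
    intro a ha hn
    by_cases h0 : a = 0
    · rw [h0]; exact Submodule.zero_mem _
    obtain ⟨h1, h2⟩ := hb n ⟨a, h0, ha⟩
    have hbm : b n ∈ Submodule.span (ZMod p) (b '' Set.Iic R) :=
      Submodule.subset_span ⟨n, hn, rfl⟩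
    obtain ⟨t, ht | ht⟩ := S.one a (b n) h0 h1 (ha.trans h2.symm)
    · rw [ht]; exact Submodule.smul_mem _ _ hbm
    · have := ih _ (by omega) (a - t • b n) rfl (by omega)
      have h3 : a = (a - t • b n) + t • b n := by abel
      rw [h3]; exact Submodule.add_mem _ this (Submodule.smul_mem _ _ hbm)
  have hle : S.W R ≤ Submodule.span (ZMod p) (b '' Set.Iic R) := fun a ha => key _ a rfl ha
  have : FiniteDimensional (ZMod p) (Submodule.span (ZMod p) (b '' Set.Iic R)) :=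
    FiniteDimensional.span_of_finite _ ((Set.finite_Iic R).image b)
  exact Submodule.finiteDimensional_of_le hle

theorem W_span (S : SG p B g c) : ∀ R : ℕ, ∃ v : Fin (R + 1) → B,
    S.W R ≤ Submodule.span (ZMod p) (Set.range v) := by
  have hdom := S.dom
  intro R
  induction R with
  | zero =>
    refine ⟨fun _ => 1, ?_⟩
    intro a ha
    have ha' : S.δ a ≤ 0 := ha
    by_cases ha0 : a = 0
    · rw [ha0]; exact Submodule.zero_mem _
    have h1 : S.δ 1 = 0 := by
      have := S.δ_alg 1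
      rwa [map_one] at this
    obtain ⟨t, ht | ht⟩ := S.one a 1 ha0 one_ne_zero (by omega)
    · rw [ht]
      exact Submodule.smul_mem _ _ (Submodule.subset_span ⟨0, rfl⟩)
    · omega
  | succ R ih =>
    obtain ⟨v, hv⟩ := ih
    by_cases hex : ∃ b0 : B, b0 ≠ 0 ∧ S.δ b0 = R + 1
    · obtain ⟨b0, hb0, hb1⟩ := hex
      refine ⟨Fin.cons b0 v, ?_⟩
      rw [Fin.range_cons]
      have hle : Submodule.span (ZMod p) (Set.range v) ≤
          Submodule.span (ZMod p) (insert b0 (Set.range v)) :=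
        Submodule.span_mono (Set.subset_insert _ _)
      have hb0m : b0 ∈ Submodule.span (ZMod p) (insert b0 (Set.range v)) :=
        Submodule.subset_span (Set.mem_insert _ _)
      intro a ha
      have ha' : S.δ a ≤ R + 1 := ha
      by_cases h : S.δ a ≤ R
      · exact hle (hv h)
      · have ha0 : a ≠ 0 := by
          rintro rfl
          rw [S.δ_zero] at h
          omega
        obtain ⟨t, ht | ht⟩ := S.one a b0 ha0 hb0 (by omega)
        · rw [ht]
          exact Submodule.smul_mem _ _ hb0m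
        · have h2 : a - t • b0 ∈ S.W R := by
            show S.δ (a - t • b0) ≤ R
            omega
          have h3 := hle (hv h2)
          have h4 : a = (a - t • b0) + t • b0 := by abel
          rw [h4]
          exact Submodule.add_mem _ h3 (Submodule.smul_mem _ _ hb0m)
    · refine ⟨Fin.cons 0 v, ?_⟩
      rw [Fin.range_cons]
      have hle : Submodule.span (ZMod p) (Set.range v) ≤
          Submodule.span (ZMod p) (insert 0 (Set.range v)) :=
        Submodule.span_mono (Set.subset_insert _ _)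
      intro a ha
      have ha' : S.δ a ≤ R + 1 := ha
      by_cases h : S.δ a ≤ R
      · exact hle (hv h)
      · have ha0 : a ≠ 0 := by
          rintro rfl
          rw [S.δ_zero] at h
          omega
        exact absurd ⟨a, ha0, by omega⟩ hex

theorem W_le (S : SG p B g c) (R : ℕ) : Module.finrank (ZMod p) (S.W R) ≤ R + 1 := by
  obtain ⟨v, hv⟩ := W_span S R
  have h1 : FiniteDimensional (ZMod p) (Submodule.span (ZMod p) (Set.range v)) :=
    FiniteDimensional.span_of_finite (ZMod p) (Set.finite_range v)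
  refine (Submodule.finrank_mono hv).trans ?_
  have := finrank_range_le_card (R := ZMod p) v
  rw [Fintype.card_fin] at this
  exact this

theorem W_ge (S : SG p B g c) (R : ℕ) : R + 1 ≤ Module.finrank (ZMod p) (S.W R) + g := by
  induction R with
  | zero =>
    rcases Nat.eq_zero_or_pos g with h | h
    · obtain ⟨e, he, hδ⟩ := S.surj 0 (by omega)
      haveI := W_finite S 0
      have hmem : e ∈ S.W 0 := le_of_eq hδ
      have h1 : 0 < Module.finrank (ZMod p) (S.W 0) :=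
        Module.finrank_pos_iff_exists_ne_zero.mpr
          ⟨⟨e, hmem⟩, fun hh => he (congrArg Subtype.val hh)⟩
      omega
    · omega
  | succ R ih =>
    rcases Nat.lt_or_ge (R + 1) g with h | h
    · omega
    · obtain ⟨e, he, hδ⟩ := S.surj (R + 1) h
      haveI := W_finite S (R + 1)
      have hle : S.W R ≤ S.W (R + 1) := by
        intro b hb
        have hb' : S.δ b ≤ R := hb
        show S.δ b ≤ R + 1
        omega
      have hlt : S.W R < S.W (R + 1) := by
        refine lt_of_le_of_ne hle (fun heq => ?_)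
        have h1 : e ∈ S.W (R + 1) := le_of_eq hδ
        rw [← heq] at h1
        have h2 : S.δ e ≤ R := h1
        omega
      have h3 := Submodule.finrank_lt_finrank_of_lt hlt
      omega

def DD (S : SG p B g c) (P : B →ₐ[ZMod p] ZMod p) (l : ℕ) : B →ₗ[ZMod p] ZMod p :=
  P.toLinearMap ∘ₗ ((S.E : B →ₗ[ZMod p] B) ^ l)

theorem DD_eq (S : SG p B g c) (P : B →ₐ[ZMod p] ZMod p) (l : ℕ) (a : B) :
    DD S P l a = P ((S.E : B → B)^[l] a) := by
  simp only [DD, LinearMap.comp_apply, Module.End.pow_apply]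
  rfl

theorem DD_zero (S : SG p B g c) (P : B →ₐ[ZMod p] ZMod p) (a : B) :
    DD S P 0 a = P a := by
  rw [DD_eq]; rfl

theorem DD_succ (S : SG p B g c) (P : B →ₐ[ZMod p] ZMod p) (l : ℕ) (a : B) :
    DD S P (l + 1) a = DD S P l (S.E a) := by
  rw [DD_eq, DD_eq, Function.iterate_succ_apply]

def VV (S : SG p B g c) (P : B →ₐ[ZMod p] ZMod p) (m : ℕ) (a : B) : Prop :=
  ∀ l < m, DD S P l a = 0

theorem VV_succ (S : SG p B g c) (P : B →ₐ[ZMod p] ZMod p) (m : ℕ) (a : B) :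
    VV S P (m + 1) a ↔ P a = 0 ∧ VV S P m (S.E a) := by
  constructor
  · intro h
    refine ⟨?_, fun l hl => ?_⟩
    · have := h 0 (by omega)
      rwa [DD_zero] at this
    · have := h (l + 1) (by omega)
      rwa [DD_succ] at this
  · rintro ⟨h0, h1⟩ l hl
    rcases l with _ | l
    · rw [DD_zero]; exact h0
    · rw [DD_succ]; exact h1 l (by omega)

theorem VV_add (S : SG p B g c) (P : B →ₐ[ZMod p] ZMod p) (m : ℕ) (a b : B)
    (ha : VV S P m a) (hb : VV S P m b) : VV S P m (a + b) := by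
  intro l hl
  rw [map_add, ha l hl, hb l hl, add_zero]

theorem VV_mono (S : SG p B g c) (P : B →ₐ[ZMod p] ZMod p) (m n : ℕ) (hmn : m ≤ n) (a : B)
    (ha : VV S P n a) : VV S P m a := fun l hl => ha l (by omega)

theorem leib (S : SG p B g c) (a b : B) : S.E (a * b) = a * S.E b + b * S.E a := by
  rw [S.E.leibniz, smul_eq_mul, smul_eq_mul]

theorem VV_mul (S : SG p B g c) (P : B →ₐ[ZMod p] ZMod p) (m : ℕ) : ∀ (a b : B),
    VV S P m a → VV S P m (a * b) := by
  induction m with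
  | zero => intro a b _ l hl; omega
  | succ m ih =>
    intro a b h
    have h' := (VV_succ S P m a).1 h
    rw [VV_succ]
    refine ⟨by rw [map_mul, h'.1, zero_mul], ?_⟩
    rw [leib]
    refine VV_add S P m _ _ (ih _ _ (VV_mono S P m (m+1) (by omega) a h)) ?_
    rw [mul_comm]
    exact ih _ _ h'.2

theorem VV_u (S : SG p B g c) (P : B →ₐ[ZMod p] ZMod p) (u : B) (hu : P u = 0) (s : ℕ) :
    ∀ a : B, VV S P s a → VV S P (s + 1) (u * a) := by
  induction s with
  | zero =>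
    intro a _
    rw [VV_succ]
    refine ⟨by rw [map_mul, hu, zero_mul], fun l hl => by omega⟩
  | succ s ih =>
    intro a h
    have h' := (VV_succ S P s a).1 h
    rw [VV_succ]
    refine ⟨by rw [map_mul, hu, zero_mul], ?_⟩
    rw [leib]
    exact VV_add S P _ _ _ (ih _ h'.2) (VV_mul S P _ _ _ h)

theorem VV_pow (S : SG p B g c) (P : B →ₐ[ZMod p] ZMod p) (u : B) (hu : P u = 0) (q : B)
    (s : ℕ) : VV S P s (u ^ s * q) := by
  induction s with
  | zero => intro l hl; omega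
  | succ s ih =>
    rw [pow_succ', mul_assoc]
    exact VV_u S P u hu s _ ih

theorem DD_top (S : SG p B g c) (P : B →ₐ[ZMod p] ZMod p) (s : ℕ) :
    ∀ a b : B, VV S P s a → DD S P s (a * b) = DD S P s a * P b := by
  induction s with
  | zero => intro a b _; rw [DD_zero, DD_zero, map_mul]
  | succ s ih =>
    intro a b h
    have h' := (VV_succ S P s a).1 h
    rw [DD_succ, leib, map_add, VV_mul S P (s+1) a _ h s (by omega), zero_add, mul_comm b, ih _ _ h'.2,
      DD_succ]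

theorem DD_u (S : SG p B g c) (P : B →ₐ[ZMod p] ZMod p) (u : B) (hu : P u = 0) (s : ℕ) :
    ∀ a : B, VV S P s a → DD S P (s + 1) (u * a) = ((s : ZMod p) + 1) * P (S.E u) * DD S P s a := by
  induction s with
  | zero =>
    intro a _
    rw [DD_succ, leib, map_add, DD_zero, DD_zero, DD_zero, map_mul, map_mul, hu]
    push_cast
    ring
  | succ s ih =>
    intro a h
    have h' := (VV_succ S P s a).1 h
    rw [DD_succ, leib, map_add, ih _ h'.2, DD_top S P (s+1) a _ h, DD_succ]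
    push_cast
    ring

theorem DD_pow (S : SG p B g c) (P : B →ₐ[ZMod p] ZMod p) (u : B) (hu : P u = 0) (q : B) (l : ℕ) :
    DD S P l (u ^ l * q) = (l.factorial : ZMod p) * P (S.E u) ^ l * P q := by
  induction l with
  | zero => rw [DD_zero]; simp
  | succ l ih =>
    rw [pow_succ', mul_assoc, DD_u S P u hu l _ (VV_pow S P u hu q l), ih, Nat.factorial_succ]
    push_cast
    ring

theorem zero_count (S : SG p B g c) (v : B) (M : ℕ) (hM : M ≤ p) (T : Finset (B →ₐ[ZMod p] ZMod p))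
    (hT : ∀ P ∈ T, 2 ≤ M → P (S.E v) ≠ 0) (Φ : B) (hΦ : Φ ≠ 0)
    (h : ∀ P ∈ T, ∀ l < M, P ((S.E : B → B)^[l] Φ) = 0) :
    M * T.card ≤ S.δ Φ + g := by
  classical
  haveI := S.dom
  -- separating elements
  have hsep : ∀ P Q : B →ₐ[ZMod p] ZMod p, ∃ h : B, P ≠ Q → (P h ≠ 0 ∧ Q h = 0) := by
    intro P Q
    by_cases hPQ : P = Q
    · exact ⟨0, fun h => absurd hPQ h⟩
    · obtain ⟨x, hx⟩ : ∃ x, P x ≠ Q x := by
        by_contra hcon
        push_neg at hcon
        exact hPQ (AlgHom.ext hcon)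
      refine ⟨x - algebraMap (ZMod p) B (Q x), fun _ => ⟨?_, ?_⟩⟩
      · rw [map_sub, AlgHom.commutes]
        simpa [sub_eq_zero] using hx
      · rw [map_sub, AlgHom.commutes]
        simp
  choose hh hhs using hsep
  let q : (B →ₐ[ZMod p] ZMod p) → B := fun P => ∏ Q ∈ T.erase P, (hh P Q) ^ M
  have hq1 : ∀ P : B →ₐ[ZMod p] ZMod p, P (q P) ≠ 0 := by
    intro P
    simp only [q]
    rw [map_prod]
    refine Finset.prod_ne_zero_iff.2 (fun Q hQ => ?_)
    rw [map_pow]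
    exact pow_ne_zero _ (hhs P Q (Finset.ne_of_mem_erase hQ).symm).1
  have hq2 : ∀ P : B →ₐ[ZMod p] ZMod p, ∀ Q ∈ T, Q ≠ P → VV S Q M (q P) := by
    intro P Q hQ hQP
    simp only [q]
    rw [← Finset.mul_prod_erase _ _ (Finset.mem_erase.2 ⟨hQP, hQ⟩)]
    refine VV_mul S Q M _ _ ?_
    have := VV_pow S Q (hh P Q) (hhs P Q hQP.symm).2 1 M
    rwa [mul_one] at this
  let u : (B →ₐ[ZMod p] ZMod p) → B := fun P => v - algebraMap (ZMod p) B (P v)
  have hu : ∀ P : B →ₐ[ZMod p] ZMod p, P (u P) = 0 := by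
    intro P
    simp only [u]
    rw [map_sub, AlgHom.commutes]
    simp
  have hEu : ∀ P : B →ₐ[ZMod p] ZMod p, S.E (u P) = S.E v := by
    intro P
    simp only [u]
    rw [map_sub, Derivation.map_algebraMap, sub_zero]
  let e : T × Fin M → B := fun i => (u i.1.1) ^ (i.2 : ℕ) * q i.1.1
  have he1 : ∀ i : T × Fin M, ∀ Q ∈ T, Q ≠ i.1.1 → VV S Q M (e i) := by
    intro i Q hQ hne
    simp only [e]
    rw [mul_comm]
    exact VV_mul S Q M _ _ (hq2 _ Q hQ hne)
  have he2 : ∀ i : T × Fin M, VV S i.1.1 (i.2 : ℕ) (e i) := by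
    intro i
    exact VV_pow S _ _ (hu _) _ _
  have he3 : ∀ i : T × Fin M, DD S i.1.1 (i.2 : ℕ) (e i) ≠ 0 := by
    intro i
    simp only [e]
    rw [DD_pow S _ _ (hu _), hEu]
    refine mul_ne_zero (mul_ne_zero ?_ ?_) (hq1 _)
    · intro hz
      rw [ZMod.natCast_eq_zero_iff] at hz
      have := (Nat.Prime.dvd_factorial (Fact.out : p.Prime)).1 hz
      have h2 := i.2.2
      omega
    · rcases Nat.eq_zero_or_pos (i.2 : ℕ) with h0 | h0
      · rw [h0, pow_zero]; exact one_ne_zero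
      · refine pow_ne_zero _ (hT _ i.1.2 ?_)
        have h2 := i.2.2
        omega
  let J : B →ₗ[ZMod p] (T × Fin M → ZMod p) := LinearMap.pi (fun i => DD S i.1.1 (i.2 : ℕ))
  let C : (T × Fin M → ZMod p) →ₗ[ZMod p] B := Fintype.linearCombination (ZMod p) e
  have hC : ∀ x, C x = ∑ i, x i • e i := by
    intro x
    simp only [C]
    rw [Fintype.linearCombination_apply]
  have hJ : ∀ (b : B) (i : T × Fin M), J b i = DD S i.1.1 (i.2 : ℕ) b := by
    intro b i
    rfl
  have hinj : Function.Injective (J ∘ₗ C) := by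
    rw [injective_iff_map_eq_zero]
    intro x hx
    have hx' : ∀ i : T × Fin M, ∑ j : T × Fin M, x j * DD S i.1.1 (i.2 : ℕ) (e j) = 0 := by
      intro i
      have := congrFun hx i
      rw [LinearMap.comp_apply, hJ, hC, map_sum] at this
      simpa [smul_eq_mul] using this
    have key : ∀ n : ℕ, ∀ i : T × Fin M, (i.2 : ℕ) = n → x i = 0 := by
      intro n
      induction n using Nat.strong_induction_on with
      | _ n ih =>
        intro i hi
        have h1 := hx' i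
        rw [Finset.sum_eq_single i] at h1
        · exact (mul_eq_zero.1 h1).resolve_right (he3 i)
        · intro j _ hji
          by_cases hP : i.1 = j.1
          · rcases lt_trichotomy (j.2 : ℕ) (i.2 : ℕ) with hlt | heq | hgt
            · rw [ih (j.2 : ℕ) (by omega) j rfl, zero_mul]
            · exfalso
              exact hji (Prod.ext hP.symm (Fin.ext heq))
            · have h2 := he2 j (i.2 : ℕ) hgt
              rw [← hP] at h2
              rw [h2, mul_zero]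
          · have h2 := he1 j i.1.1 i.1.2 (fun hc => hP (Subtype.ext hc)) (i.2 : ℕ) i.2.2
            rw [h2, mul_zero]
        · intro hni
          exact absurd (Finset.mem_univ i) hni
    funext i
    exact key _ i rfl
  have hsurj : Function.Surjective (J ∘ₗ C) := LinearMap.injective_iff_surjective.1 hinj
  -- choose R
  let R : ℕ := S.δ Φ + ∑ i, S.δ (e i)
  have heW : ∀ i, e i ∈ S.W R := by
    intro i
    show S.δ (e i) ≤ R
    have : S.δ (e i) ≤ ∑ i, S.δ (e i) :=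
      Finset.single_le_sum (f := fun i => S.δ (e i)) (fun _ _ => Nat.zero_le _) (Finset.mem_univ i)
    simp only [R]
    omega
  have hCW : ∀ x, C x ∈ S.W R := by
    intro x
    rw [hC]
    exact Submodule.sum_mem _ (fun i _ => Submodule.smul_mem _ _ (heW i))
  haveI := W_finite S R
  haveI := W_finite S (R - S.δ Φ)
  let JW : S.W R →ₗ[ZMod p] (T × Fin M → ZMod p) := J ∘ₗ (S.W R).subtype
  have hJWs : Function.Surjective JW := by
    intro y
    obtain ⟨x, hx⟩ := hsurj y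
    exact ⟨⟨C x, hCW x⟩, hx⟩
  have hrn := LinearMap.finrank_range_add_finrank_ker JW
  rw [LinearMap.range_eq_top.2 hJWs, finrank_top, Module.finrank_fintype_fun_eq_card,
    Fintype.card_prod, Fintype.card_coe, Fintype.card_fin] at hrn
  have hΦV : ∀ P ∈ T, VV S P M Φ := by
    intro P hP l hl
    rw [DD_eq]
    exact h P hP l hl
  have hmem : ∀ b : S.W (R - S.δ Φ), Φ * b.1 ∈ S.W R := by
    intro b
    show S.δ (Φ * b.1) ≤ R
    have hb : S.δ b.1 ≤ R - S.δ Φ := b.2
    by_cases hb0 : b.1 = 0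
    · rw [hb0, mul_zero, S.δ_zero]; exact Nat.zero_le _
    · rw [S.δ_mul _ _ hΦ hb0]
      have : S.δ Φ ≤ R := Nat.le_add_right _ _
      omega
  let L : S.W (R - S.δ Φ) →ₗ[ZMod p] LinearMap.ker JW :=
    { toFun := fun b => ⟨⟨Φ * b.1, hmem b⟩, by
        rw [LinearMap.mem_ker]
        funext i
        show J (Φ * b.1) i = 0
        rw [hJ]
        exact VV_mul S _ M _ _ (hΦV _ i.1.2) _ i.2.2⟩
      map_add' := by
        intro a b
        apply Subtype.ext
        apply Subtype.ext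
        show Φ * (a.1 + b.1) = Φ * a.1 + Φ * b.1
        ring
      map_smul' := by
        intro t a
        apply Subtype.ext
        apply Subtype.ext
        show Φ * (t • a.1) = t • (Φ * a.1)
        rw [mul_smul_comm] }
  have hLinj : Function.Injective L := by
    intro a b hab
    apply Subtype.ext
    have h1 : Φ * a.1 = Φ * b.1 := congrArg (fun z => z.1.1) hab
    exact mul_left_cancel₀ hΦ h1
  have hLf := LinearMap.finrank_le_finrank_of_injective hLinj
  have h1 := W_le S R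
  have h2 := W_ge S (R - S.δ Φ)
  have h3 : S.δ Φ ≤ R := Nat.le_add_right _ _
  rw [mul_comm]
  omega

theorem st_sum_lt (S : SG p B g c) {ι : Type} (s : Finset ι) (f : ι → B) (N : ℕ)
    (h : ∀ i ∈ s, f i ≠ 0 → S.δ (f i) < N) : ∑ i ∈ s, f i = 0 ∨ S.δ (∑ i ∈ s, f i) < N := by
  classical
  induction s using Finset.induction_on with
  | empty => left; simp
  | insert i s hi ih =>
    rw [Finset.sum_insert hi]
    have ih' := ih (fun j hj => h j (Finset.mem_insert_of_mem hj))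
    have hfi := h i (Finset.mem_insert_self i s)
    by_cases h1 : f i = 0
    · rw [h1, zero_add]; exact ih'
    · rcases ih' with h2 | h2
      · rw [h2, add_zero]; right; exact hfi h1
      · right
        exact lt_of_le_of_lt (S.δ_add _ _) (max_lt (hfi h1) h2)

theorem stepanov (S : SG p B g c) (v : B) (M : ℕ) (hM : 1 ≤ M)
    (hp : (M + 1) * g + M * (M * c + g + M) < p) (hMp : M ≤ p)
    (T : Finset (B →ₐ[ZMod p] ZMod p)) (hT : ∀ P ∈ T, P (S.E v) ≠ 0) :
    M * T.card ≤ ((M + 1) * g + M * (M * c + g + M)) + p * (g + M) + g := by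
  classical
  haveI := S.dom
  obtain ⟨L, hL⟩ : ∃ L, L = (M + 1) * g + M * (M * c + g + M) := ⟨_, rfl⟩
  rw [← hL] at hp ⊢
  obtain ⟨N, hN⟩ : ∃ N, N = L + M * c + g + M := ⟨_, rfl⟩
  choose e he0 heδ using fun i : Fin (M + 1) => S.surj (g + i) (Nat.le_add_right _ _)
  have hEl : ∀ (l : ℕ) (a : B), S.δ ((S.E : B → B)^[l] a) ≤ S.δ a + l * c := by
    intro l
    induction l with
    | zero => intro a; simp
    | succ l ih =>
      intro a
      rw [Function.iterate_succ_apply']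
      have h1 := S.E_le ((S.E : B → B)^[l] a)
      have h2 := ih a
      have h3 : (l + 1) * c = l * c + c := by ring
      omega
  have hmul_le : ∀ a b : B, S.δ (a * b) ≤ S.δ a + S.δ b := by
    intro a b
    by_cases ha : a = 0
    · rw [ha, zero_mul, S.δ_zero]; omega
    by_cases hb : b = 0
    · rw [hb, mul_zero, S.δ_zero]; omega
    exact (S.δ_mul a b ha hb).le
  have hEsmul : ∀ (l : ℕ) (t : ZMod p) (a : B), (S.E : B → B)^[l] (t • a) =
      t • (S.E : B → B)^[l] a := by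
    intro l
    induction l with
    | zero => intro t a; simp
    | succ l ih =>
      intro t a
      rw [Function.iterate_succ_apply', Function.iterate_succ_apply', ih, Derivation.map_smul]
  have hΨmem : ∀ (a : Fin (M + 1) → S.W L) (l : Fin M),
      (∑ i, ((S.E : B → B)^[(l : ℕ)] (a i : B)) * e i) ∈ S.W N := by
    intro a l
    apply Submodule.sum_mem
    intro i _
    show S.δ _ ≤ N
    have h1 := hmul_le ((S.E : B → B)^[(l : ℕ)] (a i : B)) (e i)
    have h2 := hEl l (a i : B)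
    have h3 : S.δ (a i : B) ≤ L := (a i).2
    have h4 := heδ i
    have h5 : (l : ℕ) * c ≤ M * c := Nat.mul_le_mul_right _ l.2.le
    have h6 : (i : ℕ) ≤ M := by have := i.2; omega
    omega
  let Ψ : (Fin (M + 1) → S.W L) →ₗ[ZMod p] (Fin M → S.W N) :=
    { toFun := fun a l => ⟨∑ i, ((S.E : B → B)^[(l : ℕ)] (a i : B)) * e i, hΨmem a l⟩
      map_add' := by
        intro a b
        funext l
        apply Subtype.ext
        simp only [Pi.add_apply, Submodule.coe_add]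
        rw [← Finset.sum_add_distrib]
        apply Finset.sum_congr rfl
        intro i _
        rw [iterate_map_add, add_mul]
      map_smul' := by
        intro t a
        funext l
        apply Subtype.ext
        simp only [Pi.smul_apply, Submodule.coe_smul, RingHom.id_apply]
        rw [Finset.smul_sum]
        apply Finset.sum_congr rfl
        intro i _
        rw [hEsmul, smul_mul_assoc] }
  haveI := W_finite S L
  haveI := W_finite S N
  have hfr : Module.finrank (ZMod p) (Fin M → S.W N) <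
      Module.finrank (ZMod p) (Fin (M + 1) → S.W L) := by
    rw [Module.finrank_pi_fintype, Module.finrank_pi_fintype]
    simp only [Finset.sum_const, Finset.card_univ, Fintype.card_fin, smul_eq_mul]
    have h1 := W_ge S L
    have h2 := W_le S N
    generalize Module.finrank (ZMod p) (S.W L) = fL at *
    generalize Module.finrank (ZMod p) (S.W N) = fN at *
    have h3 : M * fN ≤ M * (N + 1) := Nat.mul_le_mul_left _ h2
    have h4 : (M + 1) * (L + 1) ≤ (M + 1) * (fL + g) := Nat.mul_le_mul_left _ h1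
    have h5 : (M + 1) * (fL + g) = (M + 1) * fL + (M + 1) * g := by ring
    have h6 : (M + 1) * (L + 1) = M * (L + 1) + L + 1 := by ring
    have h7 : M * (N + 1) = M * (L + 1) + M * (M * c + g + M) := by rw [hN]; ring
    omega
  obtain ⟨a, haker, hane⟩ := Submodule.exists_mem_ne_zero_of_ne_bot
    (LinearMap.ker_ne_bot_of_finrank_lt (f := Ψ) hfr)
  have hker : ∀ l : ℕ, l < M → ∑ i, ((S.E : B → B)^[l] (a i : B)) * e i = 0 := by
    intro l hl
    have h1 : Ψ a = 0 := haker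
    have h2 := congrFun h1 ⟨l, hl⟩
    exact congrArg Subtype.val h2
  have hp0 : ((p : ℕ) : B) = 0 := by
    have : (algebraMap (ZMod p) B) ((p : ℕ) : ZMod p) = ((p : ℕ) : B) := map_natCast _ _
    rw [← this, ZMod.natCast_self, map_zero]
  have hEp : ∀ x y : B, S.E (x * y ^ p) = S.E x * y ^ p := by
    intro x y
    rw [Derivation.leibniz, Derivation.leibniz_pow, nsmul_eq_mul, hp0, zero_mul, smul_zero,
      zero_add, smul_eq_mul, mul_comm]
  have hElp : ∀ (l : ℕ) (x y : B), (S.E : B → B)^[l] (x * y ^ p) = (S.E : B → B)^[l] x * y ^ p := by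
    intro l
    induction l with
    | zero => intro x y; simp
    | succ l ih =>
      intro x y
      rw [Function.iterate_succ_apply', Function.iterate_succ_apply', ih, hEp]
  have hδpow : ∀ (n : ℕ) (x : B), x ≠ 0 → S.δ (x ^ n) = n * S.δ x := by
    intro n x hx
    induction n with
    | zero =>
      have : (1 : B) = algebraMap (ZMod p) B 1 := (map_one _).symm
      rw [pow_zero, this, S.δ_alg, zero_mul]
    | succ n ih =>
      rw [pow_succ, S.δ_mul _ _ (pow_ne_zero _ hx) hx, ih]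
      ring
  obtain ⟨Φ, hΦdef⟩ : ∃ Φ : B, Φ = ∑ i, (a i : B) * e i ^ p := ⟨_, rfl⟩
  have hterm : ∀ i, S.δ ((a i : B) * e i ^ p) ≤ L + p * (g + i) := by
    intro i
    have h1 := hmul_le (a i : B) (e i ^ p)
    have h2 : S.δ (a i : B) ≤ L := (a i).2
    have h3 := hδpow p (e i) (he0 i)
    rw [heδ i] at h3
    omega
  have hΦδ : S.δ Φ ≤ L + p * (g + M) := by
    have : Φ ∈ S.W (L + p * (g + M)) := by
      rw [hΦdef]
      apply Submodule.sum_mem
      intro i _
      show S.δ _ ≤ _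
      refine (hterm i).trans ?_
      have h6 : (i : ℕ) ≤ M := by have := i.2; omega
      have : p * (g + i) ≤ p * (g + M) := Nat.mul_le_mul_left _ (by omega)
      omega
    exact this
  have hΦ0 : Φ ≠ 0 := by
    intro hΦ
    have hs : (Finset.univ.filter (fun i => a i ≠ 0)).Nonempty := by
      by_contra hcon
      rw [Finset.not_nonempty_iff_eq_empty, Finset.filter_eq_empty_iff] at hcon
      apply hane
      funext i
      by_contra h
      exact hcon (Finset.mem_univ i) h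
    obtain ⟨i0, hi0⟩ : ∃ i0, i0 = (Finset.univ.filter (fun i => a i ≠ 0)).max' hs := ⟨_, rfl⟩
    have hi0mem : i0 ∈ Finset.univ.filter (fun i => a i ≠ 0) := by
      rw [hi0]; exact Finset.max'_mem _ hs
    have hai0 : a i0 ≠ 0 := (Finset.mem_filter.mp hi0mem).2
    have hai0' : (a i0 : B) ≠ 0 := fun h => hai0 (Subtype.ext h)
    have hmax : ∀ i, i0 < i → a i = 0 := by
      intro i hi
      by_contra h
      have h1 := Finset.le_max' (Finset.univ.filter (fun i => a i ≠ 0)) i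
        (Finset.mem_filter.mpr ⟨Finset.mem_univ i, h⟩)
      rw [← hi0] at h1
      exact absurd h1 (not_le.mpr hi)
    have hsplit : (a i0 : B) * e i0 ^ p +
        ∑ i ∈ Finset.univ.erase i0, (a i : B) * e i ^ p = 0 := by
      rw [Finset.add_sum_erase _ (fun i => (a i : B) * e i ^ p) (Finset.mem_univ i0), ← hΦdef]
      exact hΦ
    have hne : (a i0 : B) * e i0 ^ p ≠ 0 := mul_ne_zero hai0' (pow_ne_zero _ (he0 i0))
    have hlt := st_sum_lt S (Finset.univ.erase i0) (fun i => (a i : B) * e i ^ p)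
      (p * (g + i0)) (by
        intro i hi hi2
        have hii : i ≠ i0 := (Finset.mem_erase.mp hi).1
        have hlt : i < i0 := by
          rcases lt_trichotomy i i0 with h | h | h
          · exact h
          · exact absurd h hii
          · exact absurd (by rw [hmax i h]; simp) hi2
        have h1 := hterm i
        have h2 : (i : ℕ) + 1 ≤ (i0 : ℕ) := hlt
        have h3 : p * (g + i) + p ≤ p * (g + i0) := by
          have : p * (g + i) + p = p * (g + i + 1) := by ring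
          rw [this]
          exact Nat.mul_le_mul_left _ (by omega)
        show S.δ ((a i : B) * e i ^ p) < p * (g + i0)
        omega)
    rcases hlt with h1 | h1
    · rw [h1, add_zero] at hsplit
      exact hne hsplit
    · have h2 : (a i0 : B) * e i0 ^ p = -∑ i ∈ Finset.univ.erase i0, (a i : B) * e i ^ p :=
        eq_neg_of_add_eq_zero_left hsplit
      have h3 : (-∑ i ∈ Finset.univ.erase i0, (a i : B) * e i ^ p) ∈
          S.W (S.δ (∑ i ∈ Finset.univ.erase i0, (a i : B) * e i ^ p)) := by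
        apply Submodule.neg_mem
        show S.δ _ ≤ S.δ _
        exact le_refl _
      rw [← h2] at h3
      have h4 : S.δ ((a i0 : B) * e i0 ^ p) ≤ _ := h3
      have h5 := S.δ_mul (a i0 : B) (e i0 ^ p) hai0' (pow_ne_zero _ (he0 i0))
      have h6 := hδpow p (e i0) (he0 i0)
      rw [heδ i0] at h6
      omega
  have hzero : ∀ P ∈ T, ∀ l < M, P ((S.E : B → B)^[l] Φ) = 0 := by
    intro P _ l hl
    have h1 : (S.E : B → B)^[l] Φ = ∑ i, ((S.E : B → B)^[l] (a i : B)) * e i ^ p := by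
      rw [hΦdef]
      have hsum : ∀ (s : Finset (Fin (M + 1))) (f : Fin (M + 1) → B),
          (S.E : B → B)^[l] (∑ i ∈ s, f i) = ∑ i ∈ s, (S.E : B → B)^[l] (f i) := by
        intro s f
        induction s using Finset.induction_on with
        | empty =>
          rw [Finset.sum_empty, Finset.sum_empty]
          exact iterate_map_zero S.E l
        | insert i s hi ih =>
          rw [Finset.sum_insert hi, Finset.sum_insert hi, iterate_map_add, ih]
      rw [hsum]
      apply Finset.sum_congr rfl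
      intro i _
      rw [hElp]
    rw [h1, map_sum]
    have h2 := congrArg P (hker l hl)
    rw [map_sum, map_zero] at h2
    rw [← h2]
    apply Finset.sum_congr rfl
    intro i _
    rw [map_mul, map_mul, map_pow, ZMod.pow_card]
  have := zero_count S v M hMp T (fun P hP _ => hT P hP) Φ hΦ0 hzero
  omega

theorem pts_finite (S : SG p B g c) (v : B) (hv : S.E v ≠ 0) : Finite (B →ₐ[ZMod p] ZMod p) := by
  haveI := S.dom
  have hp : 2 ≤ p := (Fact.out : p.Prime).two_le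
  obtain ⟨b, hb0, hb⟩ := S.surj (g + 1) (by omega)
  have h1 : S.δ 1 = 0 := by
    have := S.δ_alg 1
    rwa [map_one] at this
  have hpow : ∀ n : ℕ, S.δ (b ^ n) = n * (g + 1) := by
    intro n
    induction n with
    | zero => rw [pow_zero, h1, zero_mul]
    | succ n ih =>
      rw [pow_succ, S.δ_mul _ _ (pow_ne_zero n hb0) hb0, ih, hb]
      ring
  have hΦ : b ^ p - b ≠ 0 := by
    intro h0
    have h2 : b ^ p = b := sub_eq_zero.1 h0
    have h3 := hpow p
    rw [h2, hb] at h3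
    have h4 : 2 * (g + 1) ≤ p * (g + 1) := Nat.mul_le_mul_right _ hp
    omega
  by_contra hinf
  rw [not_finite_iff_infinite] at hinf
  obtain ⟨T, hT⟩ := Infinite.exists_subset_card_eq (B →ₐ[ZMod p] ZMod p) (S.δ (b ^ p - b) + g + 1)
  have h5 := zero_count S v 1 (by omega) T (fun P _ h => by omega) (b ^ p - b) hΦ (by
    intro P _ l hl
    have hl0 : l = 0 := by omega
    subst hl0
    show P (b ^ p - b) = 0
    rw [map_sub, map_pow, ZMod.pow_card, sub_self])
  omega

theorem pts_le (g c e : ℕ) (ε : ℝ) (hε : 0 < ε) : ∃ p₀ : ℕ, ∀ (p : ℕ) [Fact p.Prime], p₀ ≤ p →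
    ∀ (B : Type) [CommRing B] [Algebra (ZMod p) B] (S : SG p B g c) (v : B), S.E v ≠ 0 →
      S.δ v ≤ e → (Nat.card (B →ₐ[ZMod p] ZMod p) : ℝ) ≤ (1 + ε) * p := by
  obtain ⟨M0, hM0⟩ := exists_nat_ge (2 * (g:ℝ) / ε)
  obtain ⟨M, hM1, hMg⟩ : ∃ M : ℕ, 1 ≤ M ∧ (g:ℝ) ≤ M * (ε / 2) := by
    refine ⟨M0 + 1, by omega, ?_⟩
    rw [div_le_iff₀ hε] at hM0
    push_cast
    nlinarith
  obtain ⟨L, hL⟩ : ∃ L : ℕ, L = (M + 1) * g + M * (M * c + g + M) := ⟨_, rfl⟩
  obtain ⟨N, hN⟩ := exists_nat_ge (2 * ((L:ℝ) + g + e + c + g) / ε)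
  refine ⟨L + 1 + M + N, ?_⟩
  intro p hpp hp B _ _ S v hv hve
  classical
  haveI := pts_finite S v hv
  haveI : Fintype (B →ₐ[ZMod p] ZMod p) := Fintype.ofFinite _
  have h1 := stepanov S v M hM1 (by rw [← hL]; omega) (by omega)
    (Finset.univ.filter (fun P : B →ₐ[ZMod p] ZMod p => P (S.E v) ≠ 0))
    (fun P hP => (Finset.mem_filter.1 hP).2)
  rw [← hL] at h1
  have h2 := zero_count S v 1 (by omega)
    (Finset.univ.filter (fun P : B →ₐ[ZMod p] ZMod p => ¬ P (S.E v) ≠ 0))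
    (fun P _ h => by omega) (S.E v) hv (fun P hP l hl => by
      have hl0 : l = 0 := by omega
      subst hl0
      have := (Finset.mem_filter.1 hP).2
      push Not at this
      simpa using this)
  rw [one_mul] at h2
  have h3 : Nat.card (B →ₐ[ZMod p] ZMod p) =
      (Finset.univ.filter (fun P : B →ₐ[ZMod p] ZMod p => P (S.E v) ≠ 0)).card +
      (Finset.univ.filter (fun P : B →ₐ[ZMod p] ZMod p => ¬ P (S.E v) ≠ 0)).card := by
    rw [Nat.card_eq_fintype_card, ← Finset.card_univ, Finset.card_filter_add_card_filter_not]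
  have h4 := S.E_le v
  rw [h3]
  generalize (Finset.univ.filter (fun P : B →ₐ[ZMod p] ZMod p => P (S.E v) ≠ 0)).card = t1 at h1 h3 ⊢
  generalize (Finset.univ.filter (fun P : B →ₐ[ZMod p] ZMod p => ¬ P (S.E v) ≠ 0)).card = t2 at h2 h3 ⊢
  have h5 : t2 ≤ e + c + g := by omega
  have h1' : (M:ℝ) * t1 ≤ L + p * (g + M) + g := by exact_mod_cast h1
  have h5' : (t2:ℝ) ≤ e + c + g := by exact_mod_cast h5
  have hpN : (N:ℝ) ≤ p := by exact_mod_cast (by omega : N ≤ p)
  rw [div_le_iff₀ hε] at hN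
  have h6 : 2 * ((L:ℝ) + g + e + c + g) ≤ p * ε := by
    have : (N:ℝ) * ε ≤ p * ε := by gcongr
    linarith
  have hM1' : (1:ℝ) ≤ M := by exact_mod_cast hM1
  have hp0 : (0:ℝ) ≤ p := Nat.cast_nonneg p
  have hL0 : (0:ℝ) ≤ L := Nat.cast_nonneg L
  have hg0 : (0:ℝ) ≤ g := Nat.cast_nonneg g
  have h7 : (t1:ℝ) ≤ (L + g) + p * (1 + ε / 2) := by
    have h8 : (M:ℝ) * t1 ≤ M * ((L + g) + p * (1 + ε / 2)) := by
      have h9 : (p:ℝ) * g ≤ p * (M * (ε / 2)) := by gcongr
      have h10 : (L:ℝ) + g ≤ M * (L + g) := by nlinarith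
      nlinarith
    exact le_of_mul_le_mul_left h8 (by linarith)
  push_cast
  nlinarith

noncomputable def SG_base (p : ℕ) [Fact p.Prime] : SG p (Polynomial (ZMod p)) 0 0 where
  δ := Polynomial.natDegree
  E := Polynomial.derivative'
  dom := inferInstance
  δ_zero := Polynomial.natDegree_zero
  δ_mul := fun a b ha hb => Polynomial.natDegree_mul ha hb
  δ_add := fun a b => Polynomial.natDegree_add_le a b
  δ_alg := fun t => Polynomial.natDegree_C t
  surj := fun R _ => ⟨Polynomial.X ^ R, by simp [Polynomial.X_ne_zero], by simp⟩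
  one := by
    intro a b ha hb hd
    have hla : a.leadingCoeff ≠ 0 := Polynomial.leadingCoeff_ne_zero.mpr ha
    have hlb : b.leadingCoeff ≠ 0 := Polynomial.leadingCoeff_ne_zero.mpr hb
    have hc : a.leadingCoeff / b.leadingCoeff ≠ 0 := div_ne_zero hla hlb
    refine ⟨a.leadingCoeff / b.leadingCoeff, ?_⟩
    rw [← Polynomial.C_mul']
    by_cases h : a = Polynomial.C (a.leadingCoeff / b.leadingCoeff) * b
    · exact Or.inl h
    · right
      have hC : Polynomial.C (a.leadingCoeff / b.leadingCoeff) ≠ 0 := by simpa using hc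
      have hdeg : a.degree = (Polynomial.C (a.leadingCoeff / b.leadingCoeff) * b).degree := by
        rw [Polynomial.degree_C_mul hc, Polynomial.degree_eq_natDegree ha,
          Polynomial.degree_eq_natDegree hb, hd]
      have hlc : a.leadingCoeff =
          (Polynomial.C (a.leadingCoeff / b.leadingCoeff) * b).leadingCoeff := by
        rw [Polynomial.leadingCoeff_mul, Polynomial.leadingCoeff_C, div_mul_cancel₀ _ hlb]
      exact Polynomial.natDegree_lt_natDegree (sub_ne_zero.mpr h)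
        (Polynomial.degree_sub_lt hdeg ha hlc)
  E_le := by
    intro a
    have : Polynomial.derivative' a = Polynomial.derivative a := rfl
    rw [this]
    exact (Polynomial.natDegree_derivative_le a).trans (by omega)

theorem SG.neg' (S : SG p B g c) (a : B) : S.δ (-a) = S.δ a := by
  have := S.dom
  by_cases h : a = 0
  · rw [h, neg_zero]
  have h1 : algebraMap (ZMod p) B (-1) = -1 := by rw [map_neg, map_one]
  have h2 : algebraMap (ZMod p) B (-1) ≠ 0 := by rw [h1]; exact neg_ne_zero.mpr one_ne_zero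
  have h3 := S.δ_mul _ a h2 h
  rw [S.δ_alg, zero_add, h1, neg_one_mul] at h3
  exact h3

theorem SG.mul_le' (S : SG p B g c) (a b : B) : S.δ (a * b) ≤ S.δ a + S.δ b := by
  by_cases h1 : a = 0
  · rw [h1, zero_mul, S.δ_zero]; exact Nat.zero_le _
  by_cases h2 : b = 0
  · rw [h2, mul_zero, S.δ_zero]; exact Nat.zero_le _
  rw [S.δ_mul _ _ h1 h2]

theorem SG.smul_le' (S : SG p B g c) (t : ZMod p) (b : B) : S.δ (t • b) ≤ S.δ b := by
  rw [Algebra.smul_def]
  refine (S.mul_le' _ _).trans ?_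
  rw [S.δ_alg, zero_add]

theorem SG.sub_le' (S : SG p B g c) (a b : B) : S.δ (a - b) ≤ max (S.δ a) (S.δ b) := by
  rw [sub_eq_add_neg]
  refine (S.δ_add _ _).trans ?_
  rw [S.neg']

theorem SG.sub_smul_le' (S : SG p B g c) (a b : B) (t : ZMod p) :
    S.δ (a - t • b) ≤ max (S.δ a) (S.δ b) :=
  (S.sub_le' _ _).trans (max_le_max le_rfl (S.smul_le' t b))

theorem SG.two_le' (S : SG p B g c) (a : B) : S.δ (2 * a) ≤ S.δ a := by
  refine (S.mul_le' _ _).trans ?_
  have : (2 : B) = algebraMap (ZMod p) B 2 := by rw [map_ofNat]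
  rw [this, S.δ_alg, zero_add]

theorem SG.sub_lt' (S : SG p B g c) (a b : B) (h : S.δ a < S.δ b) : S.δ (a - b) = S.δ b := by
  apply le_antisymm
  · exact (S.sub_le' a b).trans (by rw [max_eq_right h.le])
  · have h1 : S.δ b ≤ max (S.δ a) (S.δ (a - b)) := by
      have := S.sub_le' a (a - b)
      rwa [sub_sub_cancel] at this
    rcases le_max_iff.mp h1 with h2 | h2
    · omega
    · exact h2

theorem SG.sub_lt'' (S : SG p B g c) (a b : B) (h : S.δ b < S.δ a) : S.δ (a - b) = S.δ a := by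
  rw [← neg_sub, S.neg', S.sub_lt' b a h]

open Classical in
noncomputable def SG.fo (S : SG p B g c) (D : B) (b : B) : ℕ := if b = 0 then 0 else 2 * S.δ b + S.δ D

theorem SG.fo_zero (S : SG p B g c) (D : B) : S.fo D 0 = 0 := by simp [SG.fo]

theorem SG.fo_ne (S : SG p B g c) (D b : B) (h : b ≠ 0) : S.fo D b = 2 * S.δ b + S.δ D := by
  simp [SG.fo, h]

theorem SG.fo_le (S : SG p B g c) (D b : B) : S.fo D b ≤ 2 * S.δ b + S.δ D := by
  by_cases h : b = 0
  · rw [h, S.fo_zero]; exact Nat.zero_le _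
  · rw [S.fo_ne D b h]

noncomputable def SG.dq (S : SG p B g c) (D : B) (u : QuadraticAlgebra B D 0) : ℕ :=
  max (2 * S.δ u.re) (S.fo D u.im)

def nq (D : B) (u : QuadraticAlgebra B D 0) : B := u.re ^ 2 - u.im ^ 2 * D

theorem nq_mul (D : B) (u v : QuadraticAlgebra B D 0) : nq D (u * v) = nq D u * nq D v := by
  simp only [nq, QuadraticAlgebra.re_mul, QuadraticAlgebra.im_mul]
  ring

theorem SG.sq_d (S : SG p B g c) (a : B) : S.δ (a ^ 2) = 2 * S.δ a := by
  by_cases h : a = 0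
  · rw [h, zero_pow two_ne_zero, S.δ_zero]
  · rw [sq, S.δ_mul _ _ h h, two_mul]

theorem SG.sqD_d (S : SG p B g c) (D a : B) (hD0 : D ≠ 0) : S.δ (a ^ 2 * D) = S.fo D a := by
  have := S.dom
  by_cases h : a = 0
  · rw [h, zero_pow two_ne_zero, zero_mul, S.δ_zero, S.fo_zero]
  · rw [S.δ_mul _ _ (pow_ne_zero 2 h) hD0, S.sq_d, S.fo_ne D a h]

theorem SG.fo_ne_even (S : SG p B g c) (D b : B) (hodd : Odd (S.δ D)) (h : b ≠ 0) (m : ℕ) :
    S.fo D b ≠ 2 * m := by
  rw [S.fo_ne D b h]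
  obtain ⟨r, hr⟩ := hodd
  omega

theorem SG.dq_eq (S : SG p B g c) (D : B) (hD0 : D ≠ 0) (hodd : Odd (S.δ D))
    (u : QuadraticAlgebra B D 0) : S.dq D u = S.δ (nq D u) := by
  unfold SG.dq nq
  by_cases h : u.im = 0
  · rw [h, S.fo_zero, zero_pow two_ne_zero, zero_mul, sub_zero, S.sq_d]
    simp
  · have h1 := S.fo_ne_even D u.im hodd h (S.δ u.re)
    rcases lt_or_gt_of_ne h1 with h2 | h2
    · rw [max_eq_left h2.le, S.sub_lt'', S.sq_d]
      rw [S.sq_d, S.sqD_d D _ hD0]; exact h2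
    · rw [max_eq_right h2.le, S.sub_lt', S.sqD_d D _ hD0]
      rw [S.sq_d, S.sqD_d D _ hD0]; exact h2

theorem SG.nq_zero (S : SG p B g c) (D : B) (hD0 : D ≠ 0) (hodd : Odd (S.δ D))
    (u : QuadraticAlgebra B D 0) (h0 : nq D u = 0) : u = 0 := by
  have := S.dom
  have h1 : u.re ^ 2 = u.im ^ 2 * D := sub_eq_zero.mp h0
  have h2 : 2 * S.δ u.re = S.fo D u.im := by rw [← S.sq_d, h1, S.sqD_d D _ hD0]
  have h3 : u.im = 0 := by
    by_contra h
    exact S.fo_ne_even D u.im hodd h _ h2.symm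
  have h4 : u.re = 0 := by
    rw [h3, zero_pow two_ne_zero, zero_mul] at h1
    exact pow_eq_zero_iff two_ne_zero |>.mp h1
  ext
  · exact h4
  · exact h3

def SG.Eq (S : SG p B g c) (D : B) :
    Derivation (ZMod p) (QuadraticAlgebra B D 0) (QuadraticAlgebra B D 0) :=
  Derivation.mk' 
    { toFun := fun u => ⟨2 * D * S.E u.im + u.im * S.E D, 2 * S.E u.re⟩
      map_add' := by
        intro u v
        ext
        · simp; ring
        · simp; ring
      map_smul' := by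
        intro t u
        ext
        · show 2 * D * S.E (t • u.im) + (t • u.im) * S.E D =
            t • (2 * D * S.E u.im + u.im * S.E D)
          rw [S.E.map_smul]
          simp only [Algebra.smul_def]
          ring
        · show 2 * S.E (t • u.re) = t • (2 * S.E u.re)
          rw [S.E.map_smul]
          simp only [Algebra.smul_def]
          ring }
    (by
      intro u v
      ext
      · simp; ring
      · simp; ring)

theorem SG_quad (hp : p ≠ 2) (S : SG p B g c) (D : B) (hD0 : D ≠ 0) (hodd : Odd (S.δ D)) :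
    ∃ S' : SG p (QuadraticAlgebra B D 0) (2 * g + S.δ D) (2 * c + 3 * S.δ D),
      (∀ a : B, S'.δ ⟨a, 0⟩ = 2 * S.δ a) ∧ S'.δ ⟨0, 1⟩ = S.δ D ∧
      ∀ a : B, S'.E ⟨a, 0⟩ = ⟨0, 2 * S.E a⟩ := by
  have hdom := S.dom
  obtain ⟨r, hr⟩ := id hodd
  refine ⟨{ δ := S.dq D, E := S.Eq D, dom := ?_, δ_zero := ?_, δ_mul := ?_, δ_add := ?_,
            δ_alg := ?_, surj := ?_, one := ?_, E_le := ?_ }, ?_, ?_, ?_⟩
  · have : NoZeroDivisors (QuadraticAlgebra B D 0) := ⟨by
      intro u v huv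
      have h1 : nq D u * nq D v = 0 := by
        rw [← nq_mul, huv]; simp [nq]
      rcases mul_eq_zero.mp h1 with h | h
      · exact Or.inl (S.nq_zero D hD0 hodd u h)
      · exact Or.inr (S.nq_zero D hD0 hodd v h)⟩
    have : Nontrivial (QuadraticAlgebra B D 0) := inferInstance
    exact NoZeroDivisors.to_isDomain _
  · simp [SG.dq, S.δ_zero, S.fo_zero]
  · intro u v hu hv
    rw [S.dq_eq D hD0 hodd, S.dq_eq D hD0 hodd, S.dq_eq D hD0 hodd, nq_mul]
    exact S.δ_mul _ _ (fun h => hu (S.nq_zero D hD0 hodd u h)) (fun h => hv (S.nq_zero D hD0 hodd v h))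
  · intro u v
    have h1 := S.δ_add u.re v.re
    have h2 : S.fo D (u.im + v.im) ≤ max (S.fo D u.im) (S.fo D v.im) := by
      by_cases h : u.im + v.im = 0
      · rw [h, S.fo_zero]; exact Nat.zero_le _
      by_cases hu : u.im = 0
      · rw [hu, zero_add]; exact le_max_right _ _
      by_cases hv : v.im = 0
      · rw [hv, add_zero]; exact le_max_left _ _
      have := S.δ_add u.im v.im
      rw [S.fo_ne D _ h, S.fo_ne D _ hu, S.fo_ne D _ hv]
      omega
    simp only [SG.dq, QuadraticAlgebra.re_add, QuadraticAlgebra.im_add]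
    omega
  · intro t
    have : algebraMap (ZMod p) (QuadraticAlgebra B D 0) t = ⟨algebraMap (ZMod p) B t, 0⟩ := rfl
    rw [this]
    simp [SG.dq, S.δ_alg, S.fo_zero]
  · intro R hR
    rcases Nat.even_or_odd R with ⟨m, hm⟩ | ⟨m, hm⟩
    · obtain ⟨e, he, hδ⟩ := S.surj m (by omega)
      refine ⟨⟨e, 0⟩, ?_, ?_⟩
      · intro h
        exact he (congrArg QuadraticAlgebra.re h)
      · simp only [SG.dq, S.fo_zero]
        omega
    · obtain ⟨e, he, hδ⟩ := S.surj (m - r) (by omega)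
      refine ⟨⟨0, e⟩, ?_, ?_⟩
      · intro h
        exact he (congrArg QuadraticAlgebra.im h)
      · simp only [SG.dq, S.fo_ne D e he, S.δ_zero]
        omega
  · intro u v hu hv huv
    have hfo : ∀ b : B, ∃ m e : ℕ, S.fo D b = 2 * m + e ∧ e ≤ 1 ∧ (e = 1 ∨ m = 0) := by
      intro b
      by_cases h : b = 0
      · exact ⟨0, 0, by rw [h, S.fo_zero], by omega, Or.inr rfl⟩
      · exact ⟨S.δ b + r, 1, by rw [S.fo_ne D b h]; omega, le_rfl, Or.inl rfl⟩
    have hre : ∀ w : QuadraticAlgebra B D 0, w ≠ 0 → w.re = 0 → w.im ≠ 0 := by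
      intro w hw h1 h2
      apply hw
      ext
      · exact h1
      · exact h2
    have hfoadd : ∀ (t : ZMod p), S.fo D (u.im - t • v.im) ≤ max (S.fo D u.im) (S.fo D v.im) := by
      intro t
      by_cases h : u.im - t • v.im = 0
      · rw [h, S.fo_zero]; exact Nat.zero_le _
      by_cases hv' : v.im = 0
      · rw [hv', smul_zero, sub_zero]; exact le_max_left _ _
      by_cases hu' : u.im = 0
      · have := S.smul_le' t v.im
        have h2 : S.δ (u.im - t • v.im) = S.δ (t • v.im) := by rw [hu', zero_sub, S.neg']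
        rw [S.fo_ne D _ h, S.fo_ne D _ hv', h2]
        refine le_trans ?_ (le_max_right _ _)
        omega
      have := S.sub_smul_le' u.im v.im t
      rw [S.fo_ne D _ h, S.fo_ne D _ hu', S.fo_ne D _ hv']
      omega
    have hreadd := fun t : ZMod p => S.sub_smul_le' u.re v.re t
    simp only [SG.dq] at huv ⊢
    by_cases hev : S.fo D u.im ≤ 2 * S.δ u.re
    · -- even case
      obtain ⟨mu, eu, hu1, hu2, hu3⟩ := hfo u.im
      obtain ⟨mv, ev, hv1, hv2, hv3⟩ := hfo v.im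
      have hev2 : S.fo D v.im ≤ 2 * S.δ v.re := by omega
      have hδ : S.δ u.re = S.δ v.re := by omega
      have hur : u.re ≠ 0 := by
        intro h
        have h2 := S.fo_ne D _ (hre u hu h)
        rw [h, S.δ_zero] at hev
        omega
      have hvr : v.re ≠ 0 := by
        intro h
        have h2 := S.fo_ne D _ (hre v hv h)
        rw [h, S.δ_zero] at hev2
        omega
      obtain ⟨t, ht⟩ := S.one u.re v.re hur hvr hδ
      refine ⟨t, ?_⟩
      have h3 := hfoadd t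
      obtain ⟨mt, et, h4, h4b, h4c⟩ := hfo (u.im - t • v.im)
      simp only [QuadraticAlgebra.re_sub, QuadraticAlgebra.im_sub, QuadraticAlgebra.re_smul,
        QuadraticAlgebra.im_smul]
      rcases ht with ht | ht
      · by_cases h5 : u.im = t • v.im
        · left
          ext
          · exact ht
          · exact h5
        · right
          have h6 : S.fo D (u.im - t • v.im) ≠ 0 := by
            rw [S.fo_ne D _ (sub_ne_zero.mpr h5)]; omega
          rw [sub_eq_zero.mpr ht, S.δ_zero]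
          omega
      · right
        omega
    · have hu1 := hfo u.im
      have hv1 := hfo v.im
      have hev2 : 2 * S.δ v.re < S.fo D v.im := by omega
      have hui : u.im ≠ 0 := by
        intro h; rw [h, S.fo_zero] at hev; omega
      have hvi : v.im ≠ 0 := by
        intro h; rw [h, S.fo_zero] at hev2; omega
      have e1 := S.fo_ne D _ hui
      have e2 := S.fo_ne D _ hvi
      have hδ : S.δ u.im = S.δ v.im := by omega
      obtain ⟨t, ht⟩ := S.one u.im v.im hui hvi hδ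
      refine ⟨t, Or.inr ?_⟩
      have h3 := hreadd t
      simp only [QuadraticAlgebra.re_sub, QuadraticAlgebra.im_sub, QuadraticAlgebra.re_smul,
        QuadraticAlgebra.im_smul]
      rcases ht with ht | ht
      · rw [sub_eq_zero.mpr ht, S.fo_zero]
        omega
      · have h4 := S.fo_le D (u.im - t • v.im)
        omega
  · intro u
    have h1 : S.δ (2 * D * S.E u.im + u.im * S.E D) ≤ S.δ D + S.δ u.im + c := by
      refine (S.δ_add _ _).trans (max_le ?_ ?_)
      · rw [mul_assoc]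
        refine (S.two_le' _).trans ((S.mul_le' _ _).trans ?_)
        have := S.E_le u.im
        omega
      · refine (S.mul_le' _ _).trans ?_
        have := S.E_le D
        omega
    have h2 : S.fo D (2 * S.E u.re) ≤ 2 * S.δ u.re + 2 * c + S.δ D := by
      refine (S.fo_le D _).trans ?_
      have a1 := S.two_le' (S.E u.re)
      have a2 := S.E_le u.re
      omega
    have h3 : 2 * S.δ (2 * D * S.E u.im + u.im * S.E D) ≤ S.fo D u.im + S.δ D + 2 * c := by
      by_cases h : u.im = 0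
      · rw [h]; simp [S.δ_zero]
      · rw [S.fo_ne D _ h]; omega
    show max (2 * S.δ (2 * D * S.E u.im + u.im * S.E D)) (S.fo D (2 * S.E u.re)) ≤
      max (2 * S.δ u.re) (S.fo D u.im) + (2 * c + 3 * S.δ D)
    omega
  · intro a
    simp [SG.dq, S.fo_zero]
  · have h1 : S.δ (1 : B) = 0 := by
      have := S.δ_alg 1
      rwa [map_one] at this
    show max (2 * S.δ (0 : B)) (S.fo D 1) = S.δ D
    rw [S.δ_zero, S.fo_ne D 1 one_ne_zero, h1]
    simp
  · intro a
    show (⟨2 * D * S.E 0 + 0 * S.E D, 2 * S.E a⟩ : QuadraticAlgebra B D 0) = _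
    simp

noncomputable def pq_equiv (D : B) : (QuadraticAlgebra B D 0 →ₐ[ZMod p] ZMod p) ≃
    {q : (B →ₐ[ZMod p] ZMod p) × ZMod p // q.2 * q.2 = q.1 D} where
  toFun Q := ⟨(Q.comp (IsScalarTower.toAlgHom (ZMod p) B (QuadraticAlgebra B D 0)), Q ⟨0, 1⟩), by
    simp only [AlgHom.comp_apply, IsScalarTower.coe_toAlgHom']
    rw [← map_mul]
    congr 1
    ext <;> simp⟩
  invFun q :=
    { toFun := fun z => q.1.1 z.re + q.1.1 z.im * q.1.2
      map_one' := by
        have h1 : (1 : QuadraticAlgebra B D 0).re = 1 := rfl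
        have h2 : (1 : QuadraticAlgebra B D 0).im = 0 := rfl
        rw [h1, h2, map_one, map_zero, zero_mul, add_zero]
      map_mul' := by
        intro z w
        have h := q.2
        simp only [QuadraticAlgebra.re_mul, QuadraticAlgebra.im_mul, map_add, map_mul, map_zero,
          zero_mul, add_zero]
        linear_combination (-(q.1.1 z.im * q.1.1 w.im)) * h
      map_zero' := by simp
      map_add' := by
        intro z w
        simp only [QuadraticAlgebra.re_add, QuadraticAlgebra.im_add, map_add]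
        ring
      commutes' := by
        intro r
        have h1 : (algebraMap (ZMod p) (QuadraticAlgebra B D 0) r).re = algebraMap (ZMod p) B r := rfl
        have h2 : (algebraMap (ZMod p) (QuadraticAlgebra B D 0) r).im = 0 := rfl
        rw [h1, h2, map_zero, zero_mul, add_zero, AlgHom.commutes] }
  left_inv Q := by
    ext z
    simp only [AlgHom.coe_mk, RingHom.coe_mk, MonoidHom.coe_mk, OneHom.coe_mk, AlgHom.comp_apply,
      IsScalarTower.coe_toAlgHom']
    rw [← map_mul, ← map_add]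
    congr 1
    ext <;> simp
  right_inv q := by
    apply Subtype.ext
    apply Prod.ext
    · ext b
      simp
    · simp

theorem pq_count (hp : p ≠ 2) (ν : ZMod p) (hν : ¬ IsSquare ν) (s : ZMod p) :
    (∑ y : ZMod p, if y * y = s then 1 else 0) + (∑ y : ZMod p, if y * y = ν * s then 1 else 0) = 2 := by
  classical
  have hF : ringChar (ZMod p) ≠ 2 := by rw [ZMod.ringChar_zmod_n]; exact hp
  have h1 : ∀ s : ZMod p, ((∑ y : ZMod p, if y * y = s then 1 else 0 : ℕ) : ℤ) =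
      quadraticChar (ZMod p) s + 1 := by
    intro s
    rw [← quadraticChar_card_sqrts hF s, ← Finset.card_filter]
    congr 2
    ext y
    simp [sq]
  have h2 : quadraticChar (ZMod p) ν = -1 := quadraticChar_neg_one_iff_not_isSquare.mpr hν
  have h3 := h1 s
  have h4 := h1 (ν * s)
  rw [map_mul, h2] at h4
  zify
  push_cast at h3 h4
  rw [h3, h4]
  ring

theorem pts_quad (hp : p ≠ 2) (S : SG p B g c) (hfin : Finite (B →ₐ[ZMod p] ZMod p)) (D : B) (ν : ZMod p)
    (hν : ¬ IsSquare ν) :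
    Nat.card (QuadraticAlgebra B D 0 →ₐ[ZMod p] ZMod p) +
      Nat.card (QuadraticAlgebra B (ν • D) 0 →ₐ[ZMod p] ZMod p) =
        2 * Nat.card (B →ₐ[ZMod p] ZMod p) := by
  classical
  haveI := Fintype.ofFinite (B →ₐ[ZMod p] ZMod p)
  rw [Nat.card_congr (pq_equiv D), Nat.card_congr (pq_equiv (ν • D))]
  have h1 : ∀ D : B, Nat.card {q : (B →ₐ[ZMod p] ZMod p) × ZMod p // q.2 * q.2 = q.1 D} =
      ∑ P : (B →ₐ[ZMod p] ZMod p), ∑ y : ZMod p, if y * y = P D then 1 else 0 := by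
    intro D
    rw [Nat.card_eq_fintype_card, Fintype.card_subtype, Finset.card_filter, Fintype.sum_prod_type]
  rw [h1, h1, ← Finset.sum_add_distrib]
  have h2 : ∀ P : (B →ₐ[ZMod p] ZMod p), ((∑ y : ZMod p, if y * y = P D then 1 else 0) +
      ∑ y : ZMod p, if y * y = P (ν • D) then 1 else 0) = 2 := by
    intro P
    rw [map_smul, smul_eq_mul]
    exact pq_count hp ν hν (P D)
  rw [Finset.sum_congr rfl fun P _ => h2 P]
  simp [Nat.card_eq_fintype_card, mul_comm]

def Ch {K : Type} [Field K] : ℕ → K → K → Prop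
  | 0, v, Y => Y = 8 * v * (v ^ 2 + 1)
  | i + 1, v, Y => ∃ Y' : K, Ch i v Y' ∧
      Y ^ 2 = (256 * v ^ 4 + 32 * v ^ 2 * (v ^ 2 - 1) ^ 2) + 2 * (v ^ 2 - 1) ^ 2 * Y'

theorem tw_δ_one (S : SG p B g c) : S.δ 1 = 0 := by
  have := S.δ_alg 1
  rwa [map_one] at this

theorem tw_alg_ne (S : SG p B g c) (t : ZMod p) (ht : t ≠ 0) : algebraMap (ZMod p) B t ≠ 0 := by
  have := S.dom
  exact (map_ne_zero (algebraMap (ZMod p) B)).mpr ht

theorem tw_δ_algmul (S : SG p B g c) (t : ZMod p) (ht : t ≠ 0) (b : B) (hb : b ≠ 0) :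
    S.δ (algebraMap (ZMod p) B t * b) = S.δ b := by
  rw [S.δ_mul _ _ (tw_alg_ne S t ht) hb, S.δ_alg, zero_add]

theorem tw_δ_neg (S : SG p B g c) (b : B) : S.δ (-b) = S.δ b := by
  by_cases hb : b = 0
  · rw [hb, neg_zero]
  · have h1 : -b = algebraMap (ZMod p) B (-1) * b := by rw [map_neg, map_one]; ring
    rw [h1]
    exact tw_δ_algmul S (-1) (neg_ne_zero.mpr one_ne_zero) b hb

theorem tw_δ_add_of_lt (S : SG p B g c) (a b : B) (h : S.δ b < S.δ a) : S.δ (a + b) = S.δ a := by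
  apply le_antisymm
  · exact (S.δ_add a b).trans (max_le le_rfl h.le)
  · have h1 := S.δ_add (a + b) (-b)
    rw [add_neg_cancel_right, tw_δ_neg] at h1
    rcases le_max_iff.mp h1 with h2 | h2
    · exact h2
    · omega

theorem tw_δ_pow (S : SG p B g c) (a : B) (ha : a ≠ 0) (n : ℕ) : S.δ (a ^ n) = n * S.δ a := by
  have := S.dom
  induction n with
  | zero => rw [pow_zero, tw_δ_one, zero_mul]
  | succ n ih =>
    rw [pow_succ, S.δ_mul _ _ (pow_ne_zero n ha) ha, ih]
    ring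

theorem tw_ne_of_δ (S : SG p B g c) (a : B) (h : S.δ a ≠ 0) : a ≠ 0 := by
  rintro rfl
  exact h S.δ_zero

theorem tw_two_ne (hp : p ≠ 2) : (2 : ZMod p) ≠ 0 := by
  intro h
  have h1 : ((2 : ℕ) : ZMod p) = 0 := by exact_mod_cast h
  rw [ZMod.natCast_eq_zero_iff] at h1
  exact hp ((Nat.prime_dvd_prime_iff_eq (Fact.out : p.Prime) Nat.prime_two).mp h1)

theorem tw_numeral (hp : p ≠ 2) (S : SG p B g c) (j : ℕ) (b : B) (hb : b ≠ 0) :
    S.δ ((2 : B) ^ j * b) = S.δ b := by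
  have h1 : (2 : B) ^ j = algebraMap (ZMod p) B (2 ^ j) := by
    rw [map_pow, map_ofNat]
  rw [h1]
  exact tw_δ_algmul S _ (pow_ne_zero j (tw_two_ne hp)) b hb

theorem tw_D (hp : p ≠ 2) (S : SG p B g c) (i : ℕ) (v Y : B) (hv : S.δ v = 2 ^ i)
    (hY : S.δ Y = 2 ^ (i + 2) - 1) (hY0 : Y ≠ 0) :
    S.δ ((256 * v ^ 4 + 32 * v ^ 2 * (v ^ 2 - 1) ^ 2) + 2 * (v ^ 2 - 1) ^ 2 * Y) = 2 ^ (i + 3) - 1 := by
  have := S.dom
  have hi : 1 ≤ 2 ^ i := Nat.one_le_two_pow
  have e2 : 2 ^ (i + 2) = 4 * 2 ^ i := by ring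
  have e3 : 2 ^ (i + 3) = 8 * 2 ^ i := by ring
  have hv0 : v ≠ 0 := tw_ne_of_δ S v (by omega)
  have hv2 : S.δ (v ^ 2) = 2 * 2 ^ i := by rw [tw_δ_pow S v hv0, hv]
  have hw : S.δ (v ^ 2 - 1) = 2 * 2 ^ i := by
    rw [sub_eq_add_neg, tw_δ_add_of_lt S _ _ (by rw [tw_δ_neg, tw_δ_one, hv2]; omega), hv2]
  have hw0 : v ^ 2 - 1 ≠ 0 := tw_ne_of_δ S _ (by omega)
  have hT3 : S.δ (2 * (v ^ 2 - 1) ^ 2 * Y) = 2 * (2 * 2 ^ i) + (2 ^ (i + 2) - 1) := by
    have h1 : 2 * (v ^ 2 - 1) ^ 2 * Y = (2 : B) ^ 1 * ((v ^ 2 - 1) ^ 2 * Y) := by ring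
    rw [h1, tw_numeral hp S 1 _ (mul_ne_zero (pow_ne_zero 2 hw0) hY0),
      S.δ_mul _ _ (pow_ne_zero 2 hw0) hY0, tw_δ_pow S _ hw0, hw, hY]
  have hT1 : S.δ (256 * v ^ 4) = 4 * 2 ^ i := by
    have h1 : 256 * v ^ 4 = (2 : B) ^ 8 * (v ^ 4) := by norm_num
    rw [h1, tw_numeral hp S 8 _ (pow_ne_zero 4 hv0), tw_δ_pow S v hv0, hv]
  have hT2 : S.δ (32 * v ^ 2 * (v ^ 2 - 1) ^ 2) = 2 * 2 ^ i + 2 * (2 * 2 ^ i) := by
    have h1 : 32 * v ^ 2 * (v ^ 2 - 1) ^ 2 = (2 : B) ^ 5 * (v ^ 2 * (v ^ 2 - 1) ^ 2) := by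
      norm_num [mul_assoc]
    rw [h1, tw_numeral hp S 5 _ (mul_ne_zero (pow_ne_zero 2 hv0) (pow_ne_zero 2 hw0)),
      S.δ_mul _ _ (pow_ne_zero 2 hv0) (pow_ne_zero 2 hw0), tw_δ_pow S _ hw0, hw, hv2]
  have hT12 := S.δ_add (256 * v ^ 4) (32 * v ^ 2 * (v ^ 2 - 1) ^ 2)
  rw [hT1, hT2] at hT12
  have hlt : S.δ (256 * v ^ 4 + 32 * v ^ 2 * (v ^ 2 - 1) ^ 2) < S.δ (2 * (v ^ 2 - 1) ^ 2 * Y) := by
    rw [hT3]
    refine lt_of_le_of_lt hT12 ?_
    rw [max_lt_iff]
    constructor <;> omega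
  rw [add_comm, tw_δ_add_of_lt S _ _ hlt, hT3]
  omega

theorem tw_base (ε : ℝ) (hε : 0 < ε) (p : ℕ) [Fact p.Prime] (hp : p ≠ 2) :
    ∃ (B : Type) (_ : CommRing B) (_ : Algebra (ZMod p) B) (S : SG p B 0 0) (v Y : B),
      S.δ v = 2 ^ 0 ∧ S.δ Y = 2 ^ (0 + 2) - 1 ∧ Y ≠ 0 ∧ S.E v ≠ 0 ∧
      (∀ P : B →ₐ[ZMod p] ZMod p, Ch 0 (P v) (P Y)) ∧
      (1 - ε) * p ≤ (Nat.card (B →ₐ[ZMod p] ZMod p) : ℝ) := by
  have hX : (SG_base p).δ Polynomial.X = 1 := Polynomial.natDegree_X
  have hX0 : (Polynomial.X : Polynomial (ZMod p)) ≠ 0 := Polynomial.X_ne_zero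
  have h1 : (SG_base p).δ (Polynomial.X ^ 2 + 1) = 2 := by
    rw [tw_δ_add_of_lt _ _ _ (by rw [tw_δ_one, tw_δ_pow _ _ hX0, hX]; norm_num),
      tw_δ_pow _ _ hX0, hX]
  have h10 : (Polynomial.X ^ 2 + 1 : Polynomial (ZMod p)) ≠ 0 := tw_ne_of_δ (SG_base p) _ (by rw [h1]; norm_num)
  have hY : (SG_base p).δ (8 * Polynomial.X * (Polynomial.X ^ 2 + 1)) = 3 := by
    have h2 : 8 * Polynomial.X * (Polynomial.X ^ 2 + 1) =
        (2 : Polynomial (ZMod p)) ^ 3 * (Polynomial.X * (Polynomial.X ^ 2 + 1)) := by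
      norm_num [mul_assoc]
    rw [h2, tw_numeral hp _ 3 _ (mul_ne_zero hX0 h10), (SG_base p).δ_mul _ _ hX0 h10, hX, h1]
  refine ⟨Polynomial (ZMod p), inferInstance, inferInstance, SG_base p, Polynomial.X,
    8 * Polynomial.X * (Polynomial.X ^ 2 + 1), ?_, ?_, ?_, ?_, ?_, ?_⟩
  · rw [hX]; norm_num
  · rw [hY]; norm_num
  · exact tw_ne_of_δ (SG_base p) _ (by rw [hY]; norm_num)
  · show Polynomial.derivative (Polynomial.X : Polynomial (ZMod p)) ≠ 0
    rw [Polynomial.derivative_X]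
    exact one_ne_zero
  · intro P
    show P (8 * Polynomial.X * (Polynomial.X ^ 2 + 1)) = 8 * P Polynomial.X * (P Polynomial.X ^ 2 + 1)
    simp only [map_mul, map_add, map_pow, map_one, map_ofNat]
  · have e : (Polynomial (ZMod p) →ₐ[ZMod p] ZMod p) ≃ ZMod p :=
      { toFun := fun P => P Polynomial.X
        invFun := fun a => Polynomial.aeval a
        left_inv := fun P => Polynomial.algHom_ext (by simp)
        right_inv := fun a => by simp }
    rw [Nat.card_congr e, Nat.card_zmod]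
    have : (0 : ℝ) ≤ (p : ℝ) := Nat.cast_nonneg p
    nlinarith

theorem tw_quad_E (hp : p ≠ 2) (S : SG p B g c) (D : B) {g' c' : ℕ}
    (S' : SG p (QuadraticAlgebra B D 0) g' c') (v : B) (hEv : S.E v ≠ 0)
    (h : ∀ a : B, S'.E ⟨a, 0⟩ = ⟨0, 2 * S.E a⟩) : S'.E ⟨v, 0⟩ ≠ 0 := by
  have := S.dom
  rw [h v]
  intro h0
  have h1 := congrArg QuadraticAlgebra.im h0
  simp only [QuadraticAlgebra.im_zero] at h1
  have h2 : (2 : B) ≠ 0 := by
    have := tw_alg_ne S 2 (tw_two_ne hp)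
    rwa [map_ofNat] at this
  exact (mul_ne_zero h2 hEv) h1

theorem tw_Ch (i : ℕ) (v Y D : B)
    (hD : D = (256 * v ^ 4 + 32 * v ^ 2 * (v ^ 2 - 1) ^ 2) + 2 * (v ^ 2 - 1) ^ 2 * Y)
    (hCh : ∀ P : B →ₐ[ZMod p] ZMod p, Ch i (P v) (P Y)) :
    ∀ P : QuadraticAlgebra B D 0 →ₐ[ZMod p] ZMod p,
      Ch (i + 1) (P ⟨v, 0⟩) (P ⟨0, 1⟩) := by
  intro P
  let Q : B →ₐ[ZMod p] ZMod p := P.comp (IsScalarTower.toAlgHom (ZMod p) B (QuadraticAlgebra B D 0))
  have hQ : ∀ a : B, Q a = P ⟨a, 0⟩ := fun a => rfl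
  refine ⟨P ⟨Y, 0⟩, ?_, ?_⟩
  · have h0 := hCh Q
    rw [hQ, hQ] at h0
    exact h0
  · have h1 : (⟨0, 1⟩ : QuadraticAlgebra B D 0) ^ 2 = ⟨D, 0⟩ := by
      rw [pow_two]
      ext <;> simp
    rw [← map_pow, h1, ← hQ, ← hQ, ← hQ]
    have h2 : Q D = Q ((256 * v ^ 4 + 32 * v ^ 2 * (v ^ 2 - 1) ^ 2) + 2 * (v ^ 2 - 1) ^ 2 * Y) :=
      congrArg Q hD
    rw [h2]
    simp only [map_mul, map_add, map_pow, map_sub, map_one, map_ofNat]

theorem tw_step (i : ℕ) (g c p₁ : ℕ) (ε : ℝ)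
    (hp1 : ∀ (p : ℕ) [Fact p.Prime], p₁ ≤ p →
      ∀ (B : Type) [CommRing B] [Algebra (ZMod p) B]
        (S : SG p B (2 * g + (2 ^ (i + 3) - 1)) (2 * c + 3 * (2 ^ (i + 3) - 1))) (v : B), S.E v ≠ 0 →
        S.δ v ≤ 2 ^ (i + 1) → (Nat.card (B →ₐ[ZMod p] ZMod p) : ℝ) ≤ (1 + ε / 3) * p)
    (p : ℕ) [Fact p.Prime] (hp : p ≠ 2) (hpp : p₁ ≤ p)
    (B : Type) [CommRing B] [Algebra (ZMod p) B] (S : SG p B g c) (v Y : B)
    (hv : S.δ v = 2 ^ i) (hY : S.δ Y = 2 ^ (i + 2) - 1) (hY0 : Y ≠ 0) (hEv : S.E v ≠ 0)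
    (hCh : ∀ P : B →ₐ[ZMod p] ZMod p, Ch i (P v) (P Y))
    (hcard : (1 - ε / 3) * p ≤ (Nat.card (B →ₐ[ZMod p] ZMod p) : ℝ)) :
    ∃ (B : Type) (_ : CommRing B) (_ : Algebra (ZMod p) B)
      (S : SG p B (2 * g + (2 ^ (i + 3) - 1)) (2 * c + 3 * (2 ^ (i + 3) - 1))) (v Y : B),
      S.δ v = 2 ^ (i + 1) ∧ S.δ Y = 2 ^ (i + 1 + 2) - 1 ∧ Y ≠ 0 ∧ S.E v ≠ 0 ∧
      (∀ P : B →ₐ[ZMod p] ZMod p, Ch (i + 1) (P v) (P Y)) ∧
      (1 - ε) * p ≤ (Nat.card (B →ₐ[ZMod p] ZMod p) : ℝ) := by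
  have hδD := tw_D hp S i v Y hv hY hY0
  obtain ⟨D, hD⟩ : ∃ D : B,
    D = (256 * v ^ 4 + 32 * v ^ 2 * (v ^ 2 - 1) ^ 2) + 2 * (v ^ 2 - 1) ^ 2 * Y := ⟨_, rfl⟩
  rw [← hD] at hδD
  have hChD := tw_Ch (p := p) i v Y D hD hCh
  have hi : 1 ≤ 2 ^ i := Nat.one_le_two_pow
  have e3 : 2 ^ (i + 3) = 8 * 2 ^ i := by ring
  have hoddn : Odd (2 ^ (i + 3) - 1) := ⟨4 * 2 ^ i - 1, by omega⟩
  have hD0 : D ≠ 0 := tw_ne_of_δ S D (by omega)
  have key := SG_quad hp S D hD0 (by rw [hδD]; exact hoddn)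
  rw [hδD] at key
  obtain ⟨S', k1, k2, k3⟩ := key
  -- a nonsquare
  obtain ⟨ν, hν⟩ : ∃ ν : ZMod p, ¬ IsSquare ν :=
    FiniteField.exists_nonsquare (by rw [ZMod.ringChar_zmod_n]; exact hp)
  have hν0 : ν ≠ 0 := by
    rintro rfl
    exact hν ⟨0, by simp⟩
  have hδD' : S.δ (ν • D) = 2 ^ (i + 3) - 1 := by
    rw [Algebra.smul_def, tw_δ_algmul S ν hν0 D hD0, hδD]
  have hD0' : ν • D ≠ 0 := tw_ne_of_δ S _ (by omega)
  have key2 := SG_quad hp S (ν • D) hD0' (by rw [hδD']; exact hoddn)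
  rw [hδD'] at key2
  obtain ⟨S'', l1, l2, l3⟩ := key2
  have hfin := pts_finite S v hEv
  have hcount := pts_quad hp S hfin D ν hν
  have hub := hp1 p hpp (QuadraticAlgebra B (ν • D) 0) S'' ⟨v, 0⟩ (tw_quad_E hp S _ S'' v hEv l3)
    (by rw [l1, hv, pow_succ]; omega)
  have hcountR : (Nat.card (QuadraticAlgebra B D 0 →ₐ[ZMod p] ZMod p) : ℝ) +
      (Nat.card (QuadraticAlgebra B (ν • D) 0 →ₐ[ZMod p] ZMod p) : ℝ) =
        2 * (Nat.card (B →ₐ[ZMod p] ZMod p) : ℝ) := by exact_mod_cast hcount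
  refine ⟨QuadraticAlgebra B D 0, inferInstance, inferInstance, S', ⟨v, 0⟩, ⟨0, 1⟩, ?_, ?_, ?_,
    tw_quad_E hp S _ S' v hEv k3, hChD, ?_⟩
  · rw [k1, hv, pow_succ]; ring
  · rw [k2]
  · exact tw_ne_of_δ S' _ (by rw [k2]; omega)
  · nlinarith

theorem tower (i : ℕ) : ∃ g c : ℕ, ∀ ε : ℝ, 0 < ε → ∃ p₀ : ℕ, ∀ (p : ℕ) [Fact p.Prime], p₀ ≤ p →
    ∃ (B : Type) (_ : CommRing B) (_ : Algebra (ZMod p) B) (S : SG p B g c) (v Y : B),
      S.δ v = 2 ^ i ∧ S.δ Y = 2 ^ (i + 2) - 1 ∧ Y ≠ 0 ∧ S.E v ≠ 0 ∧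
      (∀ P : B →ₐ[ZMod p] ZMod p, Ch i (P v) (P Y)) ∧
      (1 - ε) * p ≤ (Nat.card (B →ₐ[ZMod p] ZMod p) : ℝ) := by
  induction i with
  | zero =>
    refine ⟨0, 0, fun ε hε => ⟨3, fun p _ hp => ?_⟩⟩
    exact tw_base ε hε p (by omega)
  | succ i ih =>
    obtain ⟨g, c, ih⟩ := ih
    refine ⟨2 * g + (2 ^ (i + 3) - 1), 2 * c + 3 * (2 ^ (i + 3) - 1), fun ε hε => ?_⟩
    obtain ⟨p₀, h0⟩ := ih (ε / 3) (by positivity)
    obtain ⟨p₁, h1⟩ := pts_le (2 * g + (2 ^ (i + 3) - 1)) (2 * c + 3 * (2 ^ (i + 3) - 1))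
      (2 ^ (i + 1)) (ε / 3) (by positivity)
    refine ⟨max (max p₀ p₁) 3, fun p _ hp => ?_⟩
    have hpa : p₀ ≤ p := (le_max_left _ _).trans ((le_max_left _ _).trans hp)
    have hpb : p₁ ≤ p := (le_max_right _ _).trans ((le_max_left _ _).trans hp)
    have hpc : 3 ≤ p := (le_max_right _ _).trans hp
    obtain ⟨B, iB, iA, S, v, Y, hv, hY, hY0, hEv, hCh, hcard⟩ := h0 p hpa
    exact tw_step i g c p₁ ε h1 p (by omega) hpb B S v Y hv hY hY0 hEv hCh hcard

theorem exists_chain (i : ℕ) : ∃ p₀ : ℕ, ∀ (p : ℕ) [Fact p.Prime], p₀ ≤ p →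
    ∃ v Y : ZMod p, v ≠ 0 ∧ v ^ 2 ≠ 1 ∧ Ch i v Y := by
  classical
  obtain ⟨g, c, htow⟩ := tower i
  obtain ⟨p₀, hp₀⟩ := htow (1 / 2) (by norm_num)
  refine ⟨max p₀ (2 * (3 * 2 ^ i + g) + 1), ?_⟩
  intro p hpf hp
  obtain ⟨B, _, _, S, v, Y, hv, hY, hY0, hE, hCh, hcard⟩ := hp₀ p ((le_max_left _ _).trans hp)
  have hp2 : 2 * (3 * 2 ^ i + g) + 1 ≤ p := (le_max_right _ _).trans hp
  haveI := S.dom
  have hone : S.δ (1 : B) = 0 := by
    have := S.δ_alg 1
    rwa [map_one] at this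
  have hnegone : S.δ (-1 : B) = 0 := by
    have := S.δ_alg (-1)
    rwa [map_neg, map_one] at this
  have hpow : 1 ≤ 2 ^ i := Nat.one_le_two_pow
  have hv0 : v ≠ 0 := by
    rintro rfl
    rw [S.δ_zero] at hv
    omega
  have hvv : S.δ (v ^ 2) = 2 ^ i + 2 ^ i := by
    rw [sq, S.δ_mul v v hv0 hv0, hv]
  have hv1 : v ^ 2 - 1 ≠ 0 := by
    intro h
    have h1 : v ^ 2 = 1 := sub_eq_zero.1 h
    rw [h1, hone] at hvv
    omega
  have hd1 : S.δ (v ^ 2 - 1) ≤ 2 ^ i + 2 ^ i := by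
    have := S.δ_add (v ^ 2) (-1)
    rw [hvv, hnegone, ← sub_eq_add_neg] at this
    simpa using this
  have hΦ : v * (v ^ 2 - 1) ≠ 0 := mul_ne_zero hv0 hv1
  have hδΦ : S.δ (v * (v ^ 2 - 1)) ≤ 3 * 2 ^ i := by
    rw [S.δ_mul _ _ hv0 hv1, hv]
    omega
  haveI : Finite (B →ₐ[ZMod p] ZMod p) := pts_finite S v hE
  haveI : Fintype (B →ₐ[ZMod p] ZMod p) := Fintype.ofFinite _
  have hex : ∃ P : B →ₐ[ZMod p] ZMod p, P (v * (v ^ 2 - 1)) ≠ 0 := by
    by_contra hcon
    push Not at hcon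
    have h1 := zero_count S v 1 hpf.out.one_lt.le (Finset.univ : Finset (B →ₐ[ZMod p] ZMod p))
      (fun P _ h2 => absurd h2 (by norm_num)) (v * (v ^ 2 - 1)) hΦ (by
        intro P _ l hl
        have hl0 : l = 0 := by omega
        subst hl0
        exact hcon P)
    rw [one_mul, Finset.card_univ, ← Nat.card_eq_fintype_card] at h1
    have h2 : Nat.card (B →ₐ[ZMod p] ZMod p) ≤ 3 * 2 ^ i + g := by omega
    have h3 : (Nat.card (B →ₐ[ZMod p] ZMod p) : ℝ) ≤ ((3 * 2 ^ i + g : ℕ) : ℝ) := by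
      exact_mod_cast h2
    have h4 : ((2 * (3 * 2 ^ i + g) + 1 : ℕ) : ℝ) ≤ (p : ℝ) := by exact_mod_cast hp2
    have h5 : ((2 * (3 * 2 ^ i + g) + 1 : ℕ) : ℝ) = 2 * ((3 * 2 ^ i + g : ℕ) : ℝ) + 1 := by
      push_cast; ring
    rw [h5] at h4
    linarith
  obtain ⟨P, hP⟩ := hex
  rw [map_mul, map_sub, map_pow, map_one] at hP
  refine ⟨P v, P Y, left_ne_zero_of_mul hP, ?_, hCh P⟩
  exact sub_ne_zero.1 (right_ne_zero_of_mul hP)

theorem chain_dyn (p : ℕ) [Fact p.Prime] (hp : p ≠ 2) (i : ℕ) (v Y : ZMod p) (hv : v ≠ 0)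
    (hv1 : v ^ 2 ≠ 1) (h : Ch i v Y) :
    ∃ T μ w : ZMod p, μ ≠ 0 ∧ T ^ 2 - 4 = μ ^ 2 ∧
      (fun w : ZMod p => w ^ 2 - (T ^ 2 - 4) * w)^[i + 1] w = T ^ 2 - 4 := by
  have h2 : (2 : ZMod p) ≠ 0 := by
    intro h0
    have h3 : ((2 : ℕ) : ZMod p) = 0 := by exact_mod_cast h0
    have h4 := (ZMod.natCast_eq_zero_iff 2 p).1 h3
    exact hp ((Nat.prime_dvd_prime_iff_eq (Fact.out : p.Prime) Nat.prime_two).1 h4)
  have hD : v ^ 2 - 1 ≠ 0 := sub_ne_zero.2 hv1
  have h4 : (4 : ZMod p) ≠ 0 := by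
    have : (4 : ZMod p) = 2 * 2 := by norm_num
    rw [this]
    exact mul_ne_zero h2 h2
  obtain ⟨d, hd⟩ : ∃ d : ZMod p, (v ^ 2 - 1) * d = 1 := ⟨(v ^ 2 - 1)⁻¹, mul_inv_cancel₀ hD⟩
  obtain ⟨t, ht⟩ : ∃ t : ZMod p, 2 * t = 1 := ⟨2⁻¹, mul_inv_cancel₀ h2⟩
  have key : ∀ (lam : ZMod p), lam = 16 * v ^ 2 * d ^ 2 → ∀ (i : ℕ) (Y : ZMod p), Ch i v Y →
      (fun w : ZMod p => w ^ 2 - lam * w)^[i + 1] ((Y * d ^ 2 + lam) * t) = lam := by
    intro lam hlam i
    have hf : ∀ Z : ZMod p, ((Z + lam) * t) ^ 2 - lam * ((Z + lam) * t) = (Z ^ 2 - lam ^ 2) * t ^ 2 := by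
      intro Z
      linear_combination (lam * Z * t + lam ^ 2 * t) * ht
    induction i with
    | zero =>
      intro Y h
      have h : Y = 8 * v * (v ^ 2 + 1) := h
      rw [zero_add, Function.iterate_one]
      show ((Y * d ^ 2 + lam) * t) ^ 2 - lam * ((Y * d ^ 2 + lam) * t) = lam
      rw [hf]
      have e1 : (Y * d ^ 2) ^ 2 - lam ^ 2 = 4 * lam := by
        have e2 : (Y * d ^ 2) ^ 2 - lam ^ 2 = 64 * v ^ 2 * d ^ 2 * ((v ^ 2 - 1) * d) ^ 2 := by
          rw [h, hlam]; ring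
        rw [e2, hd, hlam]; ring
      rw [e1]
      linear_combination (lam * (2 * t + 1)) * ht
    | succ i ih =>
      intro Y h
      obtain ⟨Y', h1, h3⟩ := h
      rw [Function.iterate_succ_apply]
      have e : ((Y * d ^ 2 + lam) * t) ^ 2 - lam * ((Y * d ^ 2 + lam) * t) = (Y' * d ^ 2 + lam) * t := by
        rw [hf]
        have e1 : (Y * d ^ 2) ^ 2 - lam ^ 2 = 2 * (Y' * d ^ 2 + lam) := by
          have e2 : (Y * d ^ 2) ^ 2 - lam ^ 2 =
              (32 * v ^ 2 * d ^ 2 + 2 * Y' * d ^ 2) * ((v ^ 2 - 1) * d) ^ 2 := by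
            have : (Y * d ^ 2) ^ 2 = Y ^ 2 * d ^ 4 := by ring
            rw [this, h3, hlam]; ring
          rw [e2, hd, hlam]; ring
        rw [e1]
        linear_combination ((Y' * d ^ 2 + lam) * t) * ht
      show (fun w : ZMod p => w ^ 2 - lam * w)^[i + 1]
        (((Y * d ^ 2 + lam) * t) ^ 2 - lam * ((Y * d ^ 2 + lam) * t)) = lam
      rw [e]
      exact ih Y' h1
  have hlam : (2 * (v ^ 2 + 1) * d) ^ 2 - 4 = 16 * v ^ 2 * d ^ 2 := by
    linear_combination (4 * ((v ^ 2 - 1) * d + 1)) * hd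
  refine ⟨2 * (v ^ 2 + 1) * d, 4 * v * d, (Y * d ^ 2 + ((2 * (v ^ 2 + 1) * d) ^ 2 - 4)) * t, ?_, ?_, ?_⟩
  · refine mul_ne_zero (mul_ne_zero h4 hv) ?_
    rintro rfl
    rw [mul_zero] at hd
    exact zero_ne_one hd
  · rw [hlam]; ring
  · exact key _ hlam i Y h

theorem sl2_gen_aux (p : ℕ) [Fact p.Prime] (τ τ' lam : ZMod p) (h : τ * τ' = 1)
    (hl : (τ - τ') ^ 2 = lam)
    (y z : Matrix.SpecialLinearGroup (Fin 2) (ZMod p)) (hy : y.1 = !![τ, 0; 0, τ']) :
    Matrix.trace (z⁻¹ * y⁻¹ * z * y).1 = 2 - lam * (z.1 0 1 * z.1 1 0) ∧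
    (z⁻¹ * y⁻¹ * z * y).1 0 1 * (z⁻¹ * y⁻¹ * z * y).1 1 0 =
      - lam * (z.1 0 1 * z.1 1 0) * (1 + z.1 0 1 * z.1 1 0) := by
  have hdet : z.1 0 0 * z.1 1 1 - z.1 0 1 * z.1 1 0 = 1 := by
    have := z.2
    rwa [Matrix.det_fin_two] at this
  have hyi : (y⁻¹).1 = !![τ', 0; 0, τ] := by
    rw [Matrix.SpecialLinearGroup.SL2_inv_expl]
    ext i j
    fin_cases i <;> fin_cases j <;> simp [hy]
  have hzi : (z⁻¹).1 = !![z.1 1 1, -z.1 0 1; -z.1 1 0, z.1 0 0] := by
    rw [Matrix.SpecialLinearGroup.SL2_inv_expl]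
    rfl
  have hz : z.1 = !![z.1 0 0, z.1 0 1; z.1 1 0, z.1 1 1] := by
    ext i j
    fin_cases i <;> fin_cases j <;> rfl
  have hprod : (z⁻¹ * y⁻¹ * z * y).1 = (z⁻¹).1 * (y⁻¹).1 * z.1 * y.1 := rfl
  set a := z.1 0 0 with ha
  set b := z.1 0 1 with hb
  set c := z.1 1 0 with hc
  set d := z.1 1 1 with hd
  have hM : (z⁻¹ * y⁻¹ * z * y).1 = !![a * d - b * c * τ ^ 2, b * d * (τ' ^ 2 - 1);
      a * c * (τ ^ 2 - 1), a * d - b * c * τ' ^ 2] := by
    rw [hprod, hyi, hzi, hy, hz]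
    ext i j
    fin_cases i <;> fin_cases j <;> simp [Matrix.mul_apply, Fin.sum_univ_two]
    · linear_combination (a * d) * h
    · linear_combination (-b * d) * h
    · linear_combination (-a * c) * h
    · linear_combination (a * d) * h
  rw [hM]
  constructor
  · simp [Matrix.trace, Fin.sum_univ_two]
    rw [← hl]
    linear_combination 2 * hdet - 2 * b * c * h
  · simp
    rw [← hl]
    have e : a * d = 1 + b * c := by linear_combination hdet
    have e2 : b * d * (τ' ^ 2 - 1) * (a * c * (τ ^ 2 - 1)) =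
        (b * c) * (a * d) * ((τ' ^ 2 - 1) * (τ ^ 2 - 1)) := by ring
    have e3 : (τ' ^ 2 - 1) * (τ ^ 2 - 1) = - (τ - τ') ^ 2 := by
      linear_combination (τ * τ' - 1) * h
    rw [e2, e, e3]
    ring

theorem sl2_gen (p : ℕ) [Fact p.Prime] (hp : p ≠ 2) (T μ w : ZMod p) (hμ : μ ≠ 0)
    (hT : T ^ 2 - 4 = μ ^ 2) :
    ∃ x y : Matrix.SpecialLinearGroup (Fin 2) (ZMod p), ∀ i : ℕ,
      Matrix.trace (((fun z => z⁻¹ * y⁻¹ * z * y)^[i + 1] x).1) =
        2 + (fun w : ZMod p => w ^ 2 - (T ^ 2 - 4) * w)^[i] w := by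
  have h2 : (2 : ZMod p) ≠ 0 := by
    intro h
    have h1 : ((2 : ℕ) : ZMod p) = 0 := by exact_mod_cast h
    rw [ZMod.natCast_eq_zero_iff] at h1
    exact hp ((Nat.prime_dvd_prime_iff_eq (Fact.out) Nat.prime_two).mp h1)
  have hlam : T ^ 2 - 4 ≠ 0 := by
    rw [hT]
    exact pow_ne_zero _ hμ
  have hττ : (T + μ) / 2 * ((T - μ) / 2) = 1 := by
    field_simp
    linear_combination hT
  have hl : ((T + μ) / 2 - (T - μ) / 2) ^ 2 = T ^ 2 - 4 := by
    rw [hT]
    field_simp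
    ring
  set lam := T ^ 2 - 4 with hlamdef
  let y : Matrix.SpecialLinearGroup (Fin 2) (ZMod p) :=
    ⟨!![(T + μ) / 2, 0; 0, (T - μ) / 2], by rw [Matrix.det_fin_two_of, hττ]; ring⟩
  let x : Matrix.SpecialLinearGroup (Fin 2) (ZMod p) :=
    ⟨!![1, -w / lam; 1, 1 + -w / lam], by rw [Matrix.det_fin_two_of]; ring⟩
  have key : ∀ i : ℕ, - lam * (((fun z => z⁻¹ * y⁻¹ * z * y)^[i] x).1 0 1 *
      ((fun z => z⁻¹ * y⁻¹ * z * y)^[i] x).1 1 0) =
      (fun w : ZMod p => w ^ 2 - lam * w)^[i] w := by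
    intro i
    induction i with
    | zero =>
      simp only [Function.iterate_zero, id]
      change - lam * ((-w / lam) * 1) = w
      field_simp
    | succ i ih =>
      rw [Function.iterate_succ_apply', Function.iterate_succ_apply', ← ih]
      have h3 := (sl2_gen_aux p _ _ lam hττ hl y ((fun z => z⁻¹ * y⁻¹ * z * y)^[i] x) rfl).2
      exact (congrArg (fun t => - lam * t) h3).trans (by ring)
  refine ⟨x, y, fun i => ?_⟩
  rw [← key i, Function.iterate_succ_apply']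
  have h3 := (sl2_gen_aux p _ _ lam hττ hl y ((fun z => z⁻¹ * y⁻¹ * z * y)^[i] x) rfl).1
  exact h3.trans (by ring)


end Pool.Agent.Helper111.ST
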